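import Pool.Agent.Lib.MP_61eeb2_co.EX.Def

/-!
MP_61eeb2_co, exact bound k * D, module B1: heavy sets: the exponents and the sum bound.

PROOF. ee k m = (24 k + 20) * (2^(m-1) - 1) (natural subtraction; ee k 0 = ee k 1 = 0). ee_mono,
ee_succ: write m = m' + 1. heavy_sum: if s is heavy then D <= |Cd N s| R^(ee |s|), so 1 / R^(ee
|s|) <= |Cd N s| / D (D >= 1). So the sum is at most (1/D) * sum over s with v in s of |Cd N s| =
(1/D) * sum over a of the number of s with v ∈ s ⊆ N a (double counting, Finset.sum_comm /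
Finset.sum_card_bipartiteAbove_eq_sum_card_bipartiteBelow); only the D edges a with v ∈ N a
contribute, each at most 2^|N a| <= 2^k (powerset of N a). (R >= 1 for positivity.) Note that
(filter) in the statement is written with flt.
-/

set_option autoImplicit false

namespace Pool.Agent.MP_61eeb2_co.EX

open Finset Classical

section

variable {V A : Type} [Fintype V] [Fintype A]

theorem ee_one (k : ℕ) : ee k 1 = 0 := by
  simp [ee]

theorem ee_mono (k m m' : ℕ) (h : m ≤ m') : ee k m ≤ ee k m' := by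
  unfold ee
  have h1 : 2 ^ (m - 1) ≤ 2 ^ (m' - 1) := Nat.pow_le_pow_right (by norm_num) (by omega)
  exact Nat.mul_le_mul_left _ (Nat.sub_le_sub_right h1 1)

theorem ee_succ (k m : ℕ) (h : 1 ≤ m) : ee k (m + 1) = 2 * ee k m + (24 * k + 20) := by
  obtain ⟨n, rfl⟩ := Nat.exists_eq_add_of_le' h
  unfold ee
  have h1 : 1 ≤ 2 ^ n := Nat.one_le_pow _ _ (by norm_num)
  have h2 : 2 ^ (n + 1 + 1 - 1) - 1 = 2 * (2 ^ (n + 1 - 1) - 1) + 1 := by
    rw [Nat.add_sub_cancel, Nat.add_sub_cancel, pow_succ]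
    omega
  rw [h2]
  ring

private theorem B1_count (k D : ℕ) (N : A → Finset V)
    (hk : ∀ a, (N a).card ≤ k) (hdeg : ∀ v, (Ed N v).card = D) (v : V)
    (F : Finset (Finset V)) (hF : ∀ s ∈ F, v ∈ s) :
    ∑ s ∈ F, (Cd N s).card ≤ 2 ^ k * D := by
  have h1 : ∀ s ∈ F, (Cd N s).card = ∑ a ∈ Ed N v, if s ⊆ N a then 1 else 0 := by
    intro s hs
    rw [← Finset.card_filter]
    refine congrArg Finset.card ?_
    ext a
    rw [mem_Cd, Finset.mem_filter, mem_Ed]
    exact ⟨fun h => ⟨h (hF s hs), h⟩, fun h => h.2⟩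
  rw [Finset.sum_congr rfl h1, Finset.sum_comm]
  have h2 : ∀ a ∈ Ed N v, (∑ s ∈ F, if s ⊆ N a then 1 else 0) ≤ 2 ^ k := by
    intro a _
    rw [← Finset.card_filter]
    have h3 : F.filter (fun s => s ⊆ N a) ⊆ (N a).powerset := by
      intro s hs
      rw [Finset.mem_powerset]
      exact (Finset.mem_filter.mp hs).2
    refine (Finset.card_le_card h3).trans ?_
    rw [Finset.card_powerset]
    exact Nat.pow_le_pow_right (by norm_num) (hk a)
  refine (Finset.sum_le_sum h2).trans ?_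
  rw [Finset.sum_const, hdeg v, smul_eq_mul, mul_comm]

theorem heavy_sum (k D R : ℕ) (hR : 1 ≤ R) (hD : 1 ≤ D) (N : A → Finset V)
    (hk : ∀ a, (N a).card ≤ k) (hdeg : ∀ v, (Ed N v).card = D) (v : V) :
    ∑ s ∈ flt univ (fun s : Finset V => v ∈ s ∧ Hv k D R N s),
      1 / (R : ℝ) ^ ee k s.card ≤ 2 ^ k := by
  have hR' : (0 : ℝ) < R := by exact_mod_cast hR
  have hD' : (0 : ℝ) < D := by exact_mod_cast hD
  have h1 : ∀ s ∈ flt univ (fun s : Finset V => v ∈ s ∧ Hv k D R N s),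
      1 / (R : ℝ) ^ ee k s.card ≤ ((Cd N s).card : ℝ) / D := by
    intro s hs
    have h2 := (mem_flt.mp hs).2.2.2
    have h3 : (D : ℝ) ≤ ((Cd N s).card : ℝ) * (R : ℝ) ^ ee k s.card := by exact_mod_cast h2
    rw [div_le_div_iff₀ (pow_pos hR' _) hD', one_mul]
    exact h3
  refine (Finset.sum_le_sum h1).trans ?_
  rw [← Finset.sum_div, div_le_iff₀ hD']
  have h2 := B1_count k D N hk hdeg v (flt univ (fun s : Finset V => v ∈ s ∧ Hv k D R N s))
    (fun s hs => (mem_flt.mp hs).2.1)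
  exact_mod_cast h2

end

end Pool.Agent.MP_61eeb2_co.EX
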