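import Pool.Agent.Lib.MP_61eeb2_co.EX.Def
import Pool.Agent.Lib.MP_61eeb2_co.EX.B1

/-!
MP_61eeb2_co, exact bound k * D, module B2: maximal heavy sets exist.

PROOF. single_heavy: Cd N {v} = Ed N v (singleton subset), ee k 1 = 0. exists_MH: among the heavy
t with s ⊆ t ⊆ N a (finite, nonempty since it contains s) take one of maximal cardinality
(Finset.exists_max_image on the powerset of N a, filtered); if t ⊆ t' ⊆ N a and t' is heavy then
|t'| <= |t|, so t' = t (Finset.eq_of_subset_of_card_le).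
-/

set_option autoImplicit false

namespace Pool.Agent.MP_61eeb2_co.EX

open Finset Classical

section

variable {V A : Type} [Fintype V] [Fintype A]

theorem single_heavy (k D R : ℕ) (N : A → Finset V)
    (hdeg : ∀ v, (Ed N v).card = D) (v : V) : Hv k D R N {v} := by
  refine ⟨Finset.singleton_nonempty v, ?_⟩
  have h1 : Cd N {v} = Ed N v := by
    ext a
    rw [mem_Cd, mem_Ed, Finset.singleton_subset_iff]
  rw [h1, hdeg v, Finset.card_singleton, ee_one, pow_zero, mul_one]

theorem exists_MH (k D R : ℕ) (N : A → Finset V) (a : A) (s : Finset V) (hs : s ⊆ N a)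
    (hh : Hv k D R N s) : ∃ t, s ⊆ t ∧ MH k D R N a t := by
  have hne : (flt (N a).powerset (fun t => s ⊆ t ∧ Hv k D R N t)).Nonempty :=
    ⟨s, mem_flt.2 ⟨Finset.mem_powerset.2 hs, Finset.Subset.refl s, hh⟩⟩
  obtain ⟨t, ht, hmax⟩ := Finset.exists_max_image _ Finset.card hne
  obtain ⟨ht1, ht2, ht3⟩ := mem_flt.1 ht
  refine ⟨t, ht2, Finset.mem_powerset.1 ht1, ht3, fun t' h1 h2 h3 => ?_⟩
  have h4 : t' ∈ flt (N a).powerset (fun t => s ⊆ t ∧ Hv k D R N t) :=
    mem_flt.2 ⟨Finset.mem_powerset.2 h1, ht2.trans h3, h2⟩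
  exact (Finset.eq_of_subset_of_card_le h3 (hmax t' h4)).symm

end

end Pool.Agent.MP_61eeb2_co.EX
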