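import Pool.Agent.Lib.MP_61eeb2_co.EX.Def
import Pool.Agent.Lib.MP_61eeb2_co.EX.B1

/-!
MP_61eeb2_co, exact bound k * D, module B3: few edges with insignificant isolated block.

PROOF. The set is contained in the union over the heavy s with v ∈ s and s ∉ SB of EE k D R N s (a
has isolated block s means a ∈ EE s; Iso gives MH gives Hv). If s is heavy (so nonempty) and s ∉
SB then |EE s| R^(ee |s| + 6k+4) < D, so |EE s| <= D / R^(6k+4) * 1 / R^(ee |s|). Sum over s
(card_biUnion_le) and heavy_sum: the total is <= D / R^(6k+4) * 2^k. Multiply by R^(6k+4) and cast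
back to natural numbers.
-/

set_option autoImplicit false

namespace Pool.Agent.MP_61eeb2_co.EX

open Finset Classical

section

variable {V A : Type} [Fintype V] [Fintype A]

theorem neg_one (k D R : ℕ) (hR : 1 ≤ R) (hD : 1 ≤ D) (N : A → Finset V)
    (hk : ∀ a, (N a).card ≤ k) (hdeg : ∀ v, (Ed N v).card = D) (v : V) :
    (flt univ (fun a : A => ∃ s, v ∈ s ∧ Iso k D R N a s ∧ s ∉ SB k D R N)).card *
      R ^ (6 * k + 4) ≤ 2 ^ k * D := by
  have hR' : (0 : ℝ) < R := by exact_mod_cast hR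
  have hD' : (0 : ℝ) < D := by exact_mod_cast hD
  obtain ⟨F, hF⟩ : ∃ F : Finset (Finset V),
      F = flt univ (fun s : Finset V => v ∈ s ∧ Hv k D R N s) := ⟨_, rfl⟩
  obtain ⟨F', hF'⟩ : ∃ F' : Finset (Finset V), F' = flt F (fun s => s ∉ SB k D R N) := ⟨_, rfl⟩
  have hsub : flt univ (fun a : A => ∃ s, v ∈ s ∧ Iso k D R N a s ∧ s ∉ SB k D R N) ⊆
      F'.biUnion (fun s => EE k D R N s) := by
    intro a ha
    obtain ⟨s, hs1, hs2, hs3⟩ := (mem_flt.mp ha).2
    refine Finset.mem_biUnion.mpr ⟨s, ?_, ?_⟩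
    · rw [hF', mem_flt, hF, mem_flt]
      exact ⟨⟨mem_univ _, hs1, hs2.1.2.1⟩, hs3⟩
    · unfold EE
      rw [mem_flt]
      exact ⟨mem_univ _, hs2⟩
  have h1 := (Finset.card_le_card hsub).trans Finset.card_biUnion_le
  have h2 : ∀ s ∈ F', ((EE k D R N s).card : ℝ) * (R : ℝ) ^ (6 * k + 4) ≤
      D * (1 / (R : ℝ) ^ ee k s.card) := by
    intro s hs
    rw [hF', mem_flt, hF, mem_flt] at hs
    obtain ⟨⟨-, -, h3⟩, h4⟩ := hs
    have h5 : (EE k D R N s).card * R ^ (ee k s.card + (6 * k + 4)) < D := by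
      by_contra h6
      refine h4 ?_
      unfold SB
      rw [mem_flt]
      exact ⟨mem_univ _, h3.1, not_lt.mp h6⟩
    have h6 : ((EE k D R N s).card : ℝ) * (R : ℝ) ^ (ee k s.card + (6 * k + 4)) ≤ D := by
      exact_mod_cast h5.le
    rw [mul_one_div, le_div_iff₀ (pow_pos hR' _)]
    refine le_trans (le_of_eq ?_) h6
    rw [pow_add]
    ring
  have h3 : ((flt univ (fun a : A => ∃ s, v ∈ s ∧ Iso k D R N a s ∧
      s ∉ SB k D R N)).card : ℝ) ≤ ∑ s ∈ F', ((EE k D R N s).card : ℝ) := by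
    exact_mod_cast h1
  have h4 : ((flt univ (fun a : A => ∃ s, v ∈ s ∧ Iso k D R N a s ∧
      s ∉ SB k D R N)).card : ℝ) * (R : ℝ) ^ (6 * k + 4) ≤ 2 ^ k * D := by
    refine (mul_le_mul_of_nonneg_right h3 (pow_pos hR' _).le).trans ?_
    rw [Finset.sum_mul]
    refine (Finset.sum_le_sum h2).trans ?_
    rw [← Finset.mul_sum, mul_comm]
    refine mul_le_mul_of_nonneg_right ?_ hD'.le
    refine le_trans ?_ (heavy_sum k D R hR hD N hk hdeg v)
    rw [← hF]
    refine Finset.sum_le_sum_of_subset_of_nonneg ?_ fun s _ _ => by positivity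
    rw [hF']
    exact flt_sub _ _
  exact_mod_cast h4

end

end Pool.Agent.MP_61eeb2_co.EX
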