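import Pool.Agent.Lib.MP_61eeb2_co.EX.Def
import Pool.Agent.Lib.MP_61eeb2_co.EX.B1

/-!
MP_61eeb2_co, exact bound k * D, module B4: few edges with overlapping maximal heavy sets.

PROOF. If MH a s, v ∈ s and not Iso a s then there is t with MH a t, t ≠ s, not Disjoint s t; pick
w in both. s ∪ t ⊆ N a is not heavy: otherwise maximality gives s ∪ t = s and s ∪ t = t, so s = t.
Also |s ∪ t| >= max(|s|,|t|) + 1 (neither contains the other, by maximality). So a ∈ Cd N (s ∪ t)
and |Cd N (s ∪ t)| R^(ee |s ∪ t|) < D, where, with M = max(|s|,|t|) >= 1, ee |s ∪ t| >= ee (M+1) =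
2 ee M + 24k+20 >= ee |s| + ee |t| + 24k+20 (ee_mono, ee_succ). So the set is contained in the
union over heavy s with v ∈ s, w ∈ s, heavy t with w ∈ t (s ∪ t not heavy, cardinalities as above)
of Cd N (s ∪ t) and its cardinality is at most D / R^(24k+20) * sum_s sum_{w in s} sum_t
R^(-ee|s|) R^(-ee|t|) <= D / R^(24k+20) * 2^k * k * 2^k by heavy_sum (at v, and at each w) and |s|
<= k (a heavy s is contained in some N a because D >= 1 forces |Cd N s| > 0). 2^k * k * 2^k = k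
4^k.
-/

set_option autoImplicit false

namespace Pool.Agent.MP_61eeb2_co.EX

open Finset Classical

section

variable {V A : Type} [Fintype V] [Fintype A]

/-- the edges containing `s ∪ t`, if `s ∪ t` is not heavy and larger than `s` and `t` -/
private noncomputable def GG (k D R : ℕ) (N : A → Finset V) (s t : Finset V) : Finset A :=
  flt (Cd N (s ∪ t)) (fun _ => ¬ Hv k D R N (s ∪ t) ∧ s.card + 1 ≤ (s ∪ t).card ∧
    t.card + 1 ≤ (s ∪ t).card)

private theorem GG_card (k D R : ℕ) (hR : 1 ≤ R) (N : A → Finset V) (s t : Finset V)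
    (hs : s.Nonempty) (ht : t.Nonempty) :
    (GG k D R N s t).card * (R ^ ee k s.card * R ^ ee k t.card * R ^ (24 * k + 20)) ≤ D := by
  by_cases h0 : (GG k D R N s t).Nonempty
  · obtain ⟨a, ha⟩ := h0
    unfold GG at ha
    rw [mem_flt] at ha
    obtain ⟨-, h1, h2, h3⟩ := ha
    have h4 : (Cd N (s ∪ t)).card * R ^ ee k (s ∪ t).card < D := by
      by_contra hc
      push Not at hc
      exact h1 ⟨hs.mono subset_union_left, hc⟩
    have h5 : (GG k D R N s t).card ≤ (Cd N (s ∪ t)).card := card_le_card (flt_sub _ _)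
    have hs1 : 1 ≤ s.card := hs.card_pos
    have ht1 : 1 ≤ t.card := ht.card_pos
    have h6 : ee k s.card + ee k t.card + (24 * k + 20) ≤ ee k (s ∪ t).card := by
      rcases le_total s.card t.card with h | h
      · have e1 := ee_mono k _ _ h
        have e2 := ee_mono k _ _ h3
        rw [ee_succ k t.card ht1] at e2
        omega
      · have e1 := ee_mono k _ _ h
        have e2 := ee_mono k _ _ h2
        rw [ee_succ k s.card hs1] at e2
        omega
    rw [← pow_add, ← pow_add]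
    calc (GG k D R N s t).card * R ^ (ee k s.card + ee k t.card + (24 * k + 20))
        ≤ (Cd N (s ∪ t)).card * R ^ ee k (s ∪ t).card :=
          Nat.mul_le_mul h5 (Nat.pow_le_pow_right hR h6)
      _ ≤ D := h4.le
  · rw [not_nonempty_iff_eq_empty] at h0
    rw [h0, card_empty, zero_mul]
    exact Nat.zero_le _

private theorem GG_card' (k D R : ℕ) (hR : 1 ≤ R) (N : A → Finset V) (s t : Finset V)
    (hs : s.Nonempty) (ht : t.Nonempty) :
    ((GG k D R N s t).card : ℝ) ≤ (D : ℝ) / (R : ℝ) ^ (24 * k + 20) *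
      (1 / (R : ℝ) ^ ee k s.card) * (1 / (R : ℝ) ^ ee k t.card) := by
  have hR' : (0 : ℝ) < R := by exact_mod_cast hR
  have h1 : ((GG k D R N s t).card : ℝ) * ((R : ℝ) ^ ee k s.card * (R : ℝ) ^ ee k t.card *
      (R : ℝ) ^ (24 * k + 20)) ≤ (D : ℝ) := by
    exact_mod_cast GG_card k D R hR N s t hs ht
  have h2 : (D : ℝ) / (R : ℝ) ^ (24 * k + 20) *
      (1 / (R : ℝ) ^ ee k s.card) * (1 / (R : ℝ) ^ ee k t.card) =
      (D : ℝ) / ((R : ℝ) ^ ee k s.card * (R : ℝ) ^ ee k t.card * (R : ℝ) ^ (24 * k + 20)) := by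
    field_simp
  rw [h2, le_div_iff₀ (by positivity)]
  exact h1

private theorem Hv_card (k D R : ℕ) (hD : 1 ≤ D) (N : A → Finset V)
    (hk : ∀ a, (N a).card ≤ k) (s : Finset V) (hs : Hv k D R N s) : s.card ≤ k := by
  have h1 : 0 < (Cd N s).card := by
    rcases Nat.eq_zero_or_pos (Cd N s).card with h | h
    · have h2 := hs.2
      rw [h, zero_mul] at h2
      omega
    · exact h
  obtain ⟨a, ha⟩ := card_pos.1 h1
  exact (card_le_card (mem_Cd.1 ha)).trans (hk a)

theorem neg_two (k D R : ℕ) (hR : 1 ≤ R) (hD : 1 ≤ D) (N : A → Finset V)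
    (hk : ∀ a, (N a).card ≤ k) (hdeg : ∀ v, (Ed N v).card = D) (v : V) :
    (flt univ (fun a : A => ∃ s, v ∈ s ∧ MH k D R N a s ∧ ¬ Iso k D R N a s)).card *
      R ^ (24 * k + 20) ≤ k * 4 ^ k * D := by
  have hR' : (0 : ℝ) < R := by exact_mod_cast hR
  set X := flt univ (fun a : A => ∃ s, v ∈ s ∧ MH k D R N a s ∧ ¬ Iso k D R N a s) with hX
  set H : V → Finset (Finset V) := fun u => flt univ (fun s : Finset V => u ∈ s ∧ Hv k D R N s)
    with hH
  have hmemH : ∀ u s, s ∈ H u ↔ u ∈ s ∧ Hv k D R N s := by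
    intro u s
    simp only [hH]
    rw [mem_flt]
    exact ⟨fun h => h.2, fun h => ⟨mem_univ _, h⟩⟩
  have hsub : X ⊆ (H v).biUnion (fun s => s.biUnion (fun w => (H w).biUnion
      (fun t => GG k D R N s t))) := by
    intro a ha
    rw [hX, mem_flt] at ha
    obtain ⟨-, s, hvs, hM, hI⟩ := ha
    have h1 : ∃ t, MH k D R N a t ∧ t ≠ s ∧ ¬ Disjoint s t := by
      by_contra hc
      push Not at hc
      exact hI ⟨hM, hc⟩
    obtain ⟨t, ht, hts, hd⟩ := h1
    obtain ⟨w, hws, hwt⟩ := Finset.not_disjoint_iff.1 hd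
    obtain ⟨hs1, hs2, hs3⟩ := hM
    obtain ⟨ht1, ht2, ht3⟩ := ht
    rw [mem_biUnion]
    refine ⟨s, (hmemH v s).2 ⟨hvs, hs2⟩, ?_⟩
    rw [mem_biUnion]
    refine ⟨w, hws, ?_⟩
    rw [mem_biUnion]
    refine ⟨t, (hmemH w t).2 ⟨hwt, ht2⟩, ?_⟩
    unfold GG
    rw [mem_flt, mem_Cd]
    have hu : s ∪ t ⊆ N a := union_subset hs1 ht1
    refine ⟨hu, ?_, ?_, ?_⟩
    · intro hh
      have e1 := hs3 (s ∪ t) hu hh subset_union_left
      have e2 := ht3 (s ∪ t) hu hh subset_union_right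
      exact hts (e2.symm.trans e1)
    · refine Nat.succ_le_of_lt (card_lt_card ?_)
      refine (ssubset_iff_subset_ne).2 ⟨subset_union_left, fun e => ?_⟩
      have e3 : t ⊆ s := by
        rw [e]
        exact subset_union_right
      exact hts (ht3 s hs1 hs2 e3).symm
    · refine Nat.succ_le_of_lt (card_lt_card ?_)
      refine (ssubset_iff_subset_ne).2 ⟨subset_union_right, fun e => ?_⟩
      have e3 : s ⊆ t := by
        rw [e]
        exact subset_union_left
      exact hts (hs3 t ht1 ht2 e3)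
  have h1 : (X.card : ℝ) ≤ ∑ s ∈ H v, ∑ w ∈ s, ∑ t ∈ H w, ((GG k D R N s t).card : ℝ) := by
    have e1 : X.card ≤ ∑ s ∈ H v, ∑ w ∈ s, ∑ t ∈ H w, (GG k D R N s t).card := by
      refine (card_le_card hsub).trans (card_biUnion_le.trans (sum_le_sum fun s _ => ?_))
      refine card_biUnion_le.trans (sum_le_sum fun w _ => ?_)
      exact card_biUnion_le
    exact_mod_cast e1
  set q : ℝ := (D : ℝ) / (R : ℝ) ^ (24 * k + 20) with hq
  have hq0 : 0 ≤ q := by positivity
  have h2 : ∀ s ∈ H v, ∑ w ∈ s, ∑ t ∈ H w, ((GG k D R N s t).card : ℝ) ≤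
      q * (k * 2 ^ k) * (1 / (R : ℝ) ^ ee k s.card) := by
    intro s hs
    have hs' := (hmemH v s).1 hs
    have e1 : ∀ w ∈ s, ∑ t ∈ H w, ((GG k D R N s t).card : ℝ) ≤
        q * (1 / (R : ℝ) ^ ee k s.card) * 2 ^ k := by
      intro w _
      calc ∑ t ∈ H w, ((GG k D R N s t).card : ℝ)
          ≤ ∑ t ∈ H w, q * (1 / (R : ℝ) ^ ee k s.card) * (1 / (R : ℝ) ^ ee k t.card) :=
            sum_le_sum fun t ht =>
              GG_card' k D R hR N s t hs'.2.1 ((hmemH w t).1 ht).2.1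
        _ = q * (1 / (R : ℝ) ^ ee k s.card) * ∑ t ∈ H w, (1 / (R : ℝ) ^ ee k t.card) := by
            rw [mul_sum]
        _ ≤ q * (1 / (R : ℝ) ^ ee k s.card) * 2 ^ k :=
            mul_le_mul_of_nonneg_left (heavy_sum k D R hR hD N hk hdeg w) (by positivity)
    calc ∑ w ∈ s, ∑ t ∈ H w, ((GG k D R N s t).card : ℝ)
        ≤ ∑ _w ∈ s, q * (1 / (R : ℝ) ^ ee k s.card) * 2 ^ k := sum_le_sum e1
      _ = (s.card : ℝ) * (q * (1 / (R : ℝ) ^ ee k s.card) * 2 ^ k) := by
          rw [sum_const, nsmul_eq_mul]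
      _ ≤ (k : ℝ) * (q * (1 / (R : ℝ) ^ ee k s.card) * 2 ^ k) := by
          refine mul_le_mul_of_nonneg_right ?_ (by positivity)
          exact_mod_cast Hv_card k D R hD N hk s hs'.2
      _ = _ := by ring
  have h3 : (X.card : ℝ) ≤ q * (k * 2 ^ k) * 2 ^ k := by
    refine h1.trans ((sum_le_sum h2).trans ?_)
    rw [← mul_sum]
    exact mul_le_mul_of_nonneg_left (heavy_sum k D R hR hD N hk hdeg v) (by positivity)
  have h4 : (X.card : ℝ) * (R : ℝ) ^ (24 * k + 20) ≤ (k : ℝ) * 4 ^ k * D := by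
    have e1 : q * (R : ℝ) ^ (24 * k + 20) = D := by
      rw [hq]
      field_simp
    have e2 : (4 : ℝ) ^ k = 2 ^ k * 2 ^ k := by
      rw [← mul_pow]
      norm_num
    calc (X.card : ℝ) * (R : ℝ) ^ (24 * k + 20)
        ≤ q * (k * 2 ^ k) * 2 ^ k * (R : ℝ) ^ (24 * k + 20) :=
          mul_le_mul_of_nonneg_right h3 (by positivity)
      _ = (q * (R : ℝ) ^ (24 * k + 20)) * (k * (2 ^ k * 2 ^ k)) := by ring
      _ = (k : ℝ) * 4 ^ k * D := by
          rw [e1, e2]
          ring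
  exact_mod_cast h4

end

end Pool.Agent.MP_61eeb2_co.EX
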