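import Pool.Agent.Lib.MP_61eeb2_co.EX.Def
import Pool.Agent.Lib.MP_61eeb2_co.EX.B1
import Pool.Agent.Lib.MP_61eeb2_co.EX.B2
import Pool.Agent.Lib.MP_61eeb2_co.EX.B3
import Pool.Agent.Lib.MP_61eeb2_co.EX.B4

/-!
MP_61eeb2_co, exact bound k * D, module B5: the block system (assembly).

PROOF. R0 = 2^k + k 4^k + 2. cardN, deg: hypotheses. ne: definition of SB. sub: Iso gives s ⊆ N a.
disj: if a is in EE s and in EE t, s ≠ t: both are MH for a, so Iso a s gives Disjoint s t. neg:
let a ∋ v be in no EE s with s ∈ SB, v ∈ s. {v} is heavy (single_heavy), exists_MH gives MH a t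
with v ∈ t. If Iso a t then t ∉ SB, so a is in the set of neg_one; otherwise a is in the set of
neg_two. So count * R^(6k+4) <= 2^k D + k 4^k D (use R^(6k+4) <= R^(24k+20)), and since R >= 2^k +
k 4^k, count * R^(6k+3) <= D. sig: D <= |EE s| R^(ee|s| + 6k+4), and |s| <= k (EE s nonempty as D
>= 1, s ⊆ N a), ee_mono, PHI k = ee k k + (6k+4), R >= 1. light: let u ∉ s. If flt (EE s) (u ∈ N
a) is empty: trivial. Otherwise some a has MH a s and u ∈ N a, so insert u s ⊆ N a is not heavy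
(maximality would give insert u s = s), so |Cd N (insert u s)| R^(ee (|s|+1)) < D <= |EE s|
R^(ee|s| + 6k+4); the set is contained in Cd N (insert u s) and ee (|s|+1) = 2 ee|s| + 24k+20 (|s|
>= 1) = (ee|s| + 6k+4) + ee|s| + 18k+16; cancel R^(ee|s|+6k+4) > 0. pair: a ∈ EE s, u ∈ N a, u ∉
s, w ∈ s: {u,w} is not heavy: otherwise exists_MH gives t ⊇ {u,w}, MH a t, t ≠ s (u), so Disjoint
s t by Iso, contradicting w. {u,w} is nonempty, so |Cd N {u,w}| R^(ee k 2) < D with ee k 2 =
24k+20 >= 2.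
-/

set_option autoImplicit false

namespace Pool.Agent.MP_61eeb2_co.EX

open Finset Classical

section

variable {V A : Type} [Fintype V] [Fintype A]

private theorem B5_iso {k D R : ℕ} {N : A → Finset V} {s : Finset V} {a : A}
    (h : a ∈ EE k D R N s) : Iso k D R N a s := by
  unfold EE at h
  exact (mem_flt.1 h).2

private theorem B5_EE {k D R : ℕ} {N : A → Finset V} {s : Finset V} {a : A}
    (h : Iso k D R N a s) : a ∈ EE k D R N s := by
  unfold EE
  exact mem_flt.2 ⟨mem_univ _, h⟩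

private theorem B5_SB {k D R : ℕ} {N : A → Finset V} {s : Finset V}
    (h : s ∈ SB k D R N) :
    s.Nonempty ∧ D ≤ (EE k D R N s).card * R ^ (ee k s.card + (6 * k + 4)) := by
  unfold SB at h
  exact (mem_flt.1 h).2

private theorem B5_neg (k D R : ℕ) (hR1 : 1 ≤ R) (hR : 2 ^ k + k * 4 ^ k ≤ R) (hD : 1 ≤ D)
    (N : A → Finset V) (hk : ∀ a, (N a).card ≤ k) (hdeg : ∀ v, (Ed N v).card = D) (v : V) :
    (flt (Ed N v) (fun a => ∀ s ∈ SB k D R N, v ∈ s → a ∉ EE k D R N s)).card *
      R ^ (6 * k + 3) ≤ D := by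
  set F := flt (Ed N v) (fun a => ∀ s ∈ SB k D R N, v ∈ s → a ∉ EE k D R N s) with hF
  set F1 := flt univ (fun a : A => ∃ s, v ∈ s ∧ Iso k D R N a s ∧ s ∉ SB k D R N) with hF1
  set F2 := flt univ (fun a : A => ∃ s, v ∈ s ∧ MH k D R N a s ∧ ¬ Iso k D R N a s) with hF2
  have h1 := neg_one k D R hR1 hD N hk hdeg v
  have h2 := neg_two k D R hR1 hD N hk hdeg v
  rw [← hF1] at h1
  rw [← hF2] at h2
  have hsub : F ⊆ F1 ∪ F2 := by
    intro a ha
    rw [hF, mem_flt, mem_Ed] at ha
    obtain ⟨hva, hno⟩ := ha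
    obtain ⟨t, hvt, ht⟩ := exists_MH k D R N a {v} (Finset.singleton_subset_iff.2 hva)
      (single_heavy k D R N hdeg v)
    have hvt' : v ∈ t := Finset.singleton_subset_iff.1 hvt
    rw [mem_union]
    by_cases hI : Iso k D R N a t
    · left
      rw [hF1, mem_flt]
      exact ⟨mem_univ _, t, hvt', hI, fun hS => hno t hS hvt' (B5_EE hI)⟩
    · right
      rw [hF2, mem_flt]
      exact ⟨mem_univ _, t, hvt', ht, hI⟩
  have h3 : F.card ≤ F1.card + F2.card := (card_le_card hsub).trans (card_union_le _ _)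
  have h4 : F.card * R ^ (6 * k + 4) ≤ R * D := by
    calc F.card * R ^ (6 * k + 4) ≤ (F1.card + F2.card) * R ^ (6 * k + 4) :=
          Nat.mul_le_mul_right _ h3
      _ = F1.card * R ^ (6 * k + 4) + F2.card * R ^ (6 * k + 4) := by ring
      _ ≤ 2 ^ k * D + k * 4 ^ k * D := by
          refine Nat.add_le_add h1 (le_trans (Nat.mul_le_mul_left _ ?_) h2)
          exact Nat.pow_le_pow_right hR1 (by omega)
      _ = (2 ^ k + k * 4 ^ k) * D := by ring
      _ ≤ R * D := Nat.mul_le_mul_right _ hR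
  have h5 : R * (F.card * R ^ (6 * k + 3)) ≤ R * D := by
    refine le_trans (le_of_eq ?_) h4
    rw [show 6 * k + 4 = (6 * k + 3) + 1 from by omega, pow_succ]
    ring
  exact Nat.le_of_mul_le_mul_left h5 hR1

private theorem B5_card (k D R : ℕ) (hD : 1 ≤ D) (N : A → Finset V)
    (hk : ∀ a, (N a).card ≤ k) (s : Finset V) (hs : s ∈ SB k D R N) : s.card ≤ k := by
  have h1 := (B5_SB hs).2
  have h2 : 0 < (EE k D R N s).card := by
    rcases Nat.eq_zero_or_pos (EE k D R N s).card with h | h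
    · rw [h, zero_mul] at h1
      omega
    · exact h
  obtain ⟨a, ha⟩ := card_pos.1 h2
  exact (card_le_card (B5_iso ha).1.1).trans (hk a)

private theorem B5_light (k D R : ℕ) (hR1 : 1 ≤ R) (N : A → Finset V)
    (s : Finset V) (hs : s ∈ SB k D R N) (u : V) (hu : u ∉ s) :
    (flt (EE k D R N s) (fun a => u ∈ N a)).card * R ^ (18 * k + 16) ≤
      (EE k D R N s).card := by
  rcases (flt (EE k D R N s) (fun a => u ∈ N a)).eq_empty_or_nonempty with h0 | ⟨a, ha⟩
  · rw [h0, card_empty, zero_mul]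
    exact Nat.zero_le _
  obtain ⟨hne, hsig⟩ := B5_SB hs
  rw [mem_flt] at ha
  obtain ⟨haE, hua⟩ := ha
  obtain ⟨hM, -⟩ := B5_iso haE
  have h1 : ¬ Hv k D R N (insert u s) := by
    intro hh
    have h2 := hM.2.2 (insert u s) (insert_subset hua hM.1) hh (subset_insert u s)
    apply hu
    rw [← h2]
    exact mem_insert_self u s
  have h2 : (Cd N (insert u s)).card * R ^ ee k (s.card + 1) < D := by
    by_contra hc
    push Not at hc
    apply h1
    refine ⟨insert_nonempty u s, ?_⟩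
    rw [card_insert_of_notMem hu]
    exact hc
  have h3 : flt (EE k D R N s) (fun a => u ∈ N a) ⊆ Cd N (insert u s) := by
    intro b hb
    rw [mem_flt] at hb
    rw [mem_Cd]
    exact insert_subset hb.2 (B5_iso hb.1).1.1
  have h4 := card_le_card h3
  rw [ee_succ k s.card hne.card_pos] at h2
  have h5 : R ^ (ee k s.card + (6 * k + 4)) *
      ((flt (EE k D R N s) (fun a => u ∈ N a)).card * R ^ (18 * k + 16)) ≤
      R ^ (ee k s.card + (6 * k + 4)) * (EE k D R N s).card := by
    calc R ^ (ee k s.card + (6 * k + 4)) *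
        ((flt (EE k D R N s) (fun a => u ∈ N a)).card * R ^ (18 * k + 16))
        = (flt (EE k D R N s) (fun a => u ∈ N a)).card *
          R ^ ((ee k s.card + (6 * k + 4)) + (18 * k + 16)) := by
          rw [pow_add R (ee k s.card + (6 * k + 4)) (18 * k + 16)]
          ring
      _ ≤ (Cd N (insert u s)).card * R ^ (2 * ee k s.card + (24 * k + 20)) :=
          Nat.mul_le_mul h4 (Nat.pow_le_pow_right hR1 (by omega))
      _ ≤ D := h2.le
      _ ≤ (EE k D R N s).card * R ^ (ee k s.card + (6 * k + 4)) := hsig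
      _ = R ^ (ee k s.card + (6 * k + 4)) * (EE k D R N s).card := mul_comm _ _
  exact Nat.le_of_mul_le_mul_left h5 (pow_pos hR1 _)

private theorem B5_pair (k D R : ℕ) (hR1 : 1 ≤ R) (N : A → Finset V)
    (s : Finset V) (a : A) (ha : a ∈ EE k D R N s) (u : V) (hua : u ∈ N a) (hu : u ∉ s)
    (w : V) (hw : w ∈ s) : (Cd N {u, w}).card * R ^ 2 ≤ D := by
  obtain ⟨hM, hI⟩ := B5_iso ha
  have huw : u ≠ w := fun h => hu (h ▸ hw)
  have hsub : ({u, w} : Finset V) ⊆ N a := by
    intro x hx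
    rw [mem_insert, mem_singleton] at hx
    rcases hx with h | h
    · rw [h]
      exact hua
    · rw [h]
      exact hM.1 hw
  have h1 : ¬ Hv k D R N {u, w} := by
    intro hh
    obtain ⟨t, ht1, ht2⟩ := exists_MH k D R N a {u, w} hsub hh
    have hut : u ∈ t := ht1 (mem_insert_self u {w})
    have hwt : w ∈ t := ht1 (mem_insert_of_mem (mem_singleton_self w))
    have hts : t ≠ s := fun h => hu (h ▸ hut)
    exact Finset.disjoint_left.1 (hI t ht2 hts) hw hwt
  have h2 : (Cd N {u, w}).card * R ^ (24 * k + 20) < D := by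
    by_contra hc
    push Not at hc
    apply h1
    refine ⟨insert_nonempty u {w}, ?_⟩
    have e1 : ee k 2 = 24 * k + 20 := by
      have e2 : ee k 2 = 2 * ee k 1 + (24 * k + 20) := ee_succ k 1 le_rfl
      rw [e2, ee_one, mul_zero, zero_add]
    rw [card_pair huw, e1]
    exact hc
  refine le_trans (Nat.mul_le_mul_left _ ?_) h2.le
  exact Nat.pow_le_pow_right hR1 (by omega)

theorem blk (k : ℕ) (hk1 : 1 ≤ k) : ∃ R₀ : ℕ, ∀ R ≥ R₀, ∀ D ≥ 1,
    ∀ (V A : Type) [Fintype V] [Fintype A] (N : A → Finset V), (∀ a, (N a).card ≤ k) →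
    (∀ v, (Ed N v).card = D) → Blk k D R N (SB k D R N) (EE k D R N) := by
  refine ⟨2 ^ k + k * 4 ^ k + 2, fun R hR D hD V A _ _ N hk hdeg => ?_⟩
  have hR1 : 1 ≤ R := le_trans (by norm_num) (le_trans (Nat.le_add_left 2 _) hR)
  have hR2 : 2 ^ k + k * 4 ^ k ≤ R := le_trans (Nat.le_add_right _ 2) hR
  refine ⟨hk, hdeg, fun s hs => (B5_SB hs).1, fun s _ a ha => (B5_iso ha).1.1, ?_,
    fun v => B5_neg k D R hR1 hR2 hD N hk hdeg v, ?_,
    fun s hs u hu => B5_light k D R hR1 N s hs u hu,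
    fun s _ a ha u hua hu w hw => B5_pair k D R hR1 N s a ha u hua hu w hw⟩
  · intro s _ t _ hst hd
    rw [Finset.disjoint_left]
    intro a has hat
    exact hd ((B5_iso has).2 t (B5_iso hat).1 (Ne.symm hst))
  · intro s hs
    refine le_trans (B5_SB hs).2 (Nat.mul_le_mul_left _ (Nat.pow_le_pow_right hR1 ?_))
    have h1 := ee_mono k _ _ (B5_card k D R hD N hk s hs)
    unfold PHI
    omega

end

end Pool.Agent.MP_61eeb2_co.EX
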