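import Pool.Agent.Lib.MP_61eeb2_co.EX.Def

/-!
MP_61eeb2_co, exact bound k * D, module Bal: balls (5 short lemmas).

PROOF. nb N X = the u such that some a has u ∈ N a and N a meets X; ball N r v = (nb N)^[r] {v}.
nb is monotone; nb N X is the union over w ∈ X of nb N {w} and |nb N {w}| <= D k (the union over a
∈ Ed N w of N a). ball_card: induction (Function.iterate_succ_apply'). ball_mono: X ⊆ nb N X since
every vertex is in some N a. u ∈ nb {v} iff v ∈ nb {u}; ball_symm by induction using ball (r+1) v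
= union over w ∈ ball 1 v of ball r w = union over w ∈ ball r v of ball 1 w (iterate_succ,
additivity of nb). ball_trans: {u} ⊆ ball r v, monotonicity of the iterate, iterate_add.
mem_ball_one: definition.
-/

set_option autoImplicit false

namespace Pool.Agent.MP_61eeb2_co.EX

open Finset Classical

section

variable {V A : Type} [Fintype V] [Fintype A]

private theorem mem_nb_aux (N : A → Finset V) (X : Finset V) (u : V) :
    u ∈ nb N X ↔ ∃ a, u ∈ N a ∧ ∃ w ∈ X, w ∈ N a := by
  unfold nb
  rw [mem_flt]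
  constructor
  · rintro ⟨-, a, hu, hd⟩
    rw [Finset.not_disjoint_iff] at hd
    obtain ⟨w, hw, hx⟩ := hd
    exact ⟨a, hu, w, hx, hw⟩
  · rintro ⟨a, hu, w, hx, hw⟩
    refine ⟨Finset.mem_univ _, a, hu, ?_⟩
    rw [Finset.not_disjoint_iff]
    exact ⟨w, hw, hx⟩

private theorem nb_mono_aux (N : A → Finset V) {X Y : Finset V} (h : X ⊆ Y) :
    nb N X ⊆ nb N Y := by
  intro u hu
  rw [mem_nb_aux] at hu ⊢
  obtain ⟨a, ha, w, hw, hwa⟩ := hu
  exact ⟨a, ha, w, h hw, hwa⟩

private theorem iter_mono_aux (N : A → Finset V) (r : ℕ) {X Y : Finset V} (h : X ⊆ Y) :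
    (nb N)^[r] X ⊆ (nb N)^[r] Y := by
  induction r with
  | zero => simpa using h
  | succ n ih =>
    rw [Function.iterate_succ_apply', Function.iterate_succ_apply']
    exact nb_mono_aux N ih

private theorem mem_nb_iff_aux (N : A → Finset V) (X : Finset V) (u : V) :
    u ∈ nb N X ↔ ∃ w ∈ X, u ∈ nb N {w} := by
  rw [mem_nb_aux]
  constructor
  · rintro ⟨a, ha, w, hw, hwa⟩
    refine ⟨w, hw, ?_⟩
    rw [mem_nb_aux]
    exact ⟨a, ha, w, Finset.mem_singleton_self w, hwa⟩
  · rintro ⟨w, hw, hu⟩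
    rw [mem_nb_aux] at hu
    obtain ⟨a, ha, w', hw', hwa⟩ := hu
    rw [Finset.mem_singleton] at hw'
    subst hw'
    exact ⟨a, ha, w', hw, hwa⟩

private theorem nb_single_symm_aux (N : A → Finset V) (u v : V) :
    u ∈ nb N {v} ↔ v ∈ nb N {u} := by
  rw [mem_nb_aux, mem_nb_aux]
  constructor
  · rintro ⟨a, ha, w, hw, hwa⟩
    rw [Finset.mem_singleton] at hw
    subst hw
    exact ⟨a, hwa, u, Finset.mem_singleton_self u, ha⟩
  · rintro ⟨a, ha, w, hw, hwa⟩
    rw [Finset.mem_singleton] at hw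
    subst hw
    exact ⟨a, hwa, v, Finset.mem_singleton_self v, ha⟩

private theorem nb_single_card_aux (k D : ℕ) (N : A → Finset V) (hN : ∀ a, (N a).card ≤ k)
    (hd : ∀ v, (Ed N v).card = D) (w : V) : (nb N {w}).card ≤ k * D := by
  have hs : nb N {w} ⊆ (Ed N w).biUnion N := by
    intro u hu
    rw [mem_nb_aux] at hu
    obtain ⟨a, ha, w', hw', hwa⟩ := hu
    rw [Finset.mem_singleton] at hw'
    subst hw'
    rw [Finset.mem_biUnion]
    exact ⟨a, mem_Ed.mpr hwa, ha⟩
  calc (nb N {w}).card ≤ ((Ed N w).biUnion N).card := Finset.card_le_card hs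
    _ ≤ (Ed N w).card * k := Finset.card_biUnion_le_card_mul _ _ _ (fun a _ => hN a)
    _ = k * D := by rw [hd w, Nat.mul_comm]

private theorem nb_card_aux (k D : ℕ) (N : A → Finset V) (hN : ∀ a, (N a).card ≤ k)
    (hd : ∀ v, (Ed N v).card = D) (X : Finset V) : (nb N X).card ≤ X.card * (k * D) := by
  have hs : nb N X ⊆ X.biUnion (fun w => nb N {w}) := by
    intro u hu
    rw [mem_nb_iff_aux] at hu
    rw [Finset.mem_biUnion]
    exact hu
  exact (Finset.card_le_card hs).trans
    (Finset.card_biUnion_le_card_mul _ _ _ (fun w _ => nb_single_card_aux k D N hN hd w))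

/-- the iterate of a union -/
private theorem mem_iter_iff_aux (N : A → Finset V) (r : ℕ) :
    ∀ (X : Finset V) (u : V), u ∈ (nb N)^[r] X ↔ ∃ w ∈ X, u ∈ (nb N)^[r] {w} := by
  induction r with
  | zero =>
    intro X u
    simp
  | succ n ih =>
    intro X u
    rw [Function.iterate_succ_apply', mem_nb_iff_aux]
    constructor
    · rintro ⟨y, hy, hu⟩
      rw [ih] at hy
      obtain ⟨w, hw, hyw⟩ := hy
      refine ⟨w, hw, ?_⟩
      rw [Function.iterate_succ_apply', mem_nb_iff_aux]
      exact ⟨y, hyw, hu⟩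
    · rintro ⟨w, hw, hu⟩
      rw [Function.iterate_succ_apply', mem_nb_iff_aux] at hu
      obtain ⟨y, hy, hu⟩ := hu
      refine ⟨y, ?_, hu⟩
      rw [ih]
      exact ⟨w, hw, hy⟩

theorem ball_card (k D : ℕ) (N : A → Finset V) (hN : ∀ a, (N a).card ≤ k)
    (hd : ∀ v, (Ed N v).card = D) (r : ℕ) (v : V) : (ball N r v).card ≤ (k * D) ^ r := by
  induction r with
  | zero => simp [ball]
  | succ n ih =>
    have h1 : ball N (n + 1) v = nb N (ball N n v) := by
      unfold ball
      rw [Function.iterate_succ_apply']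
    rw [h1, pow_succ]
    exact (nb_card_aux k D N hN hd _).trans (Nat.mul_le_mul_right _ ih)

theorem ball_mono (N : A → Finset V) (hd : ∀ v, (Ed N v).Nonempty) (r r' : ℕ) (h : r ≤ r')
    (v : V) : ball N r v ⊆ ball N r' v := by
  induction r', h using Nat.le_induction with
  | base => exact Finset.Subset.refl _
  | succ n _ ih =>
    refine ih.trans ?_
    intro u hu
    have h1 : ball N (n + 1) v = nb N (ball N n v) := by
      unfold ball
      rw [Function.iterate_succ_apply']
    rw [h1, mem_nb_aux]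
    obtain ⟨a, ha⟩ := hd u
    exact ⟨a, mem_Ed.mp ha, u, hu, mem_Ed.mp ha⟩

theorem ball_symm (N : A → Finset V) (r : ℕ) (u v : V) : u ∈ ball N r v ↔ v ∈ ball N r u := by
  unfold ball
  induction r generalizing u v with
  | zero =>
    simp only [Function.iterate_zero, id_eq, Finset.mem_singleton]
    exact eq_comm
  | succ n ih =>
    rw [Function.iterate_succ_apply', Function.iterate_succ_apply, mem_nb_iff_aux,
      mem_iter_iff_aux]
    constructor
    · rintro ⟨w, hw, hu⟩
      exact ⟨w, (nb_single_symm_aux N u w).mp hu, (ih w v).mp hw⟩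
    · rintro ⟨w, hw, hv⟩
      exact ⟨w, (ih v w).mp hv, (nb_single_symm_aux N w u).mp hw⟩

theorem ball_trans (N : A → Finset V) (r r' : ℕ) (u v w : V) (h : u ∈ ball N r v)
    (h' : w ∈ ball N r' u) : w ∈ ball N (r + r') v := by
  unfold ball at h h' ⊢
  rw [Nat.add_comm, Function.iterate_add_apply]
  exact iter_mono_aux N r' (Finset.singleton_subset_iff.mpr h) h'

theorem mem_ball_one (N : A → Finset V) (u v : V) (a : A) (hu : u ∈ N a) (hv : v ∈ N a) :
    u ∈ ball N 1 v := by
  unfold ball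
  rw [Function.iterate_one, mem_nb_aux]
  exact ⟨a, hu, v, Finset.mem_singleton_self v, hv⟩

end

end Pool.Agent.MP_61eeb2_co.EX
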