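import Pool.Agent.Lib.MP_61eeb2_co.EX.Def

/-!
MP_61eeb2_co, exact bound k * D, module Bc: the blocks at a vertex.

PROOF. The sets E s, s ∈ Bl S v, are pairwise disjoint subsets of Ed N v (disj with the common
vertex v; sub), and the members of Ed N v in none of them form the last set: so nn E (Bl S v) +
(card of the last set) = |Ed N v| = D (card_biUnion, flt_card_add). Hence nn <= D. Each s in Bl S
v has D <= |E s| R^PHI; sum over Bl: |Bl| D <= nn R^PHI <= D R^PHI, D >= 1: divide.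
-/

set_option autoImplicit false

namespace Pool.Agent.MP_61eeb2_co.EX

open Finset Classical

theorem Bl_card (k D R : ℕ) (hD : 1 ≤ D) {V A : Type} [Fintype V] [Fintype A]
    (N : A → Finset V) (S : Finset (Finset V)) (E : Finset V → Finset A)
    (hB : Blk k D R N S E) (v : V) : (Bl S v).card ≤ R ^ PHI k ∧ nn E (Bl S v) ≤ D ∧
    nn E (Bl S v) + (flt (Ed N v) (fun a => ∀ s ∈ S, v ∈ s → a ∉ E s)).card = D := by
  have h1 : flt (Ed N v) (fun a => ¬ ∀ s ∈ S, v ∈ s → a ∉ E s) = (Bl S v).biUnion E := by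
    ext a
    rw [mem_flt, mem_Ed, mem_biUnion]
    constructor
    · rintro ⟨-, h⟩
      push Not at h
      obtain ⟨s, hs, hv, ha⟩ := h
      exact ⟨s, mem_Bl.2 ⟨hs, hv⟩, ha⟩
    · rintro ⟨s, hs, ha⟩
      obtain ⟨hs1, hv⟩ := mem_Bl.1 hs
      exact ⟨hB.sub s hs1 a ha hv, fun h => h s hs1 hv ha⟩
  have h2 : ((Bl S v).biUnion E).card = nn E (Bl S v) := by
    rw [nn]
    refine card_biUnion fun s hs t ht hst => ?_
    obtain ⟨hs1, hv⟩ := mem_Bl.1 hs
    obtain ⟨ht1, hv'⟩ := mem_Bl.1 ht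
    exact hB.disj s hs1 t ht1 hst fun hd => disjoint_left.1 hd hv hv'
  have h3 := flt_card_add (Ed N v) (fun a => ∀ s ∈ S, v ∈ s → a ∉ E s)
  rw [h1, h2, hB.deg v] at h3
  have h4 : nn E (Bl S v) ≤ D := by omega
  have h5 : (Bl S v).card * D ≤ R ^ PHI k * D := by
    calc (Bl S v).card * D = ∑ _s ∈ Bl S v, D := by rw [sum_const, smul_eq_mul]
      _ ≤ ∑ s ∈ Bl S v, (E s).card * R ^ PHI k :=
          sum_le_sum fun s hs => hB.sig s (mem_Bl.1 hs).1
      _ = nn E (Bl S v) * R ^ PHI k := by rw [nn, sum_mul]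
      _ ≤ D * R ^ PHI k := Nat.mul_le_mul_right _ h4
      _ = R ^ PHI k * D := mul_comm _ _
  exact ⟨Nat.le_of_mul_le_mul_right h5 hD, h4, by omega⟩

end Pool.Agent.MP_61eeb2_co.EX
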