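import Mathlib
import Pool.Agent.Lib.MP_61eeb2_co.LLL
import Pool.Agent.Lib.MP_61eeb2_co.Chernoff

/-!
Definitions for the exact bound `k * D` for bipartite graphs with degree bounds `k` and `D`, `D` large
in terms of `k` (problem MP_61eeb2_co).

`V` is the set of the vertices of degree `D`, `A` is the set of the vertices of degree at most `k`,
`N a` is the neighbourhood of `a`.
-/

set_option autoImplicit false

namespace Pool.Agent.MP_61eeb2_co.EX

open Finset Classical

/-- the members of `s` with the property `p` -/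
noncomputable def flt {α : Type*} (s : Finset α) (p : α → Prop) : Finset α :=
  @Finset.filter α p (Classical.decPred p) s

theorem mem_flt {α : Type*} {s : Finset α} {p : α → Prop} {a : α} :
    a ∈ flt s p ↔ a ∈ s ∧ p a := by
  unfold flt
  exact Finset.mem_filter

theorem flt_sub {α : Type*} (s : Finset α) (p : α → Prop) : flt s p ⊆ s := fun _ h =>
  (mem_flt.mp h).1

theorem flt_eq_filter {α : Type*} (s : Finset α) (p : α → Prop) [DecidablePred p] :
    flt s p = s.filter p := by
  ext a
  rw [mem_flt, Finset.mem_filter]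

theorem flt_card_add {α : Type*} (s : Finset α) (p : α → Prop) :
    (flt s p).card + (flt s (fun x => ¬ p x)).card = s.card := by
  rw [flt_eq_filter, flt_eq_filter]
  exact Finset.card_filter_add_card_filter_not p

/-! ### probability on finite types -/

/-- the probability of `P` for the uniform distribution on a finite type -/
noncomputable def pr {Ω : Type*} [Fintype Ω] (P : Ω → Prop) : ℝ :=
  cnt P / (Fintype.card Ω : ℝ)

/-- `P` depends only on the coordinates in `I` -/
def DepOn {ι κ : Type*} (I : Finset ι) (P : (ι → κ) → Prop) : Prop :=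
  ∀ ω ω' : ι → κ, (∀ i ∈ I, ω i = ω' i) → P ω → P ω'

/-! ### parameters -/

/-- exponents of the thresholds of heavy sets -/
def ee (k m : ℕ) : ℕ := (24 * k + 20) * (2 ^ (m - 1) - 1)

/-- exponent of the least size of a block -/
def PHI (k : ℕ) : ℕ := ee k k + (6 * k + 4)

/-- `D` is between `R ^ QQ k` and `R ^ (2 * QQ k)` -/
def QQ (k : ℕ) : ℕ := 2 * PHI k + 18 * k + 40

/-! ### blocks -/

section blocks

variable {V A : Type} [Fintype V] [Fintype A]

/-- the edges (members of `A`) at a vertex -/
noncomputable def Ed (N : A → Finset V) (v : V) : Finset A := flt univ (fun a => v ∈ N a)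

/-- the edges containing a set -/
noncomputable def Cd (N : A → Finset V) (s : Finset V) : Finset A := flt univ (fun a => s ⊆ N a)

/-- heavy sets -/
def Hv (k D R : ℕ) (N : A → Finset V) (s : Finset V) : Prop :=
  s.Nonempty ∧ D ≤ (Cd N s).card * R ^ ee k s.card

/-- `s` is a maximal heavy subset of `N a` -/
def MH (k D R : ℕ) (N : A → Finset V) (a : A) (s : Finset V) : Prop :=
  s ⊆ N a ∧ Hv k D R N s ∧ ∀ t, t ⊆ N a → Hv k D R N t → s ⊆ t → t = s

/-- `s` is a maximal heavy subset of `N a` disjoint from all other ones -/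
def Iso (k D R : ℕ) (N : A → Finset V) (a : A) (s : Finset V) : Prop :=
  MH k D R N a s ∧ ∀ t, MH k D R N a t → t ≠ s → Disjoint s t

/-- the edges with isolated block `s` -/
noncomputable def EE (k D R : ℕ) (N : A → Finset V) (s : Finset V) : Finset A :=
  flt univ (fun a => Iso k D R N a s)

/-- the significant blocks -/
noncomputable def SB (k D R : ℕ) (N : A → Finset V) : Finset (Finset V) :=
  flt univ (fun s => s.Nonempty ∧
    D ≤ (EE k D R N s).card * R ^ (ee k s.card + (6 * k + 4)))

/-- the properties of the blocks `S` and of the sets `E s` of the edges with block `s` used below -/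
structure Blk (k D R : ℕ) (N : A → Finset V) (S : Finset (Finset V))
    (E : Finset V → Finset A) : Prop where
  cardN : ∀ a, (N a).card ≤ k
  deg : ∀ v, (Ed N v).card = D
  ne : ∀ s ∈ S, s.Nonempty
  sub : ∀ s ∈ S, ∀ a ∈ E s, s ⊆ N a
  disj : ∀ s ∈ S, ∀ t ∈ S, s ≠ t → ¬ Disjoint s t → Disjoint (E s) (E t)
  neg : ∀ v, (flt (Ed N v) (fun a => ∀ s ∈ S, v ∈ s → a ∉ E s)).card * R ^ (6 * k + 3) ≤ D
  sig : ∀ s ∈ S, D ≤ (E s).card * R ^ PHI k
  light : ∀ s ∈ S, ∀ u, u ∉ s →
    (flt (E s) (fun a => u ∈ N a)).card * R ^ (18 * k + 16) ≤ (E s).card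
  pair : ∀ s ∈ S, ∀ a ∈ E s, ∀ u ∈ N a, u ∉ s → ∀ w ∈ s, (Cd N {u, w}).card * R ^ 2 ≤ D

/-- the blocks at a vertex -/
noncomputable def Bl (S : Finset (Finset V)) (v : V) : Finset (Finset V) :=
  flt S (fun s => v ∈ s)

theorem mem_Ed {N : A → Finset V} {v : V} {a : A} : a ∈ Ed N v ↔ v ∈ N a := by
  unfold Ed
  rw [mem_flt]
  exact ⟨fun h => h.2, fun h => ⟨mem_univ _, h⟩⟩

theorem mem_Cd {N : A → Finset V} {s : Finset V} {a : A} : a ∈ Cd N s ↔ s ⊆ N a := by
  unfold Cd
  rw [mem_flt]
  exact ⟨fun h => h.2, fun h => ⟨mem_univ _, h⟩⟩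

theorem mem_Bl {S : Finset (Finset V)} {v : V} {s : Finset V} :
    s ∈ Bl S v ↔ s ∈ S ∧ v ∈ s := by
  unfold Bl
  exact mem_flt

/-- total number of the edges with block in `U` -/
noncomputable def nn (E : Finset V → Finset A) (U : Finset (Finset V)) : ℕ :=
  ∑ s ∈ U, (E s).card

end blocks

/-! ### items and classes -/

/-- an item is a block together with an edge -/
abbrev Item (V A : Type) := Finset V × A

section items

variable {V A : Type} [Fintype V] [Fintype A]

/-- the items -/
noncomputable def itm (S : Finset (Finset V)) (E : Finset V → Finset A) : Finset (Item V A) :=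
  flt univ (fun x => x.1 ∈ S ∧ x.2 ∈ E x.1)

/-- the items at a vertex -/
noncomputable def At (I : Finset (Item V A)) (v : V) : Finset (Item V A) :=
  flt I (fun x => v ∈ x.1)

/-- the items touching a set of vertices -/
noncomputable def Touch (I : Finset (Item V A)) (Z : Finset V) : Finset (Item V A) :=
  flt I (fun x => ¬ Disjoint x.1 Z)

/-- the items of class `c` -/
noncomputable def cI (S : Finset (Finset V)) (E : Finset V → Finset A) {n : ℕ}
    (cl : Item V A → Fin n) (c : Fin n) : Finset (Item V A) :=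
  flt (itm S E) (fun x => cl x = c)

/-- pairs of items of the same class with blocks `s` and `t` -/
noncomputable def Cross (S : Finset (Finset V)) (E : Finset V → Finset A) {n : ℕ}
    (cl : Item V A → Fin n) (s t : Finset V) : Finset (Item V A × Item V A) :=
  flt ((itm S E) ×ˢ (itm S E)) (fun p => p.1.1 = s ∧ p.2.1 = t ∧ cl p.1 = cl p.2)

theorem mem_itm {S : Finset (Finset V)} {E : Finset V → Finset A} {x : Item V A} :
    x ∈ itm S E ↔ x.1 ∈ S ∧ x.2 ∈ E x.1 := by
  unfold itm
  rw [mem_flt]
  exact ⟨fun h => h.2, fun h => ⟨mem_univ _, h⟩⟩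

theorem mem_At {I : Finset (Item V A)} {v : V} {x : Item V A} :
    x ∈ At I v ↔ x ∈ I ∧ v ∈ x.1 := by
  unfold At
  exact mem_flt

theorem mem_Touch {I : Finset (Item V A)} {Z : Finset V} {x : Item V A} :
    x ∈ Touch I Z ↔ x ∈ I ∧ ¬ Disjoint x.1 Z := by
  unfold Touch
  exact mem_flt

theorem mem_cI {S : Finset (Finset V)} {E : Finset V → Finset A} {n : ℕ}
    {cl : Item V A → Fin n} {c : Fin n} {x : Item V A} :
    x ∈ cI S E cl c ↔ (x.1 ∈ S ∧ x.2 ∈ E x.1) ∧ cl x = c := by
  unfold cI
  rw [mem_flt, mem_itm]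

/-- every vertex is in about `R` items of `I` -/
def Even (k R : ℕ) (I : Finset (Item V A)) : Prop :=
  ∀ v, (1 - 1 / (200 * (k : ℝ) ^ 2)) * R ≤ ((At I v).card : ℝ) ∧
    ((At I v).card : ℝ) ≤ (1 + 1 / (200 * (k : ℝ) ^ 2)) * R

/-- a good distribution of the items into classes; `rc j` is the class used in round `j` -/
structure Cls (k D R : ℕ) (N : A → Finset V) (S : Finset (Finset V)) (E : Finset V → Finset A)
    (n : ℕ) (cl : Item V A → Fin n) (rc : Fin D → Fin n) : Prop where
  nR : n * R ≤ D
  even : ∀ c, Even k R (cI S E cl c)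
  off : ∀ s ∈ S, ∀ a ∈ E s, ∀ u ∈ N a, u ∉ s → ∀ c, ∃ y ∈ At (cI S E cl c) u, Disjoint y.1 s
  cross : ∀ s ∈ S, ∀ t ∈ S, s ≠ t → ¬ Disjoint s t →
    (E s).card * (E t).card ≤ 2 * n * (Cross S E cl s t).card
  rlo : ∀ c, R ≤ (flt univ (fun j => rc j = c)).card
  rhi : ∀ c, (flt univ (fun j => rc j = c)).card ≤ R + 1

end items

/-! ### one round -/

/-- the places where there is a random value -/
abbrev Site (V A : Type) := Item V A ⊕ V

/-- the random values: label of an item; start colour and flag of a vertex -/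
abbrev Val (k R : ℕ) := Fin (R ^ 6) × Fin k × Fin R

/-- the random choices of one round -/
abbrev Sp (V A : Type) (k R : ℕ) := Site V A → Val k R

section round

variable {V A : Type} [Fintype V] [Fintype A] {k R : ℕ}

/-- label of an item -/
def lab (ω : Sp V A k R) (x : Item V A) : ℕ := ((ω (Sum.inl x)).1 : ℕ)

/-- start colour of a vertex -/
def st (ω : Sp V A k R) (v : V) : Fin k := (ω (Sum.inr v)).2.1

/-- the vertex is a candidate -/
def cand (ω : Sp V A k R) (v : V) : Prop := ((ω (Sum.inr v)).2.2 : ℕ) = 0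

/-- rank of an item: first the label, then the name -/
noncomputable def rk (ω : Sp V A k R) (x : Item V A) : ℕ :=
  lab ω x * Fintype.card (Item V A) + (Fintype.equivFin (Item V A) x : ℕ)

/-- the rank of the top item at a vertex -/
noncomputable def ta (I : Finset (Item V A)) (ω : Sp V A k R) (v : V) : ℕ :=
  sInf (rk ω '' (At I v : Set (Item V A)))

/-- the block of the top item at a vertex -/
noncomputable def sg (I : Finset (Item V A)) (ω : Sp V A k R) (v : V) : Finset V :=
  (flt (At I v) (fun x => rk ω x = ta I ω v)).biUnion (fun x => x.1)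

/-- the sites of a set of vertices -/
noncomputable def sites (I : Finset (Item V A)) (Z : Finset V) : Finset (Site V A) :=
  (Touch I Z).image Sum.inl ∪ Z.image Sum.inr

end round

/-! ### the colouring process -/

/-- the start colour if it is free, otherwise some free colour -/
noncomputable def pick {k : ℕ} (s : Fin k) (F : Finset (Fin k)) : Fin k :=
  if s ∉ F then s else if h : ∃ i, i ∉ F then h.choose else s

/-- `φ` is the result of colouring the vertices in the order `ρ`, avoiding at `v` the colours of the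
earlier members of `T v` -/
def IsProc {V : Type} {k : ℕ} (T : V → Finset V) (ρ : V → ℕ) (start φ : V → Fin k) : Prop :=
  ∀ v, φ v = pick (start v) ((flt (T v) (fun u => ρ u < ρ v)).image φ)

section process

variable {V A : Type} [Fintype V] [Fintype A] {k R : ℕ}

/-- the set in which `v` has to be unique: `N b` if `v` serves `b`, otherwise the top block -/
noncomputable def TT (N : A → Finset V) (I : Finset (Item V A)) (ω : Sp V A k R)
    (srv : V → Option A) (v : V) : Finset V :=
  match srv v with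
  | some b => N b
  | none => sg I ω v

/-- the order of the vertices: top item, serving vertices first, name -/
noncomputable def rho (I : Finset (Item V A)) (ω : Sp V A k R) (srv : V → Option A) (v : V) : ℕ :=
  (2 * ta I ω v + (if srv v = none then 1 else 0)) * Fintype.card V +
    (Fintype.equivFin V v : ℕ)

/-- `φ` is the colouring of the round -/
def Run (N : A → Finset V) (I : Finset (Item V A)) (ω : Sp V A k R) (srv : V → Option A)
    (φ : V → Fin k) : Prop :=
  (∀ v b, srv v = some b → cand ω v ∧ v ∈ N b) ∧ IsProc (TT N I ω srv) (rho I ω srv) (st ω) φ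

/-- the block `s` is open for `v`: it is the top block, or `v` is unique in it because of the
two lowest items -/
def Op (I : Finset (Item V A)) (ω : Sp V A k R) (v : V) (s : Finset V) : Prop :=
  ¬ cand ω v ∧ (sg I ω v = s ∨ ((∀ w ∈ s, ¬ cand ω w) ∧
    ∃ x ∈ At I v, x.1 = s ∧ ∀ w ∈ s, ta I ω w = ta I ω v ∨ ta I ω w = rk ω x))

/-- the edge `b` can be served by `v` -/
def Adm (N : A → Finset V) (I : Finset (Item V A)) (ω : Sp V A k R) (v : V) (b : A) : Prop :=
  cand ω v ∧ ∀ u ∈ N b, u ≠ v → ¬ cand ω u ∧ (ta I ω u < ta I ω v ∨ v ∈ sg I ω u)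

end process

/-! ### local events -/

section localev

variable {V A : Type} [Fintype V] [Fintype A] {k R : ℕ}

/-- the vertices in the blocks of the items of `X` -/
noncomputable def ZZ (X : Finset (Item V A)) : Finset V := X.biUnion (fun x => x.1)

/-- the block of the `ix`-least item of `X` at `w` -/
noncomputable def pw (X : Finset (Item V A)) (ix : Item V A → ℕ) (w : V) : Finset V :=
  (flt X (fun x => w ∈ x.1 ∧ ∀ y ∈ X, w ∈ y.1 → ix x ≤ ix y)).biUnion (fun x => x.1)

/-- the labels on `X` are prescribed, the other labels near `X` are large -/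
def LabEv (k : ℕ) (I X : Finset (Item V A)) (ix : Item V A → ℕ) {R : ℕ}
    (ω : Sp V A k R) : Prop :=
  (∀ x ∈ X, lab ω x = ix x) ∧ ∀ y ∈ Touch I (ZZ X), y ∉ X → k ≤ lab ω y

/-- local event: prescribed labels, no candidates, prescribed start colours near `X` -/
def LEv (I X : Finset (Item V A)) (ix : Item V A → ℕ) (ψ : V → Fin k)
    (ω : Sp V A k R) : Prop :=
  LabEv k I X ix ω ∧ ∀ w ∈ ZZ X, ¬ cand ω w ∧ st ω w = ψ w

end localev

/-! ### properties of all the rounds together -/

section global

variable {V A : Type} [Fintype V] [Fintype A] {k R D n : ℕ}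

/-- heavy structure at `v` -/
def H1 (S : Finset (Finset V)) (E : Finset V → Finset A) (cl : Item V A → Fin n)
    (rc : Fin D → Fin n) (v : V) (w : Fin D → Sp V A k R) : Prop :=
  ∀ U, U ⊆ Bl S v → 2 * nn E U ≤ D →
    ((flt univ (fun j => sg (cI S E cl (rc j)) (w j) v ∈ U ∧
      ∀ s ∈ Bl S v, s ∉ U → ¬ Op (cI S E cl (rc j)) (w j) v s)).card : ℝ)
        ≤ (1 - 1 / (60 * (k : ℝ) ^ 2)) * nn E U ∧
    (1 + 1 / (60 * (k : ℝ) ^ 2)) * nn E U ≤
      ((flt univ (fun j => ∃ s ∈ U, Op (cI S E cl (rc j)) (w j) v s)).card : ℝ)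

/-- the rounds in which `X` is missed for some colour -/
noncomputable def Mi (N : A → Finset V) (rc : Fin D → Fin n)
    (Ev : Fin n → Finset V → Fin k → Sp V A k R → Prop) (s : Finset V) (X : Finset A)
    (w : Fin D → Sp V A k R) : Finset (Fin D) :=
  flt univ (fun j => ∃ i, ∀ a ∈ X, ¬ Ev (rc j) (N a \ s) i (w j))

/-- light structure of the block `s` -/
def H2 (N : A → Finset V) (E : Finset V → Finset A) (rc : Fin D → Fin n)
    (Ev : Fin n → Finset V → Fin k → Sp V A k R → Prop) (s : Finset V)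
    (w : Fin D → Sp V A k R) : Prop :=
  ∀ X, X ⊆ E s → (E s).card ≤ X.card * R ^ (6 * k + 3) →
    (Mi N rc Ev s X w).card ≤ (E s \ X).card ∧
    4 * R ^ (6 * k + 2) * (Mi N rc Ev s X w).card ≤ (E s).card

/-- many rounds for a single edge -/
def H3 (E : Finset V → Finset A) (rc : Fin D → Fin n)
    (Tv : Fin n → Finset V → V → A → Sp V A k R → Prop) (s : Finset V) (v : V) (a : A)
    (w : Fin D → Sp V A k R) : Prop :=
  (E s).card ≤ R ^ (6 * k + 2) * (flt univ (fun j => Tv (rc j) s v a (w j))).card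

/-- many rounds in which `v` can serve `b` -/
def H4 (N : A → Finset V) (S : Finset (Finset V)) (E : Finset V → Finset A)
    (cl : Item V A → Fin n) (rc : Fin D → Fin n) (v : V) (b : A)
    (w : Fin D → Sp V A k R) : Prop :=
  D ≤ R ^ (6 * k + 3) *
    (flt univ (fun j => Adm N (cI S E cl (rc j)) (w j) v b)).card

/-- everything at the vertex `v` -/
def Good (N : A → Finset V) (S : Finset (Finset V)) (E : Finset V → Finset A)
    (cl : Item V A → Fin n) (rc : Fin D → Fin n)
    (Ev : Fin n → Finset V → Fin k → Sp V A k R → Prop)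
    (Tv : Fin n → Finset V → V → A → Sp V A k R → Prop) (v : V)
    (w : Fin D → Sp V A k R) : Prop :=
  H1 S E cl rc v w ∧ (∀ s ∈ Bl S v, H2 N E rc Ev s w) ∧
    (∀ s ∈ Bl S v, ∀ a ∈ E s, H3 E rc Tv s v a w) ∧
    (∀ b, v ∈ N b → H4 N S E cl rc v b w)

/-- the edges at `v` without item at `v` -/
noncomputable def Neg (N : A → Finset V) (S : Finset (Finset V)) (E : Finset V → Finset A)
    (v : V) : Finset A := flt (Ed N v) (fun a => ∀ s ∈ S, v ∈ s → a ∉ E s)

/-- the bad events in the choice of the classes -/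
def BadK (k R : ℕ) (N : A → Finset V) (S : Finset (Finset V)) (E : Finset V → Finset A)
    {n : ℕ} (v : V) (cl : Item V A → Fin n) : Prop :=
  (∃ c, ¬ ((1 - 1 / (200 * (k : ℝ) ^ 2)) * R ≤ ((At (cI S E cl c) v).card : ℝ) ∧
        ((At (cI S E cl c) v).card : ℝ) ≤ (1 + 1 / (200 * (k : ℝ) ^ 2)) * R)) ∨
  (∃ s ∈ S, ∃ a ∈ E s, v ∈ N a ∧ v ∉ s ∧ ∃ c,
      (1 - 1 / (200 * (k : ℝ) ^ 2)) * R ≤ ((At (cI S E cl c) v).card : ℝ) ∧
        ∀ y ∈ At (cI S E cl c) v, ¬ Disjoint y.1 s) ∨
  (∃ s ∈ Bl S v, ∃ t ∈ Bl S v, s ≠ t ∧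
      (∀ c, (flt (cI S E cl c) (fun x => x.1 = t)).card ≤ 2 * R) ∧
        2 * n * (Cross S E cl s t).card < (E s).card * (E t).card)

/-- the neighbours of a set of vertices -/
noncomputable def nb (N : A → Finset V) (X : Finset V) : Finset V :=
  flt univ (fun u => ∃ a, u ∈ N a ∧ ¬ Disjoint (N a) X)

/-- the vertices at distance at most `r` -/
noncomputable def ball (N : A → Finset V) (r : ℕ) (v : V) : Finset V := (nb N)^[r] {v}

end global

/-! ### large numbers -/

/-- exponentials beat powers -/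
theorem exp_big (c : ℝ) (hc : 0 < c) (C : ℝ) (a : ℕ) :
    ∃ R₀ : ℕ, ∀ R : ℕ, R ≥ R₀ → C * (R : ℝ) ^ a ≤ Real.exp (c * R) := by
  have h1 := (tendsto_exp_mul_div_rpow_atTop (a : ℝ) c hc).eventually_ge_atTop C
  have h2 := tendsto_natCast_atTop_atTop (R := ℝ) |>.eventually h1
  obtain ⟨R₀, hR₀⟩ := Filter.eventually_atTop.mp h2
  refine ⟨max R₀ 1, fun R hR => ?_⟩
  have h3 := hR₀ R (le_trans (le_max_left _ _) hR)
  have h4 : (0 : ℝ) < (R : ℝ) := by
    have : 1 ≤ R := le_trans (le_max_right _ _) hR
    exact_mod_cast this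
  rw [Real.rpow_natCast, le_div_iff₀ (by positivity)] at h3
  exact h3

end Pool.Agent.MP_61eeb2_co.EX
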