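import Pool.Agent.Lib.MP_61eeb2_co.EX.Def
import Pool.Agent.Lib.MP_61eeb2_co.EX.Bal

/-!
MP_61eeb2_co, exact bound k * D, module Dep: counting dependent vertices.

PROOF. Show that the set is contained in ball N (2r+1) v, then ball_card. Let u be such that the
two site sets meet. If the common site is inr z: z ∈ ball r v and z ∈ ball r u, so u ∈ ball r z
(symm), u ∈ ball (2r) v (trans) ⊆ ball (2r+1) v (mono; every Ed N v is nonempty as D >= 1). If it
is inl x with x touching ball r v and ball r u: z ∈ x.1 ∩ ball r v, z' ∈ x.1 ∩ ball r u; x ∈ itm,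
x.1 ⊆ N x.2, so z' ∈ ball 1 z (mem_ball_one), z' ∈ ball (r+1) v, u ∈ ball r z', so u ∈ ball (2r+1)
v.
-/

set_option autoImplicit false

namespace Pool.Agent.MP_61eeb2_co.EX

open Finset Classical

section

variable {V A : Type} [Fintype V] [Fintype A]

theorem dep_count (k D : ℕ) (hD : 1 ≤ D) (N : A → Finset V) (S : Finset (Finset V))
    (E : Finset V → Finset A) (R : ℕ) (hB : Blk k D R N S E) (r : ℕ) (v : V) :
    (flt univ (fun u => ¬ Disjoint (sites (itm S E) (ball N r v))
      (sites (itm S E) (ball N r u)))).card ≤ (k * D) ^ (2 * r + 1) := by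
  have hne : ∀ v, (Ed N v).Nonempty := by
    intro v
    rw [← Finset.card_pos, hB.deg v]
    omega
  refine le_trans (Finset.card_le_card ?_) (ball_card k D N hB.cardN hB.deg (2 * r + 1) v)
  intro u hu
  have hu2 := (mem_flt.mp hu).2
  rw [Finset.not_disjoint_iff] at hu2
  obtain ⟨y, hy1, hy2⟩ := hu2
  unfold sites at hy1 hy2
  rw [Finset.mem_union, Finset.mem_image, Finset.mem_image] at hy1 hy2
  rcases y with x | z
  · have h1 : x ∈ Touch (itm S E) (ball N r v) := by
      rcases hy1 with ⟨x', hx', he⟩ | ⟨z', _, he⟩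
      · rw [← Sum.inl.inj he]
        exact hx'
      · exact absurd he (by simp)
    have h2 : x ∈ Touch (itm S E) (ball N r u) := by
      rcases hy2 with ⟨x', hx', he⟩ | ⟨z', _, he⟩
      · rw [← Sum.inl.inj he]
        exact hx'
      · exact absurd he (by simp)
    obtain ⟨hx, hd1⟩ := mem_Touch.mp h1
    obtain ⟨_, hd2⟩ := mem_Touch.mp h2
    rw [Finset.not_disjoint_iff] at hd1 hd2
    obtain ⟨z, hz1, hz2⟩ := hd1
    obtain ⟨z', hz1', hz2'⟩ := hd2
    obtain ⟨hxS, hxE⟩ := mem_itm.mp hx
    have hsub := hB.sub x.1 hxS x.2 hxE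
    have h3 : z' ∈ ball N 1 z := mem_ball_one N z' z x.2 (hsub hz1') (hsub hz1)
    have h4 : z' ∈ ball N (r + 1) v := ball_trans N r 1 z v z' hz2 h3
    have h5 : u ∈ ball N r z' := (ball_symm N r z' u).mp hz2'
    have h6 := ball_trans N (r + 1) r z' v u h4 h5
    have he : r + 1 + r = 2 * r + 1 := by omega
    rwa [he] at h6
  · have h1 : z ∈ ball N r v := by
      rcases hy1 with ⟨x', _, he⟩ | ⟨z', hz', he⟩
      · exact absurd he (by simp)
      · rw [← Sum.inr.inj he]
        exact hz'
    have h2 : z ∈ ball N r u := by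
      rcases hy2 with ⟨x', _, he⟩ | ⟨z', hz', he⟩
      · exact absurd he (by simp)
      · rw [← Sum.inr.inj he]
        exact hz'
    have h5 : u ∈ ball N r z := (ball_symm N r z u).mp h2
    have h6 := ball_trans N r r z v u h1 h5
    exact ball_mono N hne (r + r) (2 * r + 1) (by omega) v h6

end

end Pool.Agent.MP_61eeb2_co.EX
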