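import Pool.Agent.Lib.MP_61eeb2_co.EX.Def

/-!
MP_61eeb2_co, exact bound k * D, module ExR: choice of R.
-/

set_option autoImplicit false

namespace Pool.Agent.MP_61eeb2_co.EX

open Finset Classical

theorem exists_R (Q R₀ : ℕ) (hQ : 1 ≤ Q) : ∃ D₀ : ℕ, ∀ D ≥ D₀, ∃ R ≥ R₀, R ^ Q ≤ D ∧
    D ≤ R ^ (2 * Q) := by
  refine ⟨(R₀ + 2) ^ Q, fun D hD => ?_⟩
  have hP : (R₀ + 2) ^ Q ≤ D := hD
  have hle : R₀ + 2 ≤ D := le_trans (Nat.le_self_pow (by omega) _) hP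
  have h1 : R₀ + 2 ≤ Nat.findGreatest (fun R => R ^ Q ≤ D) D :=
    Nat.le_findGreatest hle hP
  have h2 : (Nat.findGreatest (fun R => R ^ Q ≤ D) D) ^ Q ≤ D :=
    Nat.findGreatest_spec (P := fun R => R ^ Q ≤ D) hle hP
  set R := Nat.findGreatest (fun R => R ^ Q ≤ D) D with hR
  refine ⟨R, by omega, h2, ?_⟩
  have h3 : D < (R + 1) ^ Q := by
    by_contra hcon
    push Not at hcon
    have h4 : R + 1 ≤ D := le_trans (Nat.le_self_pow (by omega) _) hcon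
    have h5 : R + 1 ≤ Nat.findGreatest (fun R => R ^ Q ≤ D) D := Nat.le_findGreatest h4 hcon
    omega
  have h6 : R + 1 ≤ R ^ 2 := by nlinarith
  calc D ≤ (R + 1) ^ Q := h3.le
    _ ≤ (R ^ 2) ^ Q := Nat.pow_le_pow_left h6 Q
    _ = R ^ (2 * Q) := by rw [← pow_mul]

end Pool.Agent.MP_61eeb2_co.EX
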