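import Pool.Agent.Lib.MP_61eeb2_co.EX.Def

/-!
MP_61eeb2_co, exact bound k * D, module P1: probability on finite types (12 one-line lemmas).

PROOF. pr P = cnt P / card, cnt P = ncard of the set of the points with P (LLL.lean has
cnt_nonneg, cnt_mono, cnt_or_le, cnt_biUnion_le; Chernoff.lean has cnt_true, cnt_eq_sum).
Everything is immediate from these: for pr_not and pr_exists_eq, pr_or_eq use cnt_eq_sum (cnt P is
the sum of the indicator) or Set.ncard of complements and of disjoint unions; pr_exists_eq by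
induction on S from pr_or_eq; pr_equiv: the bijection e maps the one set onto the other
(Set.ncard_image_of_injective or Set.ncard_congr, Fintype.card_congr e). cnt_le_of_pr_le: multiply
by the cardinality (cnt_true); if the cardinality is 0 both sides are 0 (cnt P = 0 on an empty
type).
-/

set_option autoImplicit false

namespace Pool.Agent.MP_61eeb2_co.EX

open Finset Classical

section

variable {Ω Ω' : Type*} [Fintype Ω] [Fintype Ω']

theorem pr_nonneg (P : Ω → Prop) : 0 ≤ pr P :=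
  div_nonneg (cnt_nonneg P) (Nat.cast_nonneg _)

theorem pr_le_one (P : Ω → Prop) : pr P ≤ 1 := by
  have h : cnt P ≤ (Fintype.card Ω : ℝ) := by
    rw [← cnt_true]
    exact cnt_mono fun _ _ => trivial
  exact div_le_one_of_le₀ h (Nat.cast_nonneg _)

theorem pr_true [Nonempty Ω] : pr (fun _ : Ω => True) = 1 := by
  have h : (Fintype.card Ω : ℝ) ≠ 0 := Nat.cast_ne_zero.2 Fintype.card_ne_zero
  rw [pr, cnt_true, div_self h]

theorem pr_mono {P Q : Ω → Prop} (h : ∀ ω, P ω → Q ω) : pr P ≤ pr Q :=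
  div_le_div_of_nonneg_right (cnt_mono h) (Nat.cast_nonneg _)

theorem pr_or_le (P Q : Ω → Prop) : pr (fun ω => P ω ∨ Q ω) ≤ pr P + pr Q := by
  rw [pr, pr, pr, ← add_div]
  exact div_le_div_of_nonneg_right (cnt_or_le P Q) (Nat.cast_nonneg _)

theorem pr_exists_le {E : Type*} (S : Finset E) (P : E → Ω → Prop) :
    pr (fun ω => ∃ g ∈ S, P g ω) ≤ ∑ g ∈ S, pr (P g) := by
  unfold pr
  rw [← Finset.sum_div]
  exact div_le_div_of_nonneg_right (cnt_biUnion_le S P) (Nat.cast_nonneg _)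

theorem pr_exists_le_card {E : Type*} (S : Finset E) (P : E → Ω → Prop) (q : ℝ)
    (h : ∀ g ∈ S, pr (P g) ≤ q) : pr (fun ω => ∃ g ∈ S, P g ω) ≤ S.card * q := by
  refine (pr_exists_le S P).trans ((Finset.sum_le_sum h).trans ?_)
  rw [Finset.sum_const, nsmul_eq_mul]

private theorem P1_or (P Q : Ω → Prop) (h : ∀ ω, P ω → ¬ Q ω) :
    cnt (fun ω => P ω ∨ Q ω) = cnt P + cnt Q := by
  rw [cnt_eq_sum, cnt_eq_sum, cnt_eq_sum, ← Finset.sum_add_distrib]
  refine Finset.sum_congr rfl fun ω _ => ?_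
  by_cases h1 : P ω
  · have h2 := h ω h1
    simp [h1, h2]
  · simp [h1]

theorem pr_not [Nonempty Ω] (P : Ω → Prop) : pr (fun ω => ¬ P ω) = 1 - pr P := by
  have h1 := P1_or (fun ω => ¬ P ω) P fun _ h => h
  have h2 : (fun ω => ¬ P ω ∨ P ω) = fun _ : Ω => True := by
    funext ω
    exact propext ⟨fun _ => trivial, fun _ => (Classical.em (P ω)).symm⟩
  rw [h2] at h1
  have h3 : pr (fun ω => ¬ P ω) + pr P = 1 := by
    rw [← pr_true (Ω := Ω), pr, pr, pr, ← add_div, h1]
  linarith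

theorem pr_exists_eq {E : Type*} (S : Finset E) (P : E → Ω → Prop)
    (h : ∀ g ∈ S, ∀ g' ∈ S, g ≠ g' → ∀ ω, P g ω → ¬ P g' ω) :
    pr (fun ω => ∃ g ∈ S, P g ω) = ∑ g ∈ S, pr (P g) := by
  induction S using Finset.induction_on with
  | empty => simp [pr, cnt]
  | insert g S hg ih =>
    have h1 := ih fun g1 h1 g2 h2 => h g1 (Finset.mem_insert_of_mem h1) g2
      (Finset.mem_insert_of_mem h2)
    rw [Finset.sum_insert hg, ← h1]
    have h2 : (fun ω => ∃ g' ∈ insert g S, P g' ω) =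
        fun ω => P g ω ∨ ∃ g' ∈ S, P g' ω := by
      funext ω
      refine propext ⟨?_, ?_⟩
      · rintro ⟨g', hg', h3⟩
        rcases Finset.mem_insert.1 hg' with h4 | h4
        · exact Or.inl (h4 ▸ h3)
        · exact Or.inr ⟨g', h4, h3⟩
      · rintro (h3 | ⟨g', hg', h3⟩)
        · exact ⟨g, Finset.mem_insert_self g S, h3⟩
        · exact ⟨g', Finset.mem_insert_of_mem hg', h3⟩
    have h5 := P1_or (P g) (fun ω => ∃ g' ∈ S, P g' ω) (by
      rintro ω h3 ⟨g', hg', h4⟩
      refine h g (Finset.mem_insert_self g S) g' (Finset.mem_insert_of_mem hg') ?_ ω h3 h4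
      rintro rfl
      exact hg hg')
    rw [h2, pr, pr, pr, ← add_div, h5]

theorem pr_or_eq (P Q : Ω → Prop) (h : ∀ ω, P ω → ¬ Q ω) :
    pr (fun ω => P ω ∨ Q ω) = pr P + pr Q := by
  rw [pr, pr, pr, ← add_div, P1_or P Q h]

theorem pr_equiv (e : Ω ≃ Ω') (P : Ω' → Prop) : pr (fun ω => P (e ω)) = pr P := by
  have h : cnt (fun ω => P (e ω)) = cnt P := by
    rw [cnt_eq_sum, cnt_eq_sum]
    exact Equiv.sum_comp e fun ω => if P ω then (1 : ℝ) else 0
  rw [pr, pr, h, Fintype.card_congr e]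

theorem cnt_le_of_pr_le (P : Ω → Prop) (q : ℝ) (h : pr P ≤ q) :
    cnt P ≤ q * cnt (fun _ : Ω => True) := by
  rw [cnt_true]
  rcases Nat.eq_zero_or_pos (Fintype.card Ω) with h0 | h0
  · have h1 : cnt P ≤ cnt (fun _ : Ω => True) := cnt_mono fun _ _ => trivial
    rw [cnt_true, h0, Nat.cast_zero] at h1
    rw [h0, Nat.cast_zero, mul_zero]
    exact h1
  · have h1 : (0 : ℝ) < Fintype.card Ω := Nat.cast_pos.2 h0
    rwa [pr, div_le_iff₀ h1] at h

end

end Pool.Agent.MP_61eeb2_co.EX
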