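import Pool.Agent.Lib.MP_61eeb2_co.EX.Def
import Pool.Agent.Lib.MP_61eeb2_co.EX.P1

/-!
MP_61eeb2_co, exact bound k * D, module P3: cylinder probabilities.

PROOF. pr_cyl: write cnt as the sum of indicators (cnt_eq_sum of Chernoff.lean); the indicator of
the event is the product over all i of g i (omega i) with g i y = (if i in I and not Q i y then 0
else 1); sum_pi_prod (Chernoff.lean) turns the sum into the product over i of (sum over y of g i
y), which is cnt (Q i) for i in I and card of kappa otherwise; divide by card (iota -> kappa) =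
product of card kappa. pr_coord is the special case I = {i}.
-/

set_option autoImplicit false

namespace Pool.Agent.MP_61eeb2_co.EX

open Finset Classical

section

variable {ι κ : Type*} [Fintype ι] [Fintype κ] [Nonempty κ]

private theorem p3_cyl (I : Finset ι) (Q : ι → κ → Prop) :
    pr (fun ω : ι → κ => ∀ i ∈ I, Q i (ω i)) = ∏ i ∈ I, pr (Q i) := by
  obtain ⟨g, hg⟩ : ∃ g : ι → κ → ℝ, ∀ i y, g i y = if i ∈ I ∧ ¬ Q i y then 0 else 1 :=
    ⟨_, fun _ _ => rfl⟩
  have hκ : (Fintype.card κ : ℝ) ≠ 0 := by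
    exact_mod_cast Fintype.card_ne_zero
  have h1 : ∀ (ω : ι → κ) (d : Decidable (∀ i ∈ I, Q i (ω i))),
      @ite ℝ (∀ i ∈ I, Q i (ω i)) d 1 0 = ∏ i, g i (ω i) := by
    intro ω d
    by_cases h : ∀ i ∈ I, Q i (ω i)
    · rw [if_pos h]
      refine (Finset.prod_eq_one fun i _ => ?_).symm
      rw [hg, if_neg]
      rintro ⟨h1, h2⟩
      exact h2 (h i h1)
    · rw [if_neg h]
      push Not at h
      obtain ⟨i, hi, hQ⟩ := h
      refine (Finset.prod_eq_zero (Finset.mem_univ i) ?_).symm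
      rw [hg, if_pos ⟨hi, hQ⟩]
  have h2 : ∀ i, (∑ y, g i y) / (Fintype.card κ : ℝ) = if i ∈ I then pr (Q i) else 1 := by
    intro i
    by_cases hi : i ∈ I
    · rw [if_pos hi]
      unfold pr
      rw [cnt_eq_sum]
      congr 1
      refine Finset.sum_congr rfl fun y _ => ?_
      rw [hg]
      by_cases hy : Q i y
      · rw [if_pos hy, if_neg fun h => h.2 hy]
      · rw [if_neg hy, if_pos ⟨hi, hy⟩]
    · rw [if_neg hi]
      have h3 : ∑ y, g i y = (Fintype.card κ : ℝ) := by
        have h4 : ∀ y, g i y = 1 := by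
          intro y
          rw [hg, if_neg fun h => hi h.1]
        simp [h4]
      rw [h3, div_self hκ]
  have hcard : (Fintype.card (ι → κ) : ℝ) = ∏ _i : ι, (Fintype.card κ : ℝ) := by
    rw [Fintype.card_fun, Finset.prod_const, Finset.card_univ]
    push_cast
    rfl
  have h3 : cnt (fun ω : ι → κ => ∀ i ∈ I, Q i (ω i)) = ∏ i, ∑ y, g i y := by
    rw [cnt_eq_sum, ← sum_pi_prod]
    exact Finset.sum_congr rfl fun ω _ => h1 ω _
  have h4 : pr (fun ω : ι → κ => ∀ i ∈ I, Q i (ω i)) =
      ∏ i, (∑ y, g i y) / (Fintype.card κ : ℝ) := by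
    rw [Finset.prod_div_distrib, ← hcard, ← h3]
    rfl
  rw [h4, Finset.prod_congr rfl fun i _ => h2 i, Finset.prod_ite_mem, Finset.univ_inter]

theorem pr_coord (i : ι) (Q : κ → Prop) : pr (fun ω : ι → κ => Q (ω i)) = pr Q := by
  have h1 := p3_cyl (κ := κ) {i} fun _ => Q
  rw [Finset.prod_singleton] at h1
  rw [← h1]
  congr 1
  funext ω
  refine propext ⟨fun h j hj => ?_, fun h => h i (Finset.mem_singleton_self i)⟩
  rw [Finset.mem_singleton.1 hj]
  exact h

theorem pr_cyl (I : Finset ι) (Q : ι → κ → Prop) :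
    pr (fun ω : ι → κ => ∀ i ∈ I, Q i (ω i)) = ∏ i ∈ I, pr (Q i) :=
  p3_cyl I Q

end

end Pool.Agent.MP_61eeb2_co.EX
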