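import Pool.Agent.Lib.MP_61eeb2_co.EX.Def
import Pool.Agent.Lib.MP_61eeb2_co.EX.P1
import Pool.Agent.Lib.MP_61eeb2_co.EX.P3

/-!
MP_61eeb2_co, exact bound k * D, module P7: labels: ties and permutations.

PROOF. lab ω x is the first component (an element of Fin (R^6)) of the coordinate Sum.inl x.
lab_tie: pr_exists_le_card twice (or once over the product W x W, card = |W|^2): for x <> y, pr
(lab x = lab y) <= 1 / R^6: the event is the disjoint union over l : Fin (R^6) of (label x is l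
and label y is l), pr_cyl with I = {inl x, inl y} gives (1/R^6)^2 for each l (pr of (first
component = l) in Fin (R^6) x Fin k x Fin R is 1/R^6, k, R > 0), R^6 values of l. lab_perm:
pr_equiv with the equivalence of the space induced by the permutation of the sites Equiv.sumCongr
σ (Equiv.refl _) (Equiv.arrowCongr or Equiv.piCongrLeft / Function.comp with an equiv): (fun x =>
lab ω (σ x)) is the label function of ω ∘ (Sum.map σ id).
-/

set_option autoImplicit false

namespace Pool.Agent.MP_61eeb2_co.EX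

open Finset Classical

section

variable {V A : Type} [Fintype V] [Fintype A] {k R : ℕ}

private theorem p7_inst {Ω : Type*} (i1 i2 : Fintype Ω) (P : Ω → Prop) :
    @pr Ω i1 P = @pr Ω i2 P := by
  rw [Subsingleton.elim i1 i2]

private theorem pr_fst (hk : 0 < k) (hR : 0 < R) (l : Fin (R ^ 6)) :
    pr (fun p : Val k R => p.1 = l) = 1 / (R : ℝ) ^ 6 := by
  have h1 : {p : Val k R | p.1 = l} =
      ((({l} : Finset (Fin (R ^ 6))) ×ˢ (univ : Finset (Fin k × Fin R)) :
        Finset (Fin (R ^ 6) × Fin k × Fin R)) : Set (Val k R)) := by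
    ext p
    rw [Finset.mem_coe, Finset.mem_product, Finset.mem_singleton]
    exact ⟨fun h => ⟨h, mem_univ _⟩, fun h => h.1⟩
  unfold pr cnt
  rw [h1, Set.ncard_coe_finset, Finset.card_product]
  simp only [Finset.card_singleton, Finset.card_univ, Fintype.card_prod, Fintype.card_fin]
  have hk' : (0 : ℝ) < k := by exact_mod_cast hk
  have hR' : (0 : ℝ) < R := by exact_mod_cast hR
  push_cast
  field_simp

private theorem tie_two (hk : 0 < k) (hR : 0 < R) (x y : Item V A) (hxy : x ≠ y) :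
    pr (fun ω : Sp V A k R => lab ω x = lab ω y) ≤ 1 / (R : ℝ) ^ 6 := by
  have : Nonempty (Val k R) := ⟨(⟨0, by positivity⟩, ⟨0, hk⟩, ⟨0, hR⟩)⟩
  have hR' : (0 : ℝ) < R := by exact_mod_cast hR
  have h1 : pr (fun ω : Sp V A k R => lab ω x = lab ω y) ≤
      pr (fun ω : Sp V A k R => ∃ l ∈ (univ : Finset (Fin (R ^ 6))),
        ∀ i ∈ ({Sum.inl x, Sum.inl y} : Finset (Site V A)), (ω i).1 = l) := by
    apply pr_mono
    intro ω h
    refine ⟨(ω (Sum.inl x)).1, mem_univ _, ?_⟩
    intro i hi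
    rw [Finset.mem_insert, Finset.mem_singleton] at hi
    rcases hi with rfl | rfl
    · rfl
    · exact (Fin.ext h).symm
  have h2 : ∀ l ∈ (univ : Finset (Fin (R ^ 6))),
      pr (fun ω : Sp V A k R =>
        ∀ i ∈ ({Sum.inl x, Sum.inl y} : Finset (Site V A)), (ω i).1 = l) ≤
        (1 / (R : ℝ) ^ 6) * (1 / (R : ℝ) ^ 6) := by
    intro l _
    have h3 := pr_cyl ({Sum.inl x, Sum.inl y} : Finset (Site V A))
      (fun (_ : Site V A) (p : Val k R) => p.1 = l)
    have hne : (Sum.inl x : Site V A) ≠ Sum.inl y := fun h => hxy (Sum.inl.inj h)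
    rw [Finset.prod_pair hne, pr_fst hk hR] at h3
    apply le_of_eq
    exact (p7_inst _ _ _).trans h3
  refine le_trans h1 (le_trans (pr_exists_le_card _ _ _ h2) ?_)
  rw [Finset.card_univ, Fintype.card_fin]
  push_cast
  apply le_of_eq
  field_simp

theorem lab_tie (hk : 0 < k) (hR : 0 < R) (W : Finset (Item V A)) :
    pr (fun ω : Sp V A k R => ∃ x ∈ W, ∃ y ∈ W, x ≠ y ∧ lab ω x = lab ω y) ≤
      (W.card : ℝ) ^ 2 / (R : ℝ) ^ 6 := by
  have hR' : (0 : ℝ) < R := by exact_mod_cast hR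
  have h1 : pr (fun ω : Sp V A k R => ∃ x ∈ W, ∃ y ∈ W, x ≠ y ∧ lab ω x = lab ω y) ≤
      pr (fun ω : Sp V A k R => ∃ p ∈ W ×ˢ W, p.1 ≠ p.2 ∧ lab ω p.1 = lab ω p.2) := by
    apply pr_mono
    rintro ω ⟨x, hx, y, hy, h⟩
    exact ⟨(x, y), Finset.mem_product.mpr ⟨hx, hy⟩, h⟩
  have h2 : ∀ p ∈ W ×ˢ W,
      pr (fun ω : Sp V A k R => p.1 ≠ p.2 ∧ lab ω p.1 = lab ω p.2) ≤ 1 / (R : ℝ) ^ 6 := by
    intro p _
    by_cases hp : p.1 = p.2
    · have h3 : pr (fun ω : Sp V A k R => p.1 ≠ p.2 ∧ lab ω p.1 = lab ω p.2) = 0 := by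
        unfold pr cnt
        have h4 : {ω : Sp V A k R | p.1 ≠ p.2 ∧ lab ω p.1 = lab ω p.2} = ∅ := by
          ext ω
          simp [hp]
        rw [h4]
        simp
      rw [h3]
      positivity
    · exact le_trans (pr_mono (fun ω h => h.2)) (tie_two hk hR p.1 p.2 hp)
  refine le_trans h1 (le_trans (pr_exists_le_card _ _ _ h2) ?_)
  rw [Finset.card_product]
  push_cast
  apply le_of_eq
  ring

theorem lab_perm (σ : Equiv.Perm (Item V A)) (P : (Item V A → ℕ) → Prop) :
    pr (fun ω : Sp V A k R => P (fun x => lab ω (σ x))) =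
      pr (fun ω : Sp V A k R => P (fun x => lab ω x)) :=
  pr_equiv (Equiv.arrowCongr (Equiv.sumCongr σ (Equiv.refl V)).symm (Equiv.refl (Val k R)) :
    Sp V A k R ≃ Sp V A k R) (fun ω => P (fun x => lab ω x))

end

end Pool.Agent.MP_61eeb2_co.EX
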