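import Pool.Agent.Lib.MP_61eeb2_co.EX.Def
import Pool.Agent.Lib.MP_61eeb2_co.EX.P7

/-!
MP_61eeb2_co, exact bound k * D, module P8a: probability of having the lowest label.

PROOF. For x in W let L x be the event (for all y in W, y <> x: lab x < lab y). The events L x, x
in W, are pairwise disjoint; if none of them holds there is a tie in W (the minimum of lab on W is
attained twice): lab_tie. So sum over x in W of pr (L x) = pr (exists x in W, L x) (pr_exists_eq)
>= 1 - |W|^2 / R^6 (pr_not, pr_mono). All pr (L x) are equal for x in W: lab_perm with σ =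
Equiv.swap x x' (it maps W to W). So |W| pr (L x) >= 1 - |W|^2/R^6.
-/

set_option autoImplicit false

namespace Pool.Agent.MP_61eeb2_co.EX

open Finset Classical

section

variable {V A : Type} [Fintype V] [Fintype A] {k R : ℕ}

private theorem low1_eq (W : Finset (Item V A)) (x x' : Item V A) (hx : x ∈ W) (hx' : x' ∈ W) :
    pr (fun ω : Sp V A k R => ∀ y ∈ W, y ≠ x' → lab ω x' < lab ω y) =
      pr (fun ω : Sp V A k R => ∀ y ∈ W, y ≠ x → lab ω x < lab ω y) := by
  have h1 := lab_perm (k := k) (R := R) (Equiv.swap x x')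
    (fun l => ∀ y ∈ W, y ≠ x → l x < l y)
  rw [← h1]
  have hmap : ∀ y ∈ W, Equiv.swap x x' y ∈ W := by
    intro y hy
    by_cases h2 : y = x
    · rw [h2, Equiv.swap_apply_left]
      exact hx'
    by_cases h3 : y = x'
    · rw [h3, Equiv.swap_apply_right]
      exact hx
    rw [Equiv.swap_apply_of_ne_of_ne h2 h3]
    exact hy
  congr 1
  funext ω
  apply propext
  simp only [Equiv.swap_apply_left]
  constructor
  · intro h y hy hyx
    refine h _ (hmap y hy) ?_
    intro h2
    apply hyx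
    have h3 := congrArg (Equiv.swap x x') h2
    rw [Equiv.swap_apply_self, Equiv.swap_apply_right] at h3
    exact h3
  · intro h y hy hyx
    have h2 := h _ (hmap y hy) (by
      intro h3
      apply hyx
      have h4 := congrArg (Equiv.swap x x') h3
      rw [Equiv.swap_apply_self, Equiv.swap_apply_left] at h4
      exact h4)
    rw [Equiv.swap_apply_self] at h2
    exact h2

theorem low1 (hk : 0 < k) (hR : 0 < R) (W : Finset (Item V A)) (x : Item V A) (hx : x ∈ W) :
    (1 - (W.card : ℝ) ^ 2 / (R : ℝ) ^ 6) / (W.card : ℝ) ≤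
      pr (fun ω : Sp V A k R => ∀ y ∈ W, y ≠ x → lab ω x < lab ω y) := by
  have hne : Nonempty (Sp V A k R) :=
    ⟨fun _ => (⟨0, pow_pos hR 6⟩, ⟨0, hk⟩, ⟨0, hR⟩)⟩
  have hW : (0 : ℝ) < (W.card : ℝ) := by
    exact_mod_cast card_pos.2 ⟨x, hx⟩
  have h1 := pr_exists_eq W
    (fun x (ω : Sp V A k R) => ∀ y ∈ W, y ≠ x → lab ω x < lab ω y) (by
      intro g hg g' hg' hgg ω h2 h3
      have h4 := h2 g' hg' (fun h => hgg h.symm)
      have h5 := h3 g hg hgg
      omega)
  have h2 : ∀ x' ∈ W, pr (fun ω : Sp V A k R => ∀ y ∈ W, y ≠ x' → lab ω x' < lab ω y) =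
      pr (fun ω : Sp V A k R => ∀ y ∈ W, y ≠ x → lab ω x < lab ω y) := fun x' hx' =>
    low1_eq W x x' hx hx'
  rw [sum_congr rfl h2, sum_const, nsmul_eq_mul] at h1
  have h3 := pr_not (fun ω : Sp V A k R => ∃ x ∈ W, ∀ y ∈ W, y ≠ x → lab ω x < lab ω y)
  have h4 : pr (fun ω : Sp V A k R => ¬ ∃ x ∈ W, ∀ y ∈ W, y ≠ x → lab ω x < lab ω y) ≤
      pr (fun ω : Sp V A k R => ∃ x ∈ W, ∃ y ∈ W, x ≠ y ∧ lab ω x = lab ω y) := by
    apply pr_mono
    intro ω hω
    obtain ⟨z, hz, hmin⟩ := exists_min_image W (lab ω) ⟨x, hx⟩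
    push Not at hω
    obtain ⟨y, hy, hyz, hle⟩ := hω z hz
    exact ⟨z, hz, y, hy, fun h => hyz h.symm, le_antisymm (hmin y hy) hle⟩
  have h5 := lab_tie (V := V) (A := A) hk hR W
  rw [div_le_iff₀ hW]
  linarith

end

end Pool.Agent.MP_61eeb2_co.EX
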