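import Pool.Agent.Lib.MP_61eeb2_co.EX.Def
import Pool.Agent.Lib.MP_61eeb2_co.EX.P1

/-!
MP_61eeb2_co, exact bound k * D, module P2: independence of events with disjoint supports.

PROOF. pr_and: cnt_indep of LLL.lean with I (Q does not change if the coordinates outside I are
kept: J is disjoint from I), divide by the square of the cardinality (positive as the function
type is nonempty). pr_forall: induction on S (Finset.induction_on); the event for all a in S
depends on the union of the I a (biUnion), which is disjoint from I g for the new g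
(Finset.disjoint_biUnion_right); DepOn passes to it. pr_none_le: apply pr_forall to the negations
(DepOn of not P: the condition of DepOn is symmetric in the two points), pr (not P a) = 1 - pr (P
a) <= 1 - p <= exp (- p) (Real.add_one_le_exp (-p)), and 0 <= pr; so the product is at most exp (-
p) ^ card = exp (- (p * card)) (Finset.prod_le_pow_card or prod_le_prod, Real.exp_nat_mul).
-/

set_option autoImplicit false

namespace Pool.Agent.MP_61eeb2_co.EX

open Finset Classical

section

variable {ι κ : Type*} [Fintype ι] [Fintype κ] [Nonempty κ]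

private theorem P2_card_pos : (0 : ℝ) < (Fintype.card (ι → κ) : ℝ) := by
  exact_mod_cast Fintype.card_pos

theorem pr_and (I J : Finset ι) (hIJ : Disjoint I J) (P Q : (ι → κ) → Prop)
    (hP : DepOn I P) (hQ : DepOn J Q) :
    pr (fun ω => P ω ∧ Q ω) = pr P * pr Q := by
  have hc := P2_card_pos (ι := ι) (κ := κ)
  have h1 : cnt (fun ω => P ω ∧ Q ω) * cnt (fun _ : ι → κ => True) = cnt P * cnt Q := by
    apply cnt_indep I P Q
    · exact hP
    · intro ω ω' h
      exact hQ ω ω' fun j hj => h j (Finset.disjoint_right.1 hIJ hj)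
  have h2 : cnt (fun _ : ι → κ => True) = (Fintype.card (ι → κ) : ℝ) := by
    rw [cnt_true]
  unfold pr
  rw [h2] at h1
  rw [div_mul_div_comm, ← h1, mul_div_mul_right _ _ hc.ne']

theorem pr_forall {α : Type*} (S : Finset α) (I : α → Finset ι) (P : α → (ι → κ) → Prop)
    (hI : ∀ a ∈ S, ∀ b ∈ S, a ≠ b → Disjoint (I a) (I b)) (hP : ∀ a ∈ S, DepOn (I a) (P a)) :
    pr (fun ω => ∀ a ∈ S, P a ω) = ∏ a ∈ S, pr (P a) := by
  induction S using Finset.induction_on with
  | empty =>
    simp only [Finset.prod_empty]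
    have h1 : (fun ω : ι → κ => ∀ a ∈ (∅ : Finset α), P a ω) = fun _ => True := by
      funext ω
      simp
    rw [h1]
    exact pr_true
  | insert g S hg ih =>
    have h1 : (fun ω : ι → κ => ∀ a ∈ insert g S, P a ω) =
        fun ω => P g ω ∧ ∀ a ∈ S, P a ω := by
      funext ω
      rw [Finset.forall_mem_insert]
    rw [h1, Finset.prod_insert hg, pr_and (I g) (S.biUnion I) _ (P g) _ (hP g
      (Finset.mem_insert_self g S)), ih (fun a ha b hb => hI a (Finset.mem_insert_of_mem ha) b
      (Finset.mem_insert_of_mem hb)) fun a ha => hP a (Finset.mem_insert_of_mem ha)]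
    · intro ω ω' h h2 a ha
      exact hP a (Finset.mem_insert_of_mem ha) ω ω'
        (fun i hi => h i (Finset.mem_biUnion.2 ⟨a, ha, hi⟩)) (h2 a ha)
    · rw [Finset.disjoint_biUnion_right]
      intro a ha
      exact hI g (Finset.mem_insert_self g S) a (Finset.mem_insert_of_mem ha) fun h =>
        hg (h ▸ ha)

theorem pr_none_le {α : Type*} (S : Finset α) (I : α → Finset ι) (P : α → (ι → κ) → Prop)
    (hI : ∀ a ∈ S, ∀ b ∈ S, a ≠ b → Disjoint (I a) (I b)) (hP : ∀ a ∈ S, DepOn (I a) (P a))
    (p : ℝ) (hp : ∀ a ∈ S, p ≤ pr (P a)) :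
    pr (fun ω => ∀ a ∈ S, ¬ P a ω) ≤ Real.exp (-(p * S.card)) := by
  have hD : ∀ a ∈ S, DepOn (I a) (fun ω => ¬ P a ω) := fun a ha ω ω' h h1 h2 =>
    h1 (hP a ha ω' ω (fun i hi => (h i hi).symm) h2)
  rw [pr_forall S I (fun a ω => ¬ P a ω) hI hD]
  have h1 : ∀ a ∈ S, pr (fun ω => ¬ P a ω) ≤ Real.exp (-p) := by
    intro a ha
    rw [pr_not]
    have h2 := Real.add_one_le_exp (-p)
    have h3 := hp a ha
    linarith
  have h2 : ∏ a ∈ S, pr (fun ω => ¬ P a ω) ≤ ∏ _a ∈ S, Real.exp (-p) :=
    Finset.prod_le_prod (fun a _ => pr_nonneg _) h1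
  rw [Finset.prod_const, ← Real.exp_nat_mul] at h2
  refine h2.trans (le_of_eq ?_)
  congr 1
  ring

end

end Pool.Agent.MP_61eeb2_co.EX
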