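import Pool.Agent.Lib.MP_61eeb2_co.EX.Def
import Pool.Agent.Lib.MP_61eeb2_co.EX.P7

/-!
MP_61eeb2_co, exact bound k * D, module P8b: probability of having the two lowest labels.

PROOF. For distinct x, z in W let L (x, z) be the event (lab x < lab z and lab z < lab y for all
other y in W). These events are pairwise disjoint for different pairs, and if none holds there is
a tie in W (take the minimum x of the labels in W and the minimum z in W \ {x}). So the sum of pr
(L (x,z)) over the |W| (|W| - 1) pairs (Finset.offDiag W) is at least 1 - |W|^2 / R^6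
(pr_exists_eq, lab_tie). All these probabilities are equal (lab_perm with a permutation of the
items which maps W to W and (x,z) to (x',z'), e.g. a product of two swaps: first swap x x', then
swap (image of z) z'). Hence pr (L (x,z)) >= (1 - |W|^2/R^6) / (|W| (|W| - 1)) >= (1 - |W|^2/R^6)
/ |W|^2 if 1 - |W|^2/R^6 >= 0; otherwise the left side is negative and pr >= 0.
-/

set_option autoImplicit false

namespace Pool.Agent.MP_61eeb2_co.EX

open Finset Classical

section

variable {V A : Type} [Fintype V] [Fintype A] {k R : ℕ}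

private theorem low2_eq (W : Finset (Item V A)) (σ : Equiv.Perm (Item V A))
    (hσ : ∀ y ∈ W, σ y ∈ W) (x z : Item V A) :
    pr (fun ω : Sp V A k R => lab ω (σ x) < lab ω (σ z) ∧
      ∀ y ∈ W, y ≠ σ x → y ≠ σ z → lab ω (σ z) < lab ω y) =
    pr (fun ω : Sp V A k R => lab ω x < lab ω z ∧
      ∀ y ∈ W, y ≠ x → y ≠ z → lab ω z < lab ω y) := by
  have h1 := lab_perm (k := k) (R := R) σ
    (fun l => l x < l z ∧ ∀ y ∈ W, y ≠ x → y ≠ z → l z < l y)
  rw [← h1]
  have hW : W.map σ.toEmbedding = W := by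
    refine Finset.eq_of_subset_of_card_le ?_ (by rw [Finset.card_map])
    intro y hy
    rw [Finset.mem_map] at hy
    obtain ⟨a, ha, rfl⟩ := hy
    exact hσ a ha
  congr 1
  funext ω
  apply propext
  constructor
  · rintro ⟨h2, h3⟩
    refine ⟨h2, fun y hy hyx hyz => h3 _ (hσ y hy) ?_ ?_⟩
    · intro h
      exact hyx (σ.injective h)
    · intro h
      exact hyz (σ.injective h)
  · rintro ⟨h2, h3⟩
    refine ⟨h2, fun y hy hyx hyz => ?_⟩
    rw [← hW, Finset.mem_map] at hy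
    obtain ⟨a, ha, rfl⟩ := hy
    refine h3 a ha ?_ ?_
    · rintro rfl
      exact hyx rfl
    · rintro rfl
      exact hyz rfl

omit [Fintype V] [Fintype A] in
private theorem low2_swap (W : Finset (Item V A)) (a b : Item V A) (ha : a ∈ W) (hb : b ∈ W) :
    ∀ y ∈ W, Equiv.swap a b y ∈ W := by
  intro y hy
  by_cases h2 : y = a
  · rw [h2, Equiv.swap_apply_left]
    exact hb
  by_cases h3 : y = b
  · rw [h3, Equiv.swap_apply_right]
    exact ha
  rw [Equiv.swap_apply_of_ne_of_ne h2 h3]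
  exact hy

private theorem low2_pair (W : Finset (Item V A)) (x z x' z' : Item V A) (hx : x ∈ W)
    (hz : z ∈ W) (hxz : x ≠ z) (hx' : x' ∈ W) (hz' : z' ∈ W) (hxz' : x' ≠ z') :
    pr (fun ω : Sp V A k R => lab ω x' < lab ω z' ∧
      ∀ y ∈ W, y ≠ x' → y ≠ z' → lab ω z' < lab ω y) =
    pr (fun ω : Sp V A k R => lab ω x < lab ω z ∧
      ∀ y ∈ W, y ≠ x → y ≠ z → lab ω z < lab ω y) := by
  obtain ⟨u, hu⟩ : ∃ u, u = Equiv.swap x x' z := ⟨_, rfl⟩
  have huW : u ∈ W := by
    rw [hu]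
    exact low2_swap W x x' hx hx' z hz
  have hux : x' ≠ u := by
    intro h
    rw [hu] at h
    have h1 := congrArg (Equiv.swap x x') h
    rw [Equiv.swap_apply_self, Equiv.swap_apply_right] at h1
    exact hxz h1
  obtain ⟨σ, hσ⟩ : ∃ σ : Equiv.Perm (Item V A), σ = Equiv.swap u z' * Equiv.swap x x' :=
    ⟨_, rfl⟩
  have h1 : σ x = x' := by
    rw [hσ, Equiv.Perm.mul_apply, Equiv.swap_apply_left, Equiv.swap_apply_of_ne_of_ne hux hxz']
  have h2 : σ z = z' := by
    rw [hσ, Equiv.Perm.mul_apply, ← hu, Equiv.swap_apply_left]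
  have h3 : ∀ y ∈ W, σ y ∈ W := by
    intro y hy
    rw [hσ, Equiv.Perm.mul_apply]
    exact low2_swap W u z' huW hz' _ (low2_swap W x x' hx hx' y hy)
  have h4 := low2_eq (k := k) (R := R) W σ h3 x z
  rw [h1, h2] at h4
  exact h4

theorem low2 (hk : 0 < k) (hR : 0 < R) (W : Finset (Item V A)) (x z : Item V A) (hx : x ∈ W)
    (hz : z ∈ W) (hxz : x ≠ z) :
    (1 - (W.card : ℝ) ^ 2 / (R : ℝ) ^ 6) / (W.card : ℝ) ^ 2 ≤
      pr (fun ω : Sp V A k R => lab ω x < lab ω z ∧
        ∀ y ∈ W, y ≠ x → y ≠ z → lab ω z < lab ω y) := by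
  have hne : Nonempty (Sp V A k R) :=
    ⟨fun _ => (⟨0, pow_pos hR 6⟩, ⟨0, hk⟩, ⟨0, hR⟩)⟩
  have hW : (0 : ℝ) < (W.card : ℝ) := by
    exact_mod_cast card_pos.2 ⟨x, hx⟩
  have h1 := pr_exists_eq W.offDiag
    (fun p (ω : Sp V A k R) => lab ω p.1 < lab ω p.2 ∧
      ∀ y ∈ W, y ≠ p.1 → y ≠ p.2 → lab ω p.2 < lab ω y) (by
      rintro ⟨a, b⟩ hg ⟨a', b'⟩ hg' hgg ω ⟨h2, h3⟩ ⟨h4, h5⟩
      rw [Finset.mem_offDiag] at hg hg'
      obtain ⟨ha, hb, hab⟩ := hg
      obtain ⟨ha', hb', hab'⟩ := hg'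
      simp only at ha hb hab ha' hb' hab' h2 h3 h4 h5
      have e1 : ∀ y ∈ W, y ≠ a → lab ω a < lab ω y := by
        intro y hy hya
        by_cases hyb : y = b
        · rw [hyb]
          exact h2
        · exact h2.trans (h3 y hy hya hyb)
      have e2 : ∀ y ∈ W, y ≠ a' → lab ω a' < lab ω y := by
        intro y hy hya
        by_cases hyb : y = b'
        · rw [hyb]
          exact h4
        · exact h4.trans (h5 y hy hya hyb)
      have e3 : a = a' := by
        by_contra hc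
        have := e1 a' ha' fun h => hc h.symm
        have := e2 a ha hc
        omega
      subst e3
      have e4 : b = b' := by
        by_contra hc
        have := h3 b' hb' (fun h => hab' h.symm) fun h => hc h.symm
        have := h5 b hb (fun h => hab h.symm) hc
        omega
      exact hgg (by rw [e4]))
  have h2 : ∀ p ∈ W.offDiag, pr (fun ω : Sp V A k R => lab ω p.1 < lab ω p.2 ∧
      ∀ y ∈ W, y ≠ p.1 → y ≠ p.2 → lab ω p.2 < lab ω y) =
      pr (fun ω : Sp V A k R => lab ω x < lab ω z ∧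
        ∀ y ∈ W, y ≠ x → y ≠ z → lab ω z < lab ω y) := by
    intro p hp
    rw [Finset.mem_offDiag] at hp
    exact low2_pair W x z p.1 p.2 hx hz hxz hp.1 hp.2.1 hp.2.2
  rw [sum_congr rfl h2, sum_const, nsmul_eq_mul] at h1
  have h3 := pr_not (fun ω : Sp V A k R => ∃ p ∈ W.offDiag, lab ω p.1 < lab ω p.2 ∧
      ∀ y ∈ W, y ≠ p.1 → y ≠ p.2 → lab ω p.2 < lab ω y)
  have h4 : pr (fun ω : Sp V A k R => ¬ ∃ p ∈ W.offDiag, lab ω p.1 < lab ω p.2 ∧
      ∀ y ∈ W, y ≠ p.1 → y ≠ p.2 → lab ω p.2 < lab ω y) ≤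
      pr (fun ω : Sp V A k R => ∃ x ∈ W, ∃ y ∈ W, x ≠ y ∧ lab ω x = lab ω y) := by
    apply pr_mono
    intro ω hω
    by_contra hno
    push Not at hno
    apply hω
    obtain ⟨a, ha, hmin⟩ := exists_min_image W (lab ω) ⟨x, hx⟩
    have hex : (W.erase a).Nonempty := by
      by_cases hxa : x = a
      · exact ⟨z, mem_erase.2 ⟨fun h => hxz (hxa.trans h.symm), hz⟩⟩
      · exact ⟨x, mem_erase.2 ⟨hxa, hx⟩⟩
    obtain ⟨b, hb, hmin2⟩ := exists_min_image (W.erase a) (lab ω) hex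
    rw [mem_erase] at hb
    refine ⟨(a, b), Finset.mem_offDiag.2 ⟨ha, hb.2, fun h => hb.1 h.symm⟩, ?_, ?_⟩
    · exact lt_of_le_of_ne (hmin b hb.2) (hno a ha b hb.2 fun h => hb.1 h.symm)
    · intro y hy hya hyb
      exact lt_of_le_of_ne (hmin2 y (mem_erase.2 ⟨hya, hy⟩))
        (hno b hb.2 y hy fun h => hyb h.symm)
  have h5 := lab_tie (V := V) (A := A) hk hR W
  have h6 := pr_nonneg (fun ω : Sp V A k R => lab ω x < lab ω z ∧
        ∀ y ∈ W, y ≠ x → y ≠ z → lab ω z < lab ω y)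
  have h7 : (W.offDiag.card : ℝ) ≤ (W.card : ℝ) ^ 2 := by
    have : W.offDiag.card ≤ W.card ^ 2 := by
      rw [Finset.offDiag_card, sq]
      exact Nat.sub_le _ _
    exact_mod_cast this
  have h8 := mul_le_mul_of_nonneg_right h7 h6
  rw [div_le_iff₀ (by positivity)]
  linarith

end

end Pool.Agent.MP_61eeb2_co.EX
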