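import Pool.Agent.Lib.MP_61eeb2_co.EX.Def

/-!
MP_61eeb2_co, exact bound k * D, module R2: top items and the order of the vertices (10 short
lemmas).

PROOF. rk = lab * card + index with index < card (Fintype.equivFin): rk_inj by uniqueness of
division with remainder (Nat.mod, Nat.div) and injectivity of equivFin; rk_lt_of_lab_lt: lab y >=
lab x + 1. top_exists: the set rk '' At I v of natural numbers is nonempty, so ta I ω v = sInf is
in it (Nat.sInf_mem): some x ∈ At I v with rk x = ta; the filtered set in the definition of sg is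
{x} by rk_inj, so sg = x.1. ta_le: Nat.sInf_le. mem_sg: top_exists, v ∈ x.1 (mem_At).
ta_le_of_mem_sg: w ∈ sg I ω v: unfold sg, mem_biUnion: w ∈ x.1 with x ∈ At I v, rk x = ta v; then
x ∈ At I w, so ta w <= rk x. sg_eq_of_ta_eq: top_exists for v and w, rk_inj. rho = (2 ta + flag) *
card V + index, flag ∈ {0,1}, index < card V: elementary (rho_lt_of_ta_lt: 2 ta u + 1 < 2 ta v;
rho_lt_of_srv: flags 0 and 1; rho_inj: the remainder mod card V is the index).
-/

set_option autoImplicit false

namespace Pool.Agent.MP_61eeb2_co.EX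

open Finset Classical

section

variable {V A : Type} [Fintype V] [Fintype A] {k R : ℕ}

private theorem divrem_aux {n a b i j : ℕ} (hi : i < n) (hj : j < n)
    (h : a * n + i = b * n + j) : a = b ∧ i = j := by
  have hab : a = b := by
    rcases lt_trichotomy a b with hlt | heq | hgt
    · exfalso
      have : (a + 1) * n ≤ b * n := Nat.mul_le_mul_right n hlt
      rw [Nat.add_mul, Nat.one_mul] at this
      omega
    · exact heq
    · exfalso
      have : (b + 1) * n ≤ a * n := Nat.mul_le_mul_right n hgt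
      rw [Nat.add_mul, Nat.one_mul] at this
      omega
  subst hab
  exact ⟨rfl, by omega⟩

private theorem divlt_aux {n a b i j : ℕ} (hi : i < n) (h : a < b) :
    a * n + i < b * n + j := by
  have : (a + 1) * n ≤ b * n := Nat.mul_le_mul_right n h
  rw [Nat.add_mul, Nat.one_mul] at this
  omega

theorem rk_inj (ω : Sp V A k R) (x y : Item V A) (h : rk ω x = rk ω y) : x = y := by
  unfold rk at h
  have h2 := (divrem_aux (Fintype.equivFin (Item V A) x).isLt
    (Fintype.equivFin (Item V A) y).isLt h).2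
  exact (Fintype.equivFin (Item V A)).injective (Fin.ext h2)

theorem rk_lt_of_lab_lt (ω : Sp V A k R) (x y : Item V A) (h : lab ω x < lab ω y) :
    rk ω x < rk ω y := by
  unfold rk
  exact divlt_aux (Fintype.equivFin (Item V A) x).isLt h

theorem top_exists (I : Finset (Item V A)) (ω : Sp V A k R) (v : V) (h : (At I v).Nonempty) :
    ∃ x ∈ At I v, rk ω x = ta I ω v ∧ sg I ω v = x.1 := by
  have hne : (rk ω '' (At I v : Set (Item V A))).Nonempty := by
    obtain ⟨x, hx⟩ := h
    exact ⟨rk ω x, x, hx, rfl⟩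
  obtain ⟨x, hx, hxt⟩ := Nat.sInf_mem hne
  have hx' : x ∈ At I v := hx
  have hxt' : rk ω x = ta I ω v := hxt
  refine ⟨x, hx', hxt', ?_⟩
  unfold sg
  ext w
  rw [Finset.mem_biUnion]
  constructor
  · rintro ⟨y, hy, hw⟩
    rw [mem_flt] at hy
    have : y = x := rk_inj ω y x (hy.2.trans hxt'.symm)
    rw [← this]
    exact hw
  · intro hw
    exact ⟨x, mem_flt.mpr ⟨hx', hxt'⟩, hw⟩

theorem ta_le (I : Finset (Item V A)) (ω : Sp V A k R) (v : V) (x : Item V A)
    (h : x ∈ At I v) : ta I ω v ≤ rk ω x := by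
  unfold ta
  exact Nat.sInf_le ⟨x, h, rfl⟩

theorem mem_sg (I : Finset (Item V A)) (ω : Sp V A k R) (v : V) (h : (At I v).Nonempty) :
    v ∈ sg I ω v := by
  obtain ⟨x, hx, _, hs⟩ := top_exists I ω v h
  rw [hs]
  exact (mem_At.mp hx).2

theorem ta_le_of_mem_sg (I : Finset (Item V A)) (ω : Sp V A k R) (v w : V)
    (h : w ∈ sg I ω v) : ta I ω w ≤ ta I ω v := by
  unfold sg at h
  rw [Finset.mem_biUnion] at h
  obtain ⟨x, hx, hw⟩ := h
  rw [mem_flt] at hx
  have hxw : x ∈ At I w := mem_At.mpr ⟨(mem_At.mp hx.1).1, hw⟩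
  calc ta I ω w ≤ rk ω x := ta_le I ω w x hxw
    _ = ta I ω v := hx.2

theorem sg_eq_of_ta_eq (I : Finset (Item V A)) (hI : ∀ v, (At I v).Nonempty)
    (ω : Sp V A k R) (v w : V) (h : ta I ω v = ta I ω w) : sg I ω v = sg I ω w := by
  obtain ⟨x, _, hxt, hxs⟩ := top_exists I ω v (hI v)
  obtain ⟨y, _, hyt, hys⟩ := top_exists I ω w (hI w)
  have : x = y := rk_inj ω x y (hxt.trans (h.trans hyt.symm))
  rw [hxs, hys, this]

theorem rho_lt_of_ta_lt (I : Finset (Item V A)) (ω : Sp V A k R) (srv : V → Option A)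
    (u v : V) (h : ta I ω u < ta I ω v) : rho I ω srv u < rho I ω srv v := by
  unfold rho
  apply divlt_aux (Fintype.equivFin V u).isLt
  split_ifs <;> omega

theorem rho_lt_of_srv (I : Finset (Item V A)) (ω : Sp V A k R) (srv : V → Option A)
    (u v : V) (h : ta I ω u = ta I ω v) (hu : srv u ≠ none) (hv : srv v = none) :
    rho I ω srv u < rho I ω srv v := by
  unfold rho
  apply divlt_aux (Fintype.equivFin V u).isLt
  rw [if_neg hu, if_pos hv, h]
  omega

theorem rho_inj (I : Finset (Item V A)) (ω : Sp V A k R) (srv : V → Option A)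
    (u v : V) (h : rho I ω srv u = rho I ω srv v) : u = v := by
  unfold rho at h
  have h2 := (divrem_aux (Fintype.equivFin V u).isLt (Fintype.equivFin V v).isLt h).2
  exact (Fintype.equivFin V).injective (Fin.ext h2)

end

end Pool.Agent.MP_61eeb2_co.EX
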