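import Pool.Agent.Lib.MP_61eeb2_co.EX.Def
import Pool.Agent.Lib.MP_61eeb2_co.EX.P2
import Pool.Agent.Lib.MP_61eeb2_co.EX.P3
import Pool.Agent.Lib.MP_61eeb2_co.EX.P8b
import Pool.Agent.Lib.MP_61eeb2_co.EX.R2

/-!
MP_61eeb2_co, exact bound k * D, module W0: the two lowest items.

PROOF. slack_imp: z ∈ At I v, so v ∈ z.1 and At I v ⊆ Touch I z.1; x ∈ Touch I z.1. x has the
strictly lowest label in Touch I z.1, so x is the top item at v and at every w ∈ z.1 ∩ x.1; for w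
∈ z.1, w ∉ x.1 the item z is the lowest at w (every other item at w touches z.1 and is not x). So
ta w = rk x = ta v or ta w = rk z (top_exists, ta_le, rk_lt_of_lab_lt). sg v = x.1. Op: not cand v
as v ∈ z.1; second alternative with the item z. slack_pr: pr_and (labels on inl Touch I z.1, flags
on inr z.1): the label part is >= (1 - |W|^2/R^6)/|W|^2 by low2 (P8b) with W = Touch I z.1, |W| <=
sum over w ∈ z.1 of |At I w| <= k (1 + e) R, e = 1/(200 k^2) (x, z ∈ W); the flag part is (1 -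
1/R)^|z.1| >= 1 - k/R (pr_cyl, Bernoulli). |W|^2 <= 1.011 k^2 R^2, so the product is >= (1 -
2k^2/R^4)(1 - k/R)/(1.011 k^2 R^2) >= 1/(2 k^2 R^2) for R large (R >= 100 k suffices).
-/

set_option autoImplicit false

namespace Pool.Agent.MP_61eeb2_co.EX

open Finset Classical

theorem slack_imp {V A : Type} [Fintype V] [Fintype A] {k R : ℕ} (I : Finset (Item V A))
    (v : V) (x z : Item V A) (hxz : x ≠ z) (hx : x ∈ At I v) (hz : z ∈ At I v)
    (ω : Sp V A k R) (h1 : lab ω x < lab ω z)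
    (h2 : ∀ y ∈ Touch I z.1, y ≠ x → y ≠ z → lab ω z < lab ω y)
    (h3 : ∀ w ∈ z.1, ¬ cand ω w) : sg I ω v = x.1 ∧ Op I ω v z.1 := by
  have hvz : v ∈ z.1 := (mem_At.mp hz).2
  have hzI : z ∈ I := (mem_At.mp hz).1
  have hT : ∀ w ∈ z.1, ∀ y ∈ At I w, y ∈ Touch I z.1 := by
    intro w hw y hy
    obtain ⟨hyI, hwy⟩ := mem_At.mp hy
    exact mem_Touch.mpr ⟨hyI, Finset.not_disjoint_iff.mpr ⟨w, hwy, hw⟩⟩
  have hxz' : rk ω x < rk ω z := rk_lt_of_lab_lt ω x z h1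
  -- the top item at `v`
  obtain ⟨y, hy, hry, hsg⟩ := top_exists I ω v ⟨x, hx⟩
  have hle : ta I ω v ≤ rk ω x := ta_le I ω v x hx
  have hyx : y = x := by
    by_contra hne
    by_cases hyz : y = z
    · rw [hyz] at hry
      omega
    · have h4 := rk_lt_of_lab_lt ω z y (h2 y (hT v hvz y hy) hne hyz)
      omega
  rw [hyx] at hry hsg
  refine ⟨hsg, h3 v hvz, Or.inr ⟨h3, z, hz, rfl, fun w hw => ?_⟩⟩
  have hzw : z ∈ At I w := mem_At.mpr ⟨hzI, hw⟩
  obtain ⟨y', hy', hry', -⟩ := top_exists I ω w ⟨z, hzw⟩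
  have hle' : ta I ω w ≤ rk ω z := ta_le I ω w z hzw
  by_cases hyx' : y' = x
  · left
    rw [← hry', ← hry, hyx']
  · by_cases hyz' : y' = z
    · right
      rw [← hry', hyz']
    · exfalso
      have h4 := rk_lt_of_lab_lt ω z y' (h2 y' (hT w hw y' hy') hyx' hyz')
      omega

private theorem W0_inst {Ω : Type*} (i j : Fintype Ω) (P : Ω → Prop) :
    @pr Ω i P = @pr Ω j P := by
  rw [Subsingleton.elim i j]

private theorem W0_flag (k R : ℕ) (hk : 0 < k) (hR : 0 < R) :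
    pr (fun y : Val k R => ((y.2.2 : ℕ) = 0)) = 1 / (R : ℝ) := by
  have h1 : cnt (fun y : Val k R => ((y.2.2 : ℕ) = 0)) = (R : ℝ) ^ 6 * k := by
    have h2 : {y : Val k R | ((y.2.2 : ℕ) = 0)} =
        ((Finset.univ ×ˢ (Finset.univ ×ˢ {(⟨0, hR⟩ : Fin R)}) : Finset (Val k R)) :
          Set (Val k R)) := by
      ext y
      simp only [Set.mem_ofPred_eq, Finset.coe_product, Finset.coe_univ, Finset.coe_singleton,
        Set.mem_prod, Set.mem_univ, Set.mem_singleton_iff, true_and]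
      exact ⟨fun h => Fin.ext h, fun h => by rw [h]⟩
    unfold cnt
    rw [h2, Set.ncard_coe_finset, Finset.card_product, Finset.card_product,
      Finset.card_singleton, Finset.card_univ, Finset.card_univ, Fintype.card_fin,
      Fintype.card_fin]
    push_cast
    ring
  unfold pr
  rw [h1, Fintype.card_prod, Fintype.card_prod, Fintype.card_fin, Fintype.card_fin,
    Fintype.card_fin]
  have hk' : (k : ℝ) ≠ 0 := by exact_mod_cast hk.ne'
  have hR' : (R : ℝ) ≠ 0 := by exact_mod_cast hR.ne'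
  push_cast
  field_simp

private theorem W0_num (k R n : ℝ) (hk : 1 ≤ k) (hR : 100 * k ≤ R) (hn : 0 < n)
    (hn2 : n ≤ k * ((1 + 1 / (200 * k ^ 2)) * R)) :
    1 / (2 * k ^ 2 * R ^ 2) ≤ (1 - n ^ 2 / R ^ 6) / n ^ 2 * (1 - k / R) := by
  have hk0 : 0 < k := by linarith
  have hR0 : 0 < R := by linarith
  have hR1 : 100 ≤ R := by linarith
  have h1 : 1 / (200 * k ^ 2) ≤ 1 / 200 := by
    apply one_div_le_one_div_of_le (by norm_num)
    nlinarith
  have h2 : n ≤ k * (201 / 200 * R) := by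
    refine hn2.trans ?_
    apply mul_le_mul_of_nonneg_left _ hk0.le
    apply mul_le_mul_of_nonneg_right _ hR0.le
    linarith
  have h3 : n ^ 2 ≤ 1.011 * (k ^ 2 * R ^ 2) := by
    have h4 : n ^ 2 ≤ (k * (201 / 200 * R)) ^ 2 := pow_le_pow_left₀ hn.le h2 2
    have h5 : 0 ≤ k ^ 2 * R ^ 2 := by positivity
    nlinarith
  have hkR : k ^ 2 * R ^ 2 ≤ R ^ 6 / 10 ^ 8 := by
    have h4 : k ≤ R / 100 := by linarith
    have h5 : k ^ 2 ≤ (R / 100) ^ 2 := pow_le_pow_left₀ hk0.le h4 2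
    have h6 : (100 : ℝ) ^ 2 ≤ R ^ 2 := pow_le_pow_left₀ (by norm_num) hR1 2
    have h7 : k ^ 2 * R ^ 2 ≤ (R / 100) ^ 2 * R ^ 2 :=
      mul_le_mul_of_nonneg_right h5 (by positivity)
    have h8 : 0 ≤ R ^ 4 := by positivity
    have h9 : R ^ 4 * 100 ^ 2 ≤ R ^ 4 * R ^ 2 := mul_le_mul_of_nonneg_left h6 h8
    nlinarith
  have h5 : n ^ 2 / R ^ 6 ≤ 0.01 := by
    rw [div_le_iff₀ (by positivity)]
    nlinarith [pow_pos hR0 6]
  have h6 : k / R ≤ 0.01 := by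
    rw [div_le_iff₀ hR0]
    linarith
  have h7 : 0 < k ^ 2 * R ^ 2 := by positivity
  have h8 : 0.99 / (1.011 * (k ^ 2 * R ^ 2)) ≤ (1 - n ^ 2 / R ^ 6) / n ^ 2 := by
    apply div_le_div₀ (by linarith) (by linarith) (by positivity) h3
  have h9 : 0.99 / (1.011 * (k ^ 2 * R ^ 2)) * 0.99 ≤
      (1 - n ^ 2 / R ^ 6) / n ^ 2 * (1 - k / R) := by
    apply mul_le_mul h8 (by linarith) (by norm_num)
    exact le_trans (by positivity) h8
  refine le_trans ?_ h9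
  rw [show 0.99 / (1.011 * (k ^ 2 * R ^ 2)) * (0.99 : ℝ) =
    (0.99 * 0.99 / 1.011) * (1 / (k ^ 2 * R ^ 2)) by field_simp]
  rw [show 1 / (2 * k ^ 2 * R ^ 2) = (1 / 2) * (1 / (k ^ 2 * R ^ 2)) by
    rw [mul_assoc, one_div_mul_one_div]]
  apply mul_le_mul_of_nonneg_right _ (by positivity)
  norm_num

theorem slack_pr (k : ℕ) (hk1 : 1 ≤ k) : ∃ R₀ : ℕ, ∀ R ≥ R₀,
    ∀ (V A : Type) [Fintype V] [Fintype A] (I : Finset (Item V A)),
    (∀ x ∈ I, x.1.card ≤ k) → Even k R I → ∀ (v : V) (x z : Item V A), x ≠ z →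
    x ∈ At I v → z ∈ At I v →
    1 / (2 * (k : ℝ) ^ 2 * (R : ℝ) ^ 2) ≤
      pr (fun ω : Sp V A k R => (lab ω x < lab ω z ∧
        ∀ y ∈ Touch I z.1, y ≠ x → y ≠ z → lab ω z < lab ω y) ∧ ∀ w ∈ z.1, ¬ cand ω w) := by
  refine ⟨100 * k, fun R hR V A _ _ I hc hE v x z hxz hx hz => ?_⟩
  have hk0 : 0 < k := hk1
  have hR0 : 0 < R := by omega
  have : Nonempty (Val k R) := ⟨(⟨0, pow_pos hR0 6⟩, ⟨0, hk0⟩, ⟨0, hR0⟩)⟩
  have hvz : v ∈ z.1 := (mem_At.mp hz).2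
  have hzI : z ∈ I := (mem_At.mp hz).1
  set W := Touch I z.1 with hW
  have hxW : x ∈ W := mem_Touch.mpr ⟨(mem_At.mp hx).1,
    Finset.not_disjoint_iff.mpr ⟨v, (mem_At.mp hx).2, hvz⟩⟩
  have hzW : z ∈ W := mem_Touch.mpr ⟨hzI, Finset.not_disjoint_iff.mpr ⟨v, hvz, hvz⟩⟩
  -- the number of the touching items
  have hWc : (W.card : ℝ) ≤ k * ((1 + 1 / (200 * (k : ℝ) ^ 2)) * R) := by
    have h1 : W ⊆ z.1.biUnion (fun w => At I w) := by
      intro y hy
      obtain ⟨hyI, hd⟩ := mem_Touch.mp hy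
      obtain ⟨w, hwy, hw⟩ := Finset.not_disjoint_iff.mp hd
      exact Finset.mem_biUnion.mpr ⟨w, hw, mem_At.mpr ⟨hyI, hwy⟩⟩
    have h2 : W.card ≤ ∑ w ∈ z.1, (At I w).card :=
      (Finset.card_le_card h1).trans Finset.card_biUnion_le
    have h3 : ((∑ w ∈ z.1, (At I w).card : ℕ) : ℝ) ≤
        ∑ w ∈ z.1, ((1 + 1 / (200 * (k : ℝ) ^ 2)) * R) := by
      push_cast
      exact Finset.sum_le_sum fun w _ => (hE w).2
    have h4 : ∑ w ∈ z.1, ((1 + 1 / (200 * (k : ℝ) ^ 2)) * (R : ℝ)) =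
        (z.1.card : ℝ) * ((1 + 1 / (200 * (k : ℝ) ^ 2)) * R) := by
      rw [Finset.sum_const, nsmul_eq_mul]
    have h5 : (z.1.card : ℝ) ≤ k := by exact_mod_cast hc z hzI
    have h6 : (0 : ℝ) ≤ (1 + 1 / (200 * (k : ℝ) ^ 2)) * R := by positivity
    calc (W.card : ℝ) ≤ ((∑ w ∈ z.1, (At I w).card : ℕ) : ℝ) := by exact_mod_cast h2
      _ ≤ (z.1.card : ℝ) * ((1 + 1 / (200 * (k : ℝ) ^ 2)) * R) := h3.trans h4.le
      _ ≤ k * ((1 + 1 / (200 * (k : ℝ) ^ 2)) * R) := mul_le_mul_of_nonneg_right h5 h6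
  have hW0 : (0 : ℝ) < W.card := by
    exact_mod_cast Finset.card_pos.mpr ⟨x, hxW⟩
  -- the two parts of the event
  have hd : Disjoint (W.image Sum.inl : Finset (Site V A)) (z.1.image Sum.inr) := by
    rw [Finset.disjoint_left]
    intro i hi hj
    obtain ⟨a, -, rfl⟩ := Finset.mem_image.mp hi
    obtain ⟨b, -, hb⟩ := Finset.mem_image.mp hj
    exact absurd hb (by simp)
  have hL : DepOn (W.image Sum.inl : Finset (Site V A)) (fun ω : Sp V A k R =>
      lab ω x < lab ω z ∧ ∀ y ∈ W, y ≠ x → y ≠ z → lab ω z < lab ω y) := by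
    intro ω ω' h ⟨h1, h2⟩
    have h3 : ∀ y ∈ W, lab ω' y = lab ω y := by
      intro y hy
      unfold lab
      rw [h (Sum.inl y) (Finset.mem_image_of_mem _ hy)]
    refine ⟨?_, fun y hy hyx hyz => ?_⟩
    · rw [h3 x hxW, h3 z hzW]
      exact h1
    · rw [h3 z hzW, h3 y hy]
      exact h2 y hy hyx hyz
  have hF : DepOn (z.1.image Sum.inr : Finset (Site V A)) (fun ω : Sp V A k R =>
      ∀ w ∈ z.1, ¬ cand ω w) := by
    intro ω ω' h h1 w hw
    have h2 := h1 w hw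
    unfold cand at h2 ⊢
    rw [← h (Sum.inr w) (Finset.mem_image_of_mem _ hw)]
    exact h2
  have h0 := pr_and _ _ hd _ _ hL hF
  rw [W0_inst _ Pi.instFintype, W0_inst _ Pi.instFintype (fun ω : Sp V A k R =>
    lab ω x < lab ω z ∧ ∀ y ∈ W, y ≠ x → y ≠ z → lab ω z < lab ω y),
    W0_inst _ Pi.instFintype (fun ω : Sp V A k R => ∀ w ∈ z.1, ¬ cand ω w)] at h0
  refine le_of_le_of_eq ?_ h0.symm
  have h1 := low2 (k := k) (R := R) hk0 hR0 W x z hxW hzW hxz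
  -- the flags
  have h2 : pr (fun ω : Sp V A k R => ∀ w ∈ z.1, ¬ cand ω w) = (1 - 1 / (R : ℝ)) ^ z.1.card := by
    have h3 : (fun ω : Sp V A k R => ∀ w ∈ z.1, ¬ cand ω w) =
        fun ω : Sp V A k R => ∀ i ∈ (z.1.image Sum.inr : Finset (Site V A)),
          (fun (_ : Site V A) (y : Val k R) => ¬ ((y.2.2 : ℕ) = 0)) i (ω i) := by
      funext ω
      apply propext
      constructor
      · intro h i hi
        obtain ⟨w, hw, rfl⟩ := Finset.mem_image.mp hi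
        exact h w hw
      · intro h w hw
        exact h (Sum.inr w) (Finset.mem_image_of_mem _ hw)
    have h4 := pr_cyl (z.1.image Sum.inr : Finset (Site V A))
      (fun (_ : Site V A) (y : Val k R) => ¬ ((y.2.2 : ℕ) = 0))
    rw [W0_inst _ Pi.instFintype] at h4
    rw [h3]
    refine h4.trans ?_
    rw [Finset.prod_const, pr_not, W0_flag k R hk0 hR0,
      Finset.card_image_of_injective _ Sum.inr_injective]
  have hR0' : (0 : ℝ) < R := by exact_mod_cast hR0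
  have hR1 : (1 : ℝ) ≤ R := by exact_mod_cast hR0
  have h3 : 1 - (k : ℝ) / R ≤ pr (fun ω : Sp V A k R => ∀ w ∈ z.1, ¬ cand ω w) := by
    rw [h2]
    have h4 : (-2 : ℝ) ≤ -(1 / (R : ℝ)) := by
      have : 1 / (R : ℝ) ≤ 1 := by
        rw [div_le_one hR0']
        exact hR1
      linarith
    have h5 := one_add_mul_le_pow h4 z.1.card
    have h6 : (z.1.card : ℝ) ≤ k := by exact_mod_cast hc z hzI
    have h7 : (z.1.card : ℝ) * (1 / R) ≤ k / R := by
      rw [div_eq_mul_one_div (k : ℝ)]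
      exact mul_le_mul_of_nonneg_right h6 (by positivity)
    calc 1 - (k : ℝ) / R ≤ 1 + (z.1.card : ℝ) * -(1 / (R : ℝ)) := by linarith
      _ ≤ (1 + -(1 / (R : ℝ))) ^ z.1.card := h5
      _ = (1 - 1 / (R : ℝ)) ^ z.1.card := by rw [← sub_eq_add_neg]
  have hk1' : (1 : ℝ) ≤ k := by exact_mod_cast hk1
  have hRk : 100 * (k : ℝ) ≤ R := by exact_mod_cast hR
  have h4 := W0_num k R W.card hk1' hRk hW0 hWc
  refine h4.trans ?_
  have h5 : 0 ≤ 1 - (k : ℝ) / R := by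
    have : (k : ℝ) / R ≤ 1 := by
      rw [div_le_one hR0']
      linarith
    linarith
  have h6 : 0 ≤ pr (fun ω : Sp V A k R => lab ω x < lab ω z ∧
      ∀ y ∈ W, y ≠ x → y ≠ z → lab ω z < lab ω y) := pr_nonneg _
  calc (1 - (W.card : ℝ) ^ 2 / (R : ℝ) ^ 6) / (W.card : ℝ) ^ 2 * (1 - (k : ℝ) / R)
      ≤ pr (fun ω : Sp V A k R => lab ω x < lab ω z ∧
        ∀ y ∈ W, y ≠ x → y ≠ z → lab ω z < lab ω y) * (1 - (k : ℝ) / R) :=
        mul_le_mul_of_nonneg_right h1 h5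
    _ ≤ _ := mul_le_mul_of_nonneg_left h3 h6

end Pool.Agent.MP_61eeb2_co.EX
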