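import Pool.Agent.Lib.MP_61eeb2_co.EX.Def
import Pool.Agent.Lib.MP_61eeb2_co.EX.P8a
import Pool.Agent.Lib.MP_61eeb2_co.EX.W0

/-!
MP_61eeb2_co, exact bound k * D, module W1: one round: upper bound for staying in U.

PROOF. e = 1/(200k^2). n = |At I v| is between (1-e)R and (1+e)R. The event is contained in (sg v
∈ U) minus the union over x1 ∈ At I v with x1.1 ∈ U and z ∈ At I v with z.1 ∉ U of the events
T(x1,z) of slack_pr: by slack_imp T(x1,z) gives sg v = x1.1 ∈ U and Op z.1. The events T(x1,z) are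
pairwise disjoint for different pairs (x1 is the strictly lowest and z the strictly second lowest
item of At I v ⊆ Touch I z.1). So pr(event) <= pr (sg v ∈ U) - sum of pr T (pr_or_eq, pr_exists_eq
over the product), and the sum is >= m (n-m) / (2 k^2 R^2). pr (sg v ∈ U) <= m (1/n + n^2/R^6):
union over x with x.1 ∈ U of (x is the top item of v); the events L y (y strictly lowest in At I
v) have pr >= (1 - n^2/R^6)/n (low1) and exclude that x ≠ y is the top, so pr (top = x) <= 1 -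
(n-1)(1 - n^2/R^6)/n <= 1/n + n^2/R^6. 1/n <= (1+2e)/R, n^2/R^6 <= 4/R^4 <= e/R for R large: total
<= (1+3e) m / R. (m(n-m)/(2k^2R^2) >= m(n-m)/(3k^2R^2).)
-/

set_option autoImplicit false

namespace Pool.Agent.MP_61eeb2_co.EX

open Finset Classical

/-- The numbers. -/
private theorem w1_num {k R : ℕ} (hk1 : 1 ≤ k) (hR : 800 * k ^ 2 ≤ R) {n : ℝ}
    (h1 : (1 - 1 / (200 * (k : ℝ) ^ 2)) * R ≤ n) (h2 : n ≤ (1 + 1 / (200 * (k : ℝ) ^ 2)) * R) :
    0 < n ∧ 1 / n + n ^ 2 / (R : ℝ) ^ 6 ≤ (1 + 3 / (200 * (k : ℝ) ^ 2)) / R := by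
  have hk : (1 : ℝ) ≤ (k : ℝ) := by exact_mod_cast hk1
  have hk2 : (1 : ℝ) ≤ (k : ℝ) ^ 2 := one_le_pow₀ hk
  have hRr : (800 : ℝ) * (k : ℝ) ^ 2 ≤ (R : ℝ) := by exact_mod_cast hR
  have hR1 : (1 : ℝ) ≤ R := by nlinarith
  have hR0 : (0 : ℝ) < R := by linarith
  obtain ⟨e, he⟩ : ∃ e : ℝ, e = 1 / (200 * (k : ℝ) ^ 2) := ⟨_, rfl⟩
  have he0 : 0 < e := by
    rw [he]
    positivity
  have he1 : e ≤ 1 / 200 := by
    rw [he]
    apply one_div_le_one_div_of_le (by norm_num)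
    nlinarith
  have he3 : 3 / (200 * (k : ℝ) ^ 2) = 3 * e := by
    rw [he]
    ring
  have heR : 4 ≤ e * R := by
    rw [he, one_div_mul_eq_div, le_div_iff₀ (by positivity)]
    nlinarith
  rw [← he] at h1 h2
  rw [he3]
  have hn0 : 0 < n := by
    have h3 : 0 < (1 - e) * R := mul_pos (by linarith) hR0
    linarith
  refine ⟨hn0, ?_⟩
  have h4 : 1 / n ≤ (1 + 2 * e) / R := by
    rw [div_le_div_iff₀ hn0 hR0]
    have h5 : (1 + 2 * e) * ((1 - e) * R) ≤ (1 + 2 * e) * n :=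
      mul_le_mul_of_nonneg_left h1 (by linarith)
    have h6 : 0 ≤ e * (1 - 2 * e) * R := by
      have : 0 ≤ e * (1 - 2 * e) := mul_nonneg he0.le (by linarith)
      exact mul_nonneg this hR0.le
    nlinarith
  have h7 : n ^ 2 / (R : ℝ) ^ 6 ≤ e / R := by
    rw [div_le_div_iff₀ (by positivity) hR0]
    have h8 : n ≤ 2 * R := by nlinarith
    have h9 : n ^ 2 ≤ 4 * (R : ℝ) ^ 2 := by nlinarith
    have h10 : n ^ 2 * R ≤ 4 * (R : ℝ) ^ 3 := by nlinarith
    have h11 : 4 * (R : ℝ) ^ 3 ≤ (e * R) * (R : ℝ) ^ 3 :=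
      mul_le_mul_of_nonneg_right heR (by positivity)
    have h12 : (e * R) * (R : ℝ) ^ 3 ≤ e * (R : ℝ) ^ 6 := by
      have h13 : (R : ℝ) ^ 4 ≤ (R : ℝ) ^ 6 := pow_le_pow_right₀ hR1 (by norm_num)
      have h14 := mul_le_mul_of_nonneg_left h13 he0.le
      nlinarith
    linarith
  have h15 : (1 + 3 * e) / (R : ℝ) = (1 + 2 * e) / R + e / R := by ring
  rw [h15]
  linarith

section

variable {V A : Type} [Fintype V] [Fintype A] {k R : ℕ}

/-- the event `T` -/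
private def TE (I : Finset (Item V A)) (x z : Item V A) (ω : Sp V A k R) : Prop :=
  (lab ω x < lab ω z ∧ ∀ y ∈ Touch I z.1, y ≠ x → y ≠ z → lab ω z < lab ω y) ∧
    ∀ w ∈ z.1, ¬ cand ω w

private theorem w1_touch {I : Finset (Item V A)} {v : V} {z y : Item V A} (hz : z ∈ At I v)
    (hy : y ∈ At I v) : y ∈ Touch I z.1 := by
  rw [mem_At] at hz hy
  exact mem_Touch.2 ⟨hy.1, Finset.not_disjoint_iff.2 ⟨v, hy.2, hz.2⟩⟩

/-- The event and the union of the events `T` are disjoint, both are contained in `sg v ∈ U`. -/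
private theorem w1_split (I : Finset (Item V A)) (v : V) (U : Finset (Finset V)) :
    pr (fun ω : Sp V A k R => sg I ω v ∈ U ∧ ∀ x ∈ At I v, x.1 ∉ U → ¬ Op I ω v x.1) +
      pr (fun ω : Sp V A k R => ∃ q ∈ (flt (At I v) (fun x => x.1 ∈ U)) ×ˢ
        (flt (At I v) (fun x => x.1 ∉ U)), TE I q.1 q.2 ω) ≤
      pr (fun ω : Sp V A k R => sg I ω v ∈ U) := by
  have key : ∀ ω : Sp V A k R, (∃ q ∈ (flt (At I v) (fun x => x.1 ∈ U)) ×ˢ
      (flt (At I v) (fun x => x.1 ∉ U)), TE I q.1 q.2 ω) →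
      sg I ω v ∈ U ∧ ∃ x ∈ At I v, x.1 ∉ U ∧ Op I ω v x.1 := by
    rintro ω ⟨⟨x, z⟩, hq, ⟨ha, hb⟩, hc⟩
    rw [Finset.mem_product, mem_flt, mem_flt] at hq
    obtain ⟨⟨hx, hxU⟩, hz, hzU⟩ := hq
    dsimp only at hx hxU hz hzU ha hb hc
    have hxz : x ≠ z := by
      rintro rfl
      exact hzU hxU
    obtain ⟨h1, h2⟩ := slack_imp I v x z hxz hx hz ω ha hb hc
    exact ⟨by rw [h1]; exact hxU, z, hz, hzU, h2⟩
  rw [← pr_or_eq]
  · apply pr_mono
    rintro ω (h | h)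
    · exact h.1
    · exact (key ω h).1
  · rintro ω ⟨_, h2⟩ h3
    obtain ⟨_, x, hx, hxU, hO⟩ := key ω h3
    exact h2 x hx hxU hO

/-- The events `T` are disjoint. -/
private theorem w1_sum (I : Finset (Item V A)) (v : V) (U : Finset (Finset V)) (c : ℝ)
    (hc : ∀ x z : Item V A, x ≠ z → x ∈ At I v → z ∈ At I v →
      c ≤ pr (fun ω : Sp V A k R => (lab ω x < lab ω z ∧
        ∀ y ∈ Touch I z.1, y ≠ x → y ≠ z → lab ω z < lab ω y) ∧ ∀ w ∈ z.1, ¬ cand ω w)) :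
    ((flt (At I v) (fun x => x.1 ∈ U)).card : ℝ) *
      ((flt (At I v) (fun x => x.1 ∉ U)).card : ℝ) * c ≤
      pr (fun ω : Sp V A k R => ∃ q ∈ (flt (At I v) (fun x => x.1 ∈ U)) ×ˢ
        (flt (At I v) (fun x => x.1 ∉ U)), TE I q.1 q.2 ω) := by
  rw [pr_exists_eq]
  · have h1 : ∀ q ∈ (flt (At I v) (fun x => x.1 ∈ U)) ×ˢ (flt (At I v) (fun x => x.1 ∉ U)),
        c ≤ pr (fun ω : Sp V A k R => TE I q.1 q.2 ω) := by
      rintro ⟨x, z⟩ hq
      rw [Finset.mem_product, mem_flt, mem_flt] at hq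
      obtain ⟨⟨hx, hxU⟩, hz, hzU⟩ := hq
      dsimp only at hx hxU hz hzU
      refine hc x z ?_ hx hz
      rintro rfl
      exact hzU hxU
    have h2 := Finset.card_nsmul_le_sum _ _ _ h1
    rw [Finset.card_product, nsmul_eq_mul] at h2
    push_cast at h2
    exact h2
  · rintro ⟨x, z⟩ hq ⟨x', z'⟩ hq' hne ω ⟨⟨ha, hb⟩, _⟩ ⟨⟨ha', hb'⟩, _⟩
    rw [Finset.mem_product, mem_flt, mem_flt] at hq hq'
    obtain ⟨⟨hx, hxU⟩, hz, hzU⟩ := hq
    obtain ⟨⟨hx', hxU'⟩, hz', hzU'⟩ := hq'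
    dsimp only at hx hxU hz hzU ha hb hx' hxU' hz' hzU' ha' hb'
    have hlow : ∀ y ∈ At I v, y ≠ x → lab ω x < lab ω y := by
      intro y hy hyx
      by_cases hyz : y = z
      · rw [hyz]
        exact ha
      · exact ha.trans (hb y (w1_touch hz hy) hyx hyz)
    have hlow' : ∀ y ∈ At I v, y ≠ x' → lab ω x' < lab ω y := by
      intro y hy hyx
      by_cases hyz : y = z'
      · rw [hyz]
        exact ha'
      · exact ha'.trans (hb' y (w1_touch hz' hy) hyx hyz)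
    have hxx : x = x' := by
      by_contra h
      exact absurd (hlow x' hx' (Ne.symm h)) (hlow' x hx h).asymm
    have hzx : z ≠ x' := by
      rintro rfl
      exact hzU hxU'
    have hzx' : z' ≠ x := by
      rintro rfl
      exact hzU' hxU
    have hzz : z = z' := by
      by_contra h
      exact absurd (hb z' (w1_touch hz hz') hzx' (Ne.symm h))
        (hb' z (w1_touch hz' hz) hzx h).asymm
    exact hne (by rw [hxx, hzz])

/-- The probability that `x` is the top item. -/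
private theorem w1_one (hk : 0 < k) (hR : 0 < R) (I : Finset (Item V A)) (v : V)
    (x : Item V A) (hx : x ∈ At I v) :
    pr (fun ω : Sp V A k R => rk ω x = ta I ω v) ≤
      1 / ((At I v).card : ℝ) + ((At I v).card : ℝ) ^ 2 / (R : ℝ) ^ 6 := by
  have h1 : pr (fun ω : Sp V A k R => ∃ y ∈ (At I v).erase x,
      ∀ y' ∈ At I v, y' ≠ y → lab ω y < lab ω y') =
      ∑ y ∈ (At I v).erase x, pr (fun ω : Sp V A k R => ∀ y' ∈ At I v, y' ≠ y →
        lab ω y < lab ω y') := by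
    apply pr_exists_eq
    intro y hy y' hy' hne ω h2 h3
    exact absurd (h2 y' (Finset.mem_of_mem_erase hy') hne.symm)
      (h3 y (Finset.mem_of_mem_erase hy) hne).asymm
  have h2 : pr (fun ω : Sp V A k R => rk ω x = ta I ω v ∨ ∃ y ∈ (At I v).erase x,
      ∀ y' ∈ At I v, y' ≠ y → lab ω y < lab ω y') =
      pr (fun ω : Sp V A k R => rk ω x = ta I ω v) +
      pr (fun ω : Sp V A k R => ∃ y ∈ (At I v).erase x,
        ∀ y' ∈ At I v, y' ≠ y → lab ω y < lab ω y') := by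
    apply pr_or_eq
    rintro ω h3 ⟨y, hy, h4⟩
    have h5 := rk_lt_of_lab_lt ω y x (h4 x hx (Finset.ne_of_mem_erase hy).symm)
    have h6 := ta_le I ω v y (Finset.mem_of_mem_erase hy)
    omega
  have h3 := pr_le_one (fun ω : Sp V A k R => rk ω x = ta I ω v ∨ ∃ y ∈ (At I v).erase x,
      ∀ y' ∈ At I v, y' ≠ y → lab ω y < lab ω y')
  have h4 : (((At I v).erase x).card : ℝ) * ((1 - ((At I v).card : ℝ) ^ 2 / (R : ℝ) ^ 6) /
      ((At I v).card : ℝ)) ≤ ∑ y ∈ (At I v).erase x, pr (fun ω : Sp V A k R =>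
        ∀ y' ∈ At I v, y' ≠ y → lab ω y < lab ω y') := by
    have h5 := Finset.card_nsmul_le_sum ((At I v).erase x) (fun y => pr (fun ω : Sp V A k R =>
        ∀ y' ∈ At I v, y' ≠ y → lab ω y < lab ω y')) _
        fun y hy => low1 hk hR (At I v) y (Finset.mem_of_mem_erase hy)
    rw [nsmul_eq_mul] at h5
    exact h5
  have hcard : 0 < (At I v).card := Finset.card_pos.2 ⟨x, hx⟩
  have h6 : (((At I v).erase x).card : ℝ) = ((At I v).card : ℝ) - 1 := by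
    rw [Finset.card_erase_of_mem hx, Nat.cast_sub hcard, Nat.cast_one]
  rw [h6] at h4
  obtain ⟨n, hn⟩ : ∃ n : ℝ, n = ((At I v).card : ℝ) := ⟨_, rfl⟩
  obtain ⟨t, ht⟩ : ∃ t : ℝ, t = n ^ 2 / (R : ℝ) ^ 6 := ⟨_, rfl⟩
  have hn0 : 0 < n := by
    rw [hn]
    exact_mod_cast hcard
  have ht0 : 0 ≤ t := by
    rw [ht]
    positivity
  rw [← hn] at h4 ⊢
  rw [← ht] at h4 ⊢
  have h7 : (n - 1) * ((1 - t) / n) = 1 - 1 / n - t + t / n := by
    field_simp
    ring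
  have h8 : 0 ≤ t / n := div_nonneg ht0 hn0.le
  linarith

/-- The probability of `sg v ∈ U`. -/
private theorem w1_top (hk : 0 < k) (hR : 0 < R) (I : Finset (Item V A)) (v : V)
    (U : Finset (Finset V)) (hW : (At I v).Nonempty) :
    pr (fun ω : Sp V A k R => sg I ω v ∈ U) ≤
      ((flt (At I v) (fun x => x.1 ∈ U)).card : ℝ) *
        (1 / ((At I v).card : ℝ) + ((At I v).card : ℝ) ^ 2 / (R : ℝ) ^ 6) := by
  refine (pr_mono (Q := fun ω : Sp V A k R => ∃ x ∈ flt (At I v) (fun x => x.1 ∈ U),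
    rk ω x = ta I ω v) ?_).trans (pr_exists_le_card _ _ _ fun x hx =>
      w1_one hk hR I v x (mem_flt.1 hx).1)
  intro ω h
  obtain ⟨x, hx, h1, h2⟩ := top_exists I ω v hW
  exact ⟨x, mem_flt.2 ⟨hx, by rw [← h2]; exact h⟩, h1⟩

end

theorem p1 (k : ℕ) (hk1 : 1 ≤ k) : ∃ R₀ : ℕ, ∀ R ≥ R₀,
    ∀ (V A : Type) [Fintype V] [Fintype A] (I : Finset (Item V A)),
    (∀ x ∈ I, x.1.card ≤ k) → Even k R I → ∀ (v : V) (U : Finset (Finset V)) (m n : ℝ),
    ((flt (At I v) (fun x => x.1 ∈ U)).card : ℝ) = m → ((At I v).card : ℝ) = n →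
    pr (fun ω : Sp V A k R => sg I ω v ∈ U ∧ ∀ x ∈ At I v, x.1 ∉ U → ¬ Op I ω v x.1)
      ≤ (1 + 3 / (200 * (k : ℝ) ^ 2)) * (m / R)
        - m * (n - m) / (3 * (k : ℝ) ^ 2 * (R : ℝ) ^ 2) := by
  obtain ⟨R₁, hR₁⟩ := slack_pr k hk1
  refine ⟨max R₁ (800 * k ^ 2), fun R hR V A _ _ I hI hE v U m n hm hn => ?_⟩
  have hRa : R₁ ≤ R := (le_max_left _ _).trans hR
  have hRb : 800 * k ^ 2 ≤ R := (le_max_right _ _).trans hR
  have hk2 : 1 ≤ k ^ 2 := Nat.one_le_pow _ _ hk1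
  have hR0 : 0 < R := by omega
  obtain ⟨hE1, hE2⟩ := hE v
  rw [hn] at hE1 hE2
  have hnum := w1_num (k := k) (R := R) hk1 hRb hE1 hE2
  have hn0 : 0 < n := hnum.1
  have hWn : (At I v).card ≠ 0 := by
    intro h
    rw [h] at hn
    simp at hn
    exact hn0.ne hn
  have hW : (At I v).Nonempty := Finset.card_ne_zero.1 hWn
  have h1 := w1_split (k := k) (R := R) I v U
  have h2 := w1_sum (k := k) (R := R) I v U (1 / (2 * (k : ℝ) ^ 2 * (R : ℝ) ^ 2))
    fun x z hxz hx hz => hR₁ R hRa V A I hI hE v x z hxz hx hz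
  have h3 := w1_top (k := k) (R := R) hk1 hR0 I v U hW
  have hmn : ((flt (At I v) (fun x => x.1 ∉ U)).card : ℝ) = n - m := by
    have h4 := flt_card_add (At I v) (fun x => x.1 ∈ U)
    have h5 : ((flt (At I v) (fun x => x.1 ∈ U)).card : ℝ) +
        ((flt (At I v) (fun x => x.1 ∉ U)).card : ℝ) = ((At I v).card : ℝ) := by
      exact_mod_cast h4
    linarith
  rw [hm, hmn] at h2
  rw [hm, hn] at h3
  have hm0 : 0 ≤ m := by
    rw [← hm]
    positivity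
  have hnm0 : 0 ≤ n - m := by
    rw [← hmn]
    positivity
  have h6 : m * (n - m) / (3 * (k : ℝ) ^ 2 * (R : ℝ) ^ 2) ≤
      m * (n - m) * (1 / (2 * (k : ℝ) ^ 2 * (R : ℝ) ^ 2)) := by
    have hkr : (0 : ℝ) < (k : ℝ) ^ 2 := by positivity
    have hRr : (0 : ℝ) < (R : ℝ) ^ 2 := by positivity
    rw [mul_one_div]
    apply div_le_div_of_nonneg_left (mul_nonneg hm0 hnm0) (by positivity)
    nlinarith [mul_pos hkr hRr]
  have h7 : m * (1 / n + n ^ 2 / (R : ℝ) ^ 6) ≤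
      (1 + 3 / (200 * (k : ℝ) ^ 2)) * (m / R) := by
    have h8 := mul_le_mul_of_nonneg_left hnum.2 hm0
    calc m * (1 / n + n ^ 2 / (R : ℝ) ^ 6) ≤ m * ((1 + 3 / (200 * (k : ℝ) ^ 2)) / R) := h8
      _ = (1 + 3 / (200 * (k : ℝ) ^ 2)) * (m / R) := by ring
  linarith

end Pool.Agent.MP_61eeb2_co.EX
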