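import Pool.Agent.Lib.MP_61eeb2_co.EX.Def
import Pool.Agent.Lib.MP_61eeb2_co.EX.P8a
import Pool.Agent.Lib.MP_61eeb2_co.EX.P2
import Pool.Agent.Lib.MP_61eeb2_co.EX.W0
import Pool.Agent.Lib.MP_61eeb2_co.EX.P1
import Pool.Agent.Lib.MP_61eeb2_co.EX.P3
import Pool.Agent.Lib.MP_61eeb2_co.EX.R2

/-!
MP_61eeb2_co, exact bound k * D, module W2: one round: lower bound for reaching U.

PROOF. e = 1/(200k^2), n = |At I v| between (1-e)R and (1+e)R. Two disjoint events contained in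
the event: (A) not cand v and some x ∈ At I v with x.1 ∈ U is strictly lowest in At I v (then sg v
= x.1, Op by the first alternative); (B) the union over x ∈ At I v with x.1 ∉ U and z ∈ At I v
with z.1 ∈ U of T(x,z) of slack_pr (Op z.1 by slack_imp). They are disjoint (in (B) the strictly
lowest item of At I v is x with x.1 ∉ U), the parts of (A) and of (B) are pairwise disjoint as
well (see W1). pr (A) = (1 - 1/R) * sum over x of low1 (pr_and: labels and the flag of v) >=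
(1-1/R) m (1 - n^2/R^6)/n >= (m/R)(1-1/R)(1-4/R^4)/(1+e) >= (1-3e) m/R for R large. pr (B) >= m
(n-m)/(2k^2R^2).
-/

set_option autoImplicit false

namespace Pool.Agent.MP_61eeb2_co.EX

open Finset Classical

private theorem w2_inst {Ω : Type*} (i j : Fintype Ω) (P : Ω → Prop) :
    @pr Ω i P = @pr Ω j P := by
  rw [Subsingleton.elim i j]

private theorem w2_cand {V A : Type} [Fintype V] [Fintype A] {k R : ℕ} (hk : 0 < k)
    (hR : 0 < R) (v : V) :
    1 - 1 / (R : ℝ) ≤ pr (fun ω : Sp V A k R => ¬ cand ω v) := by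
  have : Nonempty (Val k R) := ⟨(⟨0, by positivity⟩, ⟨0, hk⟩, ⟨0, hR⟩)⟩
  rw [pr_not]
  have h0 := pr_coord (ι := Site V A) (κ := Val k R) (Sum.inr v)
    (fun y : Val k R => (y.2.2 : ℕ) = 0)
  rw [w2_inst _ Pi.instFintype] at h0
  have h1 : pr (fun ω : Sp V A k R => cand ω v) = pr (fun y : Val k R => (y.2.2 : ℕ) = 0) := h0
  rw [h1]
  have h2 : cnt (fun y : Val k R => (y.2.2 : ℕ) = 0) ≤ (R : ℝ) ^ 6 * k := by
    have h3 : ({y : Val k R | (y.2.2 : ℕ) = 0}).ncard ≤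
        (Set.univ : Set (Fin (R ^ 6) × Fin k)).ncard := by
      refine Set.ncard_le_ncard_of_injOn (fun y => (y.1, y.2.1)) (fun _ _ => trivial) ?_
        Set.finite_univ
      rintro ⟨a, b, c⟩ h4 ⟨a', b', c'⟩ h5 h6
      have h7 : a = a' := congrArg Prod.fst h6
      have h8 : b = b' := congrArg Prod.snd h6
      have h9 : c = c' := Fin.ext (by
        have e1 : (c : ℕ) = 0 := h4
        have e2 : (c' : ℕ) = 0 := h5
        rw [e1, e2])
      rw [h7, h8, h9]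
    rw [Set.ncard_univ, Nat.card_eq_fintype_card, Fintype.card_prod, Fintype.card_fin,
      Fintype.card_fin] at h3
    have h4 : ((({y : Val k R | (y.2.2 : ℕ) = 0}).ncard : ℕ) : ℝ) ≤ ((R ^ 6 * k : ℕ) : ℝ) :=
      Nat.cast_le.mpr h3
    push_cast at h4
    exact h4
  have h3 : pr (fun y : Val k R => (y.2.2 : ℕ) = 0) ≤ 1 / (R : ℝ) := by
    unfold pr
    have h4 : ((Fintype.card (Val k R) : ℕ) : ℝ) = (R : ℝ) ^ 6 * (k * R) := by
      rw [Fintype.card_prod, Fintype.card_prod, Fintype.card_fin, Fintype.card_fin,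
        Fintype.card_fin]
      push_cast
      ring
    have hR' : (0 : ℝ) < (R : ℝ) := by exact_mod_cast hR
    have hk' : (0 : ℝ) < (k : ℝ) := by exact_mod_cast hk
    rw [h4, div_le_div_iff₀ (by positivity) hR']
    have h5 := mul_le_mul_of_nonneg_right h2 hR'.le
    nlinarith [h5]
  linarith

private theorem w2_sg {V A : Type} [Fintype V] [Fintype A] {k R : ℕ} (I : Finset (Item V A))
    (v : V) (x : Item V A) (hx : x ∈ At I v) (ω : Sp V A k R)
    (h : ∀ y ∈ At I v, y ≠ x → lab ω x < lab ω y) : sg I ω v = x.1 := by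
  obtain ⟨z, hz, hz1, hz2⟩ := top_exists I ω v ⟨x, hx⟩
  by_cases e : z = x
  · rw [hz2, e]
  · have h1 := rk_lt_of_lab_lt ω x z (h z hz e)
    have h2 := ta_le I ω v x hx
    omega

private theorem w2_arith (k : ℕ) (hk : 1 ≤ k) (R m n : ℝ) (hR : 200 * (k : ℝ) ^ 2 ≤ R)
    (hm : 0 ≤ m) (hmn : m ≤ n) (hn : n ≤ (1 + 1 / (200 * (k : ℝ) ^ 2)) * R) (hn0 : 0 < n) :
    (1 - 3 / (200 * (k : ℝ) ^ 2)) * (m / R) + m * (n - m) / (3 * (k : ℝ) ^ 2 * R ^ 2) ≤
      (1 - 1 / R) * (m * ((1 - n ^ 2 / R ^ 6) / n)) + m * (n - m) * (1 / (2 * k ^ 2 * R ^ 2)) := by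
  have hk' : (1 : ℝ) ≤ (k : ℝ) := by exact_mod_cast hk
  have hk2 : (1 : ℝ) ≤ (k : ℝ) ^ 2 := by nlinarith
  have hR' : (200 : ℝ) ≤ R := by nlinarith
  have hR0 : (0 : ℝ) < R := by linarith
  set e : ℝ := 1 / (200 * (k : ℝ) ^ 2) with he
  have he0 : 0 < e := by positivity
  have he1 : e ≤ 1 / 200 := by
    rw [he]
    apply one_div_le_one_div_of_le (by norm_num)
    nlinarith
  have he2 : 1 / R ≤ e := by
    rw [he]
    exact one_div_le_one_div_of_le (by positivity) hR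
  have h3 : 3 / (200 * (k : ℝ) ^ 2) = 3 * e := by
    rw [he]
    ring
  rw [h3]
  clear_value e
  have h4 : m * (n - m) / (3 * (k : ℝ) ^ 2 * R ^ 2) ≤
      m * (n - m) * (1 / (2 * k ^ 2 * R ^ 2)) := by
    rw [mul_one_div]
    apply div_le_div_of_nonneg_left (mul_nonneg hm (sub_nonneg.2 hmn)) (by positivity)
    have : (0 : ℝ) < (k : ℝ) ^ 2 * R ^ 2 := by positivity
    nlinarith
  have h5 : (1 - 3 * e) * (m / R) ≤ (1 - 1 / R) * (m * ((1 - n ^ 2 / R ^ 6) / n)) := by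
    have h6 : n ≤ 2 * R := by nlinarith
    have h7 : n ^ 2 / R ^ 6 ≤ 1 / R := by
      rw [div_le_div_iff₀ (by positivity) hR0]
      have h8 : n ^ 2 ≤ 4 * R ^ 2 := by nlinarith
      have h9 : 4 * R ^ 2 * R ≤ 1 * R ^ 6 := by
        have : 4 * R ^ 3 ≤ R ^ 6 := by
          have h10 : (4 : ℝ) ≤ R ^ 3 := by
            have : (1 : ℝ) ≤ R ^ 2 := by nlinarith
            nlinarith
          have h11 : 0 ≤ R ^ 3 := by positivity
          nlinarith
        nlinarith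
      nlinarith
    have h8 : 1 - 2 * (1 / R) ≤ (1 - 1 / R) * (1 - n ^ 2 / R ^ 6) := by
      have h9 : 0 ≤ n ^ 2 / R ^ 6 := by positivity
      have h10 : 0 < 1 / R := by positivity
      have h11 : 1 / R ≤ 1 := by
        rw [div_le_one hR0]
        linarith
      nlinarith
    have h9 : (1 - 3 * e) / R ≤ (1 - 1 / R) * ((1 - n ^ 2 / R ^ 6) / n) := by
      rw [← mul_div_assoc, div_le_div_iff₀ hR0 hn0]
      have h10 : (1 - 3 * e) * n ≤ (1 - 3 * e) * ((1 + e) * R) :=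
        mul_le_mul_of_nonneg_left hn (by linarith)
      have h11 : (1 - 3 * e) * (1 + e) ≤ 1 - 2 * (1 / R) := by nlinarith
      have h12 : (1 - 3 * e) * ((1 + e) * R) ≤ (1 - 2 * (1 / R)) * R := by
        rw [← mul_assoc]
        exact mul_le_mul_of_nonneg_right h11 hR0.le
      exact h10.trans (h12.trans (mul_le_mul_of_nonneg_right h8 hR0.le))
    have h10 := mul_le_mul_of_nonneg_left h9 hm
    calc (1 - 3 * e) * (m / R) = m * ((1 - 3 * e) / R) := by ring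
      _ ≤ m * ((1 - 1 / R) * ((1 - n ^ 2 / R ^ 6) / n)) := h10
      _ = _ := by ring
  exact add_le_add h5 h4

theorem p2 (k : ℕ) (hk1 : 1 ≤ k) : ∃ R₀ : ℕ, ∀ R ≥ R₀,
    ∀ (V A : Type) [Fintype V] [Fintype A] (I : Finset (Item V A)),
    (∀ x ∈ I, x.1.card ≤ k) → Even k R I → ∀ (v : V) (U : Finset (Finset V)) (m n : ℝ),
    ((flt (At I v) (fun x => x.1 ∈ U)).card : ℝ) = m → ((At I v).card : ℝ) = n →
    (1 - 3 / (200 * (k : ℝ) ^ 2)) * (m / R) + m * (n - m) / (3 * (k : ℝ) ^ 2 * (R : ℝ) ^ 2) ≤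
      pr (fun ω : Sp V A k R => ∃ x ∈ At I v, x.1 ∈ U ∧ Op I ω v x.1) := by
  obtain ⟨R₁, hR₁⟩ := slack_pr k hk1
  refine ⟨max R₁ (200 * k ^ 2), ?_⟩
  intro R hR V A _ _ I hI hE v U m n hm hn
  have hRa : R₁ ≤ R := (le_max_left _ _).trans hR
  have hRb : 200 * k ^ 2 ≤ R := (le_max_right _ _).trans hR
  have hk0 : 0 < k := hk1
  have hR0 : 0 < R := lt_of_lt_of_le (by positivity) hRb
  have hRr : 200 * (k : ℝ) ^ 2 ≤ (R : ℝ) := by exact_mod_cast hRb
  have : Nonempty (Val k R) := ⟨(⟨0, by positivity⟩, ⟨0, hk0⟩, ⟨0, hR0⟩)⟩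
  have hR0' : (0 : ℝ) < (R : ℝ) := by exact_mod_cast hR0
  have hk0' : (1 : ℝ) ≤ (k : ℝ) := by exact_mod_cast hk1
  have hk2' : (1 : ℝ) ≤ (k : ℝ) ^ 2 := by nlinarith
  have hev := hE v
  rw [hn] at hev
  have hn0 : 0 < n := by
    have h1 : 1 / (200 * (k : ℝ) ^ 2) ≤ 1 / 200 :=
      one_div_le_one_div_of_le (by norm_num) (by nlinarith)
    have h2 : 0 < (1 - 1 / (200 * (k : ℝ) ^ 2)) * R := mul_pos (by linarith) hR0'
    linarith [hev.1]
  have hm0 : 0 ≤ m := by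
    rw [← hm]
    positivity
  have hmn : m ≤ n := by
    rw [← hm, ← hn]
    exact_mod_cast Finset.card_le_card (flt_sub _ _)
  let XU := flt (At I v) (fun x => x.1 ∈ U)
  let XN := flt (At I v) (fun x => ¬ x.1 ∈ U)
  have hXN : ((XN.card : ℕ) : ℝ) = n - m := by
    have h1 := flt_card_add (At I v) (fun x => x.1 ∈ U)
    have h2 : ((XU.card : ℕ) : ℝ) + ((XN.card : ℕ) : ℝ) = (((At I v).card : ℕ) : ℝ) := by
      exact_mod_cast h1
    rw [hn] at h2
    have h3 : ((XU.card : ℕ) : ℝ) = m := hm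
    linarith
  let Lw : Item V A → Sp V A k R → Prop := fun x ω => ∀ y ∈ At I v, y ≠ x → lab ω x < lab ω y
  let T : Item V A × Item V A → Sp V A k R → Prop := fun p ω =>
    (lab ω p.1 < lab ω p.2 ∧ ∀ y ∈ Touch I p.2.1, y ≠ p.1 → y ≠ p.2 → lab ω p.2 < lab ω y) ∧
      ∀ w ∈ p.2.1, ¬ cand ω w
  let PA : Sp V A k R → Prop := fun ω => ¬ cand ω v ∧ ∃ x ∈ XU, Lw x ω
  let PB : Sp V A k R → Prop := fun ω => ∃ p ∈ XN ×ˢ XU, T p ω
  -- facts on `T`
  have hT : ∀ p ∈ XN ×ˢ XU, ∀ ω, T p ω → (Lw p.1 ω ∧ Op I ω v p.2.1 ∧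
      ∀ y ∈ At I v, y ≠ p.1 → y ≠ p.2 → lab ω p.2 < lab ω y) := by
    intro p hp ω hω
    obtain ⟨hp1, hp2⟩ := Finset.mem_product.mp hp
    have hx := mem_flt.mp hp1
    have hz := mem_flt.mp hp2
    have hne : p.1 ≠ p.2 := fun h => hx.2 (by rw [h]; exact hz.2)
    have h1 : ∀ y ∈ At I v, y ≠ p.1 → y ≠ p.2 → lab ω p.2 < lab ω y := by
      intro y hy hy1 hy2
      refine hω.1.2 y (mem_Touch.mpr ⟨(mem_At.mp hy).1, ?_⟩) hy1 hy2
      rw [Finset.not_disjoint_iff]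
      exact ⟨v, (mem_At.mp hy).2, (mem_At.mp hz.1).2⟩
    refine ⟨?_, (slack_imp I v p.1 p.2 hne hx.1 hz.1 ω hω.1.1 hω.1.2 hω.2).2, h1⟩
    intro y hy hy1
    by_cases hy2 : y = p.2
    · rw [hy2]
      exact hω.1.1
    · exact hω.1.1.trans (h1 y hy hy1 hy2)
  have hsub : ∀ ω, (PA ω ∨ PB ω) → ∃ x ∈ At I v, x.1 ∈ U ∧ Op I ω v x.1 := by
    rintro ω (⟨h1, x, hx, hL⟩ | ⟨p, hp, hω⟩)
    · have hx' := mem_flt.mp hx
      exact ⟨x, hx'.1, hx'.2, h1, Or.inl (w2_sg I v x hx'.1 ω hL)⟩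
    · have hz := mem_flt.mp (Finset.mem_product.mp hp).2
      exact ⟨p.2, hz.1, hz.2, (hT p hp ω hω).2.1⟩
  have hdis : ∀ ω, PA ω → ¬ PB ω := by
    rintro ω ⟨_, x, hx, hL⟩ ⟨p, hp, hω⟩
    have hx' := mem_flt.mp hx
    have hp1 := mem_flt.mp (Finset.mem_product.mp hp).1
    have hne : x ≠ p.1 := fun h => hp1.2 (by rw [← h]; exact hx'.2)
    have h1 := hL p.1 hp1.1 (Ne.symm hne)
    have h2 := (hT p hp ω hω).1 x hx'.1 hne
    exact absurd (h1.trans h2) (lt_irrefl _)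
  have hge : pr PA + pr PB ≤
      pr (fun ω : Sp V A k R => ∃ x ∈ At I v, x.1 ∈ U ∧ Op I ω v x.1) := by
    rw [← pr_or_eq PA PB hdis]
    exact pr_mono hsub
  -- lower bound for `PA`
  have hA : (1 - 1 / (R : ℝ)) * (m * ((1 - n ^ 2 / (R : ℝ) ^ 6) / n)) ≤ pr PA := by
    have h1 : pr PA = pr (fun ω : Sp V A k R => ¬ cand ω v) *
        pr (fun ω : Sp V A k R => ∃ x ∈ XU, Lw x ω) := by
      have hd : Disjoint ({Sum.inr v} : Finset (Site V A)) ((At I v).image Sum.inl) := by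
        rw [Finset.disjoint_singleton_left]
        intro h
        obtain ⟨y, _, hy⟩ := Finset.mem_image.mp h
        exact absurd hy (by simp)
      have hF : DepOn ({Sum.inr v} : Finset (Site V A))
          (fun ω : Sp V A k R => ¬ cand ω v) := by
        intro ω ω' h hω
        unfold cand at hω ⊢
        rw [← h _ (Finset.mem_singleton_self _)]
        exact hω
      have hL : DepOn ((At I v).image Sum.inl : Finset (Site V A))
          (fun ω : Sp V A k R => ∃ x ∈ XU, Lw x ω) := by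
        rintro ω ω' h ⟨x, hx, hL⟩
        have h3 : ∀ y ∈ At I v, lab ω' y = lab ω y := by
          intro y hy
          unfold lab
          rw [h (Sum.inl y) (Finset.mem_image_of_mem _ hy)]
        refine ⟨x, hx, fun y hy hyx => ?_⟩
        rw [h3 y hy, h3 x (mem_flt.mp hx).1]
        exact hL y hy hyx
      have h0 := pr_and _ _ hd _ _ hF hL
      rw [w2_inst _ Pi.instFintype, w2_inst _ Pi.instFintype (fun ω : Sp V A k R => ¬ cand ω v),
        w2_inst _ Pi.instFintype (fun ω : Sp V A k R => ∃ x ∈ XU, Lw x ω)] at h0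
      exact h0
    have h2 : m * ((1 - n ^ 2 / (R : ℝ) ^ 6) / n) ≤
        pr (fun ω : Sp V A k R => ∃ x ∈ XU, Lw x ω) := by
      rw [pr_exists_eq]
      · have h3 : ∑ _x ∈ XU, (1 - n ^ 2 / (R : ℝ) ^ 6) / n ≤ ∑ x ∈ XU, pr (Lw x) :=
          Finset.sum_le_sum fun x hx => by
            have h4 := low1 (k := k) hk0 hR0 (At I v) x (mem_flt.mp hx).1
            rw [hn] at h4
            exact h4
        rw [Finset.sum_const, nsmul_eq_mul] at h3
        have h4 : ((XU.card : ℕ) : ℝ) = m := hm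
        rwa [h4] at h3
      · intro x hx x' hx' hne ω hL hL'
        have h3 := hL x' (mem_flt.mp hx').1 (Ne.symm hne)
        have h4 := hL' x (mem_flt.mp hx).1 hne
        exact absurd (h3.trans h4) (lt_irrefl _)
    rw [h1]
    have h3 := w2_cand (V := V) (A := A) hk0 hR0 v
    have h4 : (0 : ℝ) ≤ 1 - 1 / (R : ℝ) := by
      rw [sub_nonneg, div_le_one hR0']
      exact_mod_cast hR0
    calc (1 - 1 / (R : ℝ)) * (m * ((1 - n ^ 2 / (R : ℝ) ^ 6) / n)) ≤
        (1 - 1 / (R : ℝ)) * pr (fun ω : Sp V A k R => ∃ x ∈ XU, Lw x ω) :=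
          mul_le_mul_of_nonneg_left h2 h4
      _ ≤ _ := mul_le_mul_of_nonneg_right h3 (pr_nonneg _)
  -- lower bound for `PB`
  have hB : m * (n - m) * (1 / (2 * (k : ℝ) ^ 2 * (R : ℝ) ^ 2)) ≤ pr PB := by
    have h1 : pr PB = ∑ p ∈ XN ×ˢ XU, pr (T p) := by
      refine pr_exists_eq _ _ ?_
      intro p hp p' hp' hne ω hω hω'
      have hp1 := mem_flt.mp (Finset.mem_product.mp hp).1
      have hp2 := mem_flt.mp (Finset.mem_product.mp hp).2
      have hq1 := mem_flt.mp (Finset.mem_product.mp hp').1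
      have hq2 := mem_flt.mp (Finset.mem_product.mp hp').2
      obtain ⟨h2, -, h3⟩ := hT p hp ω hω
      obtain ⟨h4, -, h5⟩ := hT p' hp' ω hω'
      have e1 : p.1 = p'.1 := by
        by_contra e
        exact absurd ((h2 p'.1 hq1.1 (Ne.symm e)).trans (h4 p.1 hp1.1 e)) (lt_irrefl _)
      have e2 : p.2 = p'.2 := by
        by_contra e
        have n1 : p'.2 ≠ p.1 := fun h => hp1.2 (by rw [← h]; exact hq2.2)
        have n2 : p.2 ≠ p'.1 := fun h => hq1.2 (by rw [← h]; exact hp2.2)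
        exact absurd ((h3 p'.2 hq2.1 n1 (Ne.symm e)).trans (h5 p.2 hp2.1 n2 e)) (lt_irrefl _)
      exact hne (Prod.ext e1 e2)
    rw [h1]
    have h2 : ∑ _p ∈ XN ×ˢ XU, 1 / (2 * (k : ℝ) ^ 2 * (R : ℝ) ^ 2) ≤
        ∑ p ∈ XN ×ˢ XU, pr (T p) :=
      Finset.sum_le_sum fun p hp => by
        have hp1 := mem_flt.mp (Finset.mem_product.mp hp).1
        have hp2 := mem_flt.mp (Finset.mem_product.mp hp).2
        have hne : p.1 ≠ p.2 := fun h => hp1.2 (by rw [h]; exact hp2.2)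
        exact hR₁ R hRa V A I hI hE v p.1 p.2 hne hp1.1 hp2.1
    rw [Finset.sum_const, nsmul_eq_mul, Finset.card_product] at h2
    have h3 : ((XU.card : ℕ) : ℝ) = m := hm
    push_cast at h2
    rw [hXN, h3] at h2
    refine le_trans (le_of_eq ?_) h2
    ring
  exact (w2_arith k hk1 R m n hRr hm0 hmn hev.2 hn0).trans ((add_le_add hA hB).trans hge)

end Pool.Agent.MP_61eeb2_co.EX
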