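import Pool.Agent.Lib.MP_61eeb2_co.EX.Def
import Pool.Agent.Lib.MP_61eeb2_co.EX.W1
import Pool.Agent.Lib.MP_61eeb2_co.EX.W2
import Pool.Agent.Lib.MP_61eeb2_co.EX.Bc

/-!
MP_61eeb2_co, exact bound k * D, module G1: expected numbers of rounds.

PROOF. e = 1/(200k^2), d = 1/(60k^2). For a class c let m_c = number of x ∈ At (cI c) v with x.1 ∈
U, n_c = |At (cI c) v|. The blocks of items in cI c have card <= k (sub, cardN). If U = ∅ both
sides are 0 (sg v ∈ ∅ is false). First sum: the event for j is contained in the event of p1 for I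
= cI (rc j) (an item x of At I v with x.1 ∉ U has x.1 ∈ Bl S v); sum over j by classes
(Finset.sum_fiberwise / card of rc j = c is between R and R+1): sum <= sum_c (R+1) [(1+3e) m_c/R -
m_c (n_c-m_c)/(3k^2R^2)] <= (1+3e)(1+1/R) sum m_c - (1/(3k^2R)) sum m_c (n_c - m_c)  (the bracket
is >= pr >= 0). sum_c m_c = nn E U (the items at v with block in U ⊆ Bl S v are the pairs (s,a), s
∈ U, a ∈ E s). sum_c m_c(n_c-m_c) = sum over s ∈ U, t ∈ Bl S v \ U of |Cross s t| >= sum |E s||E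
t|/(2n) = nn U * nn (Bl \ U)/(2n) (cross; s ≠ t, both contain v). nn(Bl \ U) = D - |Neg| - nn U >=
D/2 - D/R^(6k+3) >= D/3 and n R <= D, so sum_c m_c (n_c-m_c) >= nn U * R/6. Together: <= nn U
((1+3e)(1+1/R) - 1/(18k^2)) <= nn U (1 + 4e - 1/(18k^2)) <= (1-2d) nn U (4e = 1/(50k^2); 1/18 -
1/50 >= 1/30). Second sum: >= sum_c R [(1-3e) m_c/R + m_c(n_c-m_c)/(3k^2R^2)] (the event of p2 is
contained in the event here) >= (1-3e) nn U + nn U/(18k^2) >= (1+2d) nn U.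
-/

set_option autoImplicit false

namespace Pool.Agent.MP_61eeb2_co.EX

open Finset Classical

private theorem g1_pr_nonneg {Ω : Type*} [Fintype Ω] (P : Ω → Prop) : 0 ≤ pr P :=
  div_nonneg (cnt_nonneg P) (Nat.cast_nonneg _)

private theorem g1_pr_mono {Ω : Type*} [Fintype Ω] {P Q : Ω → Prop} (h : ∀ ω, P ω → Q ω) :
    pr P ≤ pr Q :=
  div_le_div_of_nonneg_right (cnt_mono h) (Nat.cast_nonneg _)

/-- The sum over the rounds is a sum over the classes. -/
private theorem g1_sum {D n : ℕ} (rc : Fin D → Fin n) (f : Fin n → ℝ) :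
    ∑ j, f (rc j) = ∑ c, ((flt univ (fun j => rc j = c)).card : ℝ) * f c := by
  rw [← Finset.sum_fiberwise' univ rc f]
  refine Finset.sum_congr rfl fun c _ => ?_
  rw [Finset.sum_const, nsmul_eq_mul, flt_eq_filter]

section

variable {V A : Type} [Fintype V] [Fintype A] {S : Finset (Finset V)} {E : Finset V → Finset A}
  {n : ℕ} {cl : Item V A → Fin n} {v : V} {U : Finset (Finset V)}

/-- The number of the items at `v` with block in `U`. -/
private theorem g1_m (hU : U ⊆ Bl S v) :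
    ∑ c, (flt (At (cI S E cl c) v) (fun x => x.1 ∈ U)).card = nn E U := by
  have h1 : (flt (itm S E) (fun x => x.1 ∈ U)).card =
      ∑ c, (flt (At (cI S E cl c) v) (fun x => x.1 ∈ U)).card := by
    rw [Finset.card_eq_sum_card_fiberwise (f := cl) (t := univ) fun _ _ => mem_univ _]
    refine Finset.sum_congr rfl fun c _ => congrArg Finset.card ?_
    ext x
    rw [Finset.mem_filter, mem_flt, mem_flt, mem_At, mem_cI, mem_itm]
    constructor
    · rintro ⟨⟨h2, h3⟩, h4⟩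
      exact ⟨⟨⟨h2, h4⟩, (mem_Bl.1 (hU h3)).2⟩, h3⟩
    · rintro ⟨⟨⟨h2, h4⟩, _⟩, h3⟩
      exact ⟨⟨h2, h3⟩, h4⟩
  have hmap : Set.MapsTo (fun x : Item V A => x.1)
      (flt (itm S E) (fun x => x.1 ∈ U) : Set (Item V A)) (U : Set (Finset V)) :=
    fun x hx => Finset.mem_coe.2 (mem_flt.1 (Finset.mem_coe.1 hx)).2
  rw [← h1, Finset.card_eq_sum_card_fiberwise hmap]
  unfold nn
  refine Finset.sum_congr rfl fun s hs => ?_
  have h2 : (flt (itm S E) (fun x => x.1 ∈ U)).filter (fun x => x.1 = s) =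
      (E s).image fun a => ((s, a) : Item V A) := by
    ext x
    rw [Finset.mem_filter, mem_flt, mem_itm, Finset.mem_image]
    constructor
    · rintro ⟨⟨⟨_, h3⟩, _⟩, h4⟩
      exact ⟨x.2, by rw [← h4]; exact h3, by rw [← h4]⟩
    · rintro ⟨a, ha, rfl⟩
      exact ⟨⟨⟨(mem_Bl.1 (hU hs)).1, ha⟩, hs⟩, rfl⟩
  rw [h2]
  exact Finset.card_image_of_injective _ fun a b h => (Prod.ext_iff.1 h).2

/-- The number of the pairs of items of the same class at `v`, the first one with block in `U`,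
the second one with block outside `U`. -/
private theorem g1_cross (hU : U ⊆ Bl S v) :
    ∑ p ∈ U ×ˢ (Bl S v \ U), (Cross S E cl p.1 p.2).card =
      ∑ c, (flt (At (cI S E cl c) v) (fun x => x.1 ∈ U)).card *
        (flt (At (cI S E cl c) v) (fun x => ¬ x.1 ∈ U)).card := by
  obtain ⟨P, hP⟩ : ∃ P : Finset (Item V A × Item V A), P = flt (itm S E ×ˢ itm S E)
      (fun p => p.1.1 ∈ U ∧ (p.2.1 ∈ Bl S v \ U) ∧ cl p.1 = cl p.2) := ⟨_, rfl⟩
  have h1 : P.card = ∑ c, (flt (At (cI S E cl c) v) (fun x => x.1 ∈ U)).card *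
        (flt (At (cI S E cl c) v) (fun x => ¬ x.1 ∈ U)).card := by
    rw [Finset.card_eq_sum_card_fiberwise (f := fun p : Item V A × Item V A => cl p.1)
      (t := univ) fun _ _ => mem_univ _]
    refine Finset.sum_congr rfl fun c _ => ?_
    rw [← Finset.card_product]
    refine congrArg Finset.card ?_
    ext p
    rw [Finset.mem_filter, hP, mem_flt, Finset.mem_product, Finset.mem_product, mem_flt, mem_flt,
      mem_At, mem_At, mem_cI, mem_cI, mem_itm, mem_itm, Finset.mem_sdiff, mem_Bl]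
    constructor
    · rintro ⟨⟨⟨h2, h3⟩, h4, ⟨⟨_, h5⟩, h6⟩, h7⟩, h8⟩
      exact ⟨⟨⟨⟨h2, h8⟩, (mem_Bl.1 (hU h4)).2⟩, h4⟩, ⟨⟨⟨h3, by rw [← h7]; exact h8⟩, h5⟩, h6⟩⟩
    · rintro ⟨⟨⟨⟨h2, h8⟩, _⟩, h4⟩, ⟨⟨⟨h3, h9⟩, h5⟩, h6⟩⟩
      exact ⟨⟨⟨h2, h3⟩, h4, ⟨⟨h3.1, h5⟩, h6⟩, by rw [h8, h9]⟩, h8⟩
  rw [← h1, Finset.card_eq_sum_card_fiberwise
    (f := fun p : Item V A × Item V A => (p.1.1, p.2.1)) (t := U ×ˢ (Bl S v \ U)) ?_]
  · refine Finset.sum_congr rfl fun q hq => congrArg Finset.card ?_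
    rw [Finset.mem_product] at hq
    ext p
    unfold Cross
    rw [Finset.mem_filter, hP, mem_flt, mem_flt]
    constructor
    · rintro ⟨h2, h3, h4, h5⟩
      refine ⟨⟨h2, ?_, ?_, h5⟩, by rw [h3, h4]⟩
      · rw [h3]
        exact hq.1
      · rw [h4]
        exact hq.2
    · rintro ⟨⟨h2, _, _, h5⟩, h3⟩
      exact ⟨h2, (Prod.ext_iff.1 h3).1, (Prod.ext_iff.1 h3).2, h5⟩
  · intro p hp
    rw [Finset.mem_coe, hP, mem_flt] at hp
    exact Finset.mem_coe.2 (Finset.mem_product.2 ⟨hp.2.1, hp.2.2.1⟩)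

end

theorem mean_ab (k : ℕ) (hk1 : 1 ≤ k) : ∃ R₀ : ℕ, ∀ R ≥ R₀, ∀ D, R ^ QQ k ≤ D →
    D ≤ R ^ (2 * QQ k) → ∀ (V A : Type) [Fintype V] [Fintype A] (N : A → Finset V)
      (S : Finset (Finset V)) (E : Finset V → Finset A), Blk k D R N S E →
    ∀ (n : ℕ) (cl : Item V A → Fin n) (rc : Fin D → Fin n), Cls k D R N S E n cl rc →
    ∀ (v : V) (U : Finset (Finset V)), U ⊆ Bl S v → 2 * nn E U ≤ D →
    ∑ j : Fin D, pr (fun ω : Sp V A k R => sg (cI S E cl (rc j)) ω v ∈ U ∧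
      ∀ s ∈ Bl S v, s ∉ U → ¬ Op (cI S E cl (rc j)) ω v s)
        ≤ (1 - 2 * (1 / (60 * (k : ℝ) ^ 2))) * nn E U ∧
    (1 + 2 * (1 / (60 * (k : ℝ) ^ 2))) * nn E U ≤
    ∑ j : Fin D, pr (fun ω : Sp V A k R => ∃ s ∈ U, Op (cI S E cl (rc j)) ω v s) := by
  obtain ⟨R₁, hR₁⟩ := p1 k hk1
  obtain ⟨R₂, hR₂⟩ := p2 k hk1
  refine ⟨max (max R₁ R₂) (200 * k ^ 2 + 6), fun R hR D hRD _ V A _ _ N S E hB n cl rc hC v U hU
    hUD => ?_⟩
  have hR1 : R₁ ≤ R := le_trans (le_trans (le_max_left _ _) (le_max_left _ _)) hR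
  have hR2 : R₂ ≤ R := le_trans (le_trans (le_max_right _ _) (le_max_left _ _)) hR
  have hR3 : 200 * k ^ 2 + 6 ≤ R := le_trans (le_max_right _ _) hR
  have hR6 : 6 ≤ R := by omega
  have hRpos : (0 : ℝ) < R := by
    have : 0 < R := by omega
    exact_mod_cast this
  have hkpos : (0 : ℝ) < k := by exact_mod_cast hk1
  have hD1 : 1 ≤ D := le_trans (Nat.one_le_pow _ _ (by omega)) hRD
  have hnpos : 0 < n := by
    rcases Nat.eq_zero_or_pos n with h | h
    · subst h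
      exact (rc ⟨0, by omega⟩).elim0
    · exact h
  -- the numbers for the classes
  obtain ⟨m, hm⟩ : ∃ m : Fin n → ℕ, ∀ c, m c =
    (flt (At (cI S E cl c) v) (fun x => x.1 ∈ U)).card := ⟨_, fun _ => rfl⟩
  obtain ⟨m', hm'⟩ : ∃ m' : Fin n → ℕ, ∀ c, m' c =
    (flt (At (cI S E cl c) v) (fun x => ¬ x.1 ∈ U)).card := ⟨_, fun _ => rfl⟩
  have hmm' : ∀ c, (At (cI S E cl c) v).card = m c + m' c := by
    intro c
    rw [hm, hm']
    exact (flt_card_add _ _).symm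
  have hsum : ∑ c, m c = nn E U := by
    rw [← g1_m (E := E) (cl := cl) hU]
    exact Finset.sum_congr rfl fun c _ => hm c
  have hcross : ∑ p ∈ U ×ˢ (Bl S v \ U), (Cross S E cl p.1 p.2).card = ∑ c, m c * m' c := by
    rw [g1_cross hU]
    exact Finset.sum_congr rfl fun c _ => by rw [hm, hm']
  -- the lower bound for the number of the pairs
  have hpairs : nn E U * nn E (Bl S v \ U) ≤ 2 * n * ∑ c, m c * m' c := by
    rw [← hcross]
    unfold nn
    rw [Finset.sum_mul_sum, ← Finset.sum_product', Finset.mul_sum]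
    refine Finset.sum_le_sum fun p hp => ?_
    rw [Finset.mem_product] at hp
    have h1 := mem_Bl.1 (hU hp.1)
    have h2 := Finset.mem_sdiff.1 hp.2
    have h3 := mem_Bl.1 h2.1
    refine hC.cross p.1 h1.1 p.2 h3.1 ?_ ?_
    · intro h
      exact h2.2 (h ▸ hp.1)
    · rw [Finset.not_disjoint_iff]
      exact ⟨v, h1.2, h3.2⟩
  have hbig : D ≤ 3 * nn E (Bl S v \ U) := by
    have h1 := (Bl_card k D R hD1 N S E hB v).2.2
    have h2 := hB.neg v
    have h3 : nn E (Bl S v \ U) + nn E U = nn E (Bl S v) := Finset.sum_sdiff hU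
    obtain ⟨g, hg⟩ : ∃ g : ℕ, g = (flt (Ed N v) (fun a => ∀ s ∈ S, v ∈ s → a ∉ E s)).card :=
      ⟨_, rfl⟩
    rw [← hg] at h1 h2
    have h4 : 6 ≤ R ^ (6 * k + 3) :=
      le_trans hR6 (Nat.le_self_pow (by omega) R)
    have h5 : g * 6 ≤ D := le_trans (Nat.mul_le_mul_left g h4) h2
    omega
  have hQ : (nn E U : ℝ) * R / 6 ≤ ∑ c, (m c : ℝ) * m' c := by
    have h1 : (nn E U : ℝ) * nn E (Bl S v \ U) ≤ 2 * n * ∑ c, (m c : ℝ) * m' c := by
      exact_mod_cast hpairs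
    have h2 : (n : ℝ) * R ≤ D := by exact_mod_cast hC.nR
    have h3 : (D : ℝ) ≤ 3 * nn E (Bl S v \ U) := by exact_mod_cast hbig
    have h4 : (0 : ℝ) < n := by exact_mod_cast hnpos
    have h5 : (0 : ℝ) ≤ nn E U := Nat.cast_nonneg _
    have h6 : (nn E U : ℝ) * (n * R) ≤ nn E U * (3 * nn E (Bl S v \ U)) :=
      mul_le_mul_of_nonneg_left (le_trans h2 h3) h5
    have h7 : (n : ℝ) * (nn E U * R / 6) ≤ n * ∑ c, (m c : ℝ) * m' c := by
      nlinarith
    exact le_of_mul_le_mul_left h7 h4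
  have hsumR : ∑ c, (m c : ℝ) = nn E U := by exact_mod_cast hsum
  have hcard : ∀ c, ∀ x ∈ cI S E cl c, x.1.card ≤ k := by
    intro c x hx
    have h1 := mem_cI.1 hx
    exact le_trans (Finset.card_le_card (hB.sub _ h1.1.1 _ h1.1.2)) (hB.cardN _)
  have hmR : ∀ c, (0 : ℝ) ≤ m c := fun c => Nat.cast_nonneg _
  have hmR' : ∀ c, (0 : ℝ) ≤ m' c := fun c => Nat.cast_nonneg _
  have hk2 : (0 : ℝ) < (k : ℝ) ^ 2 := by positivity
  have hk3 : (1 : ℝ) ≤ (k : ℝ) ^ 2 := by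
    have : (1 : ℝ) ≤ k := by exact_mod_cast hk1
    nlinarith
  obtain ⟨e, he⟩ : ∃ e : ℝ, e = 1 / (k : ℝ) ^ 2 := ⟨_, rfl⟩
  have he0 : 0 < e := by rw [he]; positivity
  have he1 : e ≤ 1 := by
    rw [he, div_le_one hk2]
    exact hk3
  have hk200 : 1 / (200 * (k : ℝ) ^ 2) = e / 200 := by rw [he]; field_simp
  have hk3200 : 3 / (200 * (k : ℝ) ^ 2) = 3 * e / 200 := by rw [he]; field_simp
  have hk60 : 1 / (60 * (k : ℝ) ^ 2) = e / 60 := by rw [he]; field_simp
  have hR200 : 200 + 6 * e ≤ e * R := by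
    have h1 : (200 : ℝ) * (k : ℝ) ^ 2 + 6 ≤ R := by exact_mod_cast hR3
    have h2 : e * (200 * (k : ℝ) ^ 2 + 6) = 200 + 6 * e := by
      rw [he]
      field_simp
    rw [← h2]
    exact mul_le_mul_of_nonneg_left h1 he0.le
  have hfr : ∀ c, (m c : ℝ) * ((m c + m' c : ℕ) - m c) / (3 * (k : ℝ) ^ 2 * (R : ℝ) ^ 2) =
      e / 3 * (m c * m' c) / (R : ℝ) ^ 2 := by
    intro c
    rw [he]
    push_cast
    field_simp
    ring
  constructor
  · -- the upper bound
    obtain ⟨f, hf⟩ : ∃ f : Fin n → ℝ, ∀ c, f c = (1 + 3 * e / 200) * (m c / R) -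
      e / 3 * (m c * m' c) / (R : ℝ) ^ 2 := ⟨_, fun _ => rfl⟩
    have h1 : ∀ c, pr (fun ω : Sp V A k R => sg (cI S E cl c) ω v ∈ U ∧
        ∀ s ∈ Bl S v, s ∉ U → ¬ Op (cI S E cl c) ω v s) ≤ f c := by
      intro c
      have h2 := hR₁ R hR1 V A (cI S E cl c) (hcard c) (hC.even c) v U (m c) ((m c + m' c : ℕ) : ℝ)
        (by rw [hm]) (by rw [hmm'])
      rw [hk3200, hfr, ← hf] at h2
      refine le_trans (g1_pr_mono fun ω hω => ⟨hω.1, fun x hx hxU => hω.2 x.1 ?_ hxU⟩) h2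
      have h3 := mem_At.1 hx
      exact mem_Bl.2 ⟨(mem_cI.1 h3.1).1.1, h3.2⟩
    have hf0 : ∀ c, 0 ≤ f c := fun c => le_trans (g1_pr_nonneg _) (h1 c)
    have h2 : ∑ j : Fin D, pr (fun ω : Sp V A k R => sg (cI S E cl (rc j)) ω v ∈ U ∧
        ∀ s ∈ Bl S v, s ∉ U → ¬ Op (cI S E cl (rc j)) ω v s) ≤ ∑ j : Fin D, f (rc j) :=
      Finset.sum_le_sum fun j _ => h1 (rc j)
    refine le_trans h2 ?_
    rw [g1_sum]
    have h3 : ∀ c, ((flt univ (fun j => rc j = c)).card : ℝ) * f c ≤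
        (1 + 4 * e / 200) * m c - e / 3 / R * (m c * m' c) := by
      intro c
      have h4 : ((flt univ (fun j => rc j = c)).card : ℝ) ≤ R + 1 := by
        exact_mod_cast hC.rhi c
      refine le_trans (mul_le_mul_of_nonneg_right h4 (hf0 c)) ?_
      rw [hf]
      have h5 : ((R : ℝ) + 1) * ((1 + 3 * e / 200) * (m c / R) -
          e / 3 * (m c * m' c) / (R : ℝ) ^ 2) =
          (1 + 3 * e / 200) * (1 + 1 / R) * m c - e / 3 / R * (m c * m' c) -
            e / 3 * (m c * m' c) / (R : ℝ) ^ 2 := by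
        field_simp
        ring
      have h6 : (1 + 3 * e / 200) * (1 + 1 / (R : ℝ)) ≤ 1 + 4 * e / 200 := by
        have h7 : (1 + 3 * e / 200) * (1 / (R : ℝ)) ≤ e / 200 := by
          rw [mul_one_div, div_le_iff₀ hRpos]
          nlinarith
        nlinarith
      have h7 : 0 ≤ e / 3 * (m c * m' c) / (R : ℝ) ^ 2 := by
        have := hmR c
        have := hmR' c
        positivity
      rw [h5]
      have h8 := mul_le_mul_of_nonneg_right h6 (hmR c)
      linarith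
    refine le_trans (Finset.sum_le_sum fun c _ => h3 c) ?_
    rw [Finset.sum_sub_distrib, ← Finset.mul_sum, ← Finset.mul_sum, hsumR, hk60]
    have h4 : e / 3 / R * (nn E U * R / 6) ≤ e / 3 / R * ∑ c, (m c : ℝ) * m' c :=
      mul_le_mul_of_nonneg_left hQ (by positivity)
    have h5 : e / 3 / R * (nn E U * R / 6) = e / 18 * nn E U := by
      field_simp
      ring
    rw [h5] at h4
    have h6 : (0 : ℝ) ≤ nn E U := Nat.cast_nonneg _
    have h7 : 0 ≤ e * nn E U := mul_nonneg he0.le h6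
    nlinarith
  · -- the lower bound
    obtain ⟨f, hf⟩ : ∃ f : Fin n → ℝ, ∀ c, f c = (1 - 3 * e / 200) * (m c / R) +
      e / 3 * (m c * m' c) / (R : ℝ) ^ 2 := ⟨_, fun _ => rfl⟩
    have h1 : ∀ c, f c ≤ pr (fun ω : Sp V A k R => ∃ s ∈ U, Op (cI S E cl c) ω v s) := by
      intro c
      have h2 := hR₂ R hR2 V A (cI S E cl c) (hcard c) (hC.even c) v U (m c) ((m c + m' c : ℕ) : ℝ)
        (by rw [hm]) (by rw [hmm'])
      rw [hk3200, hfr, ← hf] at h2
      refine le_trans h2 (g1_pr_mono fun ω hω => ?_)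
      obtain ⟨x, _, hxU, hx⟩ := hω
      exact ⟨x.1, hxU, hx⟩
    have hf0 : ∀ c, 0 ≤ f c := by
      intro c
      rw [hf]
      have := hmR c
      have := hmR' c
      have h3 : 0 ≤ 1 - 3 * e / 200 := by linarith
      positivity
    have h2 : ∑ j : Fin D, f (rc j) ≤
        ∑ j : Fin D, pr (fun ω : Sp V A k R => ∃ s ∈ U, Op (cI S E cl (rc j)) ω v s) :=
      Finset.sum_le_sum fun j _ => h1 (rc j)
    refine le_trans ?_ h2
    rw [g1_sum]
    have h3 : ∀ c, (1 - 3 * e / 200) * m c + e / 3 / R * (m c * m' c) ≤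
        ((flt univ (fun j => rc j = c)).card : ℝ) * f c := by
      intro c
      have h4 : (R : ℝ) ≤ ((flt univ (fun j => rc j = c)).card : ℝ) := by
        exact_mod_cast hC.rlo c
      refine le_trans (le_of_eq ?_) (mul_le_mul_of_nonneg_right h4 (hf0 c))
      rw [hf]
      field_simp
    refine le_trans ?_ (Finset.sum_le_sum fun c _ => h3 c)
    rw [Finset.sum_add_distrib, ← Finset.mul_sum, ← Finset.mul_sum, hsumR, hk60]
    have h4 : e / 3 / R * (nn E U * R / 6) ≤ e / 3 / R * ∑ c, (m c : ℝ) * m' c :=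
      mul_le_mul_of_nonneg_left hQ (by positivity)
    have h5 : e / 3 / R * (nn E U * R / 6) = e / 18 * nn E U := by
      field_simp
      ring
    rw [h5] at h4
    have h6 : (0 : ℝ) ≤ nn E U := Nat.cast_nonneg _
    have h7 : 0 ≤ e * nn E U := mul_nonneg he0.le h6
    nlinarith

end Pool.Agent.MP_61eeb2_co.EX
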