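import Pool.Agent.Lib.MP_61eeb2_co.EX.Def
import Pool.Agent.Lib.MP_61eeb2_co.EX.P1

/-!
MP_61eeb2_co, exact bound k * D, module P5: Chernoff bounds for independent coordinates
(exponential form).

PROOF. The coordinates c i are independent and uniform in Y. Copy the proofs of chernoff_upper /
chernoff_lower in Chernoff.lean (same folder, 60 lines each) with an own probability for every
index: for ch_exp let g i y = exp t if Act i y, else 1; the product over i of g i (c i) is exp (t
* number), so the indicator of the event is at most exp (- t a) * product (t >= 0); the sum over c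
of the product is the product over i of sum_y g i y (sum_pi_prod) = card Y * (1 + pr (Act i) (exp
t - 1)) <= card Y * exp (pr (Act i) (exp t - 1)) (Real.add_one_le_exp); the exponents add up to
(sum pr (Act i)) * (exp t - 1) <= mu (exp t - 1). ch_exp_lo: g i y = exp (- t) if Act i y, factor
1 - pr (Act i) (1 - exp (-t)) <= exp (- pr (Act i) (1 - exp (-t))). The count is the card of flt
univ (fun i => Act i (c i)) (flt is filter with the classical instance, flt_eq_filter).
-/

set_option autoImplicit false

namespace Pool.Agent.MP_61eeb2_co.EX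

open Finset Classical

section

variable {ι Y : Type*} [Fintype ι] [Fintype Y] [Nonempty Y]

private theorem ch_core (P : (ι → Y) → Prop) (g : ι → Y → ℝ) (hg : ∀ i y, 0 ≤ g i y) (E : ℝ)
    (hE : 0 ≤ E) (h1 : ∀ c, P c → 1 ≤ E * ∏ i, g i (c i)) (x : ι → ℝ)
    (h2 : ∀ i, ∑ y, g i y ≤ (Fintype.card Y : ℝ) * Real.exp (x i)) :
    pr P ≤ E * Real.exp (∑ i, x i) := by
  have hc : cnt P ≤ E * ∏ i, ∑ y, g i y := by
    rw [cnt_eq_sum, ← sum_pi_prod, Finset.mul_sum]
    refine Finset.sum_le_sum fun c _ => ?_
    split_ifs with h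
    · exact h1 c h
    · exact mul_nonneg hE (Finset.prod_nonneg fun i _ => hg i (c i))
  have hp : ∏ i, ∑ y, g i y ≤ (Fintype.card (ι → Y) : ℝ) * Real.exp (∑ i, x i) := by
    refine (Finset.prod_le_prod (fun i _ => Finset.sum_nonneg fun y _ => hg i y)
      fun i _ => h2 i).trans (le_of_eq ?_)
    rw [Finset.prod_mul_distrib, Real.exp_sum, Finset.prod_const, Fintype.card_fun,
      Finset.card_univ]
    push_cast
    rfl
  have hpos : (0 : ℝ) < (Fintype.card (ι → Y) : ℝ) := by exact_mod_cast Fintype.card_pos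
  unfold pr
  rw [div_le_iff₀ hpos]
  calc cnt P ≤ E * ∏ i, ∑ y, g i y := hc
    _ ≤ E * ((Fintype.card (ι → Y) : ℝ) * Real.exp (∑ i, x i)) :=
        mul_le_mul_of_nonneg_left hp hE
    _ = E * Real.exp (∑ i, x i) * (Fintype.card (ι → Y) : ℝ) := by ring

private theorem ch_sum (I : Y → Prop) (z : ℝ) :
    ∑ y, (if I y then z else 1) ≤ (Fintype.card Y : ℝ) * Real.exp (pr I * (z - 1)) := by
  have hpos : (0 : ℝ) < (Fintype.card Y : ℝ) := by exact_mod_cast Fintype.card_pos
  have h0 : cnt I = pr I * (Fintype.card Y : ℝ) := by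
    unfold pr
    field_simp
  have h1 : ∑ y, (if I y then z else 1) = (Fintype.card Y : ℝ) + (z - 1) * cnt I := by
    rw [cnt_eq_sum, Finset.mul_sum]
    have : (Fintype.card Y : ℝ) = ∑ _y : Y, (1 : ℝ) := by simp
    rw [this, ← Finset.sum_add_distrib]
    apply Finset.sum_congr rfl
    intro y _
    by_cases hy : I y
    · simp [hy]
    · simp [hy]
  rw [h1, h0]
  have h2 := Real.add_one_le_exp (pr I * (z - 1))
  have h3 := mul_le_mul_of_nonneg_left h2 hpos.le
  linarith

omit [Fintype Y] [Nonempty Y] in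
private theorem ch_prod (Act : ι → Y → Prop) (t : ℝ) (c : ι → Y) :
    ∏ i, (if Act i (c i) then Real.exp t else 1) =
      Real.exp (t * ((flt univ (fun i => Act i (c i))).card : ℝ)) := by
  rw [Finset.prod_ite, Finset.prod_const_one, mul_one, Finset.prod_const, ← Real.exp_nat_mul,
    mul_comm, flt_eq_filter]

theorem ch_exp (Act : ι → Y → Prop) (μ a t : ℝ) (ht : 0 ≤ t) (hμ : ∑ i, pr (Act i) ≤ μ) :
    pr (fun c : ι → Y => a ≤ ((flt univ (fun i => Act i (c i))).card : ℝ))
      ≤ Real.exp (-(t * a) + μ * (Real.exp t - 1)) := by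
  have hexp : 1 ≤ Real.exp t := Real.one_le_exp ht
  have h := ch_core (fun c : ι → Y => a ≤ ((flt univ (fun i => Act i (c i))).card : ℝ))
    (fun i y => if Act i y then Real.exp t else 1)
    (fun i y => by
      split_ifs
      · exact (Real.exp_pos _).le
      · exact zero_le_one)
    (Real.exp (-(t * a))) (Real.exp_pos _).le
    (fun c hc => by
      rw [ch_prod, ← Real.exp_add]
      apply Real.one_le_exp
      have := mul_le_mul_of_nonneg_left hc ht
      linarith)
    (fun i => pr (Act i) * (Real.exp t - 1)) (fun i => ch_sum (Act i) (Real.exp t))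
  refine h.trans ?_
  rw [← Real.exp_add, ← Finset.sum_mul]
  apply Real.exp_le_exp.mpr
  have := mul_le_mul_of_nonneg_right hμ (sub_nonneg.2 hexp)
  linarith

theorem ch_exp_lo (Act : ι → Y → Prop) (μ a t : ℝ) (ht : 0 ≤ t) (hμ : μ ≤ ∑ i, pr (Act i)) :
    pr (fun c : ι → Y => ((flt univ (fun i => Act i (c i))).card : ℝ) ≤ a)
      ≤ Real.exp (t * a - μ * (1 - Real.exp (-t))) := by
  have hexp : Real.exp (-t) ≤ 1 := by
    rw [← Real.exp_zero]
    exact Real.exp_le_exp.mpr (by linarith)
  have h := ch_core (fun c : ι → Y => ((flt univ (fun i => Act i (c i))).card : ℝ) ≤ a)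
    (fun i y => if Act i y then Real.exp (-t) else 1)
    (fun i y => by
      split_ifs
      · exact (Real.exp_pos _).le
      · exact zero_le_one)
    (Real.exp (t * a)) (Real.exp_pos _).le
    (fun c hc => by
      rw [ch_prod, ← Real.exp_add]
      apply Real.one_le_exp
      have := mul_le_mul_of_nonneg_left hc ht
      linarith)
    (fun i => pr (Act i) * (Real.exp (-t) - 1)) (fun i => ch_sum (Act i) (Real.exp (-t)))
  refine h.trans ?_
  rw [← Real.exp_add, ← Finset.sum_mul]
  apply Real.exp_le_exp.mpr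
  have := mul_le_mul_of_nonneg_right hμ (sub_nonneg.2 hexp)
  linarith

end

end Pool.Agent.MP_61eeb2_co.EX
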