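import Pool.Agent.Lib.MP_61eeb2_co.EX.Def
import Pool.Agent.Lib.MP_61eeb2_co.EX.P5

/-!
MP_61eeb2_co, exact bound k * D, module P5b: Chernoff bounds, three consequences.

PROOF. From ch_exp and ch_exp_lo (P5.lean). ch_up: t = d / 2, a = (1 - d) m, mu = (1 - 2 d) m (it
is >= 0 because the sum of probabilities is): exp t - 1 <= t + t^2 for 0 <= t <= 1
(Real.abs_exp_sub_one_sub_id_le or Real.exp_bound), exponent - t (1 - d) m + (1 - 2 d) m (t + t^2)
<= - t d m + t^2 m = - d^2 m / 4. The event with < is contained in the event with <= (pr_mono).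
ch_lo: t = d / 2, 1 - exp (-t) >= t - t^2 / 2 (0 <= t), exponent t (1 + d) m - (1 + 2 d) m (t -
t^2 / 2) = - t d m + (1 + 2 d) m t^2 / 2 <= - t d m + m t^2 = - d^2 m / 4. ch_half: t = 1/2, a =
mu / 2: exponent mu / 4 - mu (1 - exp (- 1/2)) <= - mu / 8 because exp (-1/2) <= 5/8 (exp (1/2) >=
1 + 1/2 + 1/8 = 13/8 > 8/5).
-/

set_option autoImplicit false

namespace Pool.Agent.MP_61eeb2_co.EX

open Finset Classical

section

variable {ι Y : Type*} [Fintype ι] [Fintype Y] [Nonempty Y]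

private theorem exp_neg_le (t : ℝ) (ht : 0 ≤ t) : Real.exp (-t) ≤ 1 - t + t ^ 2 / 2 := by
  have h1 := Real.quadratic_le_exp_of_nonneg ht
  have h2 : Real.exp (-t) * Real.exp t = 1 := by rw [← Real.exp_add]; simp
  have h3 : 0 < Real.exp (-t) := Real.exp_pos _
  have h4 : 0 < 1 + t + t ^ 2 / 2 := by positivity
  have h5 : Real.exp (-t) * (1 + t + t ^ 2 / 2) ≤ 1 := by
    exact (mul_le_mul_of_nonneg_left h1 h3.le).trans h2.le
  have h6 : (1 - t + t ^ 2 / 2) * (1 + t + t ^ 2 / 2) = 1 + t ^ 4 / 4 := by ring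
  have h7 : 0 ≤ t ^ 4 / 4 := by positivity
  by_contra hc
  push Not at hc
  have h8 := mul_lt_mul_of_pos_right hc h4
  linarith

theorem ch_up (Act : ι → Y → Prop) (m d : ℝ) (hm : 0 ≤ m) (hd0 : 0 ≤ d) (hd1 : d ≤ 1)
    (hμ : ∑ i, pr (Act i) ≤ (1 - 2 * d) * m) :
    pr (fun c : ι → Y => (1 - d) * m < ((flt univ (fun i => Act i (c i))).card : ℝ))
      ≤ Real.exp (-(d ^ 2 * m / 4)) := by
  refine (pr_mono fun c hc => le_of_lt hc).trans ?_
  refine (ch_exp Act ((1 - 2 * d) * m) ((1 - d) * m) (d / 2) (by linarith) hμ).trans ?_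
  apply Real.exp_le_exp.2
  have h0 : 0 ≤ (1 - 2 * d) * m := le_trans (sum_nonneg fun i _ => pr_nonneg (Act i)) hμ
  have h1 := Real.abs_exp_sub_one_sub_id_le (x := d / 2) (by rw [abs_of_nonneg] <;> linarith)
  have h2 : Real.exp (d / 2) - 1 ≤ d / 2 + (d / 2) ^ 2 := by
    have := le_of_abs_le h1
    linarith
  have h3 := mul_le_mul_of_nonneg_left h2 h0
  have h4 : 0 ≤ d ^ 3 * m := by positivity
  nlinarith

theorem ch_lo (Act : ι → Y → Prop) (m d : ℝ) (hm : 0 ≤ m) (hd0 : 0 ≤ d) (hd1 : 2 * d ≤ 1)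
    (hμ : (1 + 2 * d) * m ≤ ∑ i, pr (Act i)) :
    pr (fun c : ι → Y => ((flt univ (fun i => Act i (c i))).card : ℝ) < (1 + d) * m)
      ≤ Real.exp (-(d ^ 2 * m / 4)) := by
  refine (pr_mono fun c hc => le_of_lt hc).trans ?_
  refine (ch_exp_lo Act ((1 + 2 * d) * m) ((1 + d) * m) (d / 2) (by linarith) hμ).trans ?_
  apply Real.exp_le_exp.2
  have h0 : 0 ≤ (1 + 2 * d) * m := by positivity
  have h2 : d / 2 - (d / 2) ^ 2 / 2 ≤ 1 - Real.exp (-(d / 2)) := by
    have := exp_neg_le (d / 2) (by linarith)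
    linarith
  have h3 := mul_le_mul_of_nonneg_left h2 h0
  have h4 : 0 ≤ d ^ 2 * m * (1 - 2 * d) := mul_nonneg (by positivity) (by linarith)
  nlinarith

theorem ch_half (Act : ι → Y → Prop) (μ : ℝ) (hm : 0 ≤ μ) (hμ : μ ≤ ∑ i, pr (Act i)) :
    pr (fun c : ι → Y => ((flt univ (fun i => Act i (c i))).card : ℝ) < μ / 2)
      ≤ Real.exp (-(μ / 8)) := by
  refine (pr_mono fun c hc => le_of_lt hc).trans ?_
  refine (ch_exp_lo Act μ (μ / 2) (1 / 2) (by norm_num) hμ).trans ?_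
  apply Real.exp_le_exp.2
  have h2 : 3 / 8 ≤ 1 - Real.exp (-(1 / 2)) := by
    have := exp_neg_le (1 / 2) (by norm_num)
    linarith
  have h3 := mul_le_mul_of_nonneg_left h2 hm
  linarith

end

end Pool.Agent.MP_61eeb2_co.EX
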