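import Pool.Agent.Lib.MP_61eeb2_co.EX.Def
import Pool.Agent.Lib.MP_61eeb2_co.EX.G1
import Pool.Agent.Lib.MP_61eeb2_co.EX.P5b
import Pool.Agent.Lib.MP_61eeb2_co.EX.P3
import Pool.Agent.Lib.MP_61eeb2_co.EX.Bc

/-!
MP_61eeb2_co, exact bound k * D, module G2: heavy structure: probability.

PROOF. Union bound over the U ⊆ Bl S v with 2 nn U <= D (at most 2^|Bl S v| <= 2^(R^PHI) sets,
Bl_card). For U = ∅ the inequalities hold always (the first set is empty since sg v ∈ ∅ is false;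
the second is 0 <= ...), so only U ≠ ∅, where nn U >= D/R^PHI (sig). For such U: ch_up with m = nn
U, d = 1/(60k^2), Act j ω := the event of the first sum in mean_ab, and ch_lo for the second: each
fails with probability <= exp (- d^2 nn U/4) <= exp (- D/(14400 k^4 R^PHI)). Total <= 2 *
2^(R^PHI) exp (- D/(14400 k^4 R^PHI)) <= exp (-R), because D >= R^QQ, QQ >= 2 PHI + 40, so
D/(14400 k^4 R^PHI) >= R^(PHI+2) >= R^PHI + R + 2 for R large (R^38 >= 14400 k^4).
-/

set_option autoImplicit false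

namespace Pool.Agent.MP_61eeb2_co.EX

open Finset Classical

private theorem pr_inst {Ω : Type*} (i j : Fintype Ω) (P : Ω → Prop) :
    @pr Ω i P = @pr Ω j P := by
  rw [Subsingleton.elim i j]

private theorem num_aux (R p : ℕ) (hR : 2 ≤ R) : R ^ p + R + 1 ≤ R ^ (p + 2) := by
  have h1 : 1 ≤ R ^ p := Nat.one_le_pow _ _ (by omega)
  have h2 : R ^ (p + 2) = R ^ p * (R * R) := by
    rw [pow_add, pow_two]
  rw [h2]
  have h3 : R + 2 ≤ R * R := by nlinarith
  have h4 : R ^ p * (R + 2) ≤ R ^ p * (R * R) := Nat.mul_le_mul_left _ h3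
  nlinarith

private theorem exp_aux (R p b : ℕ) (hR : 2 ≤ R) (hb : b ≤ R ^ p) :
    (2 : ℝ) ^ b * (2 * Real.exp (-((R : ℝ) ^ (p + 2)))) ≤ Real.exp (-(R : ℝ)) := by
  have h2 : (2 : ℝ) ≤ Real.exp 1 := by
    have := Real.add_one_le_exp (1 : ℝ)
    linarith
  have h3 : (2 : ℝ) ^ b ≤ Real.exp ((R : ℝ) ^ p) := by
    calc (2 : ℝ) ^ b ≤ (Real.exp 1) ^ b := pow_le_pow_left₀ (by norm_num) h2 b
      _ = Real.exp (b : ℝ) := by rw [← Real.exp_nat_mul, mul_one]
      _ ≤ Real.exp ((R : ℝ) ^ p) := by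
        apply Real.exp_le_exp.mpr
        exact_mod_cast hb
  have h4 : (R : ℝ) ^ p + R + 1 ≤ (R : ℝ) ^ (p + 2) := by
    exact_mod_cast num_aux R p hR
  calc (2 : ℝ) ^ b * (2 * Real.exp (-((R : ℝ) ^ (p + 2))))
      ≤ Real.exp ((R : ℝ) ^ p) * (Real.exp 1 * Real.exp (-((R : ℝ) ^ (p + 2)))) := by
        apply mul_le_mul h3 _ (by positivity) (Real.exp_pos _).le
        exact mul_le_mul_of_nonneg_right h2 (Real.exp_pos _).le
    _ = Real.exp ((R : ℝ) ^ p + (1 + -((R : ℝ) ^ (p + 2)))) := by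
        rw [← Real.exp_add, ← Real.exp_add]
    _ ≤ Real.exp (-(R : ℝ)) := by
        apply Real.exp_le_exp.mpr
        linarith

theorem H1_pr (k : ℕ) (hk1 : 1 ≤ k) : ∃ R₀ : ℕ, ∀ R ≥ R₀, ∀ D, R ^ QQ k ≤ D →
    D ≤ R ^ (2 * QQ k) → ∀ (V A : Type) [Fintype V] [Fintype A] (N : A → Finset V)
      (S : Finset (Finset V)) (E : Finset V → Finset A), Blk k D R N S E →
    ∀ (n : ℕ) (cl : Item V A → Fin n) (rc : Fin D → Fin n), Cls k D R N S E n cl rc →
    ∀ v : V, pr (fun w : Fin D → Sp V A k R => ¬ H1 S E cl rc v w) ≤ Real.exp (-(R : ℝ)) := by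
  obtain ⟨R₁, hR₁⟩ := mean_ab k hk1
  refine ⟨max R₁ (14400 * k ^ 4 + 2), ?_⟩
  intro R hR D hD1 hD2 V A _ _ N S E hB n cl rc hC v
  have hRa : R₁ ≤ R := le_trans (le_max_left _ _) hR
  have hRb : 14400 * k ^ 4 + 2 ≤ R := le_trans (le_max_right _ _) hR
  have hR1 : 1 ≤ R := by omega
  have hR2 : 2 ≤ R := by omega
  have hmean := hR₁ R hRa D hD1 hD2 V A N S E hB n cl rc hC v
  have hD0 : 1 ≤ D := le_trans (Nat.one_le_pow _ _ hR1) hD1
  obtain ⟨hBl, -, -⟩ := Bl_card k D R hD0 N S E hB v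
  have hR6 : 0 < R ^ 6 := by positivity
  have : Nonempty (Sp V A k R) := ⟨fun _ => (⟨0, hR6⟩, ⟨0, hk1⟩, ⟨0, hR1⟩)⟩
  have hk0 : (1 : ℝ) ≤ k := by exact_mod_cast hk1
  have hk2 : (1 : ℝ) ≤ (k : ℝ) ^ 2 := one_le_pow₀ hk0
  obtain ⟨d, hd⟩ : ∃ d : ℝ, d = 1 / (60 * (k : ℝ) ^ 2) := ⟨_, rfl⟩
  have hd0 : 0 ≤ d := by rw [hd]; positivity
  have hd60 : d ≤ 1 / 60 := by
    rw [hd]
    apply one_div_le_one_div_of_le (by norm_num)
    linarith
  have hdd : d ^ 2 = 1 / (3600 * (k : ℝ) ^ 4) := by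
    rw [hd]
    field_simp
    ring
  obtain ⟨Up, hUp⟩ : ∃ Up : Finset (Finset V) → Fin D → Sp V A k R → Prop,
      Up = fun U j ω => sg (cI S E cl (rc j)) ω v ∈ U ∧
        ∀ s ∈ Bl S v, s ∉ U → ¬ Op (cI S E cl (rc j)) ω v s := ⟨_, rfl⟩
  obtain ⟨Lo, hLo⟩ : ∃ Lo : Finset (Finset V) → Fin D → Sp V A k R → Prop,
      Lo = fun U j ω => ∃ s ∈ U, Op (cI S E cl (rc j)) ω v s := ⟨_, rfl⟩
  obtain ⟨F, hF⟩ : ∃ F : Finset (Finset (Finset V)),
      F = flt (Bl S v).powerset (fun U => U.Nonempty ∧ 2 * nn E U ≤ D) := ⟨_, rfl⟩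
  have hFc : (F.card : ℝ) ≤ (2 : ℝ) ^ (Bl S v).card := by
    have h1 : F.card ≤ (Bl S v).powerset.card := by
      rw [hF]
      exact card_le_card (flt_sub _ _)
    rw [card_powerset] at h1
    exact_mod_cast h1
  have hmono : pr (fun w : Fin D → Sp V A k R => ¬ H1 S E cl rc v w) ≤
      pr (fun w : Fin D → Sp V A k R => ∃ U ∈ F,
        ((1 - d) * (nn E U : ℝ) < ((flt univ (fun j => Up U j (w j))).card : ℝ) ∨
        ((flt univ (fun j => Lo U j (w j))).card : ℝ) < (1 + d) * (nn E U : ℝ))) := by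
    apply pr_mono
    intro w hw
    by_contra hcon
    apply hw
    intro U hU hUD
    rcases U.eq_empty_or_nonempty with h0 | hne
    · rw [h0]
      have e1 : nn E (∅ : Finset (Finset V)) = 0 := by simp [nn]
      rw [e1]
      have e2 : (flt univ (fun j : Fin D => sg (cI S E cl (rc j)) (w j) v ∈
          (∅ : Finset (Finset V)) ∧ ∀ s ∈ Bl S v, s ∉ (∅ : Finset (Finset V)) →
            ¬ Op (cI S E cl (rc j)) (w j) v s)) = ∅ := by
        apply eq_empty_of_forall_notMem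
        intro j hj
        have := (mem_flt.mp hj).2.1
        exact absurd this (notMem_empty _)
      rw [e2]
      constructor
      · simp
      · simp
    · have hUF : U ∈ F := by
        rw [hF]
        exact mem_flt.mpr ⟨mem_powerset.mpr hU, hne, hUD⟩
      rw [← hd]
      constructor
      · by_contra h1
        apply hcon
        refine ⟨U, hUF, Or.inl ?_⟩
        rw [hUp]
        exact not_le.mp h1
      · by_contra h1
        apply hcon
        refine ⟨U, hUF, Or.inr ?_⟩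
        rw [hLo]
        exact not_le.mp h1
  refine le_trans hmono ?_
  have hone : ∀ U ∈ F, pr (fun w : Fin D → Sp V A k R =>
        ((1 - d) * (nn E U : ℝ) < ((flt univ (fun j => Up U j (w j))).card : ℝ) ∨
        ((flt univ (fun j => Lo U j (w j))).card : ℝ) < (1 + d) * (nn E U : ℝ))) ≤
      2 * Real.exp (-((R : ℝ) ^ (PHI k + 2))) := by
    intro U hU
    rw [hF] at hU
    obtain ⟨hU1, hU2, hU3⟩ := mem_flt.mp hU
    rw [mem_powerset] at hU1
    obtain ⟨hm1, hm2⟩ := hmean U hU1 hU3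
    rw [← hd] at hm1 hm2
    have hbig : R ^ (PHI k + 2) * (14400 * k ^ 4) ≤ nn E U := by
      obtain ⟨s, hs⟩ := hU2
      have h1 : (E s).card ≤ nn E U := by
        unfold nn
        exact single_le_sum (f := fun s => (E s).card) (fun _ _ => Nat.zero_le _) hs
      have h2 := hB.sig s (mem_Bl.mp (hU1 hs)).1
      have h3 : R ^ (PHI k + 18 * k + 40) * R ^ PHI k ≤ nn E U * R ^ PHI k := by
        calc R ^ (PHI k + 18 * k + 40) * R ^ PHI k = R ^ QQ k := by
              rw [← pow_add]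
              congr 1
              unfold QQ
              ring
          _ ≤ D := hD1
          _ ≤ (E s).card * R ^ PHI k := h2
          _ ≤ nn E U * R ^ PHI k := Nat.mul_le_mul_right _ h1
      have h4 : R ^ (PHI k + 18 * k + 40) ≤ nn E U :=
        Nat.le_of_mul_le_mul_right h3 (by positivity)
      refine le_trans ?_ h4
      calc R ^ (PHI k + 2) * (14400 * k ^ 4) ≤ R ^ (PHI k + 2) * R := by
            apply Nat.mul_le_mul_left
            omega
        _ = R ^ (PHI k + 3) := by rw [← pow_succ]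
        _ ≤ R ^ (PHI k + 18 * k + 40) := Nat.pow_le_pow_right hR1 (by omega)
    have hexp : Real.exp (-(d ^ 2 * (nn E U : ℝ) / 4)) ≤
        Real.exp (-((R : ℝ) ^ (PHI k + 2))) := by
      apply Real.exp_le_exp.mpr
      have h5 : (R : ℝ) ^ (PHI k + 2) * (14400 * (k : ℝ) ^ 4) ≤ (nn E U : ℝ) := by
        exact_mod_cast hbig
      have h6 : d ^ 2 * (nn E U : ℝ) / 4 = (nn E U : ℝ) / (14400 * (k : ℝ) ^ 4) := by
        rw [hdd]
        field_simp
        ring
      rw [h6]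
      apply neg_le_neg
      rw [le_div_iff₀ (by positivity)]
      exact h5
    have hnn : (0 : ℝ) ≤ (nn E U : ℝ) := Nat.cast_nonneg _
    have hc1 : pr (fun w : Fin D → Sp V A k R =>
        (1 - d) * (nn E U : ℝ) < ((flt univ (fun j => Up U j (w j))).card : ℝ)) ≤
        Real.exp (-(d ^ 2 * (nn E U : ℝ) / 4)) := by
      refine le_of_eq_of_le (pr_inst _ _ _) (ch_up (Up U) (nn E U : ℝ) d hnn hd0
        (by linarith) ?_)
      rw [hUp]
      exact hm1
    have hc2 : pr (fun w : Fin D → Sp V A k R =>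
        ((flt univ (fun j => Lo U j (w j))).card : ℝ) < (1 + d) * (nn E U : ℝ)) ≤
        Real.exp (-(d ^ 2 * (nn E U : ℝ) / 4)) := by
      refine le_of_eq_of_le (pr_inst _ _ _) (ch_lo (Lo U) (nn E U : ℝ) d hnn hd0
        (by linarith) ?_)
      rw [hLo]
      exact hm2
    calc _ ≤ _ := pr_or_le _ _
      _ ≤ Real.exp (-(d ^ 2 * (nn E U : ℝ) / 4)) + Real.exp (-(d ^ 2 * (nn E U : ℝ) / 4)) :=
        add_le_add hc1 hc2
      _ ≤ _ := by linarith
  refine le_trans (pr_exists_le_card F _ _ hone) ?_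
  refine le_trans ?_ (exp_aux R (PHI k) (Bl S v).card hR2 hBl)
  exact mul_le_mul_of_nonneg_right hFc (by positivity)

end Pool.Agent.MP_61eeb2_co.EX
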