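import Pool.Agent.Lib.MP_61eeb2_co.EX.Def

/-!
MP_61eeb2_co, exact bound k * D, module G3: conflict degrees.

PROOF. Put x_u = ch u (u ∈ x_u.1, x_u ∈ I), Z_a = ZZ ((N a \ s).image ch). Suppose sites I Z_a and
sites I Z_b meet (a, b ∈ E s). Then there are z ∈ Z_a, y ∈ At I z, z' ∈ y.1 ∩ Z_b (if the common
site is an item y it touches Z_a and Z_b; if it is a vertex z ∈ Z_a ∩ Z_b take y = ch z, z' = z).
z' ∈ x_{u'}.1 for some u' ∈ N b \ s, so x_{u'} ∈ At I z' and u' ∈ x_{u'}.1. So u' is in Q = union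
over z ∈ Z_a, y ∈ At I z, z' ∈ y.1, x ∈ At I z' of x.1, |Q| <= k^2 * 2R * k * 2R * k = 4 k^4 R^2
(|Z_a| <= k * k as |N a| <= k and |x.1| <= k). So the set of b is contained in the union over u' ∈
Q, u' ∉ s, of {b ∈ E s : u' ∈ N b}, each of which satisfies card * R^(18k+16) <= |E s| (light). So
card * R^(18k+16) <= 4k^4 R^2 |E s|, and with R >= 4k^4: card * R^(18k+13) <= |E s|.
-/

set_option autoImplicit false

namespace Pool.Agent.MP_61eeb2_co.EX

open Finset Classical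

theorem conf (k : ℕ) (hk1 : 1 ≤ k) : ∃ R₀ : ℕ, ∀ R ≥ R₀, ∀ D,
    ∀ (V A : Type) [Fintype V] [Fintype A] (N : A → Finset V)
      (S : Finset (Finset V)) (E : Finset V → Finset A), Blk k D R N S E →
    ∀ (I : Finset (Item V A)), (∀ x ∈ I, x.1.card ≤ k) → (∀ v, (At I v).card ≤ 2 * R) →
    ∀ ch : V → Item V A, (∀ u, ch u ∈ At I u) → ∀ s ∈ S, ∀ a ∈ E s,
    (flt (E s) (fun b => ¬ Disjoint (sites I (ZZ ((N a \ s).image ch)))
      (sites I (ZZ ((N b \ s).image ch))))).card * R ^ (18 * k + 13) ≤ (E s).card := by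
  refine ⟨4 * k ^ 4, fun R hR D V A _ _ N S E hB I hIk hI2 ch hch s hs a ha => ?_⟩
  obtain ⟨Za, hZa⟩ : ∃ Za : Finset V, Za = ZZ ((N a \ s).image ch) := ⟨_, rfl⟩
  rw [← hZa]
  obtain ⟨Q, hQ⟩ : ∃ Q : Finset V, Q = Za.biUnion (fun z => (At I z).biUnion (fun y =>
      y.1.biUnion (fun z' => (At I z').biUnion (fun x => x.1)))) := ⟨_, rfl⟩
  have hchk : ∀ u, (ch u).1.card ≤ k := fun u => hIk _ (mem_At.1 (hch u)).1
  -- the size of `Q`
  have hZc : Za.card ≤ k * k := by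
    rw [hZa, ZZ]
    have h1 : ((N a \ s).image ch).card ≤ k :=
      (card_image_le.trans (card_le_card sdiff_subset)).trans (hB.cardN a)
    refine (card_biUnion_le_card_mul _ _ k ?_).trans (Nat.mul_le_mul_right k h1)
    intro x hx
    obtain ⟨u, -, rfl⟩ := mem_image.1 hx
    exact hchk u
  have hQc : Q.card ≤ 4 * k ^ 4 * R ^ 2 := by
    have h1 : ∀ z', ((At I z').biUnion (fun x => x.1)).card ≤ 2 * R * k := fun z' =>
      (card_biUnion_le_card_mul _ _ k fun x hx => hIk x (mem_At.1 hx).1).trans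
        (Nat.mul_le_mul_right k (hI2 z'))
    have h2 : ∀ y ∈ I, (y.1.biUnion (fun z' => (At I z').biUnion (fun x => x.1))).card ≤
        k * (2 * R * k) := fun y hy =>
      (card_biUnion_le_card_mul _ _ (2 * R * k) fun z' _ => h1 z').trans
        (Nat.mul_le_mul_right _ (hIk y hy))
    have h3 : ∀ z, ((At I z).biUnion (fun y =>
        y.1.biUnion (fun z' => (At I z').biUnion (fun x => x.1)))).card ≤
        2 * R * (k * (2 * R * k)) := fun z =>
      (card_biUnion_le_card_mul _ _ (k * (2 * R * k)) fun y hy => h2 y (mem_At.1 hy).1).trans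
        (Nat.mul_le_mul_right _ (hI2 z))
    rw [hQ]
    refine (card_biUnion_le_card_mul _ _ (2 * R * (k * (2 * R * k))) fun z _ => h3 z).trans ?_
    refine (Nat.mul_le_mul_right _ hZc).trans (le_of_eq ?_)
    ring
  -- the covering
  have hcov : flt (E s) (fun b => ¬ Disjoint (sites I Za)
      (sites I (ZZ ((N b \ s).image ch)))) ⊆
      (flt Q (fun u => u ∉ s)).biUnion (fun u => flt (E s) (fun b => u ∈ N b)) := by
    intro b hb
    obtain ⟨hbE, hbd⟩ := mem_flt.1 hb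
    obtain ⟨σ, hσ1, hσ2⟩ := not_disjoint_iff.1 hbd
    obtain ⟨z, y, z', hz, hy, hz'y, hz'b⟩ : ∃ z y z', z ∈ Za ∧ y ∈ At I z ∧ z' ∈ y.1 ∧
        z' ∈ ZZ ((N b \ s).image ch) := by
      unfold sites at hσ1 hσ2
      rcases mem_union.1 hσ1 with h1 | h1
      · obtain ⟨y, hy, rfl⟩ := mem_image.1 h1
        have h2 : y ∈ Touch I (ZZ ((N b \ s).image ch)) := by
          rcases mem_union.1 hσ2 with h2 | h2
          · obtain ⟨y', hy', h3⟩ := mem_image.1 h2
            rw [← Sum.inl.inj h3]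
            exact hy'
          · obtain ⟨z, -, h3⟩ := mem_image.1 h2
            exact absurd h3 (by simp)
        obtain ⟨hyI, hyd⟩ := mem_Touch.1 hy
        obtain ⟨-, hyd'⟩ := mem_Touch.1 h2
        obtain ⟨z, hz1, hz2⟩ := not_disjoint_iff.1 hyd
        obtain ⟨z', hz1', hz2'⟩ := not_disjoint_iff.1 hyd'
        exact ⟨z, y, z', hz2, mem_At.2 ⟨hyI, hz1⟩, hz1', hz2'⟩
      · obtain ⟨z, hz, rfl⟩ := mem_image.1 h1
        have h2 : z ∈ ZZ ((N b \ s).image ch) := by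
          rcases mem_union.1 hσ2 with h2 | h2
          · obtain ⟨y', -, h3⟩ := mem_image.1 h2
            exact absurd h3 (by simp)
          · obtain ⟨z2, hz2, h3⟩ := mem_image.1 h2
            rw [← Sum.inr.inj h3]
            exact hz2
        exact ⟨z, ch z, z, hz, hch z, (mem_At.1 (hch z)).2, h2⟩
    unfold ZZ at hz'b
    obtain ⟨x, hx, hz'x⟩ := mem_biUnion.1 hz'b
    obtain ⟨u', hu', rfl⟩ := mem_image.1 hx
    obtain ⟨hu1, hu2⟩ := mem_sdiff.1 hu'
    obtain ⟨hc1, hc2⟩ := mem_At.1 (hch u')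
    refine mem_biUnion.2 ⟨u', mem_flt.2 ⟨?_, hu2⟩, mem_flt.2 ⟨hbE, hu1⟩⟩
    rw [hQ]
    exact mem_biUnion.2 ⟨z, hz, mem_biUnion.2 ⟨y, hy, mem_biUnion.2 ⟨z', hz'y,
      mem_biUnion.2 ⟨ch u', mem_At.2 ⟨hc1, hz'x⟩, hc2⟩⟩⟩⟩
  have hR1 : 1 ≤ R := by
    have h1 : 1 ≤ k ^ 4 := Nat.one_le_pow _ _ hk1
    omega
  have hmain : (flt (E s) (fun b => ¬ Disjoint (sites I Za)
      (sites I (ZZ ((N b \ s).image ch))))).card * R ^ (18 * k + 16) ≤
      4 * k ^ 4 * R ^ 2 * (E s).card := by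
    calc _ ≤ (∑ u ∈ flt Q (fun u => u ∉ s), (flt (E s) (fun b => u ∈ N b)).card) *
          R ^ (18 * k + 16) :=
          Nat.mul_le_mul_right _ ((card_le_card hcov).trans card_biUnion_le)
      _ = ∑ u ∈ flt Q (fun u => u ∉ s), (flt (E s) (fun b => u ∈ N b)).card *
          R ^ (18 * k + 16) := sum_mul _ _ _
      _ ≤ ∑ _u ∈ flt Q (fun u => u ∉ s), (E s).card :=
          sum_le_sum fun u hu => hB.light s hs u (mem_flt.1 hu).2
      _ = (flt Q (fun u => u ∉ s)).card * (E s).card := by rw [sum_const, smul_eq_mul]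
      _ ≤ 4 * k ^ 4 * R ^ 2 * (E s).card :=
          Nat.mul_le_mul_right _ ((card_le_card (flt_sub _ _)).trans hQc)
  have h3 : 4 * k ^ 4 * R ^ 2 * (E s).card ≤ (E s).card * R ^ 3 := by
    calc 4 * k ^ 4 * R ^ 2 * (E s).card ≤ R * R ^ 2 * (E s).card :=
          Nat.mul_le_mul_right _ (Nat.mul_le_mul_right _ hR)
      _ = (E s).card * R ^ 3 := by ring
  have h4 : R ^ (18 * k + 16) = R ^ (18 * k + 13) * R ^ 3 := by
    rw [← pow_add]
  rw [h4, ← mul_assoc] at hmain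
  exact Nat.le_of_mul_le_mul_right (hmain.trans h3) (pow_pos hR1 3)

end Pool.Agent.MP_61eeb2_co.EX
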