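import Pool.Agent.Lib.MP_61eeb2_co.EX.Def

/-!
MP_61eeb2_co, exact bound k * D, module LS1: large subfamilies with disjoint supports.

PROOF. Take a subset X' of X with pairwise disjoint supports which is maximal under inclusion
(finite; e.g. maximal cardinality among the members of X.powerset with the property). For every a
in X either a is in X' or the support of a meets the support of some b in X'. So X is contained in
the union over b in X' of {b} ∪ flt E (fun a => not Disjoint (supp b) (supp a)). Each of these
sets has at most Δ elements: if supp b is nonempty then b itself is in the second set; if supp b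
is empty the second set is empty and {b} has 1 <= Δ elements. So |X| <= |X'| Δ
(Finset.card_biUnion_le_card_mul).
-/

set_option autoImplicit false

namespace Pool.Agent.MP_61eeb2_co.EX

open Finset Classical

section

variable {ι κ α : Type*} [Fintype ι] [Fintype κ] [Nonempty κ]

theorem indep_sub {β : Type*} (E : Finset α) (supp : α → Finset β) (X : Finset α) (hX : X ⊆ E)
    (Δ : ℕ) (hΔ : 1 ≤ Δ)
    (hc : ∀ a ∈ E, (flt E (fun b => ¬ Disjoint (supp a) (supp b))).card ≤ Δ) :
    ∃ X', X' ⊆ X ∧ (∀ a ∈ X', ∀ b ∈ X', a ≠ b → Disjoint (supp a) (supp b)) ∧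
      X.card ≤ X'.card * Δ := by
  obtain ⟨X', hX', hmax⟩ := Finset.exists_max_image
    (flt X.powerset (fun Y => ∀ a ∈ Y, ∀ b ∈ Y, a ≠ b → Disjoint (supp a) (supp b)))
    Finset.card ⟨∅, mem_flt.2 ⟨Finset.empty_mem_powerset X, by simp⟩⟩
  rw [mem_flt, Finset.mem_powerset] at hX'
  obtain ⟨h1, h2⟩ := hX'
  refine ⟨X', h1, h2, ?_⟩
  have h3 : X ⊆ X'.biUnion
      (fun b => {b} ∪ flt E (fun a => ¬ Disjoint (supp b) (supp a))) := by
    intro a ha
    rw [Finset.mem_biUnion]
    by_cases ha' : a ∈ X'
    · exact ⟨a, ha', Finset.mem_union_left _ (Finset.mem_singleton_self a)⟩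
    · by_contra hcon
      push Not at hcon
      have h4 : ∀ b ∈ X', Disjoint (supp b) (supp a) := by
        intro b hb
        by_contra h5
        exact hcon b hb (Finset.mem_union_right _ (mem_flt.2 ⟨hX ha, h5⟩))
      have h6 : insert a X' ∈ flt X.powerset
          (fun Y => ∀ a ∈ Y, ∀ b ∈ Y, a ≠ b → Disjoint (supp a) (supp b)) := by
        rw [mem_flt, Finset.mem_powerset]
        refine ⟨Finset.insert_subset ha h1, ?_⟩
        intro x hx y hy hxy
        rcases Finset.mem_insert.1 hx with rfl | hx'
        · rcases Finset.mem_insert.1 hy with rfl | hy'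
          · exact absurd rfl hxy
          · exact (h4 y hy').symm
        · rcases Finset.mem_insert.1 hy with rfl | hy'
          · exact h4 x hx'
          · exact h2 x hx' y hy' hxy
      have h7 := hmax _ h6
      rw [Finset.card_insert_of_notMem ha'] at h7
      omega
  refine (Finset.card_le_card h3).trans (Finset.card_biUnion_le_card_mul _ _ _ ?_)
  intro b hb
  have hbE : b ∈ E := hX (h1 hb)
  rcases (supp b).eq_empty_or_nonempty with h0 | h0
  · have h8 : flt E (fun a => ¬ Disjoint (supp b) (supp a)) = ∅ := by
      ext a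
      rw [mem_flt, h0]
      simp
    rw [h8, Finset.union_empty, Finset.card_singleton]
    exact hΔ
  · have h9 : b ∈ flt E (fun a => ¬ Disjoint (supp b) (supp a)) := by
      rw [mem_flt, disjoint_self]
      exact ⟨hbE, h0.ne_empty⟩
    rw [Finset.union_eq_right.2 (Finset.singleton_subset_iff.2 h9)]
    exact hc b hbE

end

end Pool.Agent.MP_61eeb2_co.EX
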