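import Pool.Agent.Lib.MP_61eeb2_co.EX.Def
import Pool.Agent.Lib.MP_61eeb2_co.EX.P2
import Pool.Agent.Lib.MP_61eeb2_co.EX.LS1

/-!
MP_61eeb2_co, exact bound k * D, module LS2: many local events hold.

PROOF. Step 1: there are h and pairwise disjoint subsets X_1, ..., X_h of E, each of cardinality L
with pairwise disjoint supports, such that 2 h L >= |E|. Greedy: as long as the removed part has
less than |E| / 2 elements the remaining set Y has |Y| > |E| / 2 >= L Δ, so indep_sub (LS1) gives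
a subset with pairwise disjoint supports and more than ... |X'| Δ >= |Y| > L Δ, so |X'| > L: take
a subset of cardinality L (Finset.exists_subset_card_eq). Formally: a family (Finset of Finsets)
of pairwise disjoint such subsets of maximal cardinality works. h <= |E| as the X_l are disjoint
and nonempty (L >= 1). Step 2: for each l: pr (no event Ev a with a in X_l) <= exp (- p L)
(pr_none_le of P2). Union bound (pr_exists_le_card): with probability >= 1 - h exp (- p L) every
X_l contains an a with Ev a ω; then the number of such a in E is >= h, so 2 L * number >= 2 L h >=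
|E|. So the event of the statement is contained in the union. h <= |E|.
-/

set_option autoImplicit false

namespace Pool.Agent.MP_61eeb2_co.EX

open Finset Classical

section

variable {ι κ α : Type*} [Fintype ι] [Fintype κ] [Nonempty κ]

/-- Families of disjoint subfamilies with disjoint supports. -/
private theorem ls2_fam {β : Type*} (E : Finset α) (supp : α → Finset β) (Δ L : ℕ) (hΔ : 1 ≤ Δ)
    (hL : 1 ≤ L) (hc : ∀ a ∈ E, (flt E (fun b => ¬ Disjoint (supp a) (supp b))).card ≤ Δ)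
    (hE : 2 * (L * Δ) ≤ E.card) : ∃ F : Finset (Finset α),
      (∀ X ∈ F, X ⊆ E ∧ X.card = L ∧
        ∀ a ∈ X, ∀ b ∈ X, a ≠ b → Disjoint (supp a) (supp b)) ∧
      (∀ X ∈ F, ∀ Y ∈ F, X ≠ Y → Disjoint X Y) ∧ E.card ≤ 2 * (F.card * L) ∧
      F.card ≤ E.card := by
  obtain ⟨F, hF, hmax⟩ := Finset.exists_max_image
    (flt E.powerset.powerset (fun F => (∀ X ∈ F, X ⊆ E ∧ X.card = L ∧
      ∀ a ∈ X, ∀ b ∈ X, a ≠ b → Disjoint (supp a) (supp b)) ∧
      ∀ X ∈ F, ∀ Y ∈ F, X ≠ Y → Disjoint X Y))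
    Finset.card ⟨∅, mem_flt.2 ⟨Finset.empty_mem_powerset _, by simp⟩⟩
  rw [mem_flt, Finset.mem_powerset] at hF
  obtain ⟨hF0, hF1, hF2⟩ := hF
  have hU : (F.biUnion id).card = F.card * L := by
    rw [Finset.card_biUnion (t := id) fun X hX Y hY hXY => hF2 X hX Y hY hXY]
    exact Finset.sum_const_nat fun X hX => (hF1 X hX).2.1
  have hUE : F.biUnion id ⊆ E := by
    intro a ha
    rw [Finset.mem_biUnion] at ha
    obtain ⟨X, hX, haX⟩ := ha
    exact (hF1 X hX).1 haX
  have hUc := Finset.card_le_card hUE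
  rw [hU] at hUc
  refine ⟨F, hF1, hF2, ?_, le_trans (Nat.le_mul_of_pos_right _ hL) hUc⟩
  by_contra hcon
  push Not at hcon
  have hY : (E \ F.biUnion id).card + F.card * L = E.card := by
    rw [← hU]
    exact Finset.card_sdiff_add_card_eq_card hUE
  obtain ⟨X', h1, h2, h3⟩ := indep_sub E supp (E \ F.biUnion id) Finset.sdiff_subset Δ hΔ hc
  have h4 : L * Δ < X'.card * Δ := by omega
  have h5 : L < X'.card := lt_of_mul_lt_mul_right h4 (Nat.zero_le _)
  obtain ⟨X, hXX, hXL⟩ := Finset.exists_subset_card_eq h5.le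
  have hXU : ∀ a ∈ X, a ∈ E ∧ a ∉ F.biUnion id := fun a ha =>
    Finset.mem_sdiff.1 (h1 (hXX ha))
  have hXF : ∀ Y ∈ F, Disjoint X Y := by
    intro Y hY
    rw [Finset.disjoint_left]
    intro a ha haY
    exact (hXU a ha).2 (Finset.mem_biUnion.2 ⟨Y, hY, haY⟩)
  have hXn : X ∉ F := by
    intro hX
    have h6 := hXF X hX
    rw [disjoint_self] at h6
    have h7 : X = ∅ := h6
    rw [h7, Finset.card_empty] at hXL
    omega
  have hXE : X ⊆ E := fun a ha => (hXU a ha).1
  have h6 : insert X F ∈ flt E.powerset.powerset (fun F => (∀ X ∈ F, X ⊆ E ∧ X.card = L ∧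
      ∀ a ∈ X, ∀ b ∈ X, a ≠ b → Disjoint (supp a) (supp b)) ∧
      ∀ X ∈ F, ∀ Y ∈ F, X ≠ Y → Disjoint X Y) := by
    rw [mem_flt, Finset.mem_powerset]
    refine ⟨Finset.insert_subset (Finset.mem_powerset.2 hXE) hF0, ?_, ?_⟩
    · intro Y hY
      rcases Finset.mem_insert.1 hY with rfl | hY'
      · exact ⟨hXE, hXL, fun a ha b hb => h2 a (hXX ha) b (hXX hb)⟩
      · exact hF1 Y hY'
    · intro Y hY Z hZ hYZ
      rcases Finset.mem_insert.1 hY with rfl | hY'
      · rcases Finset.mem_insert.1 hZ with rfl | hZ'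
        · exact absurd rfl hYZ
        · exact hXF Z hZ'
      · rcases Finset.mem_insert.1 hZ with rfl | hZ'
        · exact (hXF Y hY').symm
        · exact hF2 Y hY' Z hZ' hYZ
  have h7 := hmax _ h6
  rw [Finset.card_insert_of_notMem hXn] at h7
  omega

theorem many_ok (E : Finset α) (supp : α → Finset ι) (Ev : α → (ι → κ) → Prop)
    (hdep : ∀ a ∈ E, DepOn (supp a) (Ev a)) (Δ L : ℕ) (hΔ : 1 ≤ Δ) (hL : 1 ≤ L)
    (hc : ∀ a ∈ E, (flt E (fun b => ¬ Disjoint (supp a) (supp b))).card ≤ Δ)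
    (hE : 2 * (L * Δ) ≤ E.card) (p : ℝ) (hp0 : 0 ≤ p) (hp : ∀ a ∈ E, p ≤ pr (Ev a)) :
    pr (fun ω => 2 * L * (flt E (fun a => Ev a ω)).card < E.card)
      ≤ E.card * Real.exp (-(p * L)) := by
  obtain ⟨F, hF1, hF2, hF3, hF4⟩ := ls2_fam E supp Δ L hΔ hL hc hE
  have h1 : pr (fun ω => 2 * L * (flt E (fun a => Ev a ω)).card < E.card) ≤
      pr (fun ω => ∃ X ∈ F, ∀ a ∈ X, ¬ Ev a ω) := by
    refine pr_mono fun ω hω => ?_
    by_contra hcon
    push Not at hcon
    choose f hf1 hf2 using hcon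
    have h2 : F.attach.card ≤ (flt E (fun a => Ev a ω)).card := by
      refine Finset.card_le_card_of_injOn (fun X => f X.1 X.2) ?_ ?_
      · intro X _
        exact mem_flt.2 ⟨(hF1 X.1 X.2).1 (hf1 X.1 X.2), hf2 X.1 X.2⟩
      · intro X _ Y _ hXY
        by_contra hne
        have h3 := hF2 X.1 X.2 Y.1 Y.2 fun h => hne (Subtype.ext h)
        rw [Finset.disjoint_left] at h3
        refine h3 (hf1 X.1 X.2) ?_
        have h4 : f X.1 X.2 = f Y.1 Y.2 := hXY
        rw [h4]
        exact hf1 Y.1 Y.2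
    rw [Finset.card_attach] at h2
    have h3 : 2 * (F.card * L) ≤ 2 * L * (flt E (fun a => Ev a ω)).card := by
      calc 2 * (F.card * L) = 2 * L * F.card := by ring
        _ ≤ _ := Nat.mul_le_mul_left _ h2
    omega
  have h2 : pr (fun ω => ∃ X ∈ F, ∀ a ∈ X, ¬ Ev a ω) ≤ F.card * Real.exp (-(p * L)) := by
    refine pr_exists_le_card F _ _ fun X hX => ?_
    obtain ⟨h3, h4, h5⟩ := hF1 X hX
    have h6 := pr_none_le X supp Ev h5 (fun a ha => hdep a (h3 ha)) p fun a ha => hp a (h3 ha)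
    rwa [h4] at h6
  refine h1.trans (h2.trans ?_)
  have h3 : (F.card : ℝ) ≤ E.card := by exact_mod_cast hF4
  exact mul_le_mul_of_nonneg_right h3 (Real.exp_pos _).le

end

end Pool.Agent.MP_61eeb2_co.EX
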