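import Pool.Agent.Lib.MP_61eeb2_co.EX.Def
import Pool.Agent.Lib.MP_61eeb2_co.EX.P2
import Pool.Agent.Lib.MP_61eeb2_co.EX.P3
import Pool.Agent.Lib.MP_61eeb2_co.EX.LS1

/-!
MP_61eeb2_co, exact bound k * D, module LS3: few rounds in which a large set is missed.

PROOF. Let q = |I| exp (- p |E| / (Θ Δ)) (natural numbers cast to reals). If 16^L |J| q >= 1 the
claim follows from pr <= 1. Otherwise: (1) Fix X ⊆ E with |E| <= |X| Θ. For a round j the event
M_j (exists i, no a in X with Ev j i a (w j)) has probability <= q as an event on one round: union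
over i; indep_sub (LS1) gives X' ⊆ X with pairwise disjoint supports and |X| <= |X'| Δ, pr (no a
in X') <= exp (- p |X'|) (pr_none_le) and |X'| >= |E| / (Θ Δ). (2) For a set T of rounds the
probability that M_j holds for all j in T is <= q^|T| (pr_cyl for the product J -> (ι -> κ), with
Q j = M_j; Finset.prod_le_pow_card). (3) Let m = |E| / (4 L) + 1 (integer division): if |E| < 4 L
* (number of j with M_j) then the number is >= m, so some T ⊆ univ with |T| = m has M_j for all j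
in T; the number of these T is at most |J|^m (Nat.choose_le_pow_div or card of powersetCard <=
|J|^m). So for fixed X the probability is <= (|J| q)^m. (4) The number of X is <= 2^|E| <= 2^(4 L
m) = (16^L)^m since |E| <= 4 L m. Total <= (16^L |J| q)^m <= 16^L |J| q since m >= 1 and the base
is in [0,1).
-/

set_option autoImplicit false

namespace Pool.Agent.MP_61eeb2_co.EX

open Finset Classical

section

variable {ι κ α : Type*} [Fintype ι] [Fintype κ] [Nonempty κ]

private theorem LS3_one {I : Type*} [Fintype I] (E : Finset α) (supp : I → α → Finset ι)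
    (Ev : I → α → (ι → κ) → Prop) (hdep : ∀ i, ∀ a ∈ E, DepOn (supp i a) (Ev i a))
    (Δ Θ : ℕ) (hΔ : 1 ≤ Δ) (hΘ : 1 ≤ Θ)
    (hc : ∀ i, ∀ a ∈ E, (flt E (fun b => ¬ Disjoint (supp i a) (supp i b))).card ≤ Δ)
    (p : ℝ) (hp0 : 0 ≤ p) (hp : ∀ i, ∀ a ∈ E, p ≤ pr (Ev i a)) (X : Finset α) (hX : X ⊆ E)
    (hXE : E.card ≤ X.card * Θ) :
    pr (fun ω : ι → κ => ∃ i, ∀ a ∈ X, ¬ Ev i a ω) ≤
      Fintype.card I * Real.exp (-(p * (E.card / (Θ * Δ)))) := by
  have h1 := pr_exists_le_card (univ : Finset I) (fun i (ω : ι → κ) => ∀ a ∈ X, ¬ Ev i a ω)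
    (Real.exp (-(p * (E.card / (Θ * Δ))))) (fun i _ => by
      obtain ⟨X', hX', hdis, hcard⟩ := indep_sub E (supp i) X hX Δ hΔ (hc i)
      have h2 : pr (fun ω : ι → κ => ∀ a ∈ X, ¬ Ev i a ω) ≤
          pr (fun ω : ι → κ => ∀ a ∈ X', ¬ Ev i a ω) :=
        pr_mono fun ω h a ha => h a (hX' ha)
      have h3 := pr_none_le X' (supp i) (Ev i) hdis (fun a ha => hdep i a (hX (hX' ha))) p
        (fun a ha => hp i a (hX (hX' ha)))
      refine h2.trans (h3.trans (Real.exp_le_exp.2 (neg_le_neg ?_)))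
      refine mul_le_mul_of_nonneg_left ?_ hp0
      have hpos : (0 : ℝ) < Θ * Δ := by
        have h4 : (0 : ℝ) < Θ := by exact_mod_cast hΘ
        have h5 : (0 : ℝ) < Δ := by exact_mod_cast hΔ
        positivity
      rw [div_le_iff₀ hpos]
      have h6 : E.card ≤ X'.card * (Θ * Δ) := by
        calc E.card ≤ X.card * Θ := hXE
          _ ≤ (X'.card * Δ) * Θ := Nat.mul_le_mul_right _ hcard
          _ = X'.card * (Θ * Δ) := by ring
      exact_mod_cast h6)
  refine le_trans (pr_mono fun ω h => ?_) (h1.trans (le_of_eq ?_))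
  · obtain ⟨i, hi⟩ := h
    exact ⟨i, mem_univ _, hi⟩
  · rw [Finset.card_univ]

private theorem LS3_two {J : Type*} [Fintype J] (M : J → (ι → κ) → Prop) (q : ℝ)
    (hq : ∀ j, pr (M j) ≤ q) (L m n : ℕ) (hL : 1 ≤ L) (hm : m = n / (4 * L) + 1) :
    pr (fun w : J → ι → κ => n < 4 * L * (flt univ (fun j => M j (w j))).card) ≤
      (Fintype.card J * q) ^ m := by
  have hq0 : 0 ≤ q ∨ IsEmpty J := by
    rcases isEmpty_or_nonempty J with h | h
    · exact Or.inr h
    · obtain ⟨j⟩ := h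
      exact Or.inl ((pr_nonneg _).trans (hq j))
  have h1 : ∀ T ∈ (univ : Finset J).powersetCard m,
      pr (fun w : J → ι → κ => ∀ j ∈ T, M j (w j)) ≤ q ^ m := by
    intro T hT
    rw [pr_cyl T fun j => M j]
    rw [← (Finset.mem_powersetCard.1 hT).2, ← Finset.prod_const]
    exact Finset.prod_le_prod (fun j _ => pr_nonneg _) fun j _ => hq j
  have h2 := pr_exists_le_card ((univ : Finset J).powersetCard m)
    (fun T (w : J → ι → κ) => ∀ j ∈ T, M j (w j)) (q ^ m) h1
  refine le_trans (pr_mono fun w h => ?_) (h2.trans ?_)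
  · have h3 : m ≤ (flt univ (fun j => M j (w j))).card := by
      rw [hm]
      refine Nat.succ_le_of_lt ?_
      rw [Nat.div_lt_iff_lt_mul (by omega)]
      rw [mul_comm]
      exact h
    obtain ⟨T, hT, hTm⟩ := Finset.exists_subset_card_eq h3
    exact ⟨T, Finset.mem_powersetCard.2 ⟨Finset.subset_univ _, hTm⟩, fun j hj =>
      (mem_flt.1 (hT hj)).2⟩
  · rw [Finset.card_powersetCard, Finset.card_univ, mul_pow]
    rcases hq0 with hq0 | hJ
    · refine mul_le_mul_of_nonneg_right ?_ (pow_nonneg hq0 _)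
      exact_mod_cast Nat.choose_le_pow (Fintype.card J) m
    · have h4 : Fintype.card J = 0 := Fintype.card_eq_zero
      rw [h4, hm]
      simp

theorem few_missed {J I : Type*} [Fintype J] [Fintype I] (E : Finset α)
    (supp : J → I → α → Finset ι)
    (Ev : J → I → α → (ι → κ) → Prop)
    (hdep : ∀ j i, ∀ a ∈ E, DepOn (supp j i a) (Ev j i a)) (Δ L Θ : ℕ) (hΔ : 1 ≤ Δ)
    (hL : 1 ≤ L) (hΘ : 1 ≤ Θ)
    (hc : ∀ j i, ∀ a ∈ E,
      (flt E (fun b => ¬ Disjoint (supp j i a) (supp j i b))).card ≤ Δ)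
    (p : ℝ) (hp0 : 0 ≤ p) (hp : ∀ j i, ∀ a ∈ E, p ≤ pr (Ev j i a)) :
    pr (fun w : J → ι → κ => ∃ X, X ⊆ E ∧ E.card ≤ X.card * Θ ∧
        E.card < 4 * L * (flt univ (fun j => ∃ i, ∀ a ∈ X, ¬ Ev j i a (w j))).card)
      ≤ 16 ^ L * (Fintype.card J * (Fintype.card I * Real.exp (-(p * (E.card / (Θ * Δ)))))) := by
  set q : ℝ := Fintype.card I * Real.exp (-(p * (E.card / (Θ * Δ)))) with hqdef
  have hq0 : 0 ≤ q := by positivity
  have hB0 : (0 : ℝ) ≤ 16 ^ L * (Fintype.card J * q) := by positivity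
  rcases le_or_gt 1 ((16 : ℝ) ^ L * (Fintype.card J * q)) with hB | hB
  · exact (pr_le_one _).trans hB
  set m : ℕ := E.card / (4 * L) + 1 with hm
  have hEm : E.card ≤ 4 * L * m := by
    rw [hm]
    have h1 := Nat.lt_mul_div_succ E.card (show 0 < 4 * L by omega)
    exact h1.le
  have h1 := pr_exists_le_card (flt E.powerset (fun X => E.card ≤ X.card * Θ))
    (fun X (w : J → ι → κ) =>
      E.card < 4 * L * (flt univ (fun j => ∃ i, ∀ a ∈ X, ¬ Ev j i a (w j))).card)
    ((Fintype.card J * q) ^ m) (fun X hX => by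
      rw [mem_flt, Finset.mem_powerset] at hX
      exact LS3_two (fun j ω => ∃ i, ∀ a ∈ X, ¬ Ev j i a ω) q (fun j =>
        LS3_one E (supp j) (Ev j) (hdep j) Δ Θ hΔ hΘ (hc j) p hp0 (hp j) X hX.1 hX.2)
        L m E.card hL hm)
  refine le_trans (pr_mono fun w h => ?_) (h1.trans ?_)
  · obtain ⟨X, hX1, hX2, hX3⟩ := h
    exact ⟨X, mem_flt.2 ⟨Finset.mem_powerset.2 hX1, hX2⟩, hX3⟩
  · have h2 : ((flt E.powerset (fun X => E.card ≤ X.card * Θ)).card : ℝ) ≤ (16 ^ L) ^ m := by
      have h3 : (flt E.powerset (fun X => E.card ≤ X.card * Θ)).card ≤ 2 ^ (4 * L * m) := by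
        calc (flt E.powerset (fun X => E.card ≤ X.card * Θ)).card
            ≤ E.powerset.card := Finset.card_le_card (flt_sub _ _)
          _ = 2 ^ E.card := Finset.card_powerset _
          _ ≤ 2 ^ (4 * L * m) := Nat.pow_le_pow_right (by norm_num) hEm
      have h4 : (2 : ℕ) ^ (4 * L * m) = (16 ^ L) ^ m := by
        rw [pow_mul, pow_mul]
        norm_num
      rw [h4] at h3
      exact_mod_cast h3
    calc ((flt E.powerset (fun X => E.card ≤ X.card * Θ)).card : ℝ) *
          (Fintype.card J * q) ^ m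
        ≤ (16 ^ L) ^ m * (Fintype.card J * q) ^ m :=
          mul_le_mul_of_nonneg_right h2 (by positivity)
      _ = (16 ^ L * (Fintype.card J * q)) ^ m := (mul_pow _ _ _).symm
      _ ≤ 16 ^ L * (Fintype.card J * q) :=
          pow_le_of_le_one hB0 hB.le (by rw [hm]; exact Nat.succ_ne_zero _)

end

end Pool.Agent.MP_61eeb2_co.EX
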