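import Pool.Agent.Lib.MP_61eeb2_co.EX.Def
import Pool.Agent.Lib.MP_61eeb2_co.EX.P1

/-!
MP_61eeb2_co, exact bound k * D, module P4: conditioning on coordinates, and swapping.

PROOF. pr_cond. mix J w w0 is w on J and w0 outside (LLL.lean). The map (w, w0) -> (mix J w w0,
mix J w0 w) is a bijection of the square of the space onto itself (it is an involution), so the
number of the pairs (w, w0) with P (mix J w w0) is cnt P times the number of the points; on the
other hand it is the sum over w0 of cnt (fun w => P (mix J w w0)), which is at most (number of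
points) * p * (number of points). Divide. (See the proof of cnt_indep in LLL.lean for the same
bijection with Set.ncard_congr; or use cnt_eq_sum, Finset.sum_comm and Equiv.sum_comp for the
involution.) pr_swap: pr_equiv with the equivalence Equiv.piComm (fun _ _ => kappa) (w -> fun j i
=> w i j).
-/

set_option autoImplicit false

namespace Pool.Agent.MP_61eeb2_co.EX

open Finset Classical

section

variable {ι κ : Type*} [Fintype ι] [Fintype κ] [Nonempty κ]

private noncomputable def mixEquiv (J : Finset ι) :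
    ((ι → κ) × (ι → κ)) ≃ ((ι → κ) × (ι → κ)) where
  toFun x := (mix J x.1 x.2, mix J x.2 x.1)
  invFun x := (mix J x.1 x.2, mix J x.2 x.1)
  left_inv := by
    rintro ⟨w, w0⟩
    simp only [Prod.mk.injEq]
    constructor <;> (funext i; by_cases hi : i ∈ J <;> simp [mix, hi])
  right_inv := by
    rintro ⟨w, w0⟩
    simp only [Prod.mk.injEq]
    constructor <;> (funext i; by_cases hi : i ∈ J <;> simp [mix, hi])

theorem pr_cond (J : Finset ι) (P : (ι → κ) → Prop) (p : ℝ)
    (h : ∀ ω₀ : ι → κ, pr (fun ω => P (mix J ω ω₀)) ≤ p) : pr P ≤ p := by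
  have hN : (0 : ℝ) < (Fintype.card (ι → κ) : ℝ) := by
    exact_mod_cast Fintype.card_pos
  have h1 : ∀ ω₀ : ι → κ, cnt (fun ω => P (mix J ω ω₀)) ≤ p * (Fintype.card (ι → κ) : ℝ) := by
    intro ω₀
    have := h ω₀
    unfold pr at this
    rwa [div_le_iff₀ hN] at this
  have h2 : ∑ x : (ι → κ) × (ι → κ), (if P (mix J x.1 x.2) then (1 : ℝ) else 0)
      = ∑ x : (ι → κ) × (ι → κ), (if P x.1 then (1 : ℝ) else 0) :=
    Equiv.sum_comp (mixEquiv (κ := κ) J) (fun x => if P x.1 then (1 : ℝ) else 0)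
  have h3 : ∑ x : (ι → κ) × (ι → κ), (if P x.1 then (1 : ℝ) else 0)
      = (Fintype.card (ι → κ) : ℝ) * cnt P := by
    rw [Fintype.sum_prod_type, cnt_eq_sum, Finset.mul_sum]
    apply Finset.sum_congr rfl
    intro x _
    change ∑ _y : ι → κ, (if P x then (1 : ℝ) else 0) = _
    rw [Finset.sum_const, Finset.card_univ, nsmul_eq_mul]
  have h4 : ∑ x : (ι → κ) × (ι → κ), (if P (mix J x.1 x.2) then (1 : ℝ) else 0)
      = ∑ ω₀ : ι → κ, cnt (fun ω => P (mix J ω ω₀)) := by
    rw [Fintype.sum_prod_type_right]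
    apply Finset.sum_congr rfl
    intro ω₀ _
    rw [cnt_eq_sum]
  have h5 : ∑ ω₀ : ι → κ, cnt (fun ω => P (mix J ω ω₀))
      ≤ (Fintype.card (ι → κ) : ℝ) * (p * (Fintype.card (ι → κ) : ℝ)) := by
    calc ∑ ω₀ : ι → κ, cnt (fun ω => P (mix J ω ω₀))
        ≤ ∑ _ω₀ : ι → κ, p * (Fintype.card (ι → κ) : ℝ) :=
          Finset.sum_le_sum (fun ω₀ _ => h1 ω₀)
      _ = _ := by rw [Finset.sum_const, Finset.card_univ, nsmul_eq_mul]
  have h6 : (Fintype.card (ι → κ) : ℝ) * cnt P
      ≤ (Fintype.card (ι → κ) : ℝ) * (p * (Fintype.card (ι → κ) : ℝ)) := by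
    rw [← h3, ← h2, h4]
    exact h5
  have h7 := le_of_mul_le_mul_left h6 hN
  unfold pr
  rwa [div_le_iff₀ hN]

theorem pr_swap {J : Type*} [Fintype J] (P : (J → ι → κ) → Prop) :
    pr (fun ω : ι → J → κ => P (fun j i => ω i j)) = pr P := by
  exact pr_equiv (Equiv.piComm (fun (_ : ι) (_ : J) => κ)) P

end

end Pool.Agent.MP_61eeb2_co.EX
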