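import Pool.Agent.Lib.MP_61eeb2_co.EX.Def
import Pool.Agent.Lib.MP_61eeb2_co.EX.LS2
import Pool.Agent.Lib.MP_61eeb2_co.EX.LS3
import Pool.Agent.Lib.MP_61eeb2_co.EX.G3
import Pool.Agent.Lib.MP_61eeb2_co.EX.P4

/-!
MP_61eeb2_co, exact bound k * D, module G4: light structure: probability.

PROOF. Fix s ∈ S, E = E s, nE = |E| >= D/R^PHI >= R^(18k+13) (sig, D >= R^QQ). For a ∈ E: |N a \
s| < k (s ⊆ N a nonempty), so the hypothesis on Ev applies with U = N a \ s. supp j i a = sites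
(cI (rc j)) (ZZ ((N a \ s).image (ch (rc j)))), conflict degree <= Δ := nE / R^(18k+13) (natural
division, >= 1) by conf (G3; |At| <= 2R from even, blocks of items have card <= k). p = 1/R^(6k),
L = R^(6k+2), Θ = R^(6k+3). (a) many_ok for every j and colour i, as an event on one round (2 L Δ
<= nE); transfer to all rounds by pr_coord; union over j, i: probability <= D k nE exp (- R^2) <=
D^2 k exp(-R^2). (b) few_missed with J = Fin D, I = Fin k: probability <= 16^L D k exp (- p nE/(Θ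
Δ)), where nE/Δ >= R^(18k+13), so the exponent is <= - R^(6k+10). Both together <= exp (-R) for R
large (D <= R^(2QQ); exp_big or elementary). If neither (a) nor (b) fails then H2: let X ⊆ E, nE
<= |X| Θ. (b): 4 L |Mi| <= nE. If Mi is empty done. Otherwise take j ∈ Mi, colour i: no a ∈ X has
Ev, so the a ∈ E with Ev are in E \ X and by (a) 2 L |E \ X| >= nE; so |Mi| <= nE/(4L) <= |E \ X|.
-/

set_option autoImplicit false

namespace Pool.Agent.MP_61eeb2_co.EX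

open Finset Classical

private theorem G4_inst {Ω : Type*} (h1 h2 : Fintype Ω) (P : Ω → Prop) :
    @pr Ω h1 P = @pr Ω h2 P := by
  rw [Subsingleton.elim h1 h2]

private theorem G4_card (k R D nE : ℕ) (hR : 3 ≤ R) (hD : R ^ QQ k ≤ D)
    (h : D ≤ nE * R ^ PHI k) : R ^ (18 * k + 13) ≤ nE := by
  have h1 : R ^ QQ k = R ^ (PHI k + (18 * k + 40)) * R ^ PHI k := by
    rw [← pow_add]
    congr 1
    unfold QQ
    ring
  have h2 : R ^ (PHI k + (18 * k + 40)) * R ^ PHI k ≤ nE * R ^ PHI k := by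
    rw [← h1]
    exact hD.trans h
  have h3 : R ^ (PHI k + (18 * k + 40)) ≤ nE :=
    Nat.le_of_mul_le_mul_right h2 (by positivity)
  exact (Nat.pow_le_pow_right (by omega) (by omega)).trans h3

/-- the numbers -/
private theorem G4_num (k R D nE Δ : ℕ) (hR : 3 ≤ R)
    (hbig : 2 * (k : ℝ) * (R : ℝ) ^ (4 * QQ k) ≤ Real.exp (1 * R))
    (hD2 : D ≤ R ^ (2 * QQ k)) (hnD : nE ≤ D) (hΔ1 : 1 ≤ Δ)
    (hΔ : Δ * R ^ (18 * k + 13) ≤ nE) :
    (D : ℝ) * k * (nE * Real.exp (-(1 / (R : ℝ) ^ (6 * k) * ((R ^ (6 * k + 2) : ℕ) : ℝ)))) +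
      16 ^ (R ^ (6 * k + 2)) * ((D : ℝ) * ((k : ℝ) * Real.exp (-(1 / (R : ℝ) ^ (6 * k) *
        ((nE : ℝ) / (((R ^ (6 * k + 3) : ℕ) : ℝ) * Δ)))))) ≤ Real.exp (-(R : ℝ)) := by
  have hR0 : (3 : ℝ) ≤ (R : ℝ) := by exact_mod_cast hR
  have hRp : (0 : ℝ) < R := by linarith
  have hR1 : (1 : ℝ) ≤ R := by linarith
  have hDr : (D : ℝ) ≤ (R : ℝ) ^ (2 * QQ k) := by exact_mod_cast hD2
  have hnr : (nE : ℝ) ≤ (R : ℝ) ^ (2 * QQ k) := le_trans (by exact_mod_cast hnD) hDr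
  have hD0 : (0 : ℝ) ≤ D := Nat.cast_nonneg D
  have hn0 : (0 : ℝ) ≤ nE := Nat.cast_nonneg nE
  have hk0 : (0 : ℝ) ≤ k := Nat.cast_nonneg k
  -- first exponent
  have e1 : 1 / (R : ℝ) ^ (6 * k) * ((R ^ (6 * k + 2) : ℕ) : ℝ) = (R : ℝ) ^ 2 := by
    push_cast
    rw [pow_add]
    field_simp
  -- second exponent
  have e2 : (R : ℝ) ^ (6 * k + 10) ≤ 1 / (R : ℝ) ^ (6 * k) *
      ((nE : ℝ) / (((R ^ (6 * k + 3) : ℕ) : ℝ) * Δ)) := by
    have hΔr : (1 : ℝ) ≤ Δ := by exact_mod_cast hΔ1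
    have h1 : (Δ : ℝ) * (R : ℝ) ^ (18 * k + 13) ≤ nE := by exact_mod_cast hΔ
    rw [div_mul_div_comm, one_mul, le_div_iff₀ (by positivity)]
    push_cast
    calc (R : ℝ) ^ (6 * k + 10) * ((R : ℝ) ^ (6 * k) * ((R : ℝ) ^ (6 * k + 3) * Δ))
        = (Δ : ℝ) * (R : ℝ) ^ (18 * k + 13) := by
          rw [show 18 * k + 13 = (6 * k + 10) + (6 * k + (6 * k + 3)) by ring,
            pow_add (R : ℝ) (6 * k + 10) (6 * k + (6 * k + 3)), pow_add (R : ℝ) (6 * k) (6 * k + 3)]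
          ring
      _ ≤ nE := h1
  have e3 : Real.exp (-(1 / (R : ℝ) ^ (6 * k) *
      ((nE : ℝ) / (((R ^ (6 * k + 3) : ℕ) : ℝ) * Δ)))) ≤
      Real.exp (-((R : ℝ) ^ (6 * k + 10))) := Real.exp_le_exp.2 (neg_le_neg e2)
  -- the power of 16
  have e4 : (16 : ℝ) ^ (R ^ (6 * k + 2)) ≤ Real.exp (3 * (R : ℝ) ^ (6 * k + 2)) := by
    have h1 : (16 : ℝ) ≤ Real.exp 3 := by
      have h2 : (2.7 : ℝ) ≤ Real.exp 1 := by
        have := Real.exp_one_gt_d9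
        linarith
      have h3 : Real.exp 3 = Real.exp 1 ^ 3 := by
        rw [← Real.exp_nat_mul]
        norm_num
      rw [h3]
      calc (16 : ℝ) ≤ 2.7 ^ 3 := by norm_num
        _ ≤ Real.exp 1 ^ 3 := pow_le_pow_left₀ (by norm_num) h2 3
    calc (16 : ℝ) ^ (R ^ (6 * k + 2)) ≤ Real.exp 3 ^ (R ^ (6 * k + 2)) :=
          pow_le_pow_left₀ (by norm_num) h1 _
      _ = Real.exp (3 * (R : ℝ) ^ (6 * k + 2)) := by
          rw [← Real.exp_nat_mul]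
          push_cast
          ring_nf
  have e5 : 3 * (R : ℝ) ^ (6 * k + 2) + (R : ℝ) ^ 2 ≤ (R : ℝ) ^ (6 * k + 10) := by
    have h1 : (R : ℝ) ^ 2 ≤ (R : ℝ) ^ (6 * k + 2) := pow_le_pow_right₀ hR1 (by omega)
    have h2 : (R : ℝ) ^ (6 * k + 10) = (R : ℝ) ^ (6 * k + 2) * (R : ℝ) ^ 8 := by
      rw [← pow_add]
    have h3 : (4 : ℝ) ≤ (R : ℝ) ^ 8 := by
      calc (4 : ℝ) ≤ 3 ^ 8 := by norm_num
        _ ≤ (R : ℝ) ^ 8 := pow_le_pow_left₀ (by norm_num) hR0 8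
    have h4 : (0 : ℝ) ≤ (R : ℝ) ^ (6 * k + 2) := by positivity
    rw [h2]
    nlinarith
  have e6 : (16 : ℝ) ^ (R ^ (6 * k + 2)) * Real.exp (-(1 / (R : ℝ) ^ (6 * k) *
      ((nE : ℝ) / (((R ^ (6 * k + 3) : ℕ) : ℝ) * Δ)))) ≤ Real.exp (-((R : ℝ) ^ 2)) := by
    calc (16 : ℝ) ^ (R ^ (6 * k + 2)) * Real.exp (-(1 / (R : ℝ) ^ (6 * k) *
          ((nE : ℝ) / (((R ^ (6 * k + 3) : ℕ) : ℝ) * Δ))))
        ≤ Real.exp (3 * (R : ℝ) ^ (6 * k + 2)) * Real.exp (-((R : ℝ) ^ (6 * k + 10))) :=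
          mul_le_mul e4 e3 (Real.exp_pos _).le (Real.exp_pos _).le
      _ = Real.exp (3 * (R : ℝ) ^ (6 * k + 2) + -((R : ℝ) ^ (6 * k + 10))) :=
          (Real.exp_add _ _).symm
      _ ≤ Real.exp (-((R : ℝ) ^ 2)) := Real.exp_le_exp.2 (by linarith)
  have hex : (0 : ℝ) ≤ Real.exp (-((R : ℝ) ^ 2)) := (Real.exp_pos _).le
  have hpow : (R : ℝ) ^ (2 * QQ k) * (R : ℝ) ^ (2 * QQ k) = (R : ℝ) ^ (4 * QQ k) := by
    rw [← pow_add]
    congr 1
    ring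
  have hp1 : (1 : ℝ) ≤ (R : ℝ) ^ (2 * QQ k) := one_le_pow₀ hR1
  have b1 : (D : ℝ) * k * (nE * Real.exp (-((R : ℝ) ^ 2))) ≤
      (k : ℝ) * (R : ℝ) ^ (4 * QQ k) * Real.exp (-((R : ℝ) ^ 2)) := by
    have h1 : (D : ℝ) * nE ≤ (R : ℝ) ^ (4 * QQ k) := by
      rw [← hpow]
      exact mul_le_mul hDr hnr hn0 (by positivity)
    calc (D : ℝ) * k * (nE * Real.exp (-((R : ℝ) ^ 2)))
        = k * (D * nE) * Real.exp (-((R : ℝ) ^ 2)) := by ring
      _ ≤ (k : ℝ) * (R : ℝ) ^ (4 * QQ k) * Real.exp (-((R : ℝ) ^ 2)) :=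
          mul_le_mul_of_nonneg_right (mul_le_mul_of_nonneg_left h1 hk0) hex
  have b2 : 16 ^ (R ^ (6 * k + 2)) * ((D : ℝ) * ((k : ℝ) * Real.exp (-(1 / (R : ℝ) ^ (6 * k) *
        ((nE : ℝ) / (((R ^ (6 * k + 3) : ℕ) : ℝ) * Δ)))))) ≤
      (k : ℝ) * (R : ℝ) ^ (4 * QQ k) * Real.exp (-((R : ℝ) ^ 2)) := by
    have h1 : (D : ℝ) ≤ (R : ℝ) ^ (4 * QQ k) := by
      rw [← hpow]
      calc (D : ℝ) ≤ (R : ℝ) ^ (2 * QQ k) * 1 := by rw [mul_one]; exact hDr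
        _ ≤ (R : ℝ) ^ (2 * QQ k) * (R : ℝ) ^ (2 * QQ k) :=
          mul_le_mul_of_nonneg_left hp1 (by positivity)
    calc 16 ^ (R ^ (6 * k + 2)) * ((D : ℝ) * ((k : ℝ) * Real.exp (-(1 / (R : ℝ) ^ (6 * k) *
          ((nE : ℝ) / (((R ^ (6 * k + 3) : ℕ) : ℝ) * Δ))))))
        = (k * D) * (16 ^ (R ^ (6 * k + 2)) * Real.exp (-(1 / (R : ℝ) ^ (6 * k) *
          ((nE : ℝ) / (((R ^ (6 * k + 3) : ℕ) : ℝ) * Δ))))) := by ring
      _ ≤ ((k : ℝ) * (R : ℝ) ^ (4 * QQ k)) * Real.exp (-((R : ℝ) ^ 2)) :=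
          mul_le_mul (mul_le_mul_of_nonneg_left h1 hk0) e6 (by positivity) (by positivity)
  rw [e1]
  have hfin : (2 * (k : ℝ) * (R : ℝ) ^ (4 * QQ k)) * Real.exp (-((R : ℝ) ^ 2)) ≤
      Real.exp (-(R : ℝ)) := by
    calc (2 * (k : ℝ) * (R : ℝ) ^ (4 * QQ k)) * Real.exp (-((R : ℝ) ^ 2))
        ≤ Real.exp (1 * R) * Real.exp (-((R : ℝ) ^ 2)) :=
          mul_le_mul_of_nonneg_right hbig hex
      _ = Real.exp (1 * R + -((R : ℝ) ^ 2)) := (Real.exp_add _ _).symm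
      _ ≤ Real.exp (-(R : ℝ)) := Real.exp_le_exp.2 (by nlinarith)
  calc _ ≤ (k : ℝ) * (R : ℝ) ^ (4 * QQ k) * Real.exp (-((R : ℝ) ^ 2)) +
        (k : ℝ) * (R : ℝ) ^ (4 * QQ k) * Real.exp (-((R : ℝ) ^ 2)) := add_le_add b1 b2
    _ = (2 * (k : ℝ) * (R : ℝ) ^ (4 * QQ k)) * Real.exp (-((R : ℝ) ^ 2)) := by ring
    _ ≤ Real.exp (-(R : ℝ)) := hfin

theorem H2_pr (k : ℕ) (hk1 : 1 ≤ k) : ∃ R₀ : ℕ, ∀ R ≥ R₀, ∀ D, R ^ QQ k ≤ D →
    D ≤ R ^ (2 * QQ k) → ∀ (V A : Type) [Fintype V] [Fintype A] (N : A → Finset V)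
      (S : Finset (Finset V)) (E : Finset V → Finset A), Blk k D R N S E →
    ∀ (n : ℕ) (cl : Item V A → Fin n) (rc : Fin D → Fin n), Cls k D R N S E n cl rc →
    ∀ (ch : Fin n → V → Item V A), (∀ c u, ch c u ∈ At (cI S E cl c) u) →
    ∀ Ev : Fin n → Finset V → Fin k → Sp V A k R → Prop,
    (∀ c U i, U.card < k → DepOn (sites (cI S E cl c) (ZZ (U.image (ch c)))) (Ev c U i) ∧
      1 / (R : ℝ) ^ (6 * k) ≤ pr (Ev c U i)) →
    ∀ s ∈ S, pr (fun w : Fin D → Sp V A k R => ¬ H2 N E rc Ev s w) ≤ Real.exp (-(R : ℝ)) := by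
  obtain ⟨R₁, hR₁⟩ := conf k hk1
  obtain ⟨R₂, hR₂⟩ := exp_big 1 one_pos (2 * k) (4 * QQ k)
  refine ⟨max (max R₁ R₂) 3, ?_⟩
  intro R hR D hD1 hD2 V A _ _ N S E hB n cl rc hC ch hch Ev hEv s hs
  have hRa : R₁ ≤ R := le_trans (le_trans (le_max_left _ _) (le_max_left _ _)) hR
  have hRb : R₂ ≤ R := le_trans (le_trans (le_max_right _ _) (le_max_left _ _)) hR
  have hR3 : 3 ≤ R := le_trans (le_max_right _ _) hR
  have hbig := hR₂ R hRb
  have hne : Nonempty (Val k R) :=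
    ⟨(⟨0, by positivity⟩, ⟨0, by omega⟩, ⟨0, by omega⟩)⟩
  -- the number of the edges
  obtain ⟨v₀, hv₀⟩ := hB.ne s hs
  have hnD : (E s).card ≤ D := by
    rw [← hB.deg v₀]
    refine card_le_card fun a ha => ?_
    rw [mem_Ed]
    exact hB.sub s hs a ha hv₀
  have hn1 : R ^ (18 * k + 13) ≤ (E s).card := G4_card k R D _ hR3 hD1 (hB.sig s hs)
  obtain ⟨Δ, hΔdef⟩ : ∃ Δ, Δ = (E s).card / R ^ (18 * k + 13) := ⟨_, rfl⟩
  have hΔ1 : 1 ≤ Δ := by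
    rw [hΔdef]
    exact (Nat.one_le_div_iff (by positivity)).2 hn1
  have hΔm : Δ * R ^ (18 * k + 13) ≤ (E s).card := by
    rw [hΔdef]
    exact Nat.div_mul_le_self _ _
  -- the sets `N a \ s`
  have hU : ∀ a ∈ E s, (N a \ s).card < k := by
    intro a ha
    have h1 : s ⊆ N a := hB.sub s hs a ha
    have h2 := card_sdiff_add_card_eq_card h1
    have h3 := hB.cardN a
    have h4 : 0 < s.card := card_pos.2 ⟨v₀, hv₀⟩
    omega
  -- the items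
  have hIc : ∀ c, ∀ x ∈ cI S E cl c, x.1.card ≤ k := by
    intro c x hx
    obtain ⟨⟨h1, h2⟩, -⟩ := mem_cI.1 hx
    exact (card_le_card (hB.sub x.1 h1 x.2 h2)).trans (hB.cardN x.2)
  have hIa : ∀ c, ∀ v, (At (cI S E cl c) v).card ≤ 2 * R := by
    intro c v
    have h1 := (hC.even c v).2
    have h2 : (1 + 1 / (200 * (k : ℝ) ^ 2)) * R ≤ 2 * R := by
      refine mul_le_mul_of_nonneg_right ?_ (Nat.cast_nonneg R)
      have h3 : (1 : ℝ) ≤ k := by exact_mod_cast hk1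
      have h4 : (1 : ℝ) ≤ (k : ℝ) ^ 2 := one_le_pow₀ h3
      have h5 : 1 / (200 * (k : ℝ) ^ 2) ≤ 1 := by
        rw [div_le_one (by positivity)]
        linarith
      linarith
    exact_mod_cast h1.trans h2
  have hconf : ∀ c, ∀ a ∈ E s, (flt (E s) (fun b =>
      ¬ Disjoint (sites (cI S E cl c) (ZZ ((N a \ s).image (ch c))))
        (sites (cI S E cl c) (ZZ ((N b \ s).image (ch c)))))).card ≤ Δ := by
    intro c a ha
    rw [hΔdef, Nat.le_div_iff_mul_le (by positivity)]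
    exact hR₁ R hRa D V A N S E hB (cI S E cl c) (hIc c) (hIa c) (ch c) (hch c) s hs a ha
  have hp0 : (0 : ℝ) ≤ 1 / (R : ℝ) ^ (6 * k) := by positivity
  have hL1 : 1 ≤ R ^ (6 * k + 2) := Nat.one_le_pow _ _ (by omega)
  have hΘ1 : 1 ≤ R ^ (6 * k + 3) := Nat.one_le_pow _ _ (by omega)
  have hLΔ : 2 * (R ^ (6 * k + 2) * Δ) ≤ (E s).card := by
    refine le_trans ?_ hΔm
    have h1 : 2 * R ^ (6 * k + 2) ≤ R ^ (18 * k + 13) := by
      calc 2 * R ^ (6 * k + 2) ≤ R * R ^ (6 * k + 2) := Nat.mul_le_mul_right _ (by omega)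
        _ = R ^ (6 * k + 3) := by ring
        _ ≤ R ^ (18 * k + 13) := Nat.pow_le_pow_right (by omega) (by omega)
    calc 2 * (R ^ (6 * k + 2) * Δ) = Δ * (2 * R ^ (6 * k + 2)) := by ring
      _ ≤ Δ * R ^ (18 * k + 13) := Nat.mul_le_mul_left _ h1
  -- (a)
  have ha : ∀ (j : Fin D) (i : Fin k), pr (fun ω : Sp V A k R =>
      2 * R ^ (6 * k + 2) * (flt (E s) (fun a => Ev (rc j) (N a \ s) i ω)).card < (E s).card) ≤
      (E s).card * Real.exp (-(1 / (R : ℝ) ^ (6 * k) * ((R ^ (6 * k + 2) : ℕ) : ℝ))) := by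
    intro j i
    have h := many_ok (E s)
      (fun a => sites (cI S E cl (rc j)) (ZZ ((N a \ s).image (ch (rc j)))))
      (fun a => Ev (rc j) (N a \ s) i) (fun a ha => (hEv (rc j) (N a \ s) i (hU a ha)).1)
      Δ (R ^ (6 * k + 2)) hΔ1 hL1 (hconf (rc j)) hLΔ (1 / (R : ℝ) ^ (6 * k)) hp0
      (fun a ha => ((hEv (rc j) (N a \ s) i (hU a ha)).2).trans_eq (G4_inst _ _ _))
    exact (G4_inst _ _ _).trans_le h
  have haa : pr (fun w : Fin D → Sp V A k R => ∃ x ∈ (univ : Finset (Fin D × Fin k)),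
      2 * R ^ (6 * k + 2) * (flt (E s) (fun a => Ev (rc x.1) (N a \ s) x.2 (w x.1))).card <
        (E s).card) ≤ (univ : Finset (Fin D × Fin k)).card * ((E s).card *
      Real.exp (-(1 / (R : ℝ) ^ (6 * k) * ((R ^ (6 * k + 2) : ℕ) : ℝ)))) := by
    refine pr_exists_le_card (univ : Finset (Fin D × Fin k)) (fun x (w : Fin D → Sp V A k R) =>
      2 * R ^ (6 * k + 2) * (flt (E s) (fun a => Ev (rc x.1) (N a \ s) x.2 (w x.1))).card <
        (E s).card) _ fun x _ => ?_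
    have h := pr_coord (ι := Fin D) (κ := Sp V A k R) x.1 (fun ω =>
      2 * R ^ (6 * k + 2) * (flt (E s) (fun a => Ev (rc x.1) (N a \ s) x.2 ω)).card < (E s).card)
    exact ((G4_inst _ _ _).trans h).trans_le (ha x.1 x.2)
  -- (b)
  have hb := few_missed (ι := Site V A) (κ := Val k R) (J := Fin D) (I := Fin k) (E s)
    (fun j _ a => sites (cI S E cl (rc j)) (ZZ ((N a \ s).image (ch (rc j)))))
    (fun j i a => Ev (rc j) (N a \ s) i)
    (fun j i a ha => (hEv (rc j) (N a \ s) i (hU a ha)).1) Δ (R ^ (6 * k + 2))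
    (R ^ (6 * k + 3)) hΔ1 hL1 hΘ1 (fun j _ a ha => hconf (rc j) a ha) (1 / (R : ℝ) ^ (6 * k)) hp0
    (fun j i a ha => ((hEv (rc j) (N a \ s) i (hU a ha)).2).trans_eq (G4_inst _ _ _))
  have hbb : pr (fun w : Fin D → Sp V A k R => ∃ X, X ⊆ E s ∧
      (E s).card ≤ X.card * R ^ (6 * k + 3) ∧
      (E s).card < 4 * R ^ (6 * k + 2) * (Mi N rc Ev s X w).card) ≤
      16 ^ (R ^ (6 * k + 2)) * (Fintype.card (Fin D) * (Fintype.card (Fin k) *
        Real.exp (-(1 / (R : ℝ) ^ (6 * k) * ((E s).card / (((R ^ (6 * k + 3) : ℕ) : ℝ) * Δ)))))) :=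
    (G4_inst _ _ _).trans_le hb
  -- the end
  have hor : ∀ w : Fin D → Sp V A k R, ¬ H2 N E rc Ev s w →
      ((∃ x ∈ (univ : Finset (Fin D × Fin k)),
        2 * R ^ (6 * k + 2) * (flt (E s) (fun a => Ev (rc x.1) (N a \ s) x.2 (w x.1))).card <
          (E s).card) ∨
      ∃ X, X ⊆ E s ∧ (E s).card ≤ X.card * R ^ (6 * k + 3) ∧
        (E s).card < 4 * R ^ (6 * k + 2) * (Mi N rc Ev s X w).card) := by
    intro w hw
    by_contra hcon
    rw [not_or] at hcon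
    obtain ⟨c1, c2⟩ := hcon
    apply hw
    intro X hX hXc
    have h2 : 4 * R ^ (6 * k + 2) * (Mi N rc Ev s X w).card ≤ (E s).card := by
      by_contra h
      exact c2 ⟨X, hX, hXc, not_le.1 h⟩
    refine ⟨?_, h2⟩
    by_cases hM : (Mi N rc Ev s X w).card = 0
    · rw [hM]
      exact Nat.zero_le _
    · obtain ⟨j, hj⟩ := card_pos.1 (Nat.pos_of_ne_zero hM)
      unfold Mi at hj
      obtain ⟨-, i, hi⟩ := mem_flt.1 hj
      have h3 : flt (E s) (fun a => Ev (rc j) (N a \ s) i (w j)) ⊆ E s \ X := by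
        intro a ha
        obtain ⟨ha1, ha2⟩ := mem_flt.1 ha
        exact mem_sdiff.2 ⟨ha1, fun haX => hi a haX ha2⟩
      have h4 : (E s).card ≤ 2 * R ^ (6 * k + 2) *
          (flt (E s) (fun a => Ev (rc j) (N a \ s) i (w j))).card := by
        by_contra h
        exact c1 ⟨(j, i), mem_univ _, not_le.1 h⟩
      have h5 : 4 * R ^ (6 * k + 2) * (Mi N rc Ev s X w).card ≤
          2 * R ^ (6 * k + 2) * (E s \ X).card :=
        (h2.trans h4).trans (Nat.mul_le_mul_left _ (card_le_card h3))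
      have h6 : 2 * (Mi N rc Ev s X w).card ≤ (E s \ X).card := by
        have h7 : (2 * R ^ (6 * k + 2)) * (2 * (Mi N rc Ev s X w).card) ≤
            (2 * R ^ (6 * k + 2)) * (E s \ X).card := by
          calc (2 * R ^ (6 * k + 2)) * (2 * (Mi N rc Ev s X w).card)
              = 4 * R ^ (6 * k + 2) * (Mi N rc Ev s X w).card := by ring
            _ ≤ _ := h5
        exact Nat.le_of_mul_le_mul_left h7 (by positivity)
      omega
  have hnum := G4_num k R D (E s).card Δ hR3 hbig hD2 hnD hΔ1 hΔm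
  refine (pr_mono hor).trans ((pr_or_le _ _).trans (le_trans (add_le_add haa hbb) ?_))
  rw [card_univ, Fintype.card_prod, Fintype.card_fin, Fintype.card_fin, Nat.cast_mul]
  exact hnum

end Pool.Agent.MP_61eeb2_co.EX
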