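import Pool.Agent.Lib.MP_61eeb2_co.EX.Def
import Pool.Agent.Lib.MP_61eeb2_co.EX.P5b
import Pool.Agent.Lib.MP_61eeb2_co.EX.Bc

/-!
MP_61eeb2_co, exact bound k * D, module G5: single edges: probability.

PROOF. The classes c with an item of block s: the number of the items (s,a'), a' ∈ E s, is |E s|,
every class has at most |At (cI c) v| <= (1+e)R <= 2R of them (v ∈ s), more precisely <= (1+e) R;
so at least |E s|/(2R) classes c have such an item, and at least |E s|/2 rounds j (rlo: each class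
has >= R rounds). For these j the probability of Tv (rc j) s v a is >= 1/R^(6k+1). So the sum over
j of the probabilities is >= mu := |E s|/(2 R^(6k+1)), and ch_half: pr (number < mu/2) <= exp
(-mu/8) <= exp (-R), since |E s| >= D/R^PHI, D >= R^QQ. If the number is >= mu/2 = |E
s|/(4R^(6k+1)) then R^(6k+2) * number >= |E s| R/4 >= |E s| for R >= 4.
-/

set_option autoImplicit false

namespace Pool.Agent.MP_61eeb2_co.EX

open Finset Classical

private theorem G5_items {V A : Type} [Fintype V] [Fintype A] (S : Finset (Finset V))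
    (E : Finset V → Finset A) {n : ℕ} (cl : Item V A → Fin n) (s : Finset V) (hs : s ∈ S) :
    (E s).card = ∑ c : Fin n, (flt (cI S E cl c) (fun x => x.1 = s)).card := by
  rw [Finset.card_eq_sum_card_fiberwise (f := fun a => cl (s, a)) (t := univ)
    (fun a _ => Finset.mem_univ _)]
  refine Finset.sum_congr rfl fun c _ => ?_
  refine Finset.card_bij (fun a _ => (s, a)) ?_ ?_ ?_
  · intro a ha
    rw [Finset.mem_filter] at ha
    rw [mem_flt, mem_cI]
    exact ⟨⟨⟨hs, ha.1⟩, ha.2⟩, rfl⟩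
  · intro a _ b _ h
    exact (Prod.mk.inj h).2
  · rintro ⟨t, a⟩ hx
    rw [mem_flt, mem_cI] at hx
    obtain ⟨⟨⟨h1, h2⟩, h3⟩, h4⟩ := hx
    simp only at h1 h2 h3 h4
    subst h4
    exact ⟨a, Finset.mem_filter.2 ⟨h2, h3⟩, rfl⟩

private theorem G5_even {k R : ℕ} (hk1 : 1 ≤ k) {V A : Type} [Fintype V] [Fintype A]
    {I : Finset (Item V A)} (h : Even k R I) (v : V) : (At I v).card ≤ 2 * R := by
  have h1 := (h v).2
  have hk : (1 : ℝ) ≤ (k : ℝ) := by exact_mod_cast hk1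
  have h2 : 1 / (200 * (k : ℝ) ^ 2) ≤ 1 := by
    rw [div_le_one (by positivity)]
    nlinarith
  have hR : (0 : ℝ) ≤ (R : ℝ) := Nat.cast_nonneg _
  have h3 : ((At I v).card : ℝ) ≤ 2 * (R : ℝ) := by nlinarith
  exact_mod_cast h3

private theorem G5_rounds {k D R : ℕ} (hk1 : 1 ≤ k) {V A : Type} [Fintype V] [Fintype A]
    {N : A → Finset V} {S : Finset (Finset V)} {E : Finset V → Finset A} {n : ℕ}
    {cl : Item V A → Fin n} {rc : Fin D → Fin n} (hC : Cls k D R N S E n cl rc)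
    {s : Finset V} (hs : s ∈ S) {v : V} (hv : v ∈ s) :
    (E s).card ≤
      2 * (flt (univ : Finset (Fin D)) (fun j => ∃ x ∈ cI S E cl (rc j), x.1 = s)).card := by
  rw [G5_items S E cl s hs, Finset.card_eq_sum_card_fiberwise (f := fun j => rc j) (t := univ)
    (s := flt (univ : Finset (Fin D)) (fun j => ∃ x ∈ cI S E cl (rc j), x.1 = s))
    (fun a _ => Finset.mem_univ _), Finset.mul_sum]
  refine Finset.sum_le_sum fun c _ => ?_
  by_cases hc : ∃ x ∈ cI S E cl c, x.1 = s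
  · have h1 : (flt (cI S E cl c) (fun x => x.1 = s)).card ≤ (At (cI S E cl c) v).card := by
      refine Finset.card_le_card fun x hx => ?_
      rw [mem_flt] at hx
      rw [mem_At]
      exact ⟨hx.1, by rw [hx.2]; exact hv⟩
    have h2 := G5_even hk1 (hC.even c) v
    have h3 : (flt (univ : Finset (Fin D)) (fun j => rc j = c)).card ≤
        ((flt (univ : Finset (Fin D)) (fun j => ∃ x ∈ cI S E cl (rc j), x.1 = s)).filter
          (fun j => rc j = c)).card := by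
      refine Finset.card_le_card fun j hj => ?_
      rw [mem_flt] at hj
      rw [Finset.mem_filter, mem_flt]
      exact ⟨⟨hj.1, by rw [hj.2]; exact hc⟩, hj.2⟩
    have h4 := hC.rlo c
    omega
  · have h1 : flt (cI S E cl c) (fun x => x.1 = s) = ∅ := by
      rw [Finset.eq_empty_iff_forall_notMem]
      intro x hx
      rw [mem_flt] at hx
      exact hc ⟨x, hx.1, hx.2⟩
    rw [h1, Finset.card_empty]
    exact Nat.zero_le _

private theorem G5_size {k D R : ℕ} (hR : 16 ≤ R) (hD1 : R ^ QQ k ≤ D) {V A : Type} [Fintype V]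
    [Fintype A] {N : A → Finset V} {S : Finset (Finset V)} {E : Finset V → Finset A}
    (hB : Blk k D R N S E) {s : Finset V} (hs : s ∈ S) :
    16 * R ^ (6 * k + 2) ≤ (E s).card := by
  have h1 := hB.sig s hs
  have hR0 : 0 < R := by omega
  have h2 : R ^ (PHI k + 18 * k + 40) * R ^ PHI k ≤ (E s).card * R ^ PHI k := by
    rw [← pow_add]
    refine le_trans (le_of_eq ?_) (hD1.trans h1)
    congr 1
    unfold QQ
    ring
  have h3 := Nat.le_of_mul_le_mul_right h2 (pow_pos hR0 _)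
  refine le_trans ?_ h3
  calc 16 * R ^ (6 * k + 2) ≤ R * R ^ (6 * k + 2) := Nat.mul_le_mul_right _ hR
    _ = R ^ (6 * k + 3) := by ring
    _ ≤ R ^ (PHI k + 18 * k + 40) := Nat.pow_le_pow_right hR0 (by omega)

private theorem G5_sum {ι : Type*} [Fintype ι] (J : Finset ι) (p : ι → ℝ) (hp : ∀ i, 0 ≤ p i)
    (q e : ℝ) (hq : 0 < q) (he : e ≤ 2 * (J.card : ℝ)) (hJ : ∀ j ∈ J, 1 / q ≤ p j) :
    e / (2 * q) ≤ ∑ i, p i := by
  have h1 : ∑ _j ∈ J, 1 / q ≤ ∑ j ∈ J, p j := Finset.sum_le_sum hJ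
  have h2 : ∑ j ∈ J, p j ≤ ∑ j, p j :=
    Finset.sum_le_sum_of_subset_of_nonneg (Finset.subset_univ _) fun j _ _ => hp j
  rw [Finset.sum_const, nsmul_eq_mul] at h1
  refine le_trans ?_ (h1.trans h2)
  rw [div_le_iff₀ (by positivity)]
  have h3 : (J.card : ℝ) * (1 / q) * (2 * q) = 2 * (J.card : ℝ) := by
    field_simp
  rw [h3]
  exact he

private theorem G5_mono {Ω : Type*} {i1 i2 : Fintype Ω} {P Q : Ω → Prop} {r : ℝ}
    (h : @pr Ω i2 Q ≤ r) (hPQ : ∀ ω, P ω → Q ω) : @pr Ω i1 P ≤ r := by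
  rw [Subsingleton.elim i1 i2]
  exact (pr_mono hPQ).trans h

private theorem G5_arith {e q r c : ℝ} (hq : 0 < q) (hr : 16 ≤ r) (hc : 0 ≤ c)
    (h : q * r * c < e) : c < e / (2 * q) / 2 := by
  rw [div_div, lt_div_iff₀ (by positivity)]
  have h4 : 0 ≤ c * q := by positivity
  nlinarith

private theorem G5_arith2 {e q r : ℝ} (hq : 0 < q) (h : 16 * (q * r) ≤ e) :
    -(e / (2 * q) / 8) ≤ -r := by
  rw [neg_le_neg_iff, div_div, le_div_iff₀ (by positivity)]
  linarith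

theorem H3_pr (k : ℕ) (hk1 : 1 ≤ k) : ∃ R₀ : ℕ, ∀ R ≥ R₀, ∀ D, R ^ QQ k ≤ D →
    D ≤ R ^ (2 * QQ k) → ∀ (V A : Type) [Fintype V] [Fintype A] (N : A → Finset V)
      (S : Finset (Finset V)) (E : Finset V → Finset A), Blk k D R N S E →
    ∀ (n : ℕ) (cl : Item V A → Fin n) (rc : Fin D → Fin n), Cls k D R N S E n cl rc →
    ∀ Tv : Fin n → Finset V → V → A → Sp V A k R → Prop,
    ∀ s ∈ S, ∀ v ∈ s, ∀ a ∈ E s,
    (∀ c, (∃ x ∈ cI S E cl c, x.1 = s) → 1 / (R : ℝ) ^ (6 * k + 1) ≤ pr (Tv c s v a)) →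
    pr (fun w : Fin D → Sp V A k R => ¬ H3 E rc Tv s v a w) ≤ Real.exp (-(R : ℝ)) := by
  refine ⟨16, ?_⟩
  intro R hR D hD1 hD2 V A _ _ N S E hB n cl rc hC Tv s hs v hv a ha hT
  have hR0 : 0 < R := by omega
  have hne : Nonempty (Val k R) := ⟨(⟨0, pow_pos hR0 6⟩, ⟨0, hk1⟩, ⟨0, hR0⟩)⟩
  have hRr : (16 : ℝ) ≤ (R : ℝ) := by exact_mod_cast hR
  have hRr0 : (0 : ℝ) < (R : ℝ) := by linarith
  have hRp : (0 : ℝ) < (R : ℝ) ^ (6 * k + 1) := pow_pos hRr0 _
  have he : 16 * ((R : ℝ) ^ (6 * k + 1) * R) ≤ ((E s).card : ℝ) := by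
    have h := G5_size hR hD1 hB hs
    have h2 : ((16 * R ^ (6 * k + 2) : ℕ) : ℝ) ≤ ((E s).card : ℝ) := Nat.cast_le.2 h
    rw [Nat.cast_mul, Nat.cast_pow, pow_succ (R : ℝ) (6 * k + 1)] at h2
    exact h2
  have hJ : ((E s).card : ℝ) ≤ 2 * ((flt (univ : Finset (Fin D))
      (fun j => ∃ x ∈ cI S E cl (rc j), x.1 = s)).card : ℝ) := by
    have h2 := Nat.cast_le (α := ℝ) |>.2 (G5_rounds hk1 hC hs hv)
    rw [Nat.cast_mul] at h2
    exact h2
  have hμ := G5_sum _ (fun j : Fin D => pr (fun ω : Sp V A k R => Tv (rc j) s v a ω))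
    (fun j => pr_nonneg _) ((R : ℝ) ^ (6 * k + 1)) _ hRp hJ
    fun j hj => hT (rc j) (mem_flt.1 hj).2
  have h1 := ch_half (fun (j : Fin D) (ω : Sp V A k R) => Tv (rc j) s v a ω)
    (((E s).card : ℝ) / (2 * (R : ℝ) ^ (6 * k + 1)))
    (div_nonneg (Nat.cast_nonneg _) (by linarith)) hμ
  have h5 : Real.exp (-(((E s).card : ℝ) / (2 * (R : ℝ) ^ (6 * k + 1)) / 8)) ≤
      Real.exp (-(R : ℝ)) := Real.exp_le_exp.2 (G5_arith2 hRp he)
  have h6 := h1.trans h5
  refine G5_mono h6 ?_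
  intro w hw
  unfold H3 at hw
  rw [not_le] at hw
  have hw2 := Nat.cast_lt (α := ℝ) |>.2 hw
  rw [Nat.cast_mul, Nat.cast_pow, pow_succ (R : ℝ) (6 * k + 1)] at hw2
  exact G5_arith hRp hRr (Nat.cast_nonneg _) hw2

end Pool.Agent.MP_61eeb2_co.EX
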