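import Pool.Agent.Lib.MP_61eeb2_co.EX.Def
import Pool.Agent.Lib.MP_61eeb2_co.EX.P2
import Pool.Agent.Lib.MP_61eeb2_co.EX.P3
import Pool.Agent.Lib.MP_61eeb2_co.EX.R2

/-!
MP_61eeb2_co, exact bound k * D, module V3: probability that an edge can be served.

PROOF. Let U1 = the u ∈ N b, u ≠ v, such that some item y_u ∈ At I u does not contain v (v ∉
y_u.1; choose it). Consider the cylinder event: cand v; not cand u for u ∈ N b, u ≠ v; lab (y_u) =
0 for u ∈ U1; lab y >= 1 for all y ∈ At I v. (Sites: inr of N b, inl of the y_u and inl of At I v;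
the y_u are not in At I v.) It implies Adm: let u ∈ N b, u ≠ v. If u ∈ U1: the top item of u has
label <= 0 (ta u <= rk y_u, lab = 0), while ta v = rk of an item of At I v with label >= 1, so ta
u < ta v. If u ∉ U1: every item at u contains v, in particular the top item (top_exists), so v ∈
sg u. Probability by pr_cyl: (1/R) (1 - 1/R)^(k-1) (1/R^6)^(k-1) (1 - 1/R^6)^(2R) at least (the
number of different y_u is at most k - 1, |At I v| <= 2R) >= R^(-1) R^(-6(k-1)) / 4 >= R^(-6k) for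
R large (R^5 >= 4).
-/

set_option autoImplicit false

namespace Pool.Agent.MP_61eeb2_co.EX

open Finset Classical

private theorem v3_inst {Ω : Type*} (i1 i2 : Fintype Ω) (P : Ω → Prop) :
    @pr Ω i1 P = @pr Ω i2 P := by
  rw [Subsingleton.elim i1 i2]

private theorem V3_prod {α β : Type*} [Fintype α] [Fintype β] (P : α → Prop) (Q : β → Prop) :
    pr (fun z : α × β => P z.1 ∧ Q z.2) = pr P * pr Q := by
  unfold pr cnt
  have h1 : {z : α × β | P z.1 ∧ Q z.2} = {a | P a} ×ˢ {b | Q b} := by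
    ext z
    simp
  rw [h1, Set.ncard_prod, Fintype.card_prod]
  push_cast
  rw [div_mul_div_comm]

private theorem V3_fin_zero {n : ℕ} (h : 0 < n) :
    pr (fun a : Fin n => (a : ℕ) = 0) = 1 / (n : ℝ) := by
  have h1 : (fun a : Fin n => (a : ℕ) = 0) = fun a : Fin n => a = ⟨0, h⟩ := by
    funext a
    exact propext ⟨fun h2 => Fin.ext h2, fun h2 => by rw [h2]⟩
  rw [h1]
  unfold pr cnt
  rw [show {x : Fin n | x = ⟨0, h⟩} = {⟨0, h⟩} from rfl, Set.ncard_singleton, Nat.cast_one,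
    Fintype.card_fin]

private theorem V3_fin_ne {n : ℕ} (h : 0 < n) :
    pr (fun a : Fin n => ¬ (a : ℕ) = 0) = 1 - 1 / (n : ℝ) := by
  have : Nonempty (Fin n) := ⟨⟨0, h⟩⟩
  rw [pr_not, V3_fin_zero h]

section

variable {V A : Type} [Fintype V] [Fintype A]

/-- the conditions at the sites -/
private noncomputable def V3_Q {k R : ℕ} (v : V) (i : Site V A) (z : Val k R) : Prop :=
  match i with
  | Sum.inl x => if v ∈ x.1 then ¬ (z.1 : ℕ) = 0 else (z.1 : ℕ) = 0
  | Sum.inr w => if w = v then (z.2.2 : ℕ) = 0 else ¬ (z.2.2 : ℕ) = 0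

private theorem V3_Q1 {k R : ℕ} (hk : 0 < k) (hR : 0 < R) (v : V) {x : Item V A}
    (hx : v ∉ x.1) :
    pr (V3_Q (k := k) (R := R) v (Sum.inl x)) = 1 / (R : ℝ) ^ 6 := by
  have : Nonempty (Fin k × Fin R) := ⟨(⟨0, hk⟩, ⟨0, hR⟩)⟩
  have h1 : V3_Q (k := k) (R := R) v (Sum.inl x) =
      fun z : Fin (R ^ 6) × (Fin k × Fin R) => (z.1 : ℕ) = 0 ∧ True := by
    funext z
    simp only [V3_Q, hx, if_false, and_true]
  rw [h1, V3_prod (fun a : Fin (R ^ 6) => (a : ℕ) = 0) (fun _ => True), pr_true, mul_one,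
    V3_fin_zero (by positivity)]
  push_cast
  rfl

private theorem V3_Q2 {k R : ℕ} (hk : 0 < k) (hR : 0 < R) (v : V) {x : Item V A}
    (hx : v ∈ x.1) :
    pr (V3_Q (k := k) (R := R) v (Sum.inl x)) = 1 - 1 / (R : ℝ) ^ 6 := by
  have : Nonempty (Fin k × Fin R) := ⟨(⟨0, hk⟩, ⟨0, hR⟩)⟩
  have h1 : V3_Q (k := k) (R := R) v (Sum.inl x) =
      fun z : Fin (R ^ 6) × (Fin k × Fin R) => ¬ (z.1 : ℕ) = 0 ∧ True := by
    funext z
    simp only [V3_Q, hx, if_true, and_true]
  rw [h1, V3_prod (fun a : Fin (R ^ 6) => ¬ (a : ℕ) = 0) (fun _ => True), pr_true, mul_one,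
    V3_fin_ne (by positivity)]
  push_cast
  rfl

private theorem V3_Q3 {k R : ℕ} (hk : 0 < k) (hR : 0 < R) (v w : V) :
    pr (V3_Q (A := A) (k := k) (R := R) v (Sum.inr w)) =
      if w = v then 1 / (R : ℝ) else 1 - 1 / (R : ℝ) := by
  have : Nonempty (Fin (R ^ 6)) := ⟨⟨0, by positivity⟩⟩
  have : Nonempty (Fin k) := ⟨⟨0, hk⟩⟩
  by_cases hw : w = v
  · have h1 : V3_Q (A := A) (k := k) (R := R) v (Sum.inr w) =
        fun z : Fin (R ^ 6) × (Fin k × Fin R) => True ∧ (True ∧ (z.2.2 : ℕ) = 0) := by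
      funext z
      simp only [V3_Q, hw, if_true, true_and]
    rw [if_pos hw, h1, V3_prod (fun _ => True)
      (fun z : Fin k × Fin R => True ∧ (z.2 : ℕ) = 0), pr_true, one_mul,
      V3_prod (fun _ => True) (fun b : Fin R => (b : ℕ) = 0), pr_true, one_mul,
      V3_fin_zero hR]
  · have h1 : V3_Q (A := A) (k := k) (R := R) v (Sum.inr w) =
        fun z : Fin (R ^ 6) × (Fin k × Fin R) => True ∧ (True ∧ ¬ (z.2.2 : ℕ) = 0) := by
      funext z
      simp only [V3_Q, hw, if_false, true_and]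
    rw [if_neg hw, h1, V3_prod (fun _ => True)
      (fun z : Fin k × Fin R => True ∧ ¬ (z.2 : ℕ) = 0), pr_true, one_mul,
      V3_prod (fun _ => True) (fun b : Fin R => ¬ (b : ℕ) = 0), pr_true, one_mul,
      V3_fin_ne hR]

private theorem V3_imp {k R : ℕ} (N : A → Finset V) (I : Finset (Item V A))
    (hI : ∀ v, (At I v).Nonempty) (v : V) (b : A) (hb : v ∈ N b) (f : V → Item V A)
    (hf : ∀ u, (∃ y ∈ At I u, v ∉ y.1) → f u ∈ At I u ∧ v ∉ (f u).1)
    (ω : Sp V A k R)
    (h1 : ∀ w ∈ N b, V3_Q v (Sum.inr w : Site V A) (ω (Sum.inr w)))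
    (h2 : ∀ u ∈ N b, u ≠ v → (∃ y ∈ At I u, v ∉ y.1) →
      V3_Q v (Sum.inl (f u) : Site V A) (ω (Sum.inl (f u))))
    (h3 : ∀ y ∈ At I v, V3_Q v (Sum.inl y : Site V A) (ω (Sum.inl y))) :
    Adm N I ω v b := by
  refine ⟨?_, fun u hu huv => ⟨?_, ?_⟩⟩
  · have h4 := h1 v hb
    simp only [V3_Q, if_true] at h4
    exact h4
  · have h4 := h1 u hu
    simp only [V3_Q, huv, if_false] at h4
    exact h4
  · by_cases hy : ∃ y ∈ At I u, v ∉ y.1
    · left
      have h4 := h2 u hu huv hy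
      obtain ⟨h5, h6⟩ := hf u hy
      simp only [V3_Q, h6, if_false] at h4
      obtain ⟨x, hx, hxr, -⟩ := top_exists I ω v (hI v)
      have h7 := h3 x hx
      simp only [V3_Q, (mem_At.mp hx).2, if_true] at h7
      have h8 : lab ω (f u) < lab ω x := by
        unfold lab
        omega
      have h9 := rk_lt_of_lab_lt ω (f u) x h8
      have h10 := ta_le I ω u (f u) h5
      omega
    · right
      push Not at hy
      obtain ⟨x, hx, -, hxs⟩ := top_exists I ω u (hI u)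
      rw [hxs]
      exact hy x hx

private theorem V3_prod3 (f : Site V A → ℝ) (Y T : Finset (Item V A))
    (Z : Finset V) (hd : Disjoint Y T) :
    ∏ i ∈ (Y.image Sum.inl ∪ T.image Sum.inl ∪ Z.image Sum.inr : Finset (Site V A)), f i =
      (∏ x ∈ Y, f (Sum.inl x)) * (∏ y ∈ T, f (Sum.inl y)) * ∏ w ∈ Z, f (Sum.inr w) := by
  rw [Finset.prod_union, Finset.prod_union, Finset.prod_image, Finset.prod_image,
    Finset.prod_image]
  · intro a _ b _ h
    exact Sum.inr_injective h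
  · intro a _ b _ h
    exact Sum.inl_injective h
  · intro a _ b _ h
    exact Sum.inl_injective h
  · rw [Finset.disjoint_image Sum.inl_injective]
    exact hd
  · rw [Finset.disjoint_left]
    intro a ha hb
    rw [mem_union] at ha
    obtain ⟨w, _, rfl⟩ := mem_image.mp hb
    rcases ha with ha | ha
    · obtain ⟨x, _, hx⟩ := mem_image.mp ha
      cases hx
    · obtain ⟨x, _, hx⟩ := mem_image.mp ha
      cases hx

end

theorem adm_pr (k : ℕ) (hk1 : 1 ≤ k) : ∃ R₀ : ℕ, ∀ R ≥ R₀,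
    ∀ (V A : Type) [Fintype V] [Fintype A] (N : A → Finset V) (I : Finset (Item V A)),
    (∀ v, (At I v).Nonempty) → (∀ v, (At I v).card ≤ 2 * R) →
    ∀ (v : V) (b : A), v ∈ N b → (N b).card ≤ k →
    1 / (R : ℝ) ^ (6 * k) ≤ pr (fun ω : Sp V A k R => Adm N I ω v b) := by
  refine ⟨2 * k + 4, ?_⟩
  intro R hR V A _ _ N I hI hAt v b hb hNk
  have hRn : 2 * (k : ℝ) + 4 ≤ (R : ℝ) := by exact_mod_cast hR
  have hk0 : (0 : ℝ) < k := by exact_mod_cast hk1
  have hR4 : (4 : ℝ) ≤ R := by linarith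
  have hR1 : (1 : ℝ) ≤ R := by linarith
  have hR0 : (0 : ℝ) < R := by linarith
  have hRpos : 0 < R := by exact_mod_cast hR0
  have hkpos : 0 < k := hk1
  have : Nonempty (Val k R) := ⟨(⟨0, by positivity⟩, ⟨0, hkpos⟩, ⟨0, hRpos⟩)⟩
  have hex : ∀ u, ∃ y : Item V A, (∃ y' ∈ At I u, v ∉ y'.1) → y ∈ At I u ∧ v ∉ y.1 := by
    intro u
    by_cases h : ∃ y' ∈ At I u, v ∉ y'.1
    · obtain ⟨y, hy, hvy⟩ := h
      exact ⟨y, fun _ => ⟨hy, hvy⟩⟩
    · obtain ⟨y, _⟩ := hI u
      exact ⟨y, fun h' => absurd h' h⟩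
  choose f hf using hex
  obtain ⟨U, hU⟩ : ∃ U : Finset V, U = flt (N b) (fun u => u ≠ v ∧ ∃ y ∈ At I u, v ∉ y.1) :=
    ⟨_, rfl⟩
  obtain ⟨Y, hY⟩ : ∃ Y : Finset (Item V A), Y = U.image f := ⟨_, rfl⟩
  have hUc : U.card + 1 ≤ k := by
    have h1 : U ⊆ (N b).erase v := by
      intro u hu
      rw [hU, mem_flt] at hu
      exact mem_erase.mpr ⟨hu.2.1, hu.1⟩
    have h2 := Finset.card_le_card h1
    rw [Finset.card_erase_of_mem hb] at h2
    have h3 : 1 ≤ (N b).card := Finset.card_pos.mpr ⟨v, hb⟩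
    omega
  have hYc : Y.card + 1 ≤ k := by
    have h1 : Y.card ≤ U.card := by
      rw [hY]
      exact Finset.card_image_le
    omega
  have hYv : ∀ y ∈ Y, v ∉ y.1 := by
    intro y hy
    rw [hY] at hy
    obtain ⟨u, hu, rfl⟩ := mem_image.mp hy
    rw [hU, mem_flt] at hu
    exact (hf u hu.2.2).2
  have hTv : ∀ y ∈ At I v, v ∈ y.1 := fun y hy => (mem_At.mp hy).2
  have hd : Disjoint Y (At I v) := by
    rw [Finset.disjoint_left]
    intro y hy hy2
    exact hYv y hy (hTv y hy2)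
  -- the product
  have hmain : ∏ i ∈ (Y.image Sum.inl ∪ (At I v).image Sum.inl ∪
      (N b).image Sum.inr : Finset (Site V A)), pr (V3_Q (k := k) (R := R) v i) ≤
      pr (fun ω : Sp V A k R => Adm N I ω v b) := by
    have h0 := pr_cyl (ι := Site V A) (κ := Val k R) (Y.image Sum.inl ∪
      (At I v).image Sum.inl ∪ (N b).image Sum.inr) (V3_Q (k := k) (R := R) v)
    have h1 : pr (fun ω : Sp V A k R => ∀ i ∈ (Y.image Sum.inl ∪ (At I v).image Sum.inl ∪
        (N b).image Sum.inr : Finset (Site V A)),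
        V3_Q (k := k) (R := R) v i (ω i)) = ∏ i ∈ (Y.image Sum.inl ∪
          (At I v).image Sum.inl ∪ (N b).image Sum.inr : Finset (Site V A)),
          pr (V3_Q (k := k) (R := R) v i) := by
      exact (v3_inst _ _ _).trans h0
    rw [← h1]
    apply pr_mono
    intro ω h
    apply V3_imp N I hI v b hb f hf ω
    · intro w hw
      apply h
      rw [mem_union]
      exact Or.inr (mem_image_of_mem _ hw)
    · intro u hu huv hy
      apply h
      rw [mem_union, mem_union]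
      refine Or.inl (Or.inl (mem_image_of_mem _ ?_))
      rw [hY]
      apply mem_image_of_mem
      rw [hU, mem_flt]
      exact ⟨hu, huv, hy⟩
    · intro y hy
      apply h
      rw [mem_union, mem_union]
      exact Or.inl (Or.inr (mem_image_of_mem _ hy))
  refine le_trans ?_ hmain
  rw [V3_prod3 _ _ _ _ hd]
  have e1 : (1 / (R : ℝ) ^ 6) ^ (k - 1) ≤
      ∏ x ∈ Y, pr (V3_Q (k := k) (R := R) v (Sum.inl x)) := by
    rw [Finset.prod_congr rfl fun x hx => V3_Q1 hkpos hRpos v (hYv x hx), Finset.prod_const]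
    apply pow_le_pow_of_le_one (by positivity)
    · rw [div_le_one (by positivity)]
      exact one_le_pow₀ hR1
    · omega
  have e2 : (1 : ℝ) / 2 ≤ ∏ y ∈ At I v, pr (V3_Q (k := k) (R := R) v (Sum.inl y)) := by
    rw [Finset.prod_congr rfl fun x hx => V3_Q2 hkpos hRpos v (hTv x hx), Finset.prod_const]
    have h0 : 1 / (R : ℝ) ^ 6 ≤ 1 := by
      rw [div_le_one (by positivity)]
      exact one_le_pow₀ hR1
    have h2 := one_add_mul_le_pow (a := -(1 / (R : ℝ) ^ 6)) (by linarith) (At I v).card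
    rw [← sub_eq_add_neg] at h2
    have h3 : ((At I v).card : ℝ) * (1 / (R : ℝ) ^ 6) ≤ 1 / 2 := by
      have h4 : ((At I v).card : ℝ) ≤ 2 * R := by exact_mod_cast hAt v
      have h5 : (R : ℝ) ≤ (R : ℝ) ^ 5 := le_self_pow₀ hR1 (by norm_num)
      calc ((At I v).card : ℝ) * (1 / (R : ℝ) ^ 6)
          ≤ (2 * R) * (1 / (R : ℝ) ^ 6) := mul_le_mul_of_nonneg_right h4 (by positivity)
        _ = 2 / (R : ℝ) ^ 5 := by
            field_simp
        _ ≤ 1 / 2 := by
            rw [div_le_div_iff₀ (by positivity) (by norm_num)]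
            linarith
    linarith
  have e3 : 1 / (R : ℝ) * (1 / 2) ≤
      ∏ w ∈ N b, pr (V3_Q (A := A) (k := k) (R := R) v (Sum.inr w)) := by
    have r1 : 1 / (R : ℝ) ≤ 1 := by
      rw [div_le_one hR0]
      exact hR1
    rw [Finset.prod_congr rfl fun w _ => V3_Q3 (A := A) hkpos hRpos v w,
      ← Finset.mul_prod_erase _ _ hb, if_pos rfl]
    apply mul_le_mul_of_nonneg_left _ (by positivity)
    have h1 : ∏ w ∈ (N b).erase v, (if w = v then 1 / (R : ℝ) else 1 - 1 / (R : ℝ)) =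
        (1 - 1 / (R : ℝ)) ^ ((N b).erase v).card := by
      rw [← Finset.prod_const]
      exact Finset.prod_congr rfl fun w hw => if_neg (mem_erase.mp hw).1
    rw [h1]
    have h2 := one_add_mul_le_pow (a := -(1 / (R : ℝ))) (by linarith) ((N b).erase v).card
    rw [← sub_eq_add_neg] at h2
    have h3 : (((N b).erase v).card : ℝ) * (1 / (R : ℝ)) ≤ 1 / 2 := by
      have h4 : (((N b).erase v).card : ℝ) ≤ k := by
        have h5 : ((N b).erase v).card ≤ (N b).card := Finset.card_erase_le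
        exact_mod_cast h5.trans hNk
      rw [mul_one_div, div_le_div_iff₀ hR0 (by norm_num)]
      linarith
    linarith
  have e4 : 1 / (R : ℝ) ^ (6 * k) ≤
      (1 / (R : ℝ) ^ 6) ^ (k - 1) * (1 / 2) * (1 / (R : ℝ) * (1 / 2)) := by
    obtain ⟨j, rfl⟩ : ∃ j, k = j + 1 := ⟨k - 1, by omega⟩
    rw [Nat.add_sub_cancel]
    have h1 : 1 / (R : ℝ) ^ (6 * (j + 1)) = (1 / (R : ℝ) ^ 6) ^ j * (1 / (R : ℝ) ^ 6) := by
      rw [← pow_succ, div_pow, one_pow, pow_mul]
    rw [h1, mul_assoc]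
    apply mul_le_mul_of_nonneg_left _ (by positivity)
    have h2 : (1 : ℝ) / 2 * (1 / (R : ℝ) * (1 / 2)) = 1 / (4 * R) := by
      field_simp
      norm_num
    rw [h2]
    apply one_div_le_one_div_of_le (by positivity)
    have h3 : (R : ℝ) ≤ (R : ℝ) ^ 5 := le_self_pow₀ hR1 (by norm_num)
    calc 4 * (R : ℝ) ≤ (R : ℝ) ^ 5 * R := by
          apply mul_le_mul_of_nonneg_right _ hR0.le
          linarith
      _ = (R : ℝ) ^ 6 := by ring
  refine le_trans e4 ?_
  exact mul_le_mul (mul_le_mul e1 e2 (by norm_num) (le_trans (by positivity) e1)) e3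
    (by positivity) (mul_nonneg (le_trans (by positivity) e1) (le_trans (by norm_num) e2))

end Pool.Agent.MP_61eeb2_co.EX
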