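import Pool.Agent.Lib.MP_61eeb2_co.EX.Def
import Pool.Agent.Lib.MP_61eeb2_co.EX.P5b
import Pool.Agent.Lib.MP_61eeb2_co.EX.V3
import Pool.Agent.Lib.MP_61eeb2_co.EX.Bc

/-!
MP_61eeb2_co, exact bound k * D, module G6: serving: probability.

PROOF. adm_pr (V3) for I = cI (rc j) (nonempty and <= 2R by even): every round has probability >=
1/R^(6k) for Adm; the sum over the D rounds is >= mu := D/R^(6k); ch_half: pr (number < mu/2) <=
exp (-D/(8R^(6k))) <= exp (-R) as D >= R^QQ. If the number is >= D/(2R^(6k)) then R^(6k+3) *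
number >= D R^3/2 >= D. |N b| <= k by cardN.
-/

set_option autoImplicit false

namespace Pool.Agent.MP_61eeb2_co.EX

open Finset Classical

private theorem g6_inst {Ω : Type*} (i1 i2 : Fintype Ω) (P : Ω → Prop) :
    @pr Ω i1 P = @pr Ω i2 P := by
  rw [Subsingleton.elim i1 i2]

theorem H4_pr (k : ℕ) (hk1 : 1 ≤ k) : ∃ R₀ : ℕ, ∀ R ≥ R₀, ∀ D, R ^ QQ k ≤ D →
    D ≤ R ^ (2 * QQ k) → ∀ (V A : Type) [Fintype V] [Fintype A] (N : A → Finset V)
      (S : Finset (Finset V)) (E : Finset V → Finset A), Blk k D R N S E →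
    ∀ (n : ℕ) (cl : Item V A → Fin n) (rc : Fin D → Fin n), Cls k D R N S E n cl rc →
    ∀ v b, v ∈ N b →
    pr (fun w : Fin D → Sp V A k R => ¬ H4 N S E cl rc v b w) ≤ Real.exp (-(R : ℝ)) := by
  obtain ⟨R₁, hR₁⟩ := adm_pr k hk1
  refine ⟨max R₁ 2, ?_⟩
  intro R hR D hD1 hD2 V A _ _ N S E hB n cl rc hC v b hvb
  have hR1 : R₁ ≤ R := le_trans (le_max_left _ _) hR
  have hR2 : 2 ≤ R := le_trans (le_max_right _ _) hR
  have hR2' : (2 : ℝ) ≤ (R : ℝ) := by exact_mod_cast hR2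
  have hR0 : (0 : ℝ) < (R : ℝ) := by linarith
  have hk' : (1 : ℝ) ≤ (k : ℝ) := by exact_mod_cast hk1
  have hk2 : (1 : ℝ) ≤ (k : ℝ) ^ 2 := by nlinarith
  have hsm : 1 / (200 * (k : ℝ) ^ 2) ≤ 1 / 200 := by
    apply one_div_le_one_div_of_le (by norm_num)
    linarith
  have hsm0 : 0 ≤ 1 / (200 * (k : ℝ) ^ 2) := by positivity
  have : Nonempty (Val k R) :=
    ⟨(⟨0, Nat.pow_pos (by omega)⟩, ⟨0, by omega⟩, ⟨0, by omega⟩)⟩
  have : Nonempty (Sp V A k R) := inferInstance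
  have hne : ∀ j : Fin D, ∀ u, (At (cI S E cl (rc j)) u).Nonempty := by
    intro j u
    have h := (hC.even (rc j) u).1
    rw [← Finset.card_pos]
    have h0 : (0 : ℝ) < ((At (cI S E cl (rc j)) u).card : ℝ) := by
      refine lt_of_lt_of_le ?_ h
      apply mul_pos _ hR0
      linarith
    exact_mod_cast h0
  have hle : ∀ j : Fin D, ∀ u, (At (cI S E cl (rc j)) u).card ≤ 2 * R := by
    intro j u
    have h := (hC.even (rc j) u).2
    have h0 : ((At (cI S E cl (rc j)) u).card : ℝ) ≤ ((2 * R : ℕ) : ℝ) := by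
      push_cast
      refine le_trans h ?_
      apply mul_le_mul_of_nonneg_right _ hR0.le
      linarith
    exact_mod_cast h0
  have hpow : (0 : ℝ) < (R : ℝ) ^ (6 * k) := pow_pos hR0 _
  set μ : ℝ := (D : ℝ) / (R : ℝ) ^ (6 * k) with hμdef
  have hμ0 : 0 ≤ μ := by positivity
  have hsum : μ ≤ ∑ j : Fin D, pr (fun ω : Sp V A k R =>
      Adm N (cI S E cl (rc j)) ω v b) := by
    have h1 : ∀ j : Fin D, 1 / (R : ℝ) ^ (6 * k) ≤
        pr (fun ω : Sp V A k R => Adm N (cI S E cl (rc j)) ω v b) := fun j =>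
      hR₁ R hR1 V A N (cI S E cl (rc j)) (hne j) (hle j) v b hvb (hB.cardN b)
    calc μ = ∑ _j : Fin D, 1 / (R : ℝ) ^ (6 * k) := by
            rw [Finset.sum_const, Finset.card_univ, Fintype.card_fin, nsmul_eq_mul, hμdef]
            ring
      _ ≤ _ := Finset.sum_le_sum (fun j _ => h1 j)
  have hch : pr (fun w : Fin D → Sp V A k R =>
      ((flt univ (fun j => Adm N (cI S E cl (rc j)) (w j) v b)).card : ℝ) < μ / 2)
      ≤ Real.exp (-(μ / 8)) := by
    have h := ch_half (fun (j : Fin D) (ω : Sp V A k R) =>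
      Adm N (cI S E cl (rc j)) ω v b) μ hμ0 hsum
    exact (g6_inst _ _ _).trans_le h
  have hbig : (R : ℝ) ≤ μ / 8 := by
    rw [hμdef, le_div_iff₀ (by norm_num : (0 : ℝ) < 8), le_div_iff₀ hpow]
    have h1 : (R : ℝ) ^ (6 * k + 4) ≤ (D : ℝ) := by
      have h2 : R ^ (6 * k + 4) ≤ R ^ QQ k :=
        Nat.pow_le_pow_right (by omega) (by unfold QQ; omega)
      exact_mod_cast le_trans h2 hD1
    refine le_trans ?_ h1
    have h3 : (R : ℝ) ^ (6 * k + 4) = (R : ℝ) * (R : ℝ) ^ 3 * (R : ℝ) ^ (6 * k) := by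
      rw [pow_add]; ring
    rw [h3]
    apply mul_le_mul_of_nonneg_right _ hpow.le
    apply mul_le_mul_of_nonneg_left _ hR0.le
    have : (2 : ℝ) ^ 3 ≤ (R : ℝ) ^ 3 := pow_le_pow_left₀ (by norm_num) hR2' 3
    linarith
  refine le_trans (le_trans (pr_mono ?_) hch) ?_
  · intro w hw
    by_contra hcon
    apply hw
    unfold H4
    push Not at hcon
    have h5 : μ / 2 ≤ ((flt univ (fun j => Adm N (cI S E cl (rc j)) (w j) v b)).card : ℝ) :=
      hcon
    have h6 : (D : ℝ) ≤ (R : ℝ) ^ (6 * k + 3) *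
        ((flt univ (fun j => Adm N (cI S E cl (rc j)) (w j) v b)).card : ℝ) := by
      have h7 : (R : ℝ) ^ (6 * k + 3) * (μ / 2) ≤ (R : ℝ) ^ (6 * k + 3) *
        ((flt univ (fun j => Adm N (cI S E cl (rc j)) (w j) v b)).card : ℝ) :=
        mul_le_mul_of_nonneg_left h5 (by positivity)
      refine le_trans ?_ h7
      have h8 : (R : ℝ) ^ (6 * k + 3) * (μ / 2) = (R : ℝ) ^ 3 / 2 * D := by
        rw [hμdef, pow_add]
        field_simp
      rw [h8]
      have h9 : (2 : ℝ) ^ 3 ≤ (R : ℝ) ^ 3 := pow_le_pow_left₀ (by norm_num) hR2' 3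
      have h10 : (0 : ℝ) ≤ (D : ℝ) := Nat.cast_nonneg _
      nlinarith
    exact_mod_cast h6
  · apply Real.exp_le_exp.mpr
    linarith

end Pool.Agent.MP_61eeb2_co.EX
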