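import Pool.Agent.Lib.MP_61eeb2_co.EX.Def
import Pool.Agent.Lib.MP_61eeb2_co.EX.P5
import Pool.Agent.Lib.MP_61eeb2_co.EX.Bc

/-!
MP_61eeb2_co, exact bound k * D, module K1: classes: sizes (Chernoff).

PROOF. n = D / R. At (cI S E cl c) v = the items x of At (itm S E) v with cl x = c. |At (itm S E)
v| = nn E (Bl S v) (the items at v are the pairs (s,a), s ∈ Bl S v, a ∈ E s), which is between D -
D/R^(6k+3) and D (Bl_card and neg). Act x c' := (x ∈ At (itm S E) v and c' = c): pr (Act x) = 1/n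
for these x, 0 otherwise. R <= D/n... : n R <= D < (n+1) R, n >= R^2, so 1/n is between R/D and
(R/D)(1 + 2R/D)... so the sum mu of the probabilities satisfies R - 1/2 <= mu <= R + 1/2 for R
large (D >= R^QQ, QQ >= 40). With e = 1/(200 k^2): upper tail ch_exp with a = (1+e) R, t = e/2:
exponent - t (1+e) R + (R+1)(t + t^2) <= - e^2 R / 4 + 1. Lower tail ch_exp_lo with a = (1-e) R, t
= e/2: exponent t (1-e) R - (R-1)(t - t^2/2) <= - e^2 R/4 + 1. Total <= 2 exp (1 - e^2 R / 4),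
e^2/4 = 1/(160000 k^4), and 2 exp(1 - R/(160000 k^4)) <= exp (- R/(200000 k^4)) for R large.
(Strict and non strict inequalities: use pr_mono.)
-/

set_option autoImplicit false

namespace Pool.Agent.MP_61eeb2_co.EX

open Finset Classical

private theorem k1_inst {Ω : Type*} (i1 i2 : Fintype Ω) (P : Ω → Prop) :
    @pr Ω i1 P = @pr Ω i2 P := by
  rw [Subsingleton.elim i1 i2]

private theorem k1_items {V A : Type} [Fintype V] [Fintype A] (S : Finset (Finset V))
    (E : Finset V → Finset A) (v : V) : (At (itm S E) v).card = nn E (Bl S v) := by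
  have h : At (itm S E) v = (Bl S v).biUnion (fun s => (E s).image (fun a => (s, a))) := by
    ext x
    rw [mem_At, mem_itm, Finset.mem_biUnion]
    constructor
    · rintro ⟨⟨h1, h2⟩, h3⟩
      exact ⟨x.1, mem_Bl.2 ⟨h1, h3⟩, Finset.mem_image.2 ⟨x.2, h2, rfl⟩⟩
    · rintro ⟨s, h1, h2⟩
      obtain ⟨a, h3, rfl⟩ := Finset.mem_image.1 h2
      exact ⟨⟨(mem_Bl.1 h1).1, h3⟩, (mem_Bl.1 h1).2⟩
  rw [h, Finset.card_biUnion]
  · refine Finset.sum_congr rfl fun s _ => ?_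
    exact Finset.card_image_of_injective _ fun a b hab => (Prod.mk.inj hab).2
  · intro s _ t _ hst
    show Disjoint _ _
    rw [Finset.disjoint_left]
    intro x hx hy
    obtain ⟨a, _, rfl⟩ := Finset.mem_image.1 hx
    obtain ⟨b, _, h2⟩ := Finset.mem_image.1 hy
    exact hst (Prod.mk.inj h2).1.symm

private theorem k1_pr {V A : Type} [Fintype V] [Fintype A] {n : ℕ} (I : Finset (Item V A))
    (c : Fin n) : ∑ i : Item V A, pr (fun y : Fin n => i ∈ I ∧ y = c) = I.card / n := by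
  have h : ∀ i : Item V A, pr (fun y : Fin n => i ∈ I ∧ y = c) =
      if i ∈ I then (1 : ℝ) / n else 0 := by
    intro i
    unfold pr cnt
    rw [Fintype.card_fin]
    by_cases hi : i ∈ I
    · rw [if_pos hi]
      have h1 : {y : Fin n | i ∈ I ∧ y = c} = {c} := by
        ext y
        simp [hi]
      rw [h1, Set.ncard_singleton, Nat.cast_one]
    · rw [if_neg hi]
      have h1 : {y : Fin n | i ∈ I ∧ y = c} = ∅ := by
        ext y
        simp [hi]
      rw [h1, Set.ncard_empty, Nat.cast_zero, zero_div]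
  rw [Finset.sum_congr rfl fun i _ => h i, Finset.sum_ite_mem, Finset.univ_inter,
    Finset.sum_const, nsmul_eq_mul]
  ring

private theorem k1_up {R e t : ℝ} (hR : 0 ≤ R) (he : 0 ≤ e) (he1 : e ≤ 1) (ht : t = e / 2) :
    -(t * ((1 + e) * R)) + (R + 1 / 2) * (Real.exp t - 1) ≤ 1 - e ^ 2 / 4 * R := by
  have ht0 : 0 ≤ t := by linarith
  have ht1 : t ≤ 1 := by linarith
  have h1 : Real.exp t - 1 ≤ t + t ^ 2 := by
    have h := Real.abs_exp_sub_one_sub_id_le (x := t) (by rw [abs_of_nonneg ht0]; exact ht1)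
    have := le_of_abs_le h
    linarith
  have h2 : (R + 1 / 2) * (Real.exp t - 1) ≤ (R + 1 / 2) * (t + t ^ 2) :=
    mul_le_mul_of_nonneg_left h1 (by linarith)
  have h3 : t + t ^ 2 ≤ 2 := by nlinarith
  have h4 : -(t * ((1 + e) * R)) + (R + 1 / 2) * (t + t ^ 2) =
      -(e ^ 2 / 4 * R) + (t + t ^ 2) / 2 := by
    rw [ht]
    ring
  linarith

private theorem k1_lo {R e t : ℝ} (hR : 1 / 2 ≤ R) (he : 0 ≤ e) (he1 : e ≤ 1) (ht : t = e / 2) :
    t * ((1 - e) * R) - (R - 1 / 2) * (1 - Real.exp (-t)) ≤ 1 - e ^ 2 / 4 * R := by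
  have ht0 : 0 ≤ t := by linarith
  have ht1 : t ≤ 1 := by linarith
  have h1 : t - t ^ 2 ≤ 1 - Real.exp (-t) := by
    have h := Real.abs_exp_sub_one_sub_id_le (x := -t)
      (by rw [abs_neg, abs_of_nonneg ht0]; exact ht1)
    have := le_of_abs_le h
    rw [neg_sq] at this
    linarith
  have h2 : (R - 1 / 2) * (t - t ^ 2) ≤ (R - 1 / 2) * (1 - Real.exp (-t)) :=
    mul_le_mul_of_nonneg_left h1 (by linarith)
  have h4 : t * ((1 - e) * R) - (R - 1 / 2) * (t - t ^ 2) =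
      -(e ^ 2 / 4 * R) + (t - t ^ 2) / 2 := by
    rw [ht]
    ring
  nlinarith

theorem K1 (k : ℕ) (hk1 : 1 ≤ k) : ∃ R₀ : ℕ, ∀ R ≥ R₀, ∀ D, R ^ QQ k ≤ D → D ≤ R ^ (2 * QQ k) →
    ∀ (V A : Type) [Fintype V] [Fintype A] (N : A → Finset V) (S : Finset (Finset V))
      (E : Finset V → Finset A), Blk k D R N S E → ∀ (v : V) (c : Fin (D / R)),
    pr (fun cl : Item V A → Fin (D / R) =>
      ¬ ((1 - 1 / (200 * (k : ℝ) ^ 2)) * R ≤ ((At (cI S E cl c) v).card : ℝ) ∧
        ((At (cI S E cl c) v).card : ℝ) ≤ (1 + 1 / (200 * (k : ℝ) ^ 2)) * R))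
      ≤ Real.exp (-((R : ℝ) / (200000 * (k : ℝ) ^ 4))) := by
  have hk : (1 : ℝ) ≤ k := by exact_mod_cast hk1
  have hk4 : 0 < (k : ℝ) ^ 4 := by positivity
  obtain ⟨R₁, hR₁⟩ := exp_big (1 / (800000 * (k : ℝ) ^ 4)) (by positivity) (2 * Real.exp 1) 0
  refine ⟨max R₁ 2, fun R hR D hD1 hD2 V A _ _ N S E hB v c => ?_⟩
  have hRa : R₁ ≤ R := le_trans (le_max_left _ _) hR
  have hRb : 2 ≤ R := le_trans (le_max_right _ _) hR
  have hbig := hR₁ R hRa
  rw [pow_zero, mul_one] at hbig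
  have hR2 : (2 : ℝ) ≤ R := by exact_mod_cast hRb
  have : Nonempty (Fin (D / R)) := ⟨c⟩
  obtain ⟨n, hn⟩ : ∃ n : ℕ, n = D / R := ⟨_, rfl⟩
  have hn1 : n * R ≤ D := by
    rw [hn]
    exact Nat.div_mul_le_self D R
  have hn2 : D < (n + 1) * R := by
    rw [hn]
    have h1 := Nat.div_add_mod D R
    have h2 := Nat.mod_lt D (show R > 0 by omega)
    calc D = R * (D / R) + D % R := h1.symm
      _ < R * (D / R) + R := by omega
      _ = (D / R + 1) * R := by ring
  have hD3 : R ^ 3 ≤ D := by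
    refine le_trans (Nat.pow_le_pow_right (by omega) ?_) hD1
    unfold QQ
    omega
  have hn3 : R ^ 2 ≤ n := by
    have h1 : R ^ 2 * R < (n + 1) * R := by
      calc R ^ 2 * R = R ^ 3 := by ring
        _ ≤ D := hD3
        _ < (n + 1) * R := hn2
    have h2 := lt_of_mul_lt_mul_right h1 (Nat.zero_le R)
    omega
  have hn4 : 2 * R ≤ n := by
    refine le_trans ?_ hn3
    rw [pow_two]
    exact Nat.mul_le_mul_right R hRb
  have hD0 : 1 ≤ D := le_trans (Nat.one_le_pow _ _ (by omega)) hD3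
  have hnr : (2 : ℝ) * R ≤ n := by exact_mod_cast hn4
  have hn0 : (0 : ℝ) < n := by linarith
  obtain ⟨M, hM⟩ : ∃ M : ℕ, M = (At (itm S E) v).card := ⟨_, rfl⟩
  obtain ⟨-, hb1, hb2⟩ := Bl_card k D R hD0 N S E hB v
  rw [← k1_items, ← hM] at hb1 hb2
  have hneg := hB.neg v
  obtain ⟨W, hW⟩ : ∃ W : ℕ, W = (flt (Ed N v) (fun a => ∀ s ∈ S, v ∈ s → a ∉ E s)).card :=
    ⟨_, rfl⟩
  rw [← hW] at hb2 hneg
  have hW2 : 4 * W * R ≤ D := by
    refine le_trans ?_ hneg
    have h1 : R ^ 3 ≤ R ^ (6 * k + 3) := Nat.pow_le_pow_right (by omega) (by omega)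
    have h2 : 4 * R ≤ R ^ 3 := by
      have h3 : 2 * 2 ≤ R * R := Nat.mul_le_mul hRb hRb
      calc 4 * R ≤ R * R * R := Nat.mul_le_mul_right R h3
        _ = R ^ 3 := by ring
    calc 4 * W * R = W * (4 * R) := by ring
      _ ≤ W * R ^ (6 * k + 3) := Nat.mul_le_mul_left W (h2.trans h1)
  have e1 : (n : ℝ) * R ≤ D := by exact_mod_cast hn1
  have e2 : (D : ℝ) ≤ (n + 1) * R := by exact_mod_cast hn2.le
  have e3 : (M : ℝ) ≤ D := by exact_mod_cast hb1
  have e4 : (M : ℝ) + W = D := by exact_mod_cast hb2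
  have e5 : (4 : ℝ) * W * R ≤ D := by exact_mod_cast hW2
  have hup : (M : ℝ) / n ≤ R + 1 / 2 := by
    rw [div_le_iff₀ hn0]
    nlinarith
  have hlo : (R : ℝ) - 1 / 2 ≤ (M : ℝ) / n := by
    rw [le_div_iff₀ hn0]
    have h2 : (W : ℝ) ≤ (n + 1) / 4 := by
      have h3 : (W : ℝ) * R ≤ (n + 1) / 4 * R := by linarith
      exact le_of_mul_le_mul_right h3 (by linarith)
    linarith
  obtain ⟨e, he⟩ : ∃ e : ℝ, e = 1 / (200 * (k : ℝ) ^ 2) := ⟨_, rfl⟩
  rw [← he]
  have he0 : 0 ≤ e := by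
    rw [he]
    positivity
  have he1 : e ≤ 1 := by
    rw [he, div_le_one (by positivity)]
    nlinarith
  have heq : e ^ 2 / 4 = 1 / (160000 * (k : ℝ) ^ 4) := by
    rw [he]
    field_simp
    norm_num
  have hcard : ∀ cl : Item V A → Fin (D / R), (At (cI S E cl c) v).card =
      (flt univ (fun i => i ∈ At (itm S E) v ∧ cl i = c)).card := by
    intro cl
    congr 1
    ext x
    rw [mem_At, mem_cI, mem_flt, mem_At, mem_itm]
    simp only [Finset.mem_univ, true_and]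
    tauto
  have hn' : ((D / R : ℕ) : ℝ) = n := by rw [hn]
  have t1 := ch_exp (fun (i : Item V A) (y : Fin (D / R)) => i ∈ At (itm S E) v ∧ y = c)
    ((R : ℝ) + 1 / 2) ((1 + e) * R) (e / 2) (by linarith) (by rw [k1_pr, ← hM, hn']; exact hup)
  have t2 := ch_exp_lo (fun (i : Item V A) (y : Fin (D / R)) => i ∈ At (itm S E) v ∧ y = c)
    ((R : ℝ) - 1 / 2) ((1 - e) * R) (e / 2) (by linarith) (by rw [k1_pr, ← hM, hn']; exact hlo)
  have t3 := t1.trans (Real.exp_le_exp.2 (k1_up (by linarith) he0 he1 rfl))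
  have t4 := t2.trans (Real.exp_le_exp.2 (k1_lo (by linarith) he0 he1 rfl))
  have t3' : pr (fun cl : Item V A → Fin (D / R) => (1 + e) * R ≤
      ((flt univ (fun i => i ∈ At (itm S E) v ∧ cl i = c)).card : ℝ)) ≤
      Real.exp (1 - e ^ 2 / 4 * R) := by
    exact (k1_inst _ _ _).trans_le t3
  have t4' : pr (fun cl : Item V A → Fin (D / R) =>
      ((flt univ (fun i => i ∈ At (itm S E) v ∧ cl i = c)).card : ℝ) ≤ (1 - e) * R) ≤
      Real.exp (1 - e ^ 2 / 4 * R) := by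
    exact (k1_inst _ _ _).trans_le t4
  have t5 : pr (fun cl : Item V A → Fin (D / R) => ¬ ((1 - e) * R ≤
      ((At (cI S E cl c) v).card : ℝ) ∧ ((At (cI S E cl c) v).card : ℝ) ≤ (1 + e) * R)) ≤
      Real.exp (1 - e ^ 2 / 4 * R) + Real.exp (1 - e ^ 2 / 4 * R) := by
    refine le_trans (pr_mono fun cl hcl => ?_) ((pr_or_le _ _).trans (add_le_add t3' t4'))
    rw [hcard cl] at hcl
    by_cases h : (1 + e) * R ≤
        ((flt univ (fun i => i ∈ At (itm S E) v ∧ cl i = c)).card : ℝ)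
    · exact Or.inl h
    · refine Or.inr ?_
      by_contra h2
      exact hcl ⟨(not_le.1 h2).le, (not_le.1 h).le⟩
  refine t5.trans ?_
  rw [heq]
  have e6 : Real.exp (1 - 1 / (160000 * (k : ℝ) ^ 4) * R) = Real.exp 1 *
      (Real.exp (-((R : ℝ) / (200000 * (k : ℝ) ^ 4))) *
        Real.exp (-(1 / (800000 * (k : ℝ) ^ 4) * R))) := by
    rw [← Real.exp_add, ← Real.exp_add]
    congr 1
    field_simp
    ring
  rw [e6]
  have e7 : Real.exp (1 / (800000 * (k : ℝ) ^ 4) * R) *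
      Real.exp (-(1 / (800000 * (k : ℝ) ^ 4) * R)) = 1 := by
    rw [← Real.exp_add, add_neg_cancel, Real.exp_zero]
  have e8 := mul_le_mul_of_nonneg_right hbig
    (Real.exp_pos (-(1 / (800000 * (k : ℝ) ^ 4) * R))).le
  rw [e7] at e8
  have e9 := mul_le_mul_of_nonneg_left e8
    (Real.exp_pos (-((R : ℝ) / (200000 * (k : ℝ) ^ 4)))).le
  linarith

end Pool.Agent.MP_61eeb2_co.EX
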