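import Pool.Agent.Lib.MP_61eeb2_co.EX.Def
import Pool.Agent.Lib.MP_61eeb2_co.EX.P5
import Pool.Agent.Lib.MP_61eeb2_co.EX.Bc

/-!
MP_61eeb2_co, exact bound k * D, module K2: classes: items off a block (Chernoff).

PROOF. Let X be the set of the items x = (t, a') of itm S E with u ∈ t and not Disjoint t s. |X|
R^2 <= k D: for such x there is w ∈ t ∩ s, {u,w} ⊆ t ⊆ N a', so a' ∈ Cd N {u,w}, at most D/R^2
choices for every w ∈ s (pair; |s| <= k since s ⊆ N a); and for given a' there is at most one t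
with u ∈ t, t ∈ S, a' ∈ E t (disj: two such t contain u). (The map x -> x.2 is injective on X.) If
the event holds then at least (1-e) R >= R/2 items of X have class c. ch_exp with Act x c' := (x ∈
X and c' = c), mu = 2 k / R (|X| / n, n = D / R >= D/(2R), for R large), a = R/2, t = 4: exponent
- 2 R + (2k/R)(e^4 - 1) <= - R for R large.
-/

set_option autoImplicit false

namespace Pool.Agent.MP_61eeb2_co.EX

open Finset Classical

private theorem k2_inst {Ω : Type*} (i1 i2 : Fintype Ω) (P : Ω → Prop) :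
    @pr Ω i1 P = @pr Ω i2 P := by
  rw [Subsingleton.elim i1 i2]

private theorem k2_card {k D R : ℕ} {V A : Type} [Fintype V] [Fintype A] {N : A → Finset V}
    {S : Finset (Finset V)} {E : Finset V → Finset A} (hB : Blk k D R N S E) {s : Finset V}
    (hs : s ∈ S) {a : A} (ha : a ∈ E s) {u : V} (hu : u ∈ N a) (hus : u ∉ s) :
    (flt (itm S E) (fun x => u ∈ x.1 ∧ ¬ Disjoint x.1 s)).card * R ^ 2 ≤ k * D := by
  obtain ⟨X, hX⟩ : ∃ X, X = flt (itm S E) (fun x => u ∈ x.1 ∧ ¬ Disjoint x.1 s) := ⟨_, rfl⟩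
  rw [← hX]
  have hm : ∀ x, x ∈ X ↔ (x.1 ∈ S ∧ x.2 ∈ E x.1) ∧ u ∈ x.1 ∧ ¬ Disjoint x.1 s := by
    intro x
    rw [hX, mem_flt, mem_itm]
  have h1 : X.card = (X.image Prod.snd).card := by
    refine (Finset.card_image_of_injOn ?_).symm
    intro x hx y hy hxy
    have hx' := (hm x).1 (Finset.mem_coe.1 hx)
    have hy' := (hm y).1 (Finset.mem_coe.1 hy)
    have h2 : x.1 = y.1 := by
      by_contra hne
      have h3 : ¬ Disjoint x.1 y.1 := by
        rw [Finset.not_disjoint_iff]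
        exact ⟨u, hx'.2.1, hy'.2.1⟩
      have h4 := hB.disj x.1 hx'.1.1 y.1 hy'.1.1 hne h3
      have h5 : x.2 ∈ E y.1 := by
        rw [show x.2 = y.2 from hxy]
        exact hy'.1.2
      exact (Finset.disjoint_left.1 h4) hx'.1.2 h5
    exact Prod.ext h2 hxy
  have h2 : X.image Prod.snd ⊆ s.biUnion (fun w => Cd N {u, w}) := by
    intro b hb
    obtain ⟨x, hx, rfl⟩ := Finset.mem_image.1 hb
    have hx' := (hm x).1 hx
    obtain ⟨w, hw1, hw2⟩ := Finset.not_disjoint_iff.1 hx'.2.2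
    refine Finset.mem_biUnion.2 ⟨w, hw2, mem_Cd.2 ?_⟩
    have h3 := hB.sub x.1 hx'.1.1 x.2 hx'.1.2
    intro z hz
    rw [Finset.mem_insert, Finset.mem_singleton] at hz
    rcases hz with rfl | rfl
    · exact h3 hx'.2.1
    · exact h3 hw1
  have h3 : s.card ≤ k := (Finset.card_le_card (hB.sub s hs a ha)).trans (hB.cardN a)
  calc X.card * R ^ 2 ≤ (s.biUnion (fun w => Cd N {u, w})).card * R ^ 2 := by
        rw [h1]
        exact Nat.mul_le_mul_right _ (Finset.card_le_card h2)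
    _ ≤ (∑ w ∈ s, (Cd N {u, w}).card) * R ^ 2 :=
        Nat.mul_le_mul_right _ Finset.card_biUnion_le
    _ = ∑ w ∈ s, (Cd N {u, w}).card * R ^ 2 := Finset.sum_mul _ _ _
    _ ≤ ∑ _w ∈ s, D := Finset.sum_le_sum fun w hw => hB.pair s hs a ha u hu hus w hw
    _ = s.card * D := by rw [Finset.sum_const, smul_eq_mul]
    _ ≤ k * D := Nat.mul_le_mul_right _ h3

private theorem k2_pr {V A : Type} [Fintype V] [Fintype A] {n : ℕ} (X : Finset (Item V A))
    (c : Fin n) (x : Item V A) : pr (fun c' : Fin n => x ∈ X ∧ c' = c) =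
      if x ∈ X then (1 : ℝ) / n else 0 := by
  unfold pr
  rw [cnt_eq_sum, Fintype.card_fin]
  split_ifs with h
  · congr 1
    simp [h]
  · simp [h]

theorem K2 (k : ℕ) (hk1 : 1 ≤ k) : ∃ R₀ : ℕ, ∀ R ≥ R₀, ∀ D, R ^ QQ k ≤ D → D ≤ R ^ (2 * QQ k) →
    ∀ (V A : Type) [Fintype V] [Fintype A] (N : A → Finset V) (S : Finset (Finset V))
      (E : Finset V → Finset A), Blk k D R N S E → ∀ s ∈ S, ∀ a ∈ E s, ∀ u ∈ N a, u ∉ s →
    ∀ c : Fin (D / R),
    pr (fun cl : Item V A → Fin (D / R) =>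
      (1 - 1 / (200 * (k : ℝ) ^ 2)) * R ≤ ((At (cI S E cl c) u).card : ℝ) ∧
        ∀ y ∈ At (cI S E cl c) u, ¬ Disjoint y.1 s)
      ≤ Real.exp (-(R : ℝ)) := by
  refine ⟨110 * k, ?_⟩
  intro R hR D hD1 _ V A _ _ N S E hB s hs a ha u hu hus c
  have hR1 : 1 ≤ R := by omega
  have hRr : (1 : ℝ) ≤ (R : ℝ) := by exact_mod_cast hR1
  have hkr : (1 : ℝ) ≤ (k : ℝ) := by exact_mod_cast hk1
  have hn0 : 0 < D / R := lt_of_le_of_lt (Nat.zero_le _) c.2
  have : Nonempty (Fin (D / R)) := ⟨c⟩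
  obtain ⟨X, hX⟩ : ∃ X, X = flt (itm S E) (fun x => u ∈ x.1 ∧ ¬ Disjoint x.1 s) := ⟨_, rfl⟩
  have hcard := k2_card hB hs ha hu hus
  rw [← hX] at hcard
  have hnr : (0 : ℝ) < ((D / R : ℕ) : ℝ) := by exact_mod_cast hn0
  have hD2 : (D : ℝ) ≤ 2 * R * ((D / R : ℕ) : ℝ) := by
    have h1 : D < R * (D / R + 1) := by
      have := Nat.lt_mul_div_succ D (show 0 < R by omega)
      exact this
    have h2 : D ≤ 2 * R * (D / R) := by
      have h3 : R * (D / R + 1) ≤ R * (2 * (D / R)) := Nat.mul_le_mul_left _ (by omega)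
      calc D ≤ R * (2 * (D / R)) := (h1.le).trans h3
        _ = 2 * R * (D / R) := by ring
    exact_mod_cast h2
  have hμ : ∑ x, pr (fun c' : Fin (D / R) => x ∈ X ∧ c' = c) ≤ 2 * k / R := by
    have h1 : ∑ x, pr (fun c' : Fin (D / R) => x ∈ X ∧ c' = c) =
        (X.card : ℝ) * (1 / ((D / R : ℕ) : ℝ)) := by
      rw [Finset.sum_congr rfl fun x _ => k2_pr X c x, Finset.sum_ite_mem, Finset.univ_inter,
        Finset.sum_const, nsmul_eq_mul]
    rw [h1, mul_one_div, div_le_div_iff₀ hnr (by linarith)]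
    have h2 : (X.card : ℝ) * R ^ 2 ≤ k * D := by exact_mod_cast hcard
    have h3 : (X.card : ℝ) * R ^ 2 ≤ k * (2 * R * ((D / R : ℕ) : ℝ)) :=
      h2.trans (mul_le_mul_of_nonneg_left hD2 (by linarith))
    have h4 : (R : ℝ) * ((X.card : ℝ) * R) ≤ R * (2 * k * ((D / R : ℕ) : ℝ)) := by
      calc (R : ℝ) * ((X.card : ℝ) * R) = (X.card : ℝ) * R ^ 2 := by ring
        _ ≤ _ := h3
        _ = R * (2 * k * ((D / R : ℕ) : ℝ)) := by ring
    exact le_of_mul_le_mul_left h4 (by linarith)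
  have hch : pr (fun cl : Item V A → Fin (D / R) =>
      (R : ℝ) / 2 ≤ ((flt univ (fun x => x ∈ X ∧ cl x = c)).card : ℝ))
      ≤ Real.exp (-(4 * ((R : ℝ) / 2)) + 2 * k / R * (Real.exp 4 - 1)) := by
    have hch0 := ch_exp (fun (x : Item V A) (c' : Fin (D / R)) => x ∈ X ∧ c' = c) (2 * k / R)
      ((R : ℝ) / 2) 4 (by norm_num) hμ
    exact (k2_inst _ _ _).trans_le hch0
  refine (pr_mono ?_).trans (hch.trans ?_)
  · rintro cl ⟨h1, h2⟩
    have h3 : At (cI S E cl c) u ⊆ flt univ (fun x => x ∈ X ∧ cl x = c) := by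
      intro x hx
      have hx2 := h2 x hx
      rw [mem_At, mem_cI] at hx
      rw [mem_flt, hX, mem_flt, mem_itm]
      exact ⟨mem_univ _, ⟨hx.1.1, hx.2, hx2⟩, hx.1.2⟩
    have h4 : ((At (cI S E cl c) u).card : ℝ) ≤
        ((flt univ (fun x => x ∈ X ∧ cl x = c)).card : ℝ) := by
      exact_mod_cast Finset.card_le_card h3
    refine le_trans ?_ (h1.trans h4)
    have h5 : 1 / (200 * (k : ℝ) ^ 2) ≤ 1 / 2 := by
      apply one_div_le_one_div_of_le (by norm_num)
      nlinarith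
    nlinarith
  · apply Real.exp_le_exp.mpr
    have he : Real.exp 4 ≤ 56 := by
      have h1 : Real.exp 4 = Real.exp 1 ^ 4 := by
        rw [← Real.exp_nat_mul]
        norm_num
      have h2 := Real.exp_one_lt_d9
      have h3 : Real.exp 1 ^ 4 ≤ 2.7182818286 ^ 4 :=
        pow_le_pow_left₀ (Real.exp_pos 1).le h2.le 4
      rw [h1]
      refine h3.trans ?_
      norm_num
    have h1 : 2 * (k : ℝ) / R * (Real.exp 4 - 1) ≤ R := by
      have h2 : (110 : ℝ) * k ≤ R := by exact_mod_cast hR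
      have h3 : 2 * (k : ℝ) / R * (Real.exp 4 - 1) ≤ 2 * (k : ℝ) / R * 55 :=
        mul_le_mul_of_nonneg_left (by linarith) (by positivity)
      refine h3.trans ?_
      rw [div_mul_eq_mul_div, div_le_iff₀ (by linarith)]
      nlinarith
    linarith

end Pool.Agent.MP_61eeb2_co.EX
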