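import Pool.Agent.Lib.MP_61eeb2_co.EX.Def
import Pool.Agent.Lib.MP_61eeb2_co.EX.P1

/-!
MP_61eeb2_co, exact bound k * D, module P6: lower tail for bounded functions.

PROOF. Let b = 1 / (2 B), mu = (sum_y h y) / card Y. For 0 <= h <= B convexity gives exp (- b h)
<= 1 - (h / B) (1 - exp (- 1/2)) (e.g. from convexOn_exp, or from the inequality exp (-s u) <= 1 -
u (1 - exp (-s)) for u in [0,1]). So the mean of exp (- b h) over Y is at most 1 - (mu / B)(1 -
exp (-1/2)) <= exp (- 0.375 mu / B) (exp (-1/2) <= 5/8). Markov: the indicator of (sum over T of h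
(c i) < |T| mu / 2) is at most exp (b |T| mu / 2) * product over i in T of exp (- b h (c i)); sum
over c with sum_pi_prod of Chernoff.lean (factor 1 for i not in T): pr <= exp (|T| mu / (4 B)) *
exp (- 0.375 |T| mu / B) = exp (- |T| mu / (8 B)). (0.375 - 0.25 = 0.125.) See the proof of
chernoff_lower in Chernoff.lean for the format.
-/

set_option autoImplicit false

namespace Pool.Agent.MP_61eeb2_co.EX

open Finset Classical

section

variable {ι Y : Type*} [Fintype ι] [Fintype Y] [Nonempty Y]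

private theorem P6_half : Real.exp (-(1/2 : ℝ)) ≤ 5/8 := by
  have h1 : Real.exp (-(1/2 : ℝ)) * Real.exp (1/2 : ℝ) = 1 := by
    rw [← Real.exp_add]; simp
  have h2 : (8:ℝ)/5 ≤ Real.exp (1/2 : ℝ) := by
    have := Real.quadratic_le_exp_of_nonneg (x := (1/2 : ℝ)) (by norm_num)
    norm_num at this ⊢
    linarith
  have h3 := Real.exp_pos (-(1/2 : ℝ))
  nlinarith

private theorem P6_conv (u : ℝ) (h0 : 0 ≤ u) (h1 : u ≤ 1) :
    Real.exp (-(1/2) * u) ≤ 1 - u * (3/8) := by
  have h := convexOn_exp.2 (Set.mem_univ (-(1/2 : ℝ))) (Set.mem_univ (0 : ℝ)) h0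
    (sub_nonneg.2 h1) (by ring)
  simp only [smul_eq_mul, mul_zero, add_zero, Real.exp_zero, mul_one] at h
  have h2 : Real.exp (-(1/2) * u) = Real.exp (u * -(1/2)) := by congr 1; ring
  rw [h2]
  have h3 := P6_half
  nlinarith

private theorem P6_alg (t m B : ℝ) (hB : 0 < B) :
    -(t * m / (8 * B)) = t * m / (4 * B) + t * (-(3/8) * (m / B)) := by
  field_simp
  ring

theorem bdd_lo (T : Finset ι) (h : Y → ℝ) (B : ℝ) (hB : 0 < B) (h0 : ∀ y, 0 ≤ h y)
    (h1 : ∀ y, h y ≤ B) :
    pr (fun c : ι → Y => ∑ i ∈ T, h (c i) <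
        (T.card : ℝ) * ((∑ y, h y) / (Fintype.card Y : ℝ)) / 2)
      ≤ Real.exp (-((T.card : ℝ) * ((∑ y, h y) / (Fintype.card Y : ℝ)) / (8 * B))) := by
  set mu : ℝ := (∑ y, h y) / (Fintype.card Y : ℝ) with hmu
  have hN : (0:ℝ) < (Fintype.card Y : ℝ) := Nat.cast_pos.2 Fintype.card_pos
  have hsum : ∑ y, h y = mu * (Fintype.card Y : ℝ) := by
    rw [hmu]; field_simp
  set g : ι → Y → ℝ := fun i y => if i ∈ T then Real.exp (-(1/2) * (h y / B)) else 1 with hg
  have hgpos : ∀ i y, 0 < g i y := by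
    intro i y
    simp only [hg]
    split_ifs
    · exact Real.exp_pos _
    · exact one_pos
  have hprod : ∀ c : ι → Y, ∏ i, g i (c i)
      = Real.exp (-(1/2) * ((∑ i ∈ T, h (c i)) / B)) := by
    intro c
    simp only [hg]
    rw [Finset.prod_ite_mem, Finset.univ_inter, ← Real.exp_sum, ← Finset.mul_sum,
      Finset.sum_div]
  have hsum1 : cnt (fun c : ι → Y => ∑ i ∈ T, h (c i) < (T.card : ℝ) * mu / 2)
      ≤ ∑ c : ι → Y, Real.exp ((T.card : ℝ) * mu / (4 * B)) * ∏ i, g i (c i) := by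
    rw [cnt_eq_sum]
    apply Finset.sum_le_sum
    intro c _
    rw [hprod c, ← Real.exp_add]
    split_ifs with hc
    · apply Real.one_le_exp
      have h3 : (T.card : ℝ) * mu / (4 * B) + -(1/2) * ((∑ i ∈ T, h (c i)) / B)
          = ((T.card : ℝ) * mu / 2 - ∑ i ∈ T, h (c i)) / (2 * B) := by
        field_simp; ring
      rw [h3]
      exact div_nonneg (by linarith) (by linarith)
    · exact (Real.exp_pos _).le
  have hsum2 : ∑ c : ι → Y, Real.exp ((T.card : ℝ) * mu / (4 * B)) * ∏ i, g i (c i)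
      = Real.exp ((T.card : ℝ) * mu / (4 * B)) * ∏ i, ∑ y, g i y := by
    rw [← Finset.mul_sum, sum_pi_prod]
  have hcard : (Fintype.card (ι → Y) : ℝ) = ∏ _i : ι, (Fintype.card Y : ℝ) := by
    rw [Fintype.card_fun, Finset.prod_const, Finset.card_univ]
    push_cast; rfl
  have hcpos : (0:ℝ) < ∏ _i : ι, (Fintype.card Y : ℝ) := Finset.prod_pos fun _ _ => hN
  have hfac : ∀ i, ∑ y, g i y ≤ (Fintype.card Y : ℝ) *
      (if i ∈ T then Real.exp (-(3/8) * (mu / B)) else 1) := by
    intro i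
    by_cases hi : i ∈ T
    · rw [if_pos hi]
      have h2 : ∑ y, g i y ≤ ∑ y, (1 - h y / B * (3/8)) := by
        apply Finset.sum_le_sum
        intro y _
        simp only [hg, if_pos hi]
        exact P6_conv _ (div_nonneg (h0 y) hB.le) ((div_le_one hB).2 (h1 y))
      have h3 : ∑ y, (1 - h y / B * (3/8)) = (Fintype.card Y : ℝ) * (1 - (3/8) * (mu / B)) := by
        rw [Finset.sum_sub_distrib, ← Finset.sum_mul, ← Finset.sum_div, hsum]
        simp only [Finset.sum_const, Finset.card_univ, nsmul_eq_mul, mul_one]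
        ring
      have h4 := Real.add_one_le_exp (-(3/8) * (mu / B))
      calc ∑ y, g i y ≤ (Fintype.card Y : ℝ) * (1 - (3/8) * (mu / B)) := h2.trans h3.le
        _ ≤ _ := mul_le_mul_of_nonneg_left (by linarith) hN.le
    · rw [if_neg hi, mul_one]
      have : ∀ y, g i y = 1 := by
        intro y; simp only [hg]; rw [if_neg hi]
      simp [this]
  have hprodle : ∏ i, ∑ y, g i y ≤ ∏ i, ((Fintype.card Y : ℝ) *
      (if i ∈ T then Real.exp (-(3/8) * (mu / B)) else 1)) := by
    apply Finset.prod_le_prod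
    · intro i _; exact Finset.sum_nonneg (fun y _ => (hgpos i y).le)
    · intro i _; exact hfac i
  have hprod2 : ∏ i, ((Fintype.card Y : ℝ) *
      (if i ∈ T then Real.exp (-(3/8) * (mu / B)) else 1))
      = (∏ _i : ι, (Fintype.card Y : ℝ)) * Real.exp ((T.card : ℝ) * (-(3/8) * (mu / B))) := by
    rw [Finset.prod_mul_distrib]
    congr 1
    rw [Finset.prod_ite_mem, Finset.univ_inter, Finset.prod_const, ← Real.exp_nat_mul]
  rw [pr, hcard, div_le_iff₀ hcpos]
  calc cnt (fun c : ι → Y => ∑ i ∈ T, h (c i) < (T.card : ℝ) * mu / 2)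
      ≤ Real.exp ((T.card : ℝ) * mu / (4 * B)) * ∏ i, ∑ y, g i y := by
        rw [← hsum2]; exact hsum1
    _ ≤ Real.exp ((T.card : ℝ) * mu / (4 * B)) * ((∏ _i : ι, (Fintype.card Y : ℝ)) *
          Real.exp ((T.card : ℝ) * (-(3/8) * (mu / B)))) := by
        rw [← hprod2]
        exact mul_le_mul_of_nonneg_left hprodle (Real.exp_pos _).le
    _ = _ := by
        rw [P6_alg _ _ B hB, Real.exp_add]; ring

end

end Pool.Agent.MP_61eeb2_co.EX
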