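import Pool.Agent.Lib.MP_61eeb2_co.EX.Def
import Pool.Agent.Lib.MP_61eeb2_co.EX.P4
import Pool.Agent.Lib.MP_61eeb2_co.EX.P6
import Pool.Agent.Lib.MP_61eeb2_co.EX.Bc

/-!
MP_61eeb2_co, exact bound k * D, module K3: classes: correlation of two blocks.

PROOF. Let J be the set of the items with block s (x.1 = s), T = itm ∩ J = {s} x E s, |T| = |E s|.
Use pr_cond (P4.lean) with this J (J a Finset of items: univ filtered). Fix w0 and consider cl =
mix J w w0: the classes of the items with block t ≠ s are those of w0. h c := number of x in itm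
with x.1 = t and w0 x = c; sum_c h c = |E t|. If some h c > 2R the first part of the event fails
for every w, so the probability is 0. Otherwise 0 <= h <= 2R =: B and |Cross cl s t| = sum over x
in T of h (w x) (Cross counts the pairs (x, y)). The event says 2 n sum_{x in T} h (w x) < |E s|
|E t|, i.e. sum < |T| mu / 2 with mu = (sum_c h c) / n, n = D / R. bdd_lo: probability <= exp (-
|T| mu / (8 B)) = exp (- |E s||E t| / (16 R n)), and |E s| |E t| >= D^2 / R^(2 PHI), n R <= D, so
the exponent is at most - D / (16 R^(2 PHI)) <= - R since D >= R^QQ, QQ = 2 PHI + 18k + 40, R >=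
16.
-/

set_option autoImplicit false

namespace Pool.Agent.MP_61eeb2_co.EX

open Finset Classical

private theorem K3_aux {ι Y : Type*} [Fintype ι] [Fintype Y] [Nonempty Y] (J T : Finset ι)
    (P : (ι → Y) → Prop) (h : (ι → Y) → Y → ℝ) (B M : ℝ) (hB : 0 < B)
    (h0 : ∀ w0 y, 0 ≤ h w0 y) (hM : ∀ w0, ∑ y, h w0 y = M)
    (hP : ∀ w w0, P (mix J w w0) → (∀ y, h w0 y ≤ B) ∧
      ∑ i ∈ T, h w0 (w i) < (T.card : ℝ) * (M / (Fintype.card Y : ℝ)) / 2) :
    pr P ≤ Real.exp (-((T.card : ℝ) * (M / (Fintype.card Y : ℝ)) / (8 * B))) := by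
  refine pr_cond J P _ fun w0 => ?_
  by_cases hh : ∀ y, h w0 y ≤ B
  · have h1 := bdd_lo (ι := ι) T (h w0) B hB (h0 w0) hh
    rw [hM w0] at h1
    exact le_trans (pr_mono fun w hw => (hP w w0 hw).2) h1
  · have h1 : pr (fun w : ι → Y => P (mix J w w0)) ≤
        pr (fun w : ι → Y => ∃ g ∈ (∅ : Finset ℕ), (fun (_ : ℕ) (_ : ι → Y) => True) g w) :=
      pr_mono fun w hw => absurd (hP w w0 hw).1 hh
    have h2 := pr_exists_le (∅ : Finset ℕ) (fun (_ : ℕ) (_ : ι → Y) => True)
    rw [Finset.sum_empty] at h2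
    exact le_trans h1 (le_trans h2 (Real.exp_pos _).le)

private theorem K3_items {V A : Type} [Fintype V] [Fintype A] (S : Finset (Finset V))
    (E : Finset V → Finset A) {t : Finset V} (ht : t ∈ S) :
    (flt (itm S E) (fun x => x.1 = t)).card = (E t).card := by
  have h1 : flt (itm S E) (fun x => x.1 = t) = (E t).image (fun a => (t, a)) := by
    ext x
    rw [mem_flt, mem_itm, Finset.mem_image]
    constructor
    · rintro ⟨⟨-, h2⟩, h3⟩
      exact ⟨x.2, by rw [← h3]; exact h2, by rw [← h3]⟩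
    · rintro ⟨a, h2, rfl⟩
      exact ⟨⟨ht, h2⟩, rfl⟩
  rw [h1, Finset.card_image_of_injective]
  intro a b hab
  exact (Prod.mk.inj hab).2

private theorem K3_cross {V A : Type} [Fintype V] [Fintype A] (S : Finset (Finset V))
    (E : Finset V → Finset A) {n : ℕ} (w w0 cl : Item V A → Fin n) {s t : Finset V}
    (h1 : ∀ x, x.1 = s → cl x = w x) (h2 : ∀ x, x.1 = t → cl x = w0 x) :
    ((Cross S E cl s t).card : ℝ) = ∑ x ∈ flt (itm S E) (fun x => x.1 = s),
      ((flt (itm S E) (fun y => y.1 = t ∧ w0 y = w x)).card : ℝ) := by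
  unfold Cross
  rw [flt_eq_filter, flt_eq_filter, Finset.card_filter, Finset.sum_product, Finset.sum_filter]
  push_cast
  refine Finset.sum_congr rfl fun x _ => ?_
  by_cases hx : x.1 = s
  · rw [if_pos hx, flt_eq_filter, Finset.card_filter]
    push_cast
    refine Finset.sum_congr rfl fun y _ => ?_
    by_cases hy : y.1 = t
    · by_cases hc : w0 y = w x
      · rw [if_pos ⟨hx, hy, by rw [h1 x hx, h2 y hy, hc]⟩, if_pos ⟨hy, hc⟩]
      · rw [if_neg, if_neg]
        · exact fun h => hc h.2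
        · rintro ⟨-, -, h⟩
          rw [h1 x hx, h2 y hy] at h
          exact hc h.symm
    · rw [if_neg, if_neg]
      · exact fun h => hy h.1
      · exact fun h => hy h.2.1
  · rw [if_neg hx]
    refine Finset.sum_eq_zero fun y _ => ?_
    rw [if_neg]
    exact fun h => hx h.1

theorem K3 (k : ℕ) (hk1 : 1 ≤ k) : ∃ R₀ : ℕ, ∀ R ≥ R₀, ∀ D, R ^ QQ k ≤ D → D ≤ R ^ (2 * QQ k) →
    ∀ (V A : Type) [Fintype V] [Fintype A] (N : A → Finset V) (S : Finset (Finset V))
      (E : Finset V → Finset A), Blk k D R N S E → ∀ s ∈ S, ∀ t ∈ S, s ≠ t →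
    pr (fun cl : Item V A → Fin (D / R) =>
      (∀ c, (flt (cI S E cl c) (fun x => x.1 = t)).card ≤ 2 * R) ∧
        2 * (D / R) * (Cross S E cl s t).card < (E s).card * (E t).card)
      ≤ Real.exp (-(R : ℝ)) := by
  refine ⟨16, fun R hR D hD1 hD2 V A _ _ N S E hB s hs t ht hst => ?_⟩
  have hR1 : 1 ≤ R := by omega
  have hQ : 1 ≤ QQ k := by
    unfold QQ
    omega
  have hRD : R ≤ D := by
    refine le_trans ?_ hD1
    calc R = R ^ 1 := (pow_one R).symm
      _ ≤ R ^ QQ k := Nat.pow_le_pow_right hR1 hQ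
  have hn : 1 ≤ D / R := (Nat.one_le_div_iff (by omega)).2 hRD
  have hne : Nonempty (Fin (D / R)) := ⟨⟨0, hn⟩⟩
  have hnr : (0 : ℝ) < ((D / R : ℕ) : ℝ) := by exact_mod_cast hn
  have hRr : (16 : ℝ) ≤ (R : ℝ) := by exact_mod_cast hR
  have hRp : (0 : ℝ) < (R : ℝ) := by linarith
  -- the conditional estimate
  have key := K3_aux (ι := Item V A) (Y := Fin (D / R)) (flt univ (fun x => x.1 = s))
    (flt (itm S E) (fun x => x.1 = s))
    (fun cl : Item V A → Fin (D / R) =>
      (∀ c, (flt (cI S E cl c) (fun x => x.1 = t)).card ≤ 2 * R) ∧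
        2 * (D / R) * (Cross S E cl s t).card < (E s).card * (E t).card)
    (fun w0 c => ((flt (itm S E) (fun y => y.1 = t ∧ w0 y = c)).card : ℝ))
    (2 * R) (E t).card (by linarith) (fun w0 c => Nat.cast_nonneg _)
    (fun w0 => by
      rw [← Nat.cast_sum, ← K3_items S E ht]
      congr 1
      have h1 := Finset.card_eq_sum_card_fiberwise (s := flt (itm S E) (fun x => x.1 = t))
        (t := (univ : Finset (Fin (D / R)))) (f := w0) (fun x _ => Finset.mem_coe.2 (mem_univ _))
      rw [h1]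
      refine Finset.sum_congr rfl fun c _ => ?_
      congr 1
      ext x
      rw [mem_flt, Finset.mem_filter, mem_flt]
      tauto)
    (fun w w0 hw => by
      have h1 : ∀ x : Item V A, x.1 = s →
          mix (flt univ (fun x => x.1 = s)) w w0 x = w x := by
        intro x hx
        unfold mix
        rw [if_pos]
        exact mem_flt.2 ⟨mem_univ _, hx⟩
      have h2 : ∀ x : Item V A, x.1 = t →
          mix (flt univ (fun x => x.1 = s)) w w0 x = w0 x := by
        intro x hx
        unfold mix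
        rw [if_neg]
        intro h
        exact hst ((mem_flt.1 h).2.symm.trans hx)
      refine ⟨fun c => ?_, ?_⟩
      · have h3 := hw.1 c
        have h4 : flt (itm S E) (fun y => y.1 = t ∧ w0 y = c) =
            flt (cI S E (mix (flt univ (fun x => x.1 = s)) w w0) c) (fun x => x.1 = t) := by
          ext x
          rw [mem_flt, mem_flt, mem_cI, mem_itm]
          constructor
          · rintro ⟨h5, h6, h7⟩
            exact ⟨⟨h5, by rw [h2 x h6, h7]⟩, h6⟩
          · rintro ⟨⟨h5, h6⟩, h7⟩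
            rw [h2 x h7] at h6
            exact ⟨h5, h7, h6⟩
        rw [h4]
        exact_mod_cast h3
      · have h3 := hw.2
        have h4 := K3_cross S E w w0 (mix (flt univ (fun x => x.1 = s)) w w0) h1 h2
        rw [← h4, K3_items S E hs, Fintype.card_fin]
        have h5 : (2 : ℝ) * ((D / R : ℕ) : ℝ) *
            ((Cross S E (mix (flt univ (fun x => x.1 = s)) w w0) s t).card : ℝ) <
            ((E s).card : ℝ) * ((E t).card : ℝ) := by exact_mod_cast h3
        rw [mul_div_assoc', lt_div_iff₀ (by norm_num), lt_div_iff₀ hnr]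
        linarith)
  refine le_trans (le_of_eq ?_) (le_trans key ?_)
  · congr
    exact Subsingleton.elim _ _
  -- the exponent
  rw [K3_items S E hs, Fintype.card_fin, Real.exp_le_exp, neg_le_neg_iff]
  have e1 : (D : ℝ) ≤ ((E s).card : ℝ) * (R : ℝ) ^ PHI k := by exact_mod_cast hB.sig s hs
  have e2 : (D : ℝ) ≤ ((E t).card : ℝ) * (R : ℝ) ^ PHI k := by exact_mod_cast hB.sig t ht
  have e3 : ((D / R : ℕ) : ℝ) * R ≤ D := by exact_mod_cast Nat.div_mul_le_self D R
  have e4 : (R : ℝ) ^ QQ k ≤ D := by exact_mod_cast hD1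
  have hDp : (0 : ℝ) < (D : ℝ) := lt_of_lt_of_le (by positivity) e4
  have e5 : (R : ℝ) ^ (2 * PHI k) * (16 * R) ≤ D := by
    refine le_trans ?_ e4
    have h1 : QQ k = 2 * PHI k + (18 * k + 40) := by
      unfold QQ
      ring
    rw [h1, pow_add]
    refine mul_le_mul_of_nonneg_left ?_ (by positivity)
    calc (16 : ℝ) * R ≤ R * R := by nlinarith
      _ = (R : ℝ) ^ 2 := by ring
      _ ≤ (R : ℝ) ^ (18 * k + 40) := pow_le_pow_right₀ (by linarith) (by omega)
  have e6 : (D : ℝ) * D ≤ ((E s).card : ℝ) * ((E t).card : ℝ) * (R : ℝ) ^ (2 * PHI k) := by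
    calc (D : ℝ) * D ≤ (((E s).card : ℝ) * (R : ℝ) ^ PHI k) * (((E t).card : ℝ) *
        (R : ℝ) ^ PHI k) := mul_le_mul e1 e2 hDp.le (by positivity)
      _ = ((E s).card : ℝ) * ((E t).card : ℝ) * (R : ℝ) ^ (2 * PHI k) := by ring
  have e7 : 16 * (R : ℝ) * D ≤ ((E s).card : ℝ) * ((E t).card : ℝ) := by
    have hp : (0 : ℝ) < (R : ℝ) ^ (2 * PHI k) := by positivity
    refine le_of_mul_le_mul_right ?_ hp
    calc 16 * (R : ℝ) * D * (R : ℝ) ^ (2 * PHI k)
        = ((R : ℝ) ^ (2 * PHI k) * (16 * R)) * D := by ring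
      _ ≤ D * D := mul_le_mul_of_nonneg_right e5 hDp.le
      _ ≤ _ := e6
  rw [mul_div_assoc', div_div, le_div_iff₀ (by positivity)]
  calc (R : ℝ) * (((D / R : ℕ) : ℝ) * (8 * (2 * R)))
      = 16 * R * (((D / R : ℕ) : ℝ) * R) := by ring
    _ ≤ 16 * R * D := mul_le_mul_of_nonneg_left e3 (by positivity)
    _ ≤ _ := e7

end Pool.Agent.MP_61eeb2_co.EX
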