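import Pool.Agent.Lib.MP_61eeb2_co.EX.Def
import Pool.Agent.Lib.MP_61eeb2_co.EX.K1
import Pool.Agent.Lib.MP_61eeb2_co.EX.K2
import Pool.Agent.Lib.MP_61eeb2_co.EX.K3

/-!
MP_61eeb2_co, exact bound k * D, module K4a: classes: probability of a bad event.

PROOF. Union bound over the three kinds in BadK (n = D / R <= D). First kind: D/R classes c, K1.
Second kind: the triples (s, a, c) with a ∈ Ed N v (v ∈ N a), s ⊆ N a (at most 2^k, since a ∈ E s
gives s ⊆ N a), c: at most D * 2^k * D triples, each exp (-R) by K2. Third kind: pairs (s,t) in Bl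
S v: |Bl S v| <= D (every s in it has |E s| >= 1, since D <= |E s| R^PHI; and nn <= D by Bl_card),
each <= exp (-R) by K3. exp (-R) <= exp (-R/(200000 k^4)). Total <= (D + 2^k D^2 + D^2) exp(...)
<= 2^(k+2) D^2 exp(...).
-/

set_option autoImplicit false

namespace Pool.Agent.MP_61eeb2_co.EX

open Finset Classical

theorem K4a (k : ℕ) (hk1 : 1 ≤ k) : ∃ R₀ : ℕ, ∀ R ≥ R₀, ∀ D, R ^ QQ k ≤ D →
    D ≤ R ^ (2 * QQ k) →
    ∀ (V A : Type) [Fintype V] [Fintype A] (N : A → Finset V) (S : Finset (Finset V))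
      (E : Finset V → Finset A), Blk k D R N S E → ∀ v : V,
    pr (fun cl : Item V A → Fin (D / R) => BadK k R N S E v cl)
      ≤ 2 ^ (k + 2) * (D : ℝ) ^ 2 * Real.exp (-((R : ℝ) / (200000 * (k : ℝ) ^ 4))) := by
  obtain ⟨R₁, h₁⟩ := K1 k hk1
  obtain ⟨R₂, h₂⟩ := K2 k hk1
  obtain ⟨R₃, h₃⟩ := K3 k hk1
  refine ⟨max (max R₁ R₂) (max R₃ 1), fun R hR D hD1 hD2 V A _ _ N S E hB v => ?_⟩
  have hR1 : R₁ ≤ R := le_trans (le_trans (le_max_left _ _) (le_max_left _ _)) hR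
  have hR2 : R₂ ≤ R := le_trans (le_trans (le_max_right _ _) (le_max_left _ _)) hR
  have hR3 : R₃ ≤ R := le_trans (le_trans (le_max_left _ _) (le_max_right _ _)) hR
  have hR4 : 1 ≤ R := le_trans (le_trans (le_max_right _ _) (le_max_right _ _)) hR
  have hD : 1 ≤ D := le_trans (Nat.one_le_pow _ _ hR4) hD1
  obtain ⟨x, hx⟩ : ∃ x : ℝ, x = Real.exp (-((R : ℝ) / (200000 * (k : ℝ) ^ 4))) := ⟨_, rfl⟩
  have hx0 : 0 < x := by
    rw [hx]
    exact Real.exp_pos _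
  have hexp : Real.exp (-(R : ℝ)) ≤ x := by
    rw [hx, Real.exp_le_exp, neg_le_neg_iff]
    have hk2 : (1 : ℝ) ≤ (k : ℝ) := by exact_mod_cast hk1
    have hk3 : (1 : ℝ) ≤ (k : ℝ) ^ 4 := one_le_pow₀ hk2
    exact div_le_self (Nat.cast_nonneg R) (by linarith)
  have hnD : D / R ≤ D := Nat.div_le_self D R
  -- the three kinds
  have e1 : pr (fun cl : Item V A → Fin (D / R) => ∃ c ∈ (univ : Finset (Fin (D / R))),
      ¬ ((1 - 1 / (200 * (k : ℝ) ^ 2)) * R ≤ ((At (cI S E cl c) v).card : ℝ) ∧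
        ((At (cI S E cl c) v).card : ℝ) ≤ (1 + 1 / (200 * (k : ℝ) ^ 2)) * R)) ≤ D * x := by
    refine le_trans (pr_exists_le_card univ _ x fun c _ => ?_) ?_
    · rw [hx]
      exact h₁ R hR1 D hD1 hD2 V A N S E hB v c
    · rw [Finset.card_univ, Fintype.card_fin]
      exact mul_le_mul_of_nonneg_right (by exact_mod_cast hnD) hx0.le
  have e2 : pr (fun cl : Item V A → Fin (D / R) => ∃ p ∈
      (flt univ (fun x : Item V A => x.1 ∈ S ∧ x.2 ∈ E x.1 ∧ v ∈ N x.2 ∧ v ∉ x.1)) ×ˢ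
        (univ : Finset (Fin (D / R))),
      (1 - 1 / (200 * (k : ℝ) ^ 2)) * R ≤ ((At (cI S E cl p.2) v).card : ℝ) ∧
        ∀ y ∈ At (cI S E cl p.2) v, ¬ Disjoint y.1 p.1.1) ≤ 2 ^ k * (D : ℝ) ^ 2 * x := by
    refine le_trans (pr_exists_le_card _ _ x fun p hp => ?_) ?_
    · obtain ⟨hp1, -⟩ := Finset.mem_product.1 hp
      obtain ⟨-, hs, ha, hv, hvs⟩ := mem_flt.1 hp1
      exact le_trans (h₂ R hR2 D hD1 hD2 V A N S E hB p.1.1 hs p.1.2 ha v hv hvs p.2) hexp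
    · refine mul_le_mul_of_nonneg_right ?_ hx0.le
      rw [Finset.card_product, Finset.card_univ, Fintype.card_fin]
      have h1 : (flt univ (fun x : Item V A =>
          x.1 ∈ S ∧ x.2 ∈ E x.1 ∧ v ∈ N x.2 ∧ v ∉ x.1)).card ≤ D * 2 ^ k := by
        refine le_trans (Finset.card_le_card_of_injOn
          (t := (Ed N v).sigma fun a => (N a).powerset)
          (fun x : Item V A => (⟨x.2, x.1⟩ : (_ : A) × Finset V)) ?_ ?_) ?_
        · intro x hx1
          obtain ⟨-, hs, ha, hv, -⟩ := mem_flt.1 (Finset.mem_coe.1 hx1)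
          exact Finset.mem_coe.2 (Finset.mem_sigma.2
            ⟨mem_Ed.2 hv, Finset.mem_powerset.2 (hB.sub x.1 hs x.2 ha)⟩)
        · intro x _ y _ hxy
          have hxy1 := Sigma.mk.inj hxy
          exact Prod.ext (eq_of_heq hxy1.2) hxy1.1
        · rw [Finset.card_sigma]
          refine le_trans (Finset.sum_le_card_nsmul _ _ (2 ^ k) fun a _ => ?_) ?_
          · rw [Finset.card_powerset]
            exact Nat.pow_le_pow_right (by norm_num) (hB.cardN a)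
          · rw [hB.deg v, smul_eq_mul]
      calc (((flt univ (fun x : Item V A =>
            x.1 ∈ S ∧ x.2 ∈ E x.1 ∧ v ∈ N x.2 ∧ v ∉ x.1)).card * (D / R) : ℕ) : ℝ)
          ≤ ((D * 2 ^ k * D : ℕ) : ℝ) := by
            exact_mod_cast Nat.mul_le_mul h1 hnD
        _ = 2 ^ k * (D : ℝ) ^ 2 := by
            push_cast
            ring
  have e3 : pr (fun cl : Item V A → Fin (D / R) => ∃ p ∈
      flt ((Bl S v) ×ˢ (Bl S v)) (fun p : Finset V × Finset V => p.1 ≠ p.2),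
      (∀ c, (flt (cI S E cl c) (fun x => x.1 = p.2)).card ≤ 2 * R) ∧
        2 * (D / R) * (Cross S E cl p.1 p.2).card < (E p.1).card * (E p.2).card) ≤
          (D : ℝ) ^ 2 * x := by
    refine le_trans (pr_exists_le_card _ _ x fun p hp => ?_) ?_
    · obtain ⟨hp1, hne⟩ := mem_flt.1 hp
      obtain ⟨hp2, hp3⟩ := Finset.mem_product.1 hp1
      exact le_trans (h₃ R hR3 D hD1 hD2 V A N S E hB p.1 (mem_Bl.1 hp2).1 p.2
        (mem_Bl.1 hp3).1 hne) hexp
    · refine mul_le_mul_of_nonneg_right ?_ hx0.le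
      have h1 : (Bl S v).card ≤ D := by
        refine le_trans (Bl_card k D R hD N S E hB v).1 (le_trans ?_ hD1)
        refine Nat.pow_le_pow_right hR4 ?_
        unfold QQ
        omega
      have h2 := Finset.card_le_card (flt_sub ((Bl S v) ×ˢ (Bl S v))
        (fun p : Finset V × Finset V => p.1 ≠ p.2))
      rw [Finset.card_product] at h2
      have h3 : (flt ((Bl S v) ×ˢ (Bl S v)) (fun p : Finset V × Finset V => p.1 ≠ p.2)).card ≤
          D * D := le_trans h2 (Nat.mul_le_mul h1 h1)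
      rw [sq]
      exact_mod_cast h3
  have hmono : pr (fun cl : Item V A → Fin (D / R) => BadK k R N S E v cl) ≤
      D * x + (2 ^ k * (D : ℝ) ^ 2 * x + (D : ℝ) ^ 2 * x) := by
    refine le_trans ?_ (add_le_add e1 (add_le_add e2 e3))
    refine le_trans ?_ (add_le_add le_rfl (pr_or_le _ _))
    refine le_trans ?_ (pr_or_le _ _)
    refine pr_mono fun cl hcl => ?_
    rcases hcl with ⟨c, hc⟩ | ⟨s, hs, a, ha, hv, hvs, c, hc⟩ | ⟨s, hs, t, ht, hst, hc⟩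
    · exact Or.inl ⟨c, mem_univ c, hc⟩
    · exact Or.inr (Or.inl ⟨((s, a), c), Finset.mem_product.2
        ⟨mem_flt.2 ⟨mem_univ _, hs, ha, hv, hvs⟩, mem_univ _⟩, hc⟩)
    · exact Or.inr (Or.inr ⟨(s, t), mem_flt.2 ⟨Finset.mem_product.2 ⟨hs, ht⟩, hst⟩, hc⟩)
  refine le_trans hmono ?_
  rw [← hx]
  have hDr : (1 : ℝ) ≤ (D : ℝ) := by exact_mod_cast hD
  have hDD : (D : ℝ) ≤ (D : ℝ) ^ 2 := by nlinarith
  have h2k : (1 : ℝ) ≤ 2 ^ k := one_le_pow₀ (by norm_num)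
  have hD2 : 0 ≤ (D : ℝ) ^ 2 := by positivity
  have h5 : (D : ℝ) + (2 ^ k * (D : ℝ) ^ 2 + (D : ℝ) ^ 2) ≤ 2 ^ (k + 2) * (D : ℝ) ^ 2 := by
    have h6 : (2 : ℝ) ^ (k + 2) = 4 * 2 ^ k := by
      rw [pow_add]
      ring
    rw [h6]
    nlinarith [mul_le_mul_of_nonneg_right h2k hD2]
  calc (D : ℝ) * x + (2 ^ k * (D : ℝ) ^ 2 * x + (D : ℝ) ^ 2 * x)
      = ((D : ℝ) + (2 ^ k * (D : ℝ) ^ 2 + (D : ℝ) ^ 2)) * x := by ring
    _ ≤ 2 ^ (k + 2) * (D : ℝ) ^ 2 * x := mul_le_mul_of_nonneg_right h5 hx0.le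

end Pool.Agent.MP_61eeb2_co.EX
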