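import Pool.Agent.Lib.MP_61eeb2_co.EX.Def
import Pool.Agent.Lib.MP_61eeb2_co.EX.Bc

/-!
MP_61eeb2_co, exact bound k * D, module K4b: classes: locality.

PROOF. DepOn: let cl and cl' agree on At (itm S E) v. Then At (cI S E cl c) v = At (cI S E cl' c)
v for all c (mem_At, mem_cI). So the first two parts of BadK are the same for cl and cl'. In the
third part v ∈ s and v ∈ t, so all items with block s or t in itm are in At (itm S E) v: the sets
flt (cI cl c) (x.1 = t) and Cross cl s t are the same. Count: if x is in At (itm S E) v and in At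
(itm S E) u then x = (s,a), a ∈ E s, s ⊆ N a, u, v ∈ N a: so u is in the union over the D edges a
∈ Ed N v of N a, which has at most D * k elements.
-/

set_option autoImplicit false

namespace Pool.Agent.MP_61eeb2_co.EX

open Finset Classical

private theorem at_congr {V A : Type} [Fintype V] [Fintype A] {n : ℕ}
    (S : Finset (Finset V)) (E : Finset V → Finset A) (v : V) (cl cl' : Item V A → Fin n)
    (h : ∀ x ∈ At (itm S E) v, cl x = cl' x) (c : Fin n) :
    At (cI S E cl c) v = At (cI S E cl' c) v := by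
  ext x
  rw [mem_At, mem_At, mem_cI, mem_cI]
  constructor
  · rintro ⟨⟨h1, h2⟩, h3⟩
    refine ⟨⟨h1, ?_⟩, h3⟩
    rw [← h x (mem_At.2 ⟨mem_itm.2 h1, h3⟩)]
    exact h2
  · rintro ⟨⟨h1, h2⟩, h3⟩
    refine ⟨⟨h1, ?_⟩, h3⟩
    rw [h x (mem_At.2 ⟨mem_itm.2 h1, h3⟩)]
    exact h2

private theorem flt_congr_t {V A : Type} [Fintype V] [Fintype A] {n : ℕ}
    (S : Finset (Finset V)) (E : Finset V → Finset A) (v : V) (cl cl' : Item V A → Fin n)
    (h : ∀ x ∈ At (itm S E) v, cl x = cl' x) (c : Fin n) (t : Finset V) (ht : v ∈ t) :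
    flt (cI S E cl c) (fun x => x.1 = t) = flt (cI S E cl' c) (fun x => x.1 = t) := by
  ext x
  rw [mem_flt, mem_flt, mem_cI, mem_cI]
  constructor
  · rintro ⟨⟨h1, h2⟩, h3⟩
    refine ⟨⟨h1, ?_⟩, h3⟩
    rw [← h x (mem_At.2 ⟨mem_itm.2 h1, by rw [h3]; exact ht⟩)]
    exact h2
  · rintro ⟨⟨h1, h2⟩, h3⟩
    refine ⟨⟨h1, ?_⟩, h3⟩
    rw [h x (mem_At.2 ⟨mem_itm.2 h1, by rw [h3]; exact ht⟩)]
    exact h2

private theorem cross_congr {V A : Type} [Fintype V] [Fintype A] {n : ℕ}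
    (S : Finset (Finset V)) (E : Finset V → Finset A) (v : V) (cl cl' : Item V A → Fin n)
    (h : ∀ x ∈ At (itm S E) v, cl x = cl' x) (s t : Finset V) (hs : v ∈ s) (ht : v ∈ t) :
    Cross S E cl s t = Cross S E cl' s t := by
  unfold Cross
  ext p
  rw [mem_flt, mem_flt, mem_product]
  constructor
  · rintro ⟨⟨h1, h2⟩, h3, h4, h5⟩
    refine ⟨⟨h1, h2⟩, h3, h4, ?_⟩
    rw [← h p.1 (mem_At.2 ⟨h1, by rw [h3]; exact hs⟩),
      ← h p.2 (mem_At.2 ⟨h2, by rw [h4]; exact ht⟩)]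
    exact h5
  · rintro ⟨⟨h1, h2⟩, h3, h4, h5⟩
    refine ⟨⟨h1, h2⟩, h3, h4, ?_⟩
    rw [h p.1 (mem_At.2 ⟨h1, by rw [h3]; exact hs⟩),
      h p.2 (mem_At.2 ⟨h2, by rw [h4]; exact ht⟩)]
    exact h5

theorem K4b {V A : Type} [Fintype V] [Fintype A] (k D R n : ℕ) (N : A → Finset V)
    (S : Finset (Finset V)) (E : Finset V → Finset A) (hB : Blk k D R N S E) (v : V) :
    DepOn (At (itm S E) v) (fun cl : Item V A → Fin n => BadK k R N S E v cl) ∧
    (flt univ (fun u => ¬ Disjoint (At (itm S E) v) (At (itm S E) u))).card ≤ k * D := by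
  constructor
  · intro cl cl' h hbad
    have hA := at_congr S E v cl cl' h
    rcases hbad with ⟨c, hc⟩ | ⟨s, hs, a, ha, hva, hvs, c, hc⟩ | ⟨s, hs, t, ht, hst, hc, hlt⟩
    · left
      refine ⟨c, ?_⟩
      rw [← hA c]
      exact hc
    · right
      left
      refine ⟨s, hs, a, ha, hva, hvs, c, ?_⟩
      rw [← hA c]
      exact hc
    · right
      right
      refine ⟨s, hs, t, ht, hst, ?_, ?_⟩
      · intro c
        rw [← flt_congr_t S E v cl cl' h c t (mem_Bl.1 ht).2]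
        exact hc c
      · rw [← cross_congr S E v cl cl' h s t (mem_Bl.1 hs).2 (mem_Bl.1 ht).2]
        exact hlt
  · have hsub : flt univ (fun u => ¬ Disjoint (At (itm S E) v) (At (itm S E) u)) ⊆
        (Ed N v).biUnion N := by
      intro u hu
      have hu' := (mem_flt.1 hu).2
      rw [not_disjoint_iff] at hu'
      obtain ⟨x, hx1, hx2⟩ := hu'
      obtain ⟨hx, hvx⟩ := mem_At.1 hx1
      obtain ⟨-, hux⟩ := mem_At.1 hx2
      obtain ⟨h1, h2⟩ := mem_itm.1 hx
      have h3 := hB.sub x.1 h1 x.2 h2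
      exact mem_biUnion.2 ⟨x.2, mem_Ed.2 (h3 hvx), h3 hux⟩
    calc (flt univ (fun u => ¬ Disjoint (At (itm S E) v) (At (itm S E) u))).card
        ≤ ((Ed N v).biUnion N).card := card_le_card hsub
      _ ≤ ∑ a ∈ Ed N v, (N a).card := card_biUnion_le
      _ ≤ ∑ _a ∈ Ed N v, k := sum_le_sum fun a _ => hB.cardN a
      _ = k * D := by rw [sum_const, smul_eq_mul, hB.deg v, mul_comm]

end Pool.Agent.MP_61eeb2_co.EX
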