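import Pool.Agent.Lib.MP_61eeb2_co.EX.Def

/-!
MP_61eeb2_co, exact bound k * D, module K5: rounds and classes.

PROOF. n = D / R >= R^2 >= 1 . rc j = j mod n. The number of j < D with j mod n = c is D / n or D
/ n + 1 (Nat.count_modEq_card or direct: the injection i -> c + i n for i < D/n, and j -> j / n).
D = n R + r with r < R <= n (n >= R^2 >= R), so D / n = R exactly: n R <= D < n R + R <= n (R +
1). So the number is R or R + 1.
-/

set_option autoImplicit false

namespace Pool.Agent.MP_61eeb2_co.EX

open Finset Classical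

theorem K5 (D R : ℕ) (hR : 1 ≤ R) (hD : R ^ 3 ≤ D) : ∃ rc : Fin D → Fin (D / R),
    (∀ c, R ≤ (flt univ (fun j => rc j = c)).card) ∧
    (∀ c, (flt univ (fun j => rc j = c)).card ≤ R + 1) := by
  obtain ⟨n, hn⟩ : ∃ n, n = D / R := ⟨_, rfl⟩
  rw [← hn]
  have hnR : R ^ 2 ≤ n := by
    rw [hn, Nat.le_div_iff_mul_le hR]
    calc R ^ 2 * R = R ^ 3 := by ring
      _ ≤ D := hD
  have hRR : R ≤ R ^ 2 := by nlinarith
  have hn0 : 0 < n := by nlinarith
  have h1 : n * R ≤ D := by
    rw [hn]
    exact Nat.div_mul_le_self D R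
  have h2 : D < n * R + R := by
    have h3 := Nat.lt_div_mul_add (a := D) hR
    rw [← hn] at h3
    exact h3
  have h4 : D < n * (R + 1) := by nlinarith
  refine ⟨fun j => ⟨(j : ℕ) % n, Nat.mod_lt _ hn0⟩, fun c => ?_, fun c => ?_⟩
  · have hlt : ∀ i : Fin R, (c : ℕ) + i * n < D := by
      intro i
      have h5 : ((i : ℕ) + 1) * n ≤ R * n := Nat.mul_le_mul_right n i.2
      have h6 := c.2
      nlinarith
    have h7 := Finset.card_le_card_of_injOn (s := (univ : Finset (Fin R)))
      (t := flt univ (fun j : Fin D => (⟨(j : ℕ) % n, Nat.mod_lt _ hn0⟩ : Fin n) = c))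
      (fun i => (⟨(c : ℕ) + i * n, hlt i⟩ : Fin D)) (by
        intro i _
        rw [Finset.mem_coe, mem_flt]
        refine ⟨mem_univ _, ?_⟩
        apply Fin.ext
        simp only [Nat.add_mul_mod_self_right]
        exact Nat.mod_eq_of_lt c.2) (by
        intro i _ i' _ h8
        have h9 := congrArg Fin.val h8
        simp only at h9
        have h10 : (i : ℕ) * n = i' * n := by omega
        exact Fin.ext (Nat.eq_of_mul_eq_mul_right hn0 h10))
    rw [card_univ, Fintype.card_fin] at h7
    exact h7
  · have h7 := Finset.card_le_card_of_injOn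
      (s := flt univ (fun j : Fin D => (⟨(j : ℕ) % n, Nat.mod_lt _ hn0⟩ : Fin n) = c))
      (t := range (R + 1)) (fun j => (j : ℕ) / n) (by
        intro j _
        rw [Finset.mem_coe, mem_range]
        rw [Nat.div_lt_iff_lt_mul hn0]
        have h8 := j.2
        nlinarith) (by
        intro j hj j' hj' h8
        rw [Finset.mem_coe, mem_flt] at hj hj'
        have h9 := congrArg Fin.val hj.2
        have h10 := congrArg Fin.val hj'.2
        simp only at h8 h9 h10
        have h11 := Nat.div_add_mod (j : ℕ) n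
        have h12 := Nat.div_add_mod (j' : ℕ) n
        rw [h8] at h11
        exact Fin.ext (by omega))
    rw [card_range] at h7
    exact h7

end Pool.Agent.MP_61eeb2_co.EX
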