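import Pool.Agent.Lib.MP_61eeb2_co.EX.Def
import Pool.Agent.Lib.MP_61eeb2_co.EX.K4a
import Pool.Agent.Lib.MP_61eeb2_co.EX.K4b
import Pool.Agent.Lib.MP_61eeb2_co.EX.K5
import Pool.Agent.Lib.MP_61eeb2_co.EX.P1

/-!
MP_61eeb2_co, exact bound k * D, module K4: classes: local lemma (assembly).

PROOF. Apply lll (LLL.lean) with ι = Item V A, κ = Fin (D / R) (nonempty: D >= R^QQ >= R), E = V,
vbl v = At (itm S E) v, bad v = BadK k R N S E v, p = 2^(k+2) D^2 exp (- R/(200000 k^4)), d = k D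
(K4b; the filter in lll is over not Disjoint, convert it to flt with flt_eq_filter), K4a with
cnt_le_of_pr_le. Needed: p <= 1/4 and 4 p k D <= 1: D <= R^(2 QQ), so 4 * 2^(k+2) * k * R^(6 QQ)
<= exp (R/(200000 k^4)) for R large (exp_big in Def.lean). The result is cl without bad events. rc
from K5 (R^3 <= R^QQ <= D). Cls: nR: Nat.div_mul_le_self. even: first part of BadK. off: second
part (v := u; the size bound holds by even). cross: s ≠ t, pick v in both (not_disjoint_iff);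
third part; the size condition |flt (cI c) (x.1 = t)| <= 2R follows from even at v (the set is
contained in At (cI c) v, (1+e) R <= 2R). rlo, rhi: K5.
-/

set_option autoImplicit false

namespace Pool.Agent.MP_61eeb2_co.EX

open Finset Classical

theorem K4 (k : ℕ) (hk1 : 1 ≤ k) : ∃ R₀ : ℕ, ∀ R ≥ R₀, ∀ D, R ^ QQ k ≤ D → D ≤ R ^ (2 * QQ k) →
    ∀ (V A : Type) [Fintype V] [Fintype A] (N : A → Finset V) (S : Finset (Finset V))
      (E : Finset V → Finset A), Blk k D R N S E →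
    ∃ (cl : Item V A → Fin (D / R)) (rc : Fin D → Fin (D / R)),
      Cls k D R N S E (D / R) cl rc := by
  obtain ⟨R₁, hR₁⟩ := K4a k hk1
  obtain ⟨R₂, hR₂⟩ := exp_big (1 / (200000 * (k : ℝ) ^ 4)) (by positivity)
    (4 * 2 ^ (k + 2) * k) (6 * QQ k)
  refine ⟨max (max R₁ R₂) 1, fun R hR D hD1 hD2 V A _ _ N S E hB => ?_⟩
  have hRR₁ : R ≥ R₁ := le_trans (le_trans (le_max_left _ _) (le_max_left _ _)) hR
  have hRR₂ : R ≥ R₂ := le_trans (le_trans (le_max_right _ _) (le_max_left _ _)) hR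
  have hR1 : 1 ≤ R := le_trans (le_max_right _ _) hR
  have hQ : 3 ≤ QQ k := by unfold QQ; omega
  have hR3 : R ^ 3 ≤ D := le_trans (Nat.pow_le_pow_right hR1 hQ) hD1
  have hRD : R ≤ D := le_trans (Nat.le_self_pow (by norm_num) R) hR3
  have hD0 : 1 ≤ D := le_trans hR1 hRD
  have hn : 0 < D / R := Nat.div_pos hRD hR1
  have : Nonempty (Fin (D / R)) := ⟨⟨0, hn⟩⟩
  obtain ⟨rc, hrc1, hrc2⟩ := K5 D R hR1 hR3
  set X : ℝ := 2 ^ (k + 2) * (D : ℝ) ^ 2 * Real.exp (-((R : ℝ) / (200000 * (k : ℝ) ^ 4))) with hX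
  have hX0 : 0 ≤ X := by positivity
  have hkR : (1 : ℝ) ≤ k := by exact_mod_cast hk1
  have hDR : (1 : ℝ) ≤ D := by exact_mod_cast hD0
  have h4 : 4 * X * ((k * D : ℕ) : ℝ) ≤ 1 := by
    have h1 := hR₂ R hRR₂
    have h2 : (D : ℝ) ^ 3 ≤ (R : ℝ) ^ (6 * QQ k) := by
      have : D ^ 3 ≤ (R ^ (2 * QQ k)) ^ 3 := Nat.pow_le_pow_left hD2 3
      rw [← pow_mul] at this
      have h6 : 2 * QQ k * 3 = 6 * QQ k := by ring
      rw [h6] at this
      exact_mod_cast this
    have h3 : 4 * 2 ^ (k + 2) * (k : ℝ) * (D : ℝ) ^ 3 ≤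
        Real.exp (1 / (200000 * (k : ℝ) ^ 4) * R) :=
      le_trans (mul_le_mul_of_nonneg_left h2 (by positivity)) h1
    have h5 : Real.exp (1 / (200000 * (k : ℝ) ^ 4) * R) *
        Real.exp (-((R : ℝ) / (200000 * (k : ℝ) ^ 4))) = 1 := by
      rw [← Real.exp_add]
      have : 1 / (200000 * (k : ℝ) ^ 4) * R + -((R : ℝ) / (200000 * (k : ℝ) ^ 4)) = 0 := by
        ring
      rw [this, Real.exp_zero]
    have h7 := mul_le_mul_of_nonneg_right h3
      (Real.exp_pos (-((R : ℝ) / (200000 * (k : ℝ) ^ 4)))).le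
    rw [h5] at h7
    push_cast
    rw [hX]
    refine le_trans (le_of_eq ?_) h7
    ring
  have hX4 : X ≤ 1 / 4 := by
    have h1 : 1 ≤ ((k * D : ℕ) : ℝ) := by
      push_cast
      nlinarith
    have h2 : 4 * X * 1 ≤ 4 * X * ((k * D : ℕ) : ℝ) :=
      mul_le_mul_of_nonneg_left h1 (by positivity)
    linarith
  obtain ⟨cl, hcl⟩ := lll (ι := Item V A) (κ := Fin (D / R)) (E := V)
    (fun v => At (itm S E) v) (fun v cl => BadK k R N S E v cl)
    (fun v ω ω' h hb => (K4b k D R (D / R) N S E hB v).1 ω ω' h hb) X (k * D) hX0 hX4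
    (fun v => cnt_le_of_pr_le _ _ (hR₁ R hRR₁ D hD1 hD2 V A N S E hB v))
    (fun v => by
      have h := (K4b k D R (D / R) N S E hB v).2
      rw [flt_eq_filter] at h
      convert h) h4
  have heven : ∀ c, Even k R (cI S E cl c) := by
    intro c v
    by_contra hc
    exact hcl v (Or.inl ⟨c, hc⟩)
  refine ⟨cl, rc, ?_⟩
  refine ⟨Nat.div_mul_le_self D R, heven, ?_, ?_, hrc1, hrc2⟩
  · intro s hs a ha u hu hus c
    by_contra hc
    push Not at hc
    exact hcl u (Or.inr (Or.inl ⟨s, hs, a, ha, hu, hus, c, (heven c u).1, hc⟩))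
  · intro s hs t ht hst hdis
    rw [Finset.not_disjoint_iff] at hdis
    obtain ⟨v, hvs, hvt⟩ := hdis
    by_contra hc
    push Not at hc
    refine hcl v (Or.inr (Or.inr ⟨s, mem_Bl.2 ⟨hs, hvs⟩, t, mem_Bl.2 ⟨ht, hvt⟩, hst,
      fun c => ?_, hc⟩))
    have h1 : flt (cI S E cl c) (fun x => x.1 = t) ⊆ At (cI S E cl c) v := by
      intro x hx
      rw [mem_flt] at hx
      rw [mem_At]
      refine ⟨hx.1, ?_⟩
      rw [hx.2]
      exact hvt
    have h2 := Finset.card_le_card h1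
    have h3 := (heven c v).2
    have h4 : 1 / (200 * (k : ℝ) ^ 2) ≤ 1 := by
      rw [div_le_one (by positivity)]
      nlinarith
    have h5 : (0 : ℝ) ≤ R := Nat.cast_nonneg R
    have h6 : ((At (cI S E cl c) v).card : ℝ) ≤ 2 * R := by nlinarith
    have h7 : (At (cI S E cl c) v).card ≤ 2 * R := by exact_mod_cast h6
    exact le_trans h2 h7

end Pool.Agent.MP_61eeb2_co.EX
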