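import Pool.Agent.Lib.MP_61eeb2_co.EX.Def
import Pool.Agent.Lib.MP_61eeb2_co.EX.G2
import Pool.Agent.Lib.MP_61eeb2_co.EX.G4
import Pool.Agent.Lib.MP_61eeb2_co.EX.G5
import Pool.Agent.Lib.MP_61eeb2_co.EX.G6
import Pool.Agent.Lib.MP_61eeb2_co.EX.Bc

/-!
MP_61eeb2_co, exact bound k * D, module Llb: probability that something fails at v.

PROOF. Union bound: not Good means not H1, or not H2 for some s ∈ Bl S v, or not H3 for some s ∈
Bl S v, a ∈ E s, or not H4 for some b ∈ Ed N v. Each has probability <= exp (-R) (H1_pr, H2_pr,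
H3_pr, H4_pr; R0 = the maximum of the four). The numbers: 1; |Bl S v| <= nn E (Bl S v) <= D since
each |E s| >= 1 (sig, D >= 1); the pairs (s,a): nn E (Bl S v) <= D; b: |Ed N v| = D. Total <= (1 +
3 D) exp(-R) <= 4 D exp(-R) (D >= R^QQ >= 1).
-/

set_option autoImplicit false

namespace Pool.Agent.MP_61eeb2_co.EX

open Finset Classical

theorem pr_bad (k : ℕ) (hk1 : 1 ≤ k) : ∃ R₀ : ℕ, ∀ R ≥ R₀, ∀ D, R ^ QQ k ≤ D →
    D ≤ R ^ (2 * QQ k) → ∀ (V A : Type) [Fintype V] [Fintype A] (N : A → Finset V)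
      (S : Finset (Finset V)) (E : Finset V → Finset A), Blk k D R N S E →
    ∀ (n : ℕ) (cl : Item V A → Fin n) (rc : Fin D → Fin n), Cls k D R N S E n cl rc →
    ∀ (ch : Fin n → V → Item V A), (∀ c u, ch c u ∈ At (cI S E cl c) u) →
    ∀ Ev : Fin n → Finset V → Fin k → Sp V A k R → Prop,
    (∀ c U i, U.card < k → DepOn (sites (cI S E cl c) (ZZ (U.image (ch c)))) (Ev c U i) ∧
      1 / (R : ℝ) ^ (6 * k) ≤ pr (Ev c U i)) →
    ∀ Tv : Fin n → Finset V → V → A → Sp V A k R → Prop,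
    (∀ c, ∀ s ∈ S, ∀ v ∈ s, ∀ a ∈ E s,
      (∃ x ∈ cI S E cl c, x.1 = s) → 1 / (R : ℝ) ^ (6 * k + 1) ≤ pr (Tv c s v a)) →
    ∀ v, pr (fun w : Fin D → Sp V A k R => ¬ Good N S E cl rc Ev Tv v w)
      ≤ 4 * D * Real.exp (-(R : ℝ)) := by
  obtain ⟨R1, h1⟩ := H1_pr k hk1
  obtain ⟨R2, h2⟩ := H2_pr k hk1
  obtain ⟨R3, h3⟩ := H3_pr k hk1
  obtain ⟨R4, h4⟩ := H4_pr k hk1
  refine ⟨R1 + R2 + R3 + R4 + 1, ?_⟩
  intro R hR D hD1 hD2 V A _ _ N S E hB n cl rc hC ch hch Ev hEv Tv hTv v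
  have hD : 1 ≤ D := le_trans (Nat.one_le_pow _ _ (by omega)) hD1
  obtain ⟨-, hnn, -⟩ := Bl_card k D R hD N S E hB v
  have hBl : (Bl S v).card ≤ D := by
    refine le_trans ?_ hnn
    unfold nn
    rw [Finset.card_eq_sum_ones]
    refine Finset.sum_le_sum fun s hs => ?_
    have h5 := hB.sig s (mem_Bl.1 hs).1
    by_contra hcon
    have h6 : (E s).card = 0 := by omega
    rw [h6, zero_mul] at h5
    omega
  have e1 := h1 R (by omega) D hD1 hD2 V A N S E hB n cl rc hC v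
  have e2 : pr (fun w : Fin D → Sp V A k R => ∃ s ∈ Bl S v, ¬ H2 N E rc Ev s w) ≤
      (Bl S v).card * Real.exp (-(R : ℝ)) :=
    pr_exists_le_card _ _ _ fun s hs =>
      h2 R (by omega) D hD1 hD2 V A N S E hB n cl rc hC ch hch Ev hEv s (mem_Bl.1 hs).1
  have e3 : pr (fun w : Fin D → Sp V A k R => ∃ p ∈ (Bl S v).sigma fun s => E s,
      ¬ H3 E rc Tv p.1 v p.2 w) ≤
      ((Bl S v).sigma fun s => E s).card * Real.exp (-(R : ℝ)) := by
    refine pr_exists_le_card _ _ _ fun p hp => ?_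
    obtain ⟨hp1, hp2⟩ := Finset.mem_sigma.1 hp
    obtain ⟨hp3, hp4⟩ := mem_Bl.1 hp1
    exact h3 R (by omega) D hD1 hD2 V A N S E hB n cl rc hC Tv p.1 hp3 v hp4 p.2 hp2
      fun c hc => hTv c p.1 hp3 v hp4 p.2 hp2 hc
  have e4 : pr (fun w : Fin D → Sp V A k R => ∃ b ∈ Ed N v, ¬ H4 N S E cl rc v b w) ≤
      (Ed N v).card * Real.exp (-(R : ℝ)) :=
    pr_exists_le_card _ _ _ fun b hb =>
      h4 R (by omega) D hD1 hD2 V A N S E hB n cl rc hC v b (mem_Ed.1 hb)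
  have hsig : ((Bl S v).sigma fun s => E s).card ≤ D := by
    rw [Finset.card_sigma]
    exact hnn
  rw [hB.deg v] at e4
  have e5 : pr (fun w : Fin D → Sp V A k R => ¬ Good N S E cl rc Ev Tv v w) ≤
      pr (fun w : Fin D → Sp V A k R => ¬ H1 S E cl rc v w ∨
        ((∃ s ∈ Bl S v, ¬ H2 N E rc Ev s w) ∨
        ((∃ p ∈ (Bl S v).sigma fun s => E s, ¬ H3 E rc Tv p.1 v p.2 w) ∨
          ∃ b ∈ Ed N v, ¬ H4 N S E cl rc v b w))) := by
    refine pr_mono fun w hw => ?_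
    by_contra hcon
    push Not at hcon
    obtain ⟨g1, g2, g3, g4⟩ := hcon
    exact hw ⟨g1, g2, fun s hs a ha => g3 ⟨s, a⟩ (Finset.mem_sigma.2 ⟨hs, ha⟩),
      fun b hb => g4 b (mem_Ed.2 hb)⟩
  have hexp : 0 < Real.exp (-(R : ℝ)) := Real.exp_pos _
  have hDr : (1 : ℝ) ≤ D := by exact_mod_cast hD
  have f2 : ((Bl S v).card : ℝ) * Real.exp (-(R : ℝ)) ≤ D * Real.exp (-(R : ℝ)) :=
    mul_le_mul_of_nonneg_right (by exact_mod_cast hBl) hexp.le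
  have f3 : (((Bl S v).sigma fun s => E s).card : ℝ) * Real.exp (-(R : ℝ)) ≤
      D * Real.exp (-(R : ℝ)) :=
    mul_le_mul_of_nonneg_right (by exact_mod_cast hsig) hexp.le
  have f1 : Real.exp (-(R : ℝ)) ≤ D * Real.exp (-(R : ℝ)) := le_mul_of_one_le_left hexp.le hDr
  have e6 := pr_or_le (fun w : Fin D → Sp V A k R => ¬ H1 S E cl rc v w)
    (fun w => (∃ s ∈ Bl S v, ¬ H2 N E rc Ev s w) ∨
        ((∃ p ∈ (Bl S v).sigma fun s => E s, ¬ H3 E rc Tv p.1 v p.2 w) ∨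
          ∃ b ∈ Ed N v, ¬ H4 N S E cl rc v b w))
  have e7 := pr_or_le (fun w : Fin D → Sp V A k R => ∃ s ∈ Bl S v, ¬ H2 N E rc Ev s w)
    (fun w => (∃ p ∈ (Bl S v).sigma fun s => E s, ¬ H3 E rc Tv p.1 v p.2 w) ∨
          ∃ b ∈ Ed N v, ¬ H4 N S E cl rc v b w)
  have e8 := pr_or_le (fun w : Fin D → Sp V A k R => ∃ p ∈ (Bl S v).sigma fun s => E s,
      ¬ H3 E rc Tv p.1 v p.2 w) (fun w => ∃ b ∈ Ed N v, ¬ H4 N S E cl rc v b w)
  linarith

end Pool.Agent.MP_61eeb2_co.EX
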