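import Pool.Agent.Lib.MP_61eeb2_co.EX.Def
import Pool.Agent.Lib.MP_61eeb2_co.EX.R2

/-!
MP_61eeb2_co, exact bound k * D, module R4: dependence on local values (7 short lemmas).

PROOF. sites I Z = inl of the items of I touching Z, and inr of the vertices of Z. If w ∈ Z and x
∈ At I w then x ∈ Touch I Z, so ω and ω' have the same value at inl x: lab, rk agree. So the image
sets in the definition of ta agree (Set.image_congr), and the filtered sets in sg agree. cand: the
value at inr w. Op I ω v s for v ∈ Z, s ⊆ Z: all of cand v, sg v, cand w, ta w (w ∈ s), ta v and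
rk x for x ∈ At I v agree. Adm similarly (N b ⊆ Z). LEv_dep: for x ∈ X ⊆ I with x.1 nonempty, x
touches ZZ X; the items y ∈ Touch I (ZZ X) are in Touch; w ∈ ZZ X; st ω w is the value at inr w.
-/

set_option autoImplicit false

namespace Pool.Agent.MP_61eeb2_co.EX

open Finset Classical

section

variable {V A : Type} [Fintype V] [Fintype A] {k R : ℕ}

private theorem inl_mem {I : Finset (Item V A)} {Z : Finset V} {x : Item V A}
    (hx : x ∈ Touch I Z) : (Sum.inl x : Site V A) ∈ sites I Z := by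
  unfold sites
  exact Finset.mem_union_left _ (Finset.mem_image_of_mem _ hx)

private theorem inr_mem {I : Finset (Item V A)} {Z : Finset V} {w : V}
    (hw : w ∈ Z) : (Sum.inr w : Site V A) ∈ sites I Z := by
  unfold sites
  exact Finset.mem_union_right _ (Finset.mem_image_of_mem _ hw)

private theorem rk_lab {I : Finset (Item V A)} {Z : Finset V} {ω ω' : Sp V A k R}
    (h : ∀ i ∈ sites I Z, ω i = ω' i) {x : Item V A} (hx : x ∈ Touch I Z) :
    rk ω x = rk ω' x ∧ lab ω x = lab ω' x := by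
  have h1 : lab ω x = lab ω' x := by
    unfold lab
    rw [h _ (inl_mem hx)]
  refine ⟨?_, h1⟩
  unfold rk
  rw [h1]

private theorem touch_of_at {I : Finset (Item V A)} {Z : Finset V} {x : Item V A} {w : V}
    (hw : w ∈ Z) (hx : x ∈ At I w) : x ∈ Touch I Z := by
  rw [mem_At] at hx
  exact mem_Touch.2 ⟨hx.1, Finset.not_disjoint_iff.2 ⟨w, hx.2, hw⟩⟩

private theorem rk_at {I : Finset (Item V A)} {Z : Finset V} {ω ω' : Sp V A k R}
    (h : ∀ i ∈ sites I Z, ω i = ω' i) {w : V} (hw : w ∈ Z) {x : Item V A}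
    (hx : x ∈ At I w) : rk ω x = rk ω' x :=
  (rk_lab h (touch_of_at hw hx)).1

private theorem symm_agree {I : Finset (Item V A)} {Z : Finset V} {ω ω' : Sp V A k R}
    (h : ∀ i ∈ sites I Z, ω i = ω' i) : ∀ i ∈ sites I Z, ω' i = ω i :=
  fun i hi => (h i hi).symm

theorem agree_ta (I : Finset (Item V A)) (Z : Finset V) (ω ω' : Sp V A k R)
    (h : ∀ i ∈ sites I Z, ω i = ω' i) : ∀ w ∈ Z, ta I ω w = ta I ω' w := by
  intro w hw
  unfold ta
  rw [Set.image_congr (fun x hx => rk_at h hw (Finset.mem_coe.1 hx))]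

theorem agree_sg (I : Finset (Item V A)) (Z : Finset V) (ω ω' : Sp V A k R)
    (h : ∀ i ∈ sites I Z, ω i = ω' i) : ∀ w ∈ Z, sg I ω w = sg I ω' w := by
  intro w hw
  have h1 := agree_ta I Z ω ω' h w hw
  have h2 : flt (At I w) (fun x => rk ω x = ta I ω w) =
      flt (At I w) (fun x => rk ω' x = ta I ω' w) := by
    ext x
    rw [mem_flt, mem_flt]
    constructor
    · rintro ⟨hx, hr⟩
      exact ⟨hx, by rw [← rk_at h hw hx, ← h1]; exact hr⟩
    · rintro ⟨hx, hr⟩
      exact ⟨hx, by rw [rk_at h hw hx, h1]; exact hr⟩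
  unfold sg
  rw [h2]

theorem agree_cand (I : Finset (Item V A)) (Z : Finset V) (ω ω' : Sp V A k R)
    (h : ∀ i ∈ sites I Z, ω i = ω' i) : ∀ w ∈ Z, (cand ω w ↔ cand ω' w) := by
  intro w hw
  unfold cand
  rw [h _ (inr_mem hw)]

theorem agree_rk (I : Finset (Item V A)) (Z : Finset V) (ω ω' : Sp V A k R)
    (h : ∀ i ∈ sites I Z, ω i = ω' i) :
    ∀ x ∈ Touch I Z, rk ω x = rk ω' x ∧ lab ω x = lab ω' x := by
  intro x hx
  exact rk_lab h hx

theorem Op_congr (I : Finset (Item V A)) (Z : Finset V) (ω ω' : Sp V A k R)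
    (h : ∀ i ∈ sites I Z, ω i = ω' i) (v : V) (hv : v ∈ Z) (s : Finset V) (hs : s ⊆ Z) :
    Op I ω v s ↔ Op I ω' v s := by
  have hc := agree_cand I Z ω ω' h
  have hg := agree_sg I Z ω ω' h
  have ht := agree_ta I Z ω ω' h
  have key : ∀ x ∈ At I v, (x.1 = s ∧ ∀ w ∈ s, ta I ω w = ta I ω v ∨ ta I ω w = rk ω x) ↔
      (x.1 = s ∧ ∀ w ∈ s, ta I ω' w = ta I ω' v ∨ ta I ω' w = rk ω' x) := by
    intro x hx
    refine and_congr Iff.rfl (forall_congr' fun w => forall_congr' fun hw => ?_)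
    rw [ht w (hs hw), ht v hv, rk_at h hv hx]
  have key2 : (∀ w ∈ s, ¬ cand ω w) ↔ ∀ w ∈ s, ¬ cand ω' w :=
    forall_congr' fun w => forall_congr' fun hw => not_congr (hc w (hs hw))
  unfold Op
  rw [hg v hv]
  refine and_congr (not_congr (hc v hv)) (or_congr Iff.rfl (and_congr key2 ?_))
  exact exists_congr fun x => and_congr_right fun hx => key x hx

theorem Adm_congr (N : A → Finset V) (I : Finset (Item V A)) (Z : Finset V)
    (ω ω' : Sp V A k R) (h : ∀ i ∈ sites I Z, ω i = ω' i) (v : V) (hv : v ∈ Z) (b : A)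
    (hb : N b ⊆ Z) : Adm N I ω v b ↔ Adm N I ω' v b := by
  have hc := agree_cand I Z ω ω' h
  have hg := agree_sg I Z ω ω' h
  have ht := agree_ta I Z ω ω' h
  unfold Adm
  refine and_congr (hc v hv) (forall_congr' fun u => forall_congr' fun hu =>
    forall_congr' fun _ => ?_)
  rw [ht u (hb hu), ht v hv, hg u (hb hu), hc u (hb hu)]

theorem LEv_dep (I X : Finset (Item V A)) (hX : X ⊆ I) (hne : ∀ x ∈ X, x.1.Nonempty)
    (ix : Item V A → ℕ) (ψ : V → Fin k) :
    DepOn (sites I (ZZ X)) (LEv (R := R) I X ix ψ) := by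
  rintro ω ω' h ⟨⟨h1, h2⟩, h3⟩
  have hX2 : ∀ x ∈ X, x ∈ Touch I (ZZ X) := by
    intro x hx
    obtain ⟨w, hw⟩ := hne x hx
    exact mem_Touch.2 ⟨hX hx, Finset.not_disjoint_iff.2
      ⟨w, hw, Finset.mem_biUnion.2 ⟨x, hx, hw⟩⟩⟩
  refine ⟨⟨fun x hx => ?_, fun y hy hyX => ?_⟩, fun w hw => ⟨?_, ?_⟩⟩
  · rw [← (agree_rk I (ZZ X) ω ω' h x (hX2 x hx)).2]
    exact h1 x hx
  · rw [← (agree_rk I (ZZ X) ω ω' h y hy).2]
    exact h2 y hy hyX
  · exact fun hn => (h3 w hw).1 ((agree_cand I (ZZ X) ω ω' h w hw).2 hn)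
  · have h4 : st ω w = st ω' w := by
      unfold st
      rw [h _ (inr_mem hw)]
    rw [← h4]
    exact (h3 w hw).2

end

end Pool.Agent.MP_61eeb2_co.EX
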