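import Pool.Agent.Lib.MP_61eeb2_co.EX.Def
import Pool.Agent.Lib.MP_61eeb2_co.EX.R4
import Pool.Agent.Lib.MP_61eeb2_co.EX.Bal

/-!
MP_61eeb2_co, exact bound k * D, module Llc: everything at v is local.

PROOF. Let Z = ball N 2 v. For every I ⊆ itm S E, in particular I = cI c, sites I Z' ⊆ sites (itm
S E) Z if Z' ⊆ Z. Every vertex is in N a for some a (D >= 1). s ∈ Bl S v, a ∈ E s: s ⊆ N a, v ∈ N
a, so s ⊆ ball 1 v ⊆ Z (mem_ball_one, ball_mono). (Blocks s with E s empty cannot occur: sig, D >=
1.) H1: sg v, Op v s for s ∈ Bl: agree_sg, Op_congr. H2: for a ∈ X ⊆ E s: U = N a \ s has card <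
k, ZZ (U.image ch) ⊆ ball 2 v (u ∈ N a ⊆ ball 1 v, the block of ch u is contained in some N a' and
contains u), so Ev (rc j) U i (w j) ↔ Ev ... (w' j) by hEv (both directions, DepOn is symmetric):
the sets Mi are equal. H3: hTv. H4: N b ⊆ ball 1 v, Adm_congr. So each set of rounds is the same
for w and w' (ext, mem_flt).
-/

set_option autoImplicit false

namespace Pool.Agent.MP_61eeb2_co.EX

open Finset Classical

section

variable {V A : Type} [Fintype V] [Fintype A] {k R D n : ℕ}

private theorem llc_sites_sub {I J : Finset (Item V A)} (hIJ : I ⊆ J) {Z Z' : Finset V}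
    (hZ : Z' ⊆ Z) : sites I Z' ⊆ sites J Z := by
  unfold sites
  refine Finset.union_subset_union (Finset.image_subset_image ?_)
    (Finset.image_subset_image hZ)
  intro x hx
  rw [mem_Touch] at hx ⊢
  exact ⟨hIJ hx.1, fun hd => hx.2 (Finset.disjoint_of_subset_right hZ hd)⟩

private theorem llc_cI_sub (S : Finset (Finset V)) (E : Finset V → Finset A)
    (cl : Item V A → Fin n) (c : Fin n) : cI S E cl c ⊆ itm S E := by
  intro x hx
  rw [mem_cI] at hx
  rw [mem_itm]
  exact hx.1

private theorem llc_flt_congr {α : Type*} {s : Finset α} {p q : α → Prop}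
    (h : ∀ a ∈ s, (p a ↔ q a)) : flt s p = flt s q := by
  ext a
  rw [mem_flt, mem_flt]
  exact and_congr_right fun ha => h a ha

private theorem llc_dep_iff {ι κ : Type*} {I : Finset ι} {P : (ι → κ) → Prop}
    (hP : DepOn I P) {x y : ι → κ} (h : ∀ i ∈ I, x i = y i) : P x ↔ P y :=
  ⟨hP x y h, hP y x fun i hi => (h i hi).symm⟩

theorem good_congr (hD : 1 ≤ D) (N : A → Finset V) (S : Finset (Finset V))
    (E : Finset V → Finset A) (hB : Blk k D R N S E) (cl : Item V A → Fin n)
    (rc : Fin D → Fin n) (ch : Fin n → V → Item V A) (hch : ∀ c u, ch c u ∈ At (cI S E cl c) u)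
    (Ev : Fin n → Finset V → Fin k → Sp V A k R → Prop)
    (hEv : ∀ c U i, U.card < k → DepOn (sites (cI S E cl c) (ZZ (U.image (ch c)))) (Ev c U i))
    (Tv : Fin n → Finset V → V → A → Sp V A k R → Prop)
    (hTv : ∀ c, ∀ s ∈ S, ∀ v ∈ s, ∀ a ∈ E s,
      DepOn (sites (itm S E) (ball N 2 v)) (Tv c s v a))
    (v : V) (w w' : Fin D → Sp V A k R)
    (h : ∀ j, ∀ i ∈ sites (itm S E) (ball N 2 v), w j i = w' j i)
    (hG : Good N S E cl rc Ev Tv v w) : Good N S E cl rc Ev Tv v w' := by
  have hEd : ∀ u, (Ed N u).Nonempty := fun u => by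
    rw [← Finset.card_pos, hB.deg u]
    exact hD
  have h12 : ball N 1 v ⊆ ball N 2 v := ball_mono N hEd 1 2 (by norm_num) v
  have hv1 : v ∈ ball N 1 v := by
    obtain ⟨a, ha⟩ := hEd v
    exact mem_ball_one N v v a (mem_Ed.mp ha) (mem_Ed.mp ha)
  have hv2 : v ∈ ball N 2 v := h12 hv1
  have hne : ∀ s ∈ S, (E s).Nonempty := by
    intro s hs
    rw [← Finset.card_pos]
    by_contra h0
    have h1 := hB.sig s hs
    have h2 : (E s).card = 0 := by omega
    rw [h2, Nat.zero_mul] at h1
    omega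
  have hNb : ∀ b, v ∈ N b → N b ⊆ ball N 1 v := fun b hb u hu =>
    mem_ball_one N u v b hu hb
  have hs1 : ∀ s ∈ Bl S v, s ⊆ ball N 1 v := by
    intro s hs
    rw [mem_Bl] at hs
    obtain ⟨a, ha⟩ := hne s hs.1
    have hsub := hB.sub s hs.1 a ha
    exact hsub.trans (hNb a (hsub hs.2))
  have hag : ∀ j, ∀ i ∈ sites (cI S E cl (rc j)) (ball N 2 v), w j i = w' j i :=
    fun j i hi => h j i (llc_sites_sub (llc_cI_sub S E cl (rc j))
      (Finset.Subset.refl _) hi)
  obtain ⟨g1, g2, g3, g4⟩ := hG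
  refine ⟨?_, ?_, ?_, ?_⟩
  · -- H1
    intro U hU hnU
    have e1 : flt univ (fun j => sg (cI S E cl (rc j)) (w j) v ∈ U ∧
          ∀ s ∈ Bl S v, s ∉ U → ¬ Op (cI S E cl (rc j)) (w j) v s) =
        flt univ (fun j => sg (cI S E cl (rc j)) (w' j) v ∈ U ∧
          ∀ s ∈ Bl S v, s ∉ U → ¬ Op (cI S E cl (rc j)) (w' j) v s) := by
      refine llc_flt_congr fun j _ => ?_
      rw [agree_sg _ _ _ _ (hag j) v hv2]
      refine and_congr Iff.rfl (forall_congr' fun s => forall_congr' fun hs =>
        forall_congr' fun _ => not_congr ?_)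
      exact Op_congr _ _ _ _ (hag j) v hv2 s ((hs1 s hs).trans h12)
    have e2 : flt univ (fun j => ∃ s ∈ U, Op (cI S E cl (rc j)) (w j) v s) =
        flt univ (fun j => ∃ s ∈ U, Op (cI S E cl (rc j)) (w' j) v s) := by
      refine llc_flt_congr fun j _ => exists_congr fun s => and_congr_right fun hs => ?_
      exact Op_congr _ _ _ _ (hag j) v hv2 s ((hs1 s (hU hs)).trans h12)
    rw [← e1, ← e2]
    exact g1 U hU hnU
  · -- H2
    intro s hs X hX hXc
    have hsS := (mem_Bl.mp hs).1
    have hvs := (mem_Bl.mp hs).2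
    have e : Mi N rc Ev s X w = Mi N rc Ev s X w' := by
      unfold Mi
      refine llc_flt_congr fun j _ => exists_congr fun i => forall_congr' fun a =>
        forall_congr' fun ha => not_congr ?_
      have hsub := hB.sub s hsS a (hX ha)
      have hva : v ∈ N a := hsub hvs
      have hcard : (N a \ s).card < k := by
        have hss : N a \ s ⊂ N a := by
          refine Finset.sdiff_ssubset hsub (hB.ne s hsS)
        exact lt_of_lt_of_le (Finset.card_lt_card hss) (hB.cardN a)
      have hZ : ZZ ((N a \ s).image (ch (rc j))) ⊆ ball N 2 v := by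
        intro y hy
        unfold ZZ at hy
        rw [Finset.mem_biUnion] at hy
        obtain ⟨x, hx, hyx⟩ := hy
        rw [Finset.mem_image] at hx
        obtain ⟨u, hu, rfl⟩ := hx
        have huN : u ∈ N a := (Finset.mem_sdiff.mp hu).1
        have hc := hch (rc j) u
        rw [mem_At, mem_cI] at hc
        have hsub2 := hB.sub _ hc.1.1.1 _ hc.1.1.2
        have hyu : y ∈ ball N 1 u := mem_ball_one N y u _ (hsub2 hyx) (hsub2 hc.2)
        exact ball_trans N 1 1 u v y (hNb a hva huN) hyu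
      exact llc_dep_iff (hEv (rc j) (N a \ s) i hcard) fun i' hi' => h j i'
        (llc_sites_sub (llc_cI_sub S E cl (rc j)) hZ hi')
    rw [← e]
    exact g2 s hs X hX hXc
  · -- H3
    intro s hs a ha
    have e : flt univ (fun j => Tv (rc j) s v a (w j)) =
        flt univ (fun j => Tv (rc j) s v a (w' j)) := by
      refine llc_flt_congr fun j _ => ?_
      exact llc_dep_iff (hTv (rc j) s (mem_Bl.mp hs).1 v (mem_Bl.mp hs).2 a ha) (h j)
    unfold H3
    rw [← e]
    exact g3 s hs a ha
  · -- H4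
    intro b hb
    have e : flt univ (fun j => Adm N (cI S E cl (rc j)) (w j) v b) =
        flt univ (fun j => Adm N (cI S E cl (rc j)) (w' j) v b) := by
      refine llc_flt_congr fun j _ => ?_
      exact Adm_congr N _ _ _ _ (hag j) v hv2 b ((hNb b hb).trans h12)
    unfold H4
    rw [← e]
    exact g4 b hb

end

end Pool.Agent.MP_61eeb2_co.EX
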