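import Pool.Agent.Lib.MP_61eeb2_co.EX.Def
import Pool.Agent.Lib.MP_61eeb2_co.EX.Llb
import Pool.Agent.Lib.MP_61eeb2_co.EX.Llc
import Pool.Agent.Lib.MP_61eeb2_co.EX.Dep
import Pool.Agent.Lib.MP_61eeb2_co.EX.P4

/-!
MP_61eeb2_co, exact bound k * D, module Lla: the local lemma for all rounds.

PROOF. Apply lll (LLL.lean) with ι = Site V A, κ = Fin D → Val k R (nonempty as k, R >= 1), E = V,
vbl v = sites (itm S E) (ball N 2 v), bad v ω = not Good N S E cl rc Ev Tv v (fun j i => ω i j), p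
= 4 D exp(-R), d = (k D)^5 (dep_count with r = 2; convert filter and flt with flt_eq_filter).
hdep: good_congr (contrapositive). hp: pr_swap (P4) turns pr (bad v) into the pr of pr_bad;
cnt_le_of_pr_le. Needed: p <= 1/4 and 4 p (k D)^5 <= 1: D <= R^(2QQ), so 16 k^5 R^(12 QQ) <= exp R
for R large (exp_big in Def.lean). The result ω gives w j i := ω i j.
-/

set_option autoImplicit false

namespace Pool.Agent.MP_61eeb2_co.EX

open Finset Classical

private theorem Lla_inst {Ω : Type*} (a b : Fintype Ω) (P : Ω → Prop) :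
    @pr Ω a P = @pr Ω b P := by
  rw [Subsingleton.elim a b]

private theorem Lla_num (k R D q : ℕ) (hk1 : 1 ≤ k) (hD : 1 ≤ D) (hD2 : D ≤ R ^ (2 * q))
    (h3 : 16 * (k : ℝ) ^ 5 * (R : ℝ) ^ (12 * q) ≤ Real.exp (R : ℝ)) :
    4 * (4 * D * Real.exp (-(R : ℝ))) * (((k * D) ^ 5 : ℕ) : ℝ) ≤ 1 ∧
      4 * D * Real.exp (-(R : ℝ)) ≤ 1 / 4 := by
  have hexp : 0 < Real.exp (-(R : ℝ)) := Real.exp_pos _
  have hkey : 4 * (4 * D * Real.exp (-(R : ℝ))) * (((k * D) ^ 5 : ℕ) : ℝ) ≤ 1 := by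
    have h4 : (D : ℝ) ^ 6 ≤ (R : ℝ) ^ (12 * q) := by
      have h5 : D ^ 6 ≤ (R ^ (2 * q)) ^ 6 := Nat.pow_le_pow_left hD2 6
      rw [← pow_mul] at h5
      have h6 : 2 * q * 6 = 12 * q := by ring
      rw [h6] at h5
      exact_mod_cast h5
    have h5 : 16 * (k : ℝ) ^ 5 * (D : ℝ) ^ 6 ≤ Real.exp (R : ℝ) :=
      le_trans (mul_le_mul_of_nonneg_left h4 (by positivity)) h3
    have h6 : Real.exp (R : ℝ) * Real.exp (-(R : ℝ)) = 1 := by
      rw [← Real.exp_add, add_neg_cancel, Real.exp_zero]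
    have h7 : 4 * (4 * D * Real.exp (-(R : ℝ))) * (((k * D) ^ 5 : ℕ) : ℝ) =
        (16 * (k : ℝ) ^ 5 * (D : ℝ) ^ 6) * Real.exp (-(R : ℝ)) := by
      push_cast
      ring
    rw [h7, ← h6]
    exact mul_le_mul_of_nonneg_right h5 hexp.le
  refine ⟨hkey, ?_⟩
  have h3 : (1 : ℝ) ≤ (((k * D) ^ 5 : ℕ) : ℝ) := by
    have h4 : 1 ≤ (k * D) ^ 5 := Nat.one_le_pow _ _ (Nat.mul_pos (by omega) (by omega))
    exact_mod_cast h4
  have h4 : 4 * (4 * D * Real.exp (-(R : ℝ))) * 1 ≤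
      4 * (4 * D * Real.exp (-(R : ℝ))) * (((k * D) ^ 5 : ℕ) : ℝ) :=
    mul_le_mul_of_nonneg_left h3 (by positivity)
  linarith

section

variable {V A : Type} [Fintype V] [Fintype A] {k R D n : ℕ}

private theorem Lla_pr (hne : Nonempty (Val k R)) (P : (Fin D → Sp V A k R) → Prop) (p : ℝ)
    (h : pr P ≤ p) :
    cnt (fun ω : Site V A → (Fin D → Val k R) => P (fun j i => ω i j)) ≤
      p * cnt (fun _ : Site V A → (Fin D → Val k R) => True) := by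
  refine cnt_le_of_pr_le _ _ ?_
  have h3 := pr_swap P
  exact (Lla_inst _ _ _).le.trans (h3.le.trans ((Lla_inst _ _ _).le.trans h))

end

theorem main_lll (k : ℕ) (hk1 : 1 ≤ k) : ∃ R₀ : ℕ, ∀ R ≥ R₀, ∀ D, R ^ QQ k ≤ D →
    D ≤ R ^ (2 * QQ k) → ∀ (V A : Type) [Fintype V] [Fintype A] (N : A → Finset V)
      (S : Finset (Finset V)) (E : Finset V → Finset A), Blk k D R N S E →
    ∀ (n : ℕ) (cl : Item V A → Fin n) (rc : Fin D → Fin n), Cls k D R N S E n cl rc →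
    ∀ (ch : Fin n → V → Item V A), (∀ c u, ch c u ∈ At (cI S E cl c) u) →
    ∀ Ev : Fin n → Finset V → Fin k → Sp V A k R → Prop,
    (∀ c U i, U.card < k → DepOn (sites (cI S E cl c) (ZZ (U.image (ch c)))) (Ev c U i) ∧
      1 / (R : ℝ) ^ (6 * k) ≤ pr (Ev c U i)) →
    ∀ Tv : Fin n → Finset V → V → A → Sp V A k R → Prop,
    (∀ c, ∀ s ∈ S, ∀ v ∈ s, ∀ a ∈ E s,
      DepOn (sites (itm S E) (ball N 2 v)) (Tv c s v a) ∧
      ((∃ x ∈ cI S E cl c, x.1 = s) → 1 / (R : ℝ) ^ (6 * k + 1) ≤ pr (Tv c s v a))) →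
    ∃ w : Fin D → Sp V A k R, ∀ v, Good N S E cl rc Ev Tv v w := by
  obtain ⟨R1, h1⟩ := pr_bad k hk1
  obtain ⟨R2, h2⟩ := exp_big 1 one_pos (16 * (k : ℝ) ^ 5) (12 * QQ k)
  refine ⟨R1 + R2 + 1, ?_⟩
  intro R hR D hD1 hD2 V A _ _ N S E hB n cl rc hC ch hch Ev hEv Tv hTv
  have hD : 1 ≤ D := le_trans (Nat.one_le_pow _ _ (by omega)) hD1
  have hne : Nonempty (Val k R) :=
    ⟨(⟨0, Nat.pow_pos (by omega)⟩, ⟨0, by omega⟩, ⟨0, by omega⟩)⟩
  have h3 := h2 R (by omega)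
  rw [one_mul] at h3
  obtain ⟨hkey, hp4⟩ := Lla_num k R D (QQ k) hk1 hD hD2 h3
  have hp0 : 0 ≤ 4 * D * Real.exp (-(R : ℝ)) := by positivity
  have hdep : ∀ (e : V) (ω ω' : Site V A → (Fin D → Val k R)),
      (∀ i ∈ sites (itm S E) (ball N 2 e), ω i = ω' i) →
      ¬ Good N S E cl rc Ev Tv e (fun j i => ω i j) →
      ¬ Good N S E cl rc Ev Tv e (fun j i => ω' i j) := by
    intro e ω ω' h3 h4 h5
    refine h4 (good_congr hD N S E hB cl rc ch hch Ev (fun c U i hU => (hEv c U i hU).1) Tv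
      (fun c s hs v hv a ha => (hTv c s hs v hv a ha).1) e _ _ ?_ h5)
    intro j i hi
    exact (congrFun (h3 i hi) j).symm
  have hpr : ∀ e : V, cnt (fun ω : Site V A → (Fin D → Val k R) =>
      ¬ Good N S E cl rc Ev Tv e (fun j i => ω i j)) ≤
        4 * D * Real.exp (-(R : ℝ)) * cnt (fun _ : Site V A → (Fin D → Val k R) => True) :=
    fun e => Lla_pr hne (fun w => ¬ Good N S E cl rc Ev Tv e w) _
      (h1 R (by omega) D hD1 hD2 V A N S E hB n cl rc hC ch hch Ev hEv Tv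
        (fun c s hs v hv a ha => (hTv c s hs v hv a ha).2) e)
  obtain ⟨ω, hω⟩ := lll (ι := Site V A) (κ := Fin D → Val k R) (E := V)
    (fun v => sites (itm S E) (ball N 2 v))
    (fun v ω => ¬ Good N S E cl rc Ev Tv v (fun j i => ω i j)) hdep _ ((k * D) ^ 5) hp0 hp4
    hpr (fun e => by
      rw [← flt_eq_filter]
      exact dep_count k D hD N S E R hB 2 e) hkey
  exact ⟨fun j i => ω i j, fun v => by_contra fun h3 => hω v h3⟩

end Pool.Agent.MP_61eeb2_co.EX
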