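import Pool.Agent.Lib.MP_61eeb2_co.EX.Def

/-!
MP_61eeb2_co, exact bound k * D, module Hal: the counting condition of the marriage theorem
(abstract).

PROOF. Write n(U) for the sum over s ∈ U of |E s|. Let X ⊆ union of the E s, X_s = X ∩ E s, so |X|
= sum over s ∈ B of |X_s| (disjointness). Put T = {s ∈ B : |E s| <= |X_s| Θ}, T' = B \ T (there
|X_s| < |E s|/Θ). NX = the set on the right side. Case 1: 2 n(T) <= D. (i) NX ⊇ {j ∈ J : some s ∈
T with op j s} minus the union over s ∈ T of {j ∈ J : miss j s X_s} (h1), so by h3, h2: |NX| >=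
(1+d) n(T) - (d/2) n(T) = (1 + d/2) n(T). (ii) for s ∈ T' with X_s ≠ ∅ pick a ∈ X_s: the rounds j
∈ J with mn j = s and good a j are in NX and disjoint for different s, so |NX| >= κ n(T''), T'' =
{s ∈ T' : X_s ≠ ∅} (h5). And |X| <= n(T) + n(T'')/Θ. If n(T'')/Θ <= (d/2) n(T): (i). Otherwise
n(T) < (2/d) n(T'')/Θ and |X| <= (2/d + 1) n(T'')/Θ <= κ n(T'') (hdκ) <= |NX|. Case 2: 2 n(T) > D.
U = B \ T has n(U) = n(B) - n(T) <= D - n(T), so 2 n(U) <= D. If j ∈ J is not in NX then either no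
s ∈ T has op j s (j is in the set of h4 for U) or some s ∈ T has op j s, and then miss j s X_s by
h1. So |J \ NX| <= (1-d) n(U) + sum over s ∈ T of |E s \ X_s| (h4, h2). |J| - |X| = sum over s ∈ B
of (|E s| - |X_s|) >= sum_{T} |E s \ X_s| + (1 - 1/Θ) n(U), and 1/Θ <= d since hdκ and κ <= 1 give
2/d <= Θ. So |J \ NX| <= |J| - |X|, i.e. |X| <= |NX|.
-/

set_option autoImplicit false

namespace Pool.Agent.MP_61eeb2_co.EX

open Finset Classical

theorem hall_abs {α β ρ : Type*} (B : Finset β) (E : β → Finset α) (J : Finset ρ)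
    (good : α → ρ → Prop) (op : ρ → β → Prop) (mn : ρ → β) (miss : ρ → β → Finset α → Prop)
    (d κ : ℝ) (Θ D : ℕ) (hd0 : 0 < d) (hd1 : d ≤ 1) (hκ0 : 0 < κ) (hκ1 : κ ≤ 1) (hΘ : 1 ≤ Θ)
    (hdκ : 2 / d + 1 ≤ κ * Θ)
    (hdis : ∀ s ∈ B, ∀ t ∈ B, s ≠ t → Disjoint (E s) (E t))
    (hJ : J.card = ∑ s ∈ B, (E s).card) (hD : ∑ s ∈ B, (E s).card ≤ D)
    (h1 : ∀ j ∈ J, ∀ s ∈ B, op j s → ∀ X, X ⊆ E s → ¬ miss j s X → ∃ a ∈ X, good a j)
    (h2 : ∀ s ∈ B, ∀ X, X ⊆ E s → (E s).card ≤ X.card * Θ →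
      (flt J (fun j => miss j s X)).card ≤ (E s \ X).card ∧
      ((flt J (fun j => miss j s X)).card : ℝ) ≤ d / 2 * (E s).card)
    (h3 : ∀ U, U ⊆ B → 2 * ∑ s ∈ U, (E s).card ≤ D →
      (1 + d) * (∑ s ∈ U, (E s).card : ℕ) ≤ ((flt J (fun j => ∃ s ∈ U, op j s)).card : ℝ))
    (h4 : ∀ U, U ⊆ B → 2 * ∑ s ∈ U, (E s).card ≤ D →
      ((flt J (fun j => ∀ s ∈ B, s ∉ U → ¬ op j s)).card : ℝ) ≤
        (1 - d) * (∑ s ∈ U, (E s).card : ℕ))
    (h5 : ∀ s ∈ B, ∀ a ∈ E s,
      κ * (E s).card ≤ ((flt J (fun j => mn j = s ∧ good a j)).card : ℝ)) :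
    ∀ X, X ⊆ B.biUnion E → X.card ≤ (flt J (fun j => ∃ a ∈ X, good a j)).card := by
  intro X hX
  obtain ⟨NX, hNX⟩ : ∃ NX, NX = flt J (fun j => ∃ a ∈ X, good a j) := ⟨_, rfl⟩
  rw [← hNX]
  have hXs : ∀ s, X ∩ E s ⊆ E s := fun s => inter_subset_right
  have hA : X.card = ∑ s ∈ B, (X ∩ E s).card := by
    rw [← Finset.card_biUnion]
    · congr 1
      ext a
      simp only [mem_biUnion, mem_inter]
      constructor
      · intro ha
        obtain ⟨s, hs, has⟩ := mem_biUnion.1 (hX ha)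
        exact ⟨s, hs, ha, has⟩
      · rintro ⟨s, -, ha, -⟩
        exact ha
    · intro s hs t ht hst
      exact (hdis s hs t ht hst).mono (hXs s) (hXs t)
  obtain ⟨T, hT⟩ : ∃ T : Finset β, ∀ s, s ∈ T ↔ s ∈ B ∧ (E s).card ≤ (X ∩ E s).card * Θ :=
    ⟨B.filter fun s => (E s).card ≤ (X ∩ E s).card * Θ, fun s => Finset.mem_filter⟩
  have hTB : T ⊆ B := fun s hs => ((hT s).1 hs).1
  have hU : ∀ s ∈ B \ T, (X ∩ E s).card * Θ < (E s).card := by
    intro s hs
    rw [mem_sdiff, hT] at hs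
    by_contra hc
    exact hs.2 ⟨hs.1, not_lt.1 hc⟩
  have hΘ0 : (0 : ℝ) < Θ := by exact_mod_cast hΘ
  obtain ⟨nT, hnT⟩ : ∃ n : ℕ, n = ∑ s ∈ T, (E s).card := ⟨_, rfl⟩
  obtain ⟨nU, hnU⟩ : ∃ n : ℕ, n = ∑ s ∈ B \ T, (E s).card := ⟨_, rfl⟩
  have hnB : nU + nT = ∑ s ∈ B, (E s).card := by
    rw [hnT, hnU]
    exact Finset.sum_sdiff hTB
  have hXB : ∑ s ∈ B \ T, (X ∩ E s).card + ∑ s ∈ T, (X ∩ E s).card = X.card := by
    rw [hA]
    exact Finset.sum_sdiff hTB
  have hgood : ∀ j ∈ J, ∀ s ∈ T, op j s → ¬ miss j s (X ∩ E s) → j ∈ NX := by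
    intro j hj s hs hop hm
    obtain ⟨a, ha, hg⟩ := h1 j hj s (hTB hs) hop (X ∩ E s) (hXs s) hm
    rw [hNX, mem_flt]
    exact ⟨hj, a, (mem_inter.1 ha).1, hg⟩
  by_cases hc : 2 * nT ≤ D
  · have hi : (1 + d / 2) * (nT : ℝ) ≤ NX.card := by
      have e1 := h3 T hTB (by rw [← hnT]; exact hc)
      rw [← hnT] at e1
      have e2 : flt J (fun j => ∃ s ∈ T, op j s) ⊆
          NX ∪ T.biUnion (fun s => flt J (fun j => miss j s (X ∩ E s))) := by
        intro j hj
        obtain ⟨hj, s, hs, hop⟩ := mem_flt.1 hj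
        by_cases hm : miss j s (X ∩ E s)
        · exact mem_union_right _ (mem_biUnion.2 ⟨s, hs, mem_flt.2 ⟨hj, hm⟩⟩)
        · exact mem_union_left _ (hgood j hj s hs hop hm)
      have e3 : ((flt J (fun j => ∃ s ∈ T, op j s)).card : ℝ) ≤
          NX.card + ((T.biUnion (fun s => flt J (fun j => miss j s (X ∩ E s)))).card : ℝ) := by
        exact_mod_cast (card_le_card e2).trans (card_union_le _ _)
      have e4 : ((T.biUnion (fun s => flt J (fun j => miss j s (X ∩ E s)))).card : ℝ) ≤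
          d / 2 * nT := by
        calc ((T.biUnion (fun s => flt J (fun j => miss j s (X ∩ E s)))).card : ℝ)
            ≤ ((∑ s ∈ T, (flt J (fun j => miss j s (X ∩ E s))).card : ℕ) : ℝ) := by
              exact_mod_cast card_biUnion_le
          _ = ∑ s ∈ T, ((flt J (fun j => miss j s (X ∩ E s))).card : ℝ) := by push_cast; rfl
          _ ≤ ∑ s ∈ T, d / 2 * ((E s).card : ℝ) := Finset.sum_le_sum fun s hs =>
              (h2 s (hTB hs) _ (hXs s) ((hT s).1 hs).2).2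
          _ = d / 2 * nT := by
              rw [← Finset.mul_sum, hnT]
              push_cast
              rfl
      linarith
    obtain ⟨T2, hT2⟩ : ∃ T2 : Finset β, ∀ s, s ∈ T2 ↔ s ∈ B \ T ∧ (X ∩ E s).Nonempty :=
      ⟨(B \ T).filter fun s => (X ∩ E s).Nonempty, fun s => Finset.mem_filter⟩
    have hT2B : T2 ⊆ B \ T := fun s hs => ((hT2 s).1 hs).1
    obtain ⟨n2, hn2⟩ : ∃ n : ℕ, n = ∑ s ∈ T2, (E s).card := ⟨_, rfl⟩
    have hii : κ * (n2 : ℝ) ≤ NX.card := by
      have hch : ∀ s ∈ T2, ∃ a, a ∈ X ∩ E s := fun s hs => ((hT2 s).1 hs).2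
      rcases T2.eq_empty_or_nonempty with h0 | ⟨s0, hs0⟩
      · rw [hn2, h0]
        simp
      have hne : Nonempty α := ⟨(hch s0 hs0).choose⟩
      choose! a ha using hch
      have e1 : T2.biUnion (fun s => flt J (fun j => mn j = s ∧ good (a s) j)) ⊆ NX := by
        intro j hj
        obtain ⟨s, hs, hj⟩ := mem_biUnion.1 hj
        obtain ⟨hj, -, hg⟩ := mem_flt.1 hj
        rw [hNX, mem_flt]
        exact ⟨hj, a s, (mem_inter.1 (ha s hs)).1, hg⟩
      have e2 : (T2.biUnion (fun s => flt J (fun j => mn j = s ∧ good (a s) j))).card =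
          ∑ s ∈ T2, (flt J (fun j => mn j = s ∧ good (a s) j)).card := by
        refine Finset.card_biUnion fun s _ t _ hst => ?_
        show Disjoint (flt J (fun j => mn j = s ∧ good (a s) j))
          (flt J (fun j => mn j = t ∧ good (a t) j))
        rw [Finset.disjoint_left]
        intro j hj hj'
        exact hst ((mem_flt.1 hj).2.1.symm.trans (mem_flt.1 hj').2.1)
      calc κ * (n2 : ℝ) = ∑ s ∈ T2, κ * ((E s).card : ℝ) := by
            rw [← Finset.mul_sum, hn2]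
            push_cast
            rfl
        _ ≤ ∑ s ∈ T2, ((flt J (fun j => mn j = s ∧ good (a s) j)).card : ℝ) :=
            Finset.sum_le_sum fun s hs => h5 s (mem_sdiff.1 (hT2B hs)).1 (a s)
              (mem_inter.1 (ha s hs)).2
        _ = ((T2.biUnion (fun s => flt J (fun j => mn j = s ∧ good (a s) j))).card : ℝ) := by
            rw [e2]
            push_cast
            rfl
        _ ≤ NX.card := by exact_mod_cast card_le_card e1
    have hX1 : ∑ s ∈ T, (X ∩ E s).card ≤ nT := by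
      rw [hnT]
      exact Finset.sum_le_sum fun s _ => card_le_card (hXs s)
    have hX2 : ∑ s ∈ B \ T, (X ∩ E s).card = ∑ s ∈ T2, (X ∩ E s).card := by
      refine (Finset.sum_subset hT2B fun s hs hs2 => ?_).symm
      rw [Finset.card_eq_zero, ← Finset.not_nonempty_iff_eq_empty]
      exact fun hne => hs2 ((hT2 s).2 ⟨hs, hne⟩)
    have hX3 : (∑ s ∈ T2, (X ∩ E s).card) * Θ ≤ n2 := by
      rw [hn2, Finset.sum_mul]
      exact Finset.sum_le_sum fun s hs => (hU s (hT2B hs)).le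
    have hX4 : (X.card : ℝ) ≤ nT + n2 / Θ := by
      have e1 : ((∑ s ∈ T2, (X ∩ E s).card : ℕ) : ℝ) ≤ n2 / Θ := by
        rw [le_div_iff₀ hΘ0]
        exact_mod_cast hX3
      have e2 : ((∑ s ∈ T, (X ∩ E s).card : ℕ) : ℝ) ≤ nT := by exact_mod_cast hX1
      rw [← hXB, hX2]
      push_cast at e1 e2 ⊢
      linarith
    have hfin : (X.card : ℝ) ≤ NX.card := by
      by_cases hd : (n2 : ℝ) / Θ ≤ d / 2 * nT
      · linarith
      · push Not at hd
        have e1 : (nT : ℝ) < 2 / d * (n2 / Θ) := by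
          have e2 : 2 / d * (d / 2 * (nT : ℝ)) = nT := by field_simp
          rw [← e2]
          exact mul_lt_mul_of_pos_left hd (by positivity)
        have e2 : (2 / d + 1) * ((n2 : ℝ) / Θ) ≤ κ * n2 := by
          have e3 : (0 : ℝ) ≤ n2 / Θ := by positivity
          have e4 : κ * (Θ : ℝ) * ((n2 : ℝ) / Θ) = κ * n2 := by field_simp
          rw [← e4]
          exact mul_le_mul_of_nonneg_right hdκ e3
        nlinarith
    exact_mod_cast hfin
  · have hnU2 : 2 * nU ≤ D := by omega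
    have e1 : flt J (fun j => ¬ ∃ a ∈ X, good a j) ⊆
        flt J (fun j => ∀ s ∈ B, s ∉ B \ T → ¬ op j s) ∪
          T.biUnion (fun s => flt J (fun j => miss j s (X ∩ E s))) := by
      intro j hj
      obtain ⟨hj, hng⟩ := mem_flt.1 hj
      by_cases hop : ∀ s ∈ B, s ∉ B \ T → ¬ op j s
      · exact mem_union_left _ (mem_flt.2 ⟨hj, hop⟩)
      · push Not at hop
        obtain ⟨s, hs, hsU, hop⟩ := hop
        have hsT : s ∈ T := by
          by_contra hsT
          exact hsU (mem_sdiff.2 ⟨hs, hsT⟩)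
        refine mem_union_right _ (mem_biUnion.2 ⟨s, hsT, mem_flt.2 ⟨hj, ?_⟩⟩)
        by_contra hm
        have e2 := hgood j hj s hsT hop hm
        rw [hNX, mem_flt] at e2
        exact hng e2.2
    have e2 : ((flt J (fun j => ¬ ∃ a ∈ X, good a j)).card : ℝ) ≤
        (1 - d) * nU + ∑ s ∈ T, (((E s) \ (X ∩ E s)).card : ℝ) := by
      have e3 := h4 (B \ T) sdiff_subset (by rw [← hnU]; exact hnU2)
      rw [← hnU] at e3
      have e4 : ((T.biUnion (fun s => flt J (fun j => miss j s (X ∩ E s)))).card : ℝ) ≤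
          ∑ s ∈ T, (((E s) \ (X ∩ E s)).card : ℝ) := by
        calc ((T.biUnion (fun s => flt J (fun j => miss j s (X ∩ E s)))).card : ℝ)
            ≤ ((∑ s ∈ T, (flt J (fun j => miss j s (X ∩ E s))).card : ℕ) : ℝ) := by
              exact_mod_cast card_biUnion_le
          _ = ∑ s ∈ T, ((flt J (fun j => miss j s (X ∩ E s))).card : ℝ) := by push_cast; rfl
          _ ≤ _ := Finset.sum_le_sum fun s hs => by
              exact_mod_cast (h2 s (hTB hs) _ (hXs s) ((hT s).1 hs).2).1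
      have e5 : ((flt J (fun j => ¬ ∃ a ∈ X, good a j)).card : ℝ) ≤
          ((flt J (fun j => ∀ s ∈ B, s ∉ B \ T → ¬ op j s)).card : ℝ) +
          ((T.biUnion (fun s => flt J (fun j => miss j s (X ∩ E s)))).card : ℝ) := by
        exact_mod_cast (card_le_card e1).trans (card_union_le _ _)
      linarith
    have e3 : ∀ s, (((E s) \ (X ∩ E s)).card : ℝ) = (E s).card - (X ∩ E s).card := by
      intro s
      rw [Finset.card_sdiff_of_subset (hXs s), Nat.cast_sub (card_le_card (hXs s))]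
    have e4 : (∑ s ∈ B \ T, ((X ∩ E s).card : ℝ)) ≤ nU / Θ := by
      rw [le_div_iff₀ hΘ0, hnU, Finset.sum_mul]
      push_cast
      exact Finset.sum_le_sum fun s hs => by exact_mod_cast (hU s hs).le
    have e5 : (nU : ℝ) / Θ ≤ d * nU := by
      have e6 : 2 / d ≤ Θ := by
        have : κ * (Θ : ℝ) ≤ 1 * Θ := mul_le_mul_of_nonneg_right hκ1 hΘ0.le
        linarith
      rw [div_le_iff₀ hd0] at e6
      rw [div_le_iff₀ hΘ0]
      have e7 : (0 : ℝ) ≤ nU := Nat.cast_nonneg _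
      nlinarith
    have e6 := flt_card_add J (fun j => ∃ a ∈ X, good a j)
    rw [← hNX] at e6
    have e7 : (NX.card : ℝ) + ((flt J (fun j => ¬ ∃ a ∈ X, good a j)).card : ℝ) = J.card := by
      exact_mod_cast e6
    have e8 : (J.card : ℝ) = nU + nT := by
      rw [hJ, ← hnB]
      push_cast
      rfl
    have e9 : ∑ s ∈ T, (((E s) \ (X ∩ E s)).card : ℝ) =
        nT - ∑ s ∈ T, ((X ∩ E s).card : ℝ) := by
      rw [Finset.sum_congr rfl fun s _ => e3 s, Finset.sum_sub_distrib, hnT]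
      push_cast
      rfl
    have e10 : (X.card : ℝ) = ∑ s ∈ B \ T, ((X ∩ E s).card : ℝ) +
        ∑ s ∈ T, ((X ∩ E s).card : ℝ) := by
      rw [← hXB]
      push_cast
      rfl
    have hfin : (X.card : ℝ) ≤ NX.card := by
      rw [e9] at e2
      have e11 : (0 : ℝ) ≤ nU := Nat.cast_nonneg _
      nlinarith
    exact_mod_cast hfin

end Pool.Agent.MP_61eeb2_co.EX
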