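import Pool.Agent.Lib.MP_61eeb2_co.EX.Def

/-!
MP_61eeb2_co, exact bound k * D, module R1: the greedy process.

PROOF. pick_not_mem: if s ∉ F then pick = s; otherwise some i ∉ F exists (|F| < k = card (Fin k))
and pick = h.choose. exists_proc: recursion on ρ v (strong recursion for the well founded relation
InvImage (<) ρ): e.g. WellFounded.fix (measure ρ).wf or prove by induction on n the existence of
φ_n satisfying the equation for all v with ρ v < n and agreeing ...; with WellFounded.fix: φ v =
pick (start v) ((flt (T v) (ρ u < ρ v)).attach.image (fun u => rec u.1 ...)) and fix_eq. proc_fix: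
strong induction on ρ w for w ∈ Z: φ w = pick (start w) (image φ of {u ∈ T w, ρ u < ρ w}); these u
are in Z (hcl) and φ u = ψ u by induction, ψ u ≠ ψ w = start w (u ≠ w because ρ u < ρ w), so start
w is not in the image and φ w = start w = ψ w by pick_eq.
-/

set_option autoImplicit false

namespace Pool.Agent.MP_61eeb2_co.EX

open Finset Classical

theorem pick_not_mem {k : ℕ} (s : Fin k) (F : Finset (Fin k)) (h : F.card < k) :
    pick s F ∉ F := by
  unfold pick
  by_cases h1 : s ∉ F
  · rw [if_pos h1]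
    exact h1
  · rw [if_neg h1]
    by_cases h2 : ∃ i, i ∉ F
    · rw [dif_pos h2]
      exact h2.choose_spec
    · exfalso
      push Not at h2
      have h3 : F = univ := eq_univ_of_forall h2
      rw [h3, card_univ, Fintype.card_fin] at h
      omega

theorem pick_eq {k : ℕ} (s : Fin k) (F : Finset (Fin k)) (h : s ∉ F) : pick s F = s := by
  unfold pick
  rw [if_pos h]

theorem exists_proc {V : Type} {k : ℕ} (T : V → Finset V) (ρ : V → ℕ) (start : V → Fin k) :
    ∃ φ, IsProc T ρ start φ := by
  obtain ⟨F, hF⟩ : ∃ F : (v : V) → ((u : V) → ρ u < ρ v → Fin k) → Fin k, ∀ v g,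
      F v g = pick (start v) ((flt (T v) (fun u => ρ u < ρ v)).attach.image
        (fun u => g u.1 (mem_flt (p := fun u => ρ u < ρ v).1 u.2).2)) :=
    ⟨fun v g => pick (start v) ((flt (T v) (fun u => ρ u < ρ v)).attach.image
      (fun u => g u.1 (mem_flt (p := fun u => ρ u < ρ v).1 u.2).2)), fun _ _ => rfl⟩
  obtain ⟨φ, hφ⟩ : ∃ φ : V → Fin k, ∀ v, φ v = F v (fun u _ => φ u) :=
    ⟨(measure ρ).wf.fix (C := fun _ => Fin k) F, fun v => (measure ρ).wf.fix_eq F v⟩
  refine ⟨φ, fun v => ?_⟩
  have h := hφ v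
  rw [hF] at h
  have h2 : (flt (T v) (fun u => ρ u < ρ v)).attach.image (fun u => φ u.1) =
      (flt (T v) (fun u => ρ u < ρ v)).image φ := by
    ext x
    simp only [mem_image, mem_attach, true_and, Subtype.exists, exists_prop]
  rw [h2] at h
  exact h

theorem proc_fix {V : Type} {k : ℕ} (T : V → Finset V) (ρ : V → ℕ) (start φ : V → Fin k)
    (h : IsProc T ρ start φ) (Z : Finset V) (ψ : V → Fin k) (hst : ∀ w ∈ Z, start w = ψ w)
    (hcl : ∀ w ∈ Z, T w ⊆ Z) (hv : ∀ w ∈ Z, ∀ u ∈ T w, u ≠ w → ψ u ≠ ψ w) :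
    ∀ w ∈ Z, φ w = ψ w := by
  have key : ∀ n, ∀ w ∈ Z, ρ w = n → φ w = ψ w := by
    intro n
    induction n using Nat.strong_induction_on with
    | _ n ih =>
      intro w hw hn
      rw [h w, pick_eq]
      · exact hst w hw
      · intro hmem
        obtain ⟨u, hu, hu'⟩ := mem_image.1 hmem
        obtain ⟨hu1, hu2⟩ := mem_flt.1 hu
        have h3 : φ u = ψ u := ih (ρ u) (by omega) u (hcl w hw hu1) rfl
        have h4 : u ≠ w := by
          rintro rfl
          exact lt_irrefl _ hu2
        apply hv w hw u hu1 h4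
        rw [← h3, hu', hst w hw]
  intro w hw
  exact key (ρ w) w hw rfl

end Pool.Agent.MP_61eeb2_co.EX
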