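import Pool.Agent.Lib.MP_61eeb2_co.EX.Def
import Pool.Agent.Lib.MP_61eeb2_co.EX.R1
import Pool.Agent.Lib.MP_61eeb2_co.EX.R2

/-!
MP_61eeb2_co, exact bound k * D, module R3: uniqueness in the top block.

PROOF. Run says φ v = pick (st ω v) (image of φ on {u ∈ TT v, rho u < rho v}). Here TT v = sg v if
srv v = none and N b if srv v = some b. (0) If the number of u ∈ TT v with u ≠ v is < k then φ v ∉
that image (pick_not_mem), so φ u ≠ φ v for all u ∈ TT v with rho u < rho v. This applies if |TT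
v| <= k and v ∈ TT v: for sg v (= x.1 for an item x ∈ I, top_exists; contains v, mem_sg) and for N
b (v ∈ N b is part of Run). uniq_a: w ∈ sg v, w ≠ v. If rho w < rho v: (0) for v. Otherwise rho v
< rho w (rho_inj). ta w <= ta v (ta_le_of_mem_sg). If ta w < ta v then rho w < rho v
(rho_lt_of_ta_lt), contradiction. So ta w = ta v, sg w = sg v ∋ v. If srv w ≠ none then rho w <
rho v (rho_lt_of_srv), contradiction; so srv w = none, TT w = sg w ∋ v, (0) for w: φ v ≠ φ w.
uniq_b: u ∈ N b, u ≠ v. Adm: not cand u, so srv u = none (Run: srv u = some b' gives cand u). If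
ta u < ta v then rho u < rho v and (0) for v. Otherwise v ∈ sg u: uniq_a for u gives φ v ≠ φ u.
uniq_c: Op gives not cand v, so srv v = none. If sg v = s: uniq_a. Otherwise x ∈ At I v, x.1 = s;
w ∈ s, w ≠ v, srv w = none (not cand w). If ta w = ta v: sg w = sg v (sg_eq_of_ta_eq), w ∈ sg w =
sg v (mem_sg), uniq_a. If ta w = rk x: the top item of w is x (top_exists, rk_inj), so sg w = x.1
= s ∋ v; uniq_a for w (srv w = none) and v ∈ sg w, v ≠ w gives φ v ≠ φ w.
-/

set_option autoImplicit false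

namespace Pool.Agent.MP_61eeb2_co.EX

open Finset Classical

section

variable {V A : Type} [Fintype V] [Fintype A] {k R : ℕ}

private theorem r3_base (N : A → Finset V) (I : Finset (Item V A)) (ω : Sp V A k R)
    (srv : V → Option A) (φ : V → Fin k) (hrun : Run N I ω srv φ) (v : V)
    (hcard : (TT N I ω srv v).card ≤ k) (hmem : v ∈ TT N I ω srv v) :
    ∀ u ∈ TT N I ω srv v, rho I ω srv u < rho I ω srv v → φ u ≠ φ v := by
  intro u hu hlt heq
  have h1 := hrun.2 v
  have hF : ((flt (TT N I ω srv v) (fun u => rho I ω srv u < rho I ω srv v)).image φ).card < k := by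
    refine lt_of_le_of_lt card_image_le ?_
    refine lt_of_lt_of_le ?_ hcard
    refine card_lt_card ((ssubset_iff_of_subset (flt_sub _ _)).2 ⟨v, hmem, fun h => ?_⟩)
    exact lt_irrefl _ (mem_flt.1 h).2
  have h2 := pick_not_mem (st ω v) _ hF
  rw [← h1] at h2
  apply h2
  rw [← heq]
  exact mem_image_of_mem φ (mem_flt.2 ⟨hu, hlt⟩)

private theorem r3_TT_none (N : A → Finset V) (I : Finset (Item V A)) (ω : Sp V A k R)
    (srv : V → Option A) (v : V) (hv : srv v = none) : TT N I ω srv v = sg I ω v := by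
  unfold TT
  rw [hv]

private theorem r3_TT_some (N : A → Finset V) (I : Finset (Item V A)) (ω : Sp V A k R)
    (srv : V → Option A) (v : V) (b : A) (hv : srv v = some b) : TT N I ω srv v = N b := by
  unfold TT
  rw [hv]

private theorem r3_none {N : A → Finset V} {I : Finset (Item V A)} {ω : Sp V A k R}
    {srv : V → Option A} {φ : V → Fin k} (hrun : Run N I ω srv φ) {v : V} (h : ¬ cand ω v) :
    srv v = none := by
  cases hb : srv v with
  | none => rfl
  | some b => exact absurd (hrun.1 v b hb).1 h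

private theorem r3_sg_card {I : Finset (Item V A)} (hI : ∀ v, (At I v).Nonempty)
    (hIk : ∀ x ∈ I, x.1.card ≤ k) (ω : Sp V A k R) (v : V) : (sg I ω v).card ≤ k := by
  obtain ⟨x, hx, -, hsg⟩ := top_exists I ω v (hI v)
  rw [hsg]
  exact hIk x (mem_At.1 hx).1

theorem uniq_a (N : A → Finset V) (I : Finset (Item V A)) (hI : ∀ v, (At I v).Nonempty)
    (hIk : ∀ x ∈ I, x.1.card ≤ k) (ω : Sp V A k R) (srv : V → Option A) (φ : V → Fin k)
    (hrun : Run N I ω srv φ) (v : V) (hv : srv v = none) :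
    ∀ w ∈ sg I ω v, w ≠ v → φ w ≠ φ v := by
  intro w hw hne
  have hTv := r3_TT_none N I ω srv v hv
  rcases lt_trichotomy (rho I ω srv w) (rho I ω srv v) with h | h | h
  · refine r3_base N I ω srv φ hrun v ?_ ?_ w ?_ h
    · rw [hTv]
      exact r3_sg_card hI hIk ω v
    · rw [hTv]
      exact mem_sg I ω v (hI v)
    · rw [hTv]
      exact hw
  · exact absurd (rho_inj I ω srv w v h) hne
  · rcases lt_or_eq_of_le (ta_le_of_mem_sg I ω v w hw) with h1 | h1
    · exact absurd (rho_lt_of_ta_lt I ω srv w v h1) (not_lt.2 h.le)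
    have h2 := sg_eq_of_ta_eq I hI ω w v h1
    by_cases h3 : srv w = none
    · have hTw := r3_TT_none N I ω srv w h3
      refine (r3_base N I ω srv φ hrun w ?_ ?_ v ?_ h).symm
      · rw [hTw]
        exact r3_sg_card hI hIk ω w
      · rw [hTw]
        exact mem_sg I ω w (hI w)
      · rw [hTw, h2]
        exact mem_sg I ω v (hI v)
    · exact absurd (rho_lt_of_srv I ω srv w v h1 h3 hv) (not_lt.2 h.le)

theorem uniq_b (N : A → Finset V) (hN : ∀ a, (N a).card ≤ k) (I : Finset (Item V A))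
    (hI : ∀ v, (At I v).Nonempty)
    (hIk : ∀ x ∈ I, x.1.card ≤ k) (ω : Sp V A k R) (srv : V → Option A) (φ : V → Fin k)
    (hrun : Run N I ω srv φ) (v : V) (b : A) (hv : srv v = some b) (hadm : Adm N I ω v b) :
    ∀ u ∈ N b, u ≠ v → φ u ≠ φ v := by
  intro u hu hne
  obtain ⟨h1, h2⟩ := hadm.2 u hu hne
  have hu0 := r3_none hrun h1
  have hTv := r3_TT_some N I ω srv v b hv
  rcases h2 with h2 | h2
  · refine r3_base N I ω srv φ hrun v ?_ ?_ u ?_ (rho_lt_of_ta_lt I ω srv u v h2)
    · rw [hTv]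
      exact hN b
    · rw [hTv]
      exact (hrun.1 v b hv).2
    · rw [hTv]
      exact hu
  · exact (uniq_a N I hI hIk ω srv φ hrun u hu0 v h2 (Ne.symm hne)).symm

theorem uniq_c (N : A → Finset V) (I : Finset (Item V A)) (hI : ∀ v, (At I v).Nonempty)
    (hIk : ∀ x ∈ I, x.1.card ≤ k) (ω : Sp V A k R) (srv : V → Option A) (φ : V → Fin k)
    (hrun : Run N I ω srv φ) (v : V) (s : Finset V) (hs : v ∈ s) (hop : Op I ω v s) :
    ∀ w ∈ s, w ≠ v → φ w ≠ φ v := by
  intro w hw hne
  have hv0 := r3_none hrun hop.1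
  rcases hop.2 with h | ⟨hc, x, hx, hxs, hta⟩
  · exact uniq_a N I hI hIk ω srv φ hrun v hv0 w (by rw [h]; exact hw) hne
  · rcases hta w hw with h1 | h1
    · have h2 := sg_eq_of_ta_eq I hI ω w v h1
      refine uniq_a N I hI hIk ω srv φ hrun v hv0 w ?_ hne
      rw [← h2]
      exact mem_sg I ω w (hI w)
    · have hw0 := r3_none hrun (hc w hw)
      obtain ⟨y, hy, hy1, hy2⟩ := top_exists I ω w (hI w)
      have hyx : y = x := rk_inj ω y x (by rw [hy1, h1])
      refine (uniq_a N I hI hIk ω srv φ hrun w hw0 v ?_ (Ne.symm hne)).symm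
      rw [hy2, hyx, hxs]
      exact hs

end

end Pool.Agent.MP_61eeb2_co.EX
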