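import Pool.Agent.Lib.MP_61eeb2_co.EX.Def
import Pool.Agent.Lib.MP_61eeb2_co.EX.Hal
import Pool.Agent.Lib.MP_61eeb2_co.EX.R3
import Pool.Agent.Lib.MP_61eeb2_co.EX.Bc

/-!
MP_61eeb2_co, exact bound k * D, module Mat: the matching at a vertex (from the counting condition and
the uniqueness in the open blocks).
-/

set_option autoImplicit false

namespace Pool.Agent.MP_61eeb2_co.EX

open Finset Classical

private theorem item_card {V A : Type} [Fintype V] [Fintype A] {k D R : ℕ} {N : A → Finset V}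
    {S : Finset (Finset V)} {E : Finset V → Finset A} (hB : Blk k D R N S E) {n : ℕ}
    (cl : Item V A → Fin n) (c : Fin n) : ∀ x ∈ cI S E cl c, x.1.card ≤ k := by
  intro x hx
  have h1 := (mem_flt.mp (mem_flt.mp hx).1).2
  exact le_trans (card_le_card (hB.sub _ h1.1 _ h1.2)) (hB.cardN _)

private theorem even_ne {V A : Type} [Fintype V] [Fintype A] {k R : ℕ} (hk1 : 1 ≤ k)
    (hR : 1 ≤ R) (I : Finset (Item V A)) (h : Even k R I) (v : V) : (At I v).Nonempty := by
  have h1 := (h v).1
  have hk : (1:ℝ) ≤ (k:ℝ) ^ 2 := by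
    have : (1:ℝ) ≤ k := by exact_mod_cast hk1
    nlinarith
  have h2 : 1 / (200 * (k:ℝ) ^ 2) < 1 := by
    rw [div_lt_one (by positivity)]; linarith
  have hR' : (1:ℝ) ≤ R := by exact_mod_cast hR
  have h3 : (0:ℝ) < (At I v).card := by
    refine lt_of_lt_of_le ?_ h1
    apply mul_pos <;> linarith
  rw [← card_pos]
  exact_mod_cast h3

section det

variable {V A : Type} [Fintype V] [Fintype A] {k R D n : ℕ}

theorem match_v (hk1 : 1 ≤ k) (hR : 120 * k ^ 2 + 1 ≤ R) (N : A → Finset V)
    (S : Finset (Finset V))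
    (E : Finset V → Finset A) (hB : Blk k D R N S E) (cl : Item V A → Fin n)
    (rc : Fin D → Fin n) (hC : Cls k D R N S E n cl rc) (hD : 1 ≤ D)
    (Ev : Fin n → Finset V → Fin k → Sp V A k R → Prop)
    (hEv : ∀ c U i, U.card < k → ∀ ω, Ev c U i ω → ∀ srv φ, Run N (cI S E cl c) ω srv φ →
      ∀ u ∈ U, φ u ≠ i)
    (Tv : Fin n → Finset V → V → A → Sp V A k R → Prop)
    (hTv : ∀ c, ∀ s ∈ S, ∀ v ∈ s, ∀ a ∈ E s, ∀ ω, Tv c s v a ω →
      ¬ cand ω v ∧ sg (cI S E cl c) ω v = s ∧
      ∀ srv φ, Run N (cI S E cl c) ω srv φ → ∀ u ∈ N a \ s, φ u ≠ φ v)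
    (v : V) (w : Fin D → Sp V A k R) (hG : Good N S E cl rc Ev Tv v w)
    (sv : Fin D → V → Option A) (φ : Fin D → V → Fin k)
    (hrun : ∀ j, Run N (cI S E cl (rc j)) (w j) (sv j) (φ j))
    (τ : A → Fin D) (hτ : ∀ b ∈ Neg N S E v, ∀ b' ∈ Neg N S E v, τ b = τ b' → b = b')
    (hτ2 : ∀ b ∈ Neg N S E v, Adm N (cI S E cl (rc (τ b))) (w (τ b)) v b)
    (hsv : ∀ j b, sv j v = some b ↔ b ∈ Neg N S E v ∧ τ b = j) :
    ∃ m : A → Fin D, (∀ a ∈ Ed N v, ∀ a' ∈ Ed N v, m a = m a' → a = a') ∧
      ∀ a ∈ Ed N v, ∀ u ∈ N a, u ≠ v → φ (m a) u ≠ φ (m a) v := by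
  obtain ⟨hH1, hH2, hH3, hH4⟩ := hG
  have hR1 : 1 ≤ R := by omega
  have hne : ∀ c u, (At (cI S E cl c) u).Nonempty := fun c u => even_ne hk1 hR1 _ (hC.even c) u
  have hck := item_card hB cl
  obtain ⟨hBl1, hBl2, hBl3⟩ := Bl_card k D R hD N S E hB v
  set B := Bl S v with hBdef
  set J : Finset (Fin D) := flt univ (fun j => sv j v = none) with hJdef
  set good : A → Fin D → Prop := fun a j => ∀ u ∈ N a, u ≠ v → φ j u ≠ φ j v with hgood
  set op : Fin D → Finset V → Prop := fun j s =>
    sg (cI S E cl (rc j)) (w j) v = s ∨ Op (cI S E cl (rc j)) (w j) v s with hop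
  set mn : Fin D → Finset V := fun j => sg (cI S E cl (rc j)) (w j) v with hmn
  set miss : Fin D → Finset V → Finset A → Prop := fun j s X => j ∈ Mi N rc Ev s X w with hmiss
  have hBS : ∀ s ∈ B, s ∈ S ∧ v ∈ s := fun s hs => mem_flt.mp hs
  have hdis : ∀ s ∈ B, ∀ t ∈ B, s ≠ t → Disjoint (E s) (E t) := by
    intro s hs t ht hst
    apply hB.disj s (hBS s hs).1 t (hBS t ht).1 hst
    rw [not_disjoint_iff]
    exact ⟨v, (hBS s hs).2, (hBS t ht).2⟩
  have hnotcand : ∀ j, ¬ cand (w j) v → j ∈ J := by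
    intro j hj
    rw [hJdef, mem_flt]
    refine ⟨mem_univ _, ?_⟩
    by_contra hcon
    obtain ⟨b, hb⟩ := Option.ne_none_iff_exists'.mp hcon
    exact hj ((hrun j).1 v b hb).1
  have hJ : J.card = ∑ s ∈ B, (E s).card := by
    have h1 : (flt univ (fun j : Fin D => ¬ (sv j v = none))) = (Neg N S E v).image τ := by
      ext j
      rw [mem_flt, mem_image]
      constructor
      · rintro ⟨_, h⟩
        obtain ⟨b, hb⟩ := Option.ne_none_iff_exists'.mp h
        exact ⟨b, (hsv j b).mp hb⟩
      · rintro ⟨b, hb⟩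
        refine ⟨mem_univ _, ?_⟩
        rw [(hsv j b).mpr hb]; simp
    have h2 : ((Neg N S E v).image τ).card = (Neg N S E v).card :=
      card_image_of_injOn (fun b hb b' hb' h => hτ b hb b' hb' h)
    have h3 := flt_card_add (univ : Finset (Fin D)) (fun j => sv j v = none)
    rw [h1, h2, card_univ, Fintype.card_fin] at h3
    have e1 : (Neg N S E v).card = (flt (Ed N v) (fun a => ∀ s ∈ S, v ∈ s → a ∉ E s)).card := rfl
    have e2 : J.card = (flt univ (fun j => sv j v = none)).card := rfl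
    have e3 : nn E B = ∑ s ∈ B, (E s).card := rfl
    omega
  have hunq : ∀ j ∈ J, ∀ s ∈ B, op j s → ∀ u ∈ s, u ≠ v → φ j u ≠ φ j v := by
    intro j hj s hs hops u hu huv
    rcases hops with h | h
    · have := uniq_a N _ (hne (rc j)) (hck (rc j)) (w j) (sv j) (φ j) (hrun j) v
        (mem_flt.mp hj).2
      rw [h] at this
      exact this u hu huv
    · exact uniq_c N _ (hne (rc j)) (hck (rc j)) (w j) (sv j) (φ j) (hrun j) v s
        (hBS s hs).2 h u hu huv
  have hkR : (1:ℝ) ≤ (k:ℝ) ^ 2 := by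
    have : (1:ℝ) ≤ k := by exact_mod_cast hk1
    nlinarith
  have hRr : (1:ℝ) ≤ R := by exact_mod_cast hR1
  have hk2 : (0:ℝ) < 60 * (k:ℝ) ^ 2 := by positivity
  have hall := hall_abs B E J good op mn miss (1 / (60 * (k:ℝ) ^ 2)) (1 / (R:ℝ) ^ (6 * k + 2))
    (R ^ (6 * k + 3)) D (by positivity) (by rw [div_le_one hk2]; linarith) (by positivity)
    (by rw [div_le_one (by positivity)]; exact one_le_pow₀ hRr)
    (Nat.one_le_pow _ _ hR1)
    (by
      have h1 : (1 / (R:ℝ) ^ (6 * k + 2)) * ((R ^ (6 * k + 3) : ℕ) : ℝ) = R := by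
        push_cast
        rw [pow_succ (R:ℝ) (6 * k + 2)]
        field_simp
      rw [h1]
      have h2 : 2 / (1 / (60 * (k:ℝ) ^ 2)) + 1 = 120 * (k:ℝ) ^ 2 + 1 := by
        field_simp; ring
      rw [h2]
      exact_mod_cast hR)
    hdis hJ (by unfold nn at hBl2; exact hBl2)
    (by
      intro j hj s hs hops X hX hms
      simp only [hmiss, Mi, mem_flt, mem_univ, true_and, not_exists, not_forall,
        not_not] at hms
      obtain ⟨a, ha, hEva⟩ := hms (φ j v)
      refine ⟨a, ha, ?_⟩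
      intro u hu huv
      by_cases hus : u ∈ s
      · exact hunq j hj s hs hops u hus huv
      · have hsub := hB.sub s (hBS s hs).1 a (hX ha)
        have hUcard : (N a \ s).card < k := by
          have h1 := card_sdiff_add_card_eq_card hsub
          have h2 := (hB.ne s (hBS s hs).1).card_pos
          have h3 := hB.cardN a
          omega
        exact hEv (rc j) (N a \ s) (φ j v) hUcard (w j) hEva (sv j) (φ j) (hrun j) u
          (mem_sdiff.mpr ⟨hu, hus⟩))
    (by
      intro s hs X hX hcard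
      obtain ⟨h1, h2⟩ := hH2 s hs X hX hcard
      have h3 : (flt J (fun j => miss j s X)).card ≤ (Mi N rc Ev s X w).card := by
        apply card_le_card
        intro j hj
        exact (mem_flt.mp hj).2
      refine ⟨le_trans h3 h1, ?_⟩
      have h4 : ((flt J (fun j => miss j s X)).card : ℝ) ≤ (Mi N rc Ev s X w).card := by
        exact_mod_cast h3
      refine le_trans h4 ?_
      have h5 : 4 * (R:ℝ) ^ (6 * k + 2) * ((Mi N rc Ev s X w).card : ℝ) ≤ (E s).card := by
        exact_mod_cast h2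
      have h6 : (R:ℝ) ≤ (R:ℝ) ^ (6 * k + 2) := by
        calc (R:ℝ) = (R:ℝ) ^ 1 := (pow_one _).symm
          _ ≤ _ := pow_le_pow_right₀ hRr (by omega)
      have h7 : (120:ℝ) * (k:ℝ) ^ 2 + 1 ≤ R := by exact_mod_cast hR
      rw [show (1 / (60 * (k:ℝ) ^ 2)) / 2 * ((E s).card : ℝ)
        = ((E s).card : ℝ) / (120 * (k:ℝ) ^ 2) from by field_simp; ring]
      rw [le_div_iff₀ (by positivity)]
      have h8 : (0:ℝ) ≤ ((Mi N rc Ev s X w).card : ℝ) := Nat.cast_nonneg _
      nlinarith)
    (by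
      intro U hU hUD
      have h1 := (hH1 U hU (by unfold nn; exact hUD)).2
      unfold nn at h1
      refine le_trans h1 ?_
      have : (flt univ (fun j => ∃ s ∈ U, Op (cI S E cl (rc j)) (w j) v s)).card
          ≤ (flt J (fun j => ∃ s ∈ U, op j s)).card := by
        apply card_le_card
        intro j hj
        obtain ⟨s, hs, hOp⟩ := (mem_flt.mp hj).2
        rw [mem_flt]
        exact ⟨hnotcand j hOp.1, s, hs, Or.inr hOp⟩
      exact_mod_cast this)
    (by
      intro U hU hUD
      have h1 := (hH1 U hU (by unfold nn; exact hUD)).1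
      unfold nn at h1
      refine le_trans ?_ h1
      have : (flt J (fun j => ∀ s ∈ B, s ∉ U → ¬ op j s)).card ≤
          (flt univ (fun j => sg (cI S E cl (rc j)) (w j) v ∈ U ∧
            ∀ s ∈ Bl S v, s ∉ U → ¬ Op (cI S E cl (rc j)) (w j) v s)).card := by
        apply card_le_card
        intro j hj
        have hj2 := (mem_flt.mp hj).2
        rw [mem_flt]
        refine ⟨mem_univ _, ?_, fun s hs hsU hOp => hj2 s hs hsU (Or.inr hOp)⟩
        by_contra hcon
        obtain ⟨x, hx, hx1, hx2⟩ := top_exists (cI S E cl (rc j)) (w j) v (hne (rc j) v)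
        have hxm := mem_flt.mp hx
        have hxS := (mem_flt.mp (mem_flt.mp hxm.1).1).2.1
        have hsB : sg (cI S E cl (rc j)) (w j) v ∈ B := by
          rw [hx2, hBdef]
          unfold Bl
          rw [mem_flt]
          exact ⟨hxS, hxm.2⟩
        exact hj2 _ hsB hcon (Or.inl rfl)
      exact_mod_cast this)
    (by
      intro s hs a ha
      have h1 := hH3 s hs a ha
      unfold H3 at h1
      have h2 : ((E s).card : ℝ) ≤ (R:ℝ) ^ (6 * k + 2) *
          ((flt univ (fun j => Tv (rc j) s v a (w j))).card : ℝ) := by exact_mod_cast h1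
      have h3 : (flt univ (fun j => Tv (rc j) s v a (w j))).card ≤
          (flt J (fun j => mn j = s ∧ good a j)).card := by
        apply card_le_card
        intro j hj
        have hj2 := (mem_flt.mp hj).2
        obtain ⟨t1, t2, t3⟩ := hTv (rc j) s (hBS s hs).1 v (hBS s hs).2 a ha (w j) hj2
        have hjJ := hnotcand j t1
        rw [mem_flt]
        refine ⟨hjJ, t2, ?_⟩
        intro u hu huv
        by_cases hus : u ∈ s
        · exact hunq j hjJ s hs (Or.inl t2) u hus huv
        · exact t3 (sv j) (φ j) (hrun j) u (mem_sdiff.mpr ⟨hu, hus⟩)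
      have h4 : ((flt univ (fun j => Tv (rc j) s v a (w j))).card : ℝ) ≤
          ((flt J (fun j => mn j = s ∧ good a j)).card : ℝ) := by exact_mod_cast h3
      rw [one_div, inv_mul_le_iff₀ (by positivity)]
      refine le_trans h2 ?_
      exact mul_le_mul_of_nonneg_left h4 (by positivity))
  -- Hall's theorem
  set P : Finset A := B.biUnion E with hP
  obtain ⟨f, hfinj, hf⟩ := (Finset.all_card_le_biUnion_card_iff_exists_injective
    (fun a : {a // a ∈ P} => flt J (fun j => good a.1 j))).mp (by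
      intro s
      have h1 := hall (s.image Subtype.val) (by
        intro a ha
        rw [mem_image] at ha
        obtain ⟨b, _, rfl⟩ := ha
        exact b.2)
      rw [card_image_of_injective _ Subtype.val_injective] at h1
      refine le_trans h1 (card_le_card ?_)
      intro j hj
      rw [mem_flt] at hj
      obtain ⟨hj1, a, ha, hga⟩ := hj
      rw [mem_image] at ha
      obtain ⟨b, hb, rfl⟩ := ha
      rw [mem_biUnion]
      exact ⟨b, hb, mem_flt.mpr ⟨hj1, hga⟩⟩)
  refine ⟨fun a => if h : a ∈ P then f ⟨a, h⟩ else τ a, ?_, ?_⟩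
  · intro a ha a' ha' heq
    have hneg : ∀ a ∈ Ed N v, a ∉ P → a ∈ Neg N S E v := by
      intro a ha haP
      unfold Neg
      rw [mem_flt]
      refine ⟨ha, fun s hs hvs haE => haP ?_⟩
      rw [hP, mem_biUnion]
      exact ⟨s, mem_flt.mpr ⟨hs, hvs⟩, haE⟩
    have hcross : ∀ a (h : a ∈ P) a', a' ∈ Neg N S E v → f ⟨a, h⟩ ≠ τ a' := by
      intro a h a' ha' he
      have h1 := (mem_flt.mp (mem_flt.mp (hf ⟨a, h⟩)).1).2
      rw [he, (hsv (τ a') a').mpr ⟨ha', rfl⟩] at h1
      simp at h1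
    by_cases h : a ∈ P <;> by_cases h' : a' ∈ P
    · simp only [h, h', dif_pos] at heq
      have := hfinj heq
      simpa using this
    · simp only [h, h', dif_pos, dif_neg, not_false_eq_true] at heq
      exact absurd heq (hcross a h a' (hneg a' ha' h'))
    · simp only [h, h', dif_pos, dif_neg, not_false_eq_true] at heq
      exact absurd heq.symm (hcross a' h' a (hneg a ha h))
    · simp only [h, h', dif_neg, not_false_eq_true] at heq
      exact hτ a (hneg a ha h) a' (hneg a' ha' h') heq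
  · intro a ha
    by_cases h : a ∈ P
    · simp only [h, dif_pos]
      exact (mem_flt.mp (hf ⟨a, h⟩)).2
    · simp only [h, dif_neg, not_false_eq_true]
      have hneg : a ∈ Neg N S E v := by
        unfold Neg
        rw [mem_flt]
        refine ⟨ha, fun s hs hvs haE => h ?_⟩
        rw [hP, mem_biUnion]
        exact ⟨s, mem_flt.mpr ⟨hs, hvs⟩, haE⟩
      exact uniq_b N hB.cardN _ (hne _) (hck _) (w (τ a)) (sv (τ a)) (φ (τ a)) (hrun (τ a)) v a
        ((hsv (τ a) a).mpr ⟨hneg, rfl⟩) (hτ2 a hneg)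

end det

end Pool.Agent.MP_61eeb2_co.EX
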