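import Pool.Agent.Lib.MP_61eeb2_co.EX.Def

/-!
MP_61eeb2_co, exact bound k * D, module Ser: the serving rounds of a vertex.

PROOF. neg (Blk): |Neg| R^(6k+3) <= D; H4 for b ∈ Neg: D <= R^(6k+3) * (number of the rounds j
with Adm b), so |Neg| <= that number (R >= 1). Hall's theorem
(Finset.all_card_le_biUnion_card_iff_exists_injective) for the family b ↦ flt univ (fun j => Adm N
(cI (rc j)) (w j) v b) indexed by the subtype of Neg: for a nonempty finset s of b's the union has
at least |Neg| >= |s| elements. Extend by any value outside Neg (Fin D is nonempty).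
-/

set_option autoImplicit false

namespace Pool.Agent.MP_61eeb2_co.EX

open Finset Classical

section

variable {V A : Type} [Fintype V] [Fintype A] {k R D n : ℕ}

theorem serve_v (hR : 1 ≤ R) (N : A → Finset V) (S : Finset (Finset V))
    (E : Finset V → Finset A) (hB : Blk k D R N S E) (cl : Item V A → Fin n)
    (rc : Fin D → Fin n) (v : V) (w : Fin D → Sp V A k R) (hD : 1 ≤ D)
    (h4 : ∀ b, v ∈ N b → H4 N S E cl rc v b w) :
    ∃ τ : A → Fin D, (∀ b ∈ Neg N S E v, ∀ b' ∈ Neg N S E v, τ b = τ b' → b = b') ∧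
      ∀ b ∈ Neg N S E v, Adm N (cI S E cl (rc (τ b))) (w (τ b)) v b := by
  have hT : ∀ b ∈ Neg N S E v, (Neg N S E v).card ≤
      (flt univ (fun j => Adm N (cI S E cl (rc j)) (w j) v b)).card := by
    intro b hb
    have h1 : v ∈ N b := mem_Ed.mp (mem_flt.mp hb).1
    have h2 := h4 b h1
    unfold H4 at h2
    have h3 : (Neg N S E v).card * R ^ (6 * k + 3) ≤ D := hB.neg v
    have h5 : 0 < R ^ (6 * k + 3) := Nat.pow_pos hR
    have h6 := h3.trans h2
    rw [Nat.mul_comm] at h6
    exact Nat.le_of_mul_le_mul_left h6 h5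
  obtain ⟨f, hf, hft⟩ := (Finset.all_card_le_biUnion_card_iff_exists_injective
    (fun b : {b // b ∈ Neg N S E v} =>
      flt univ (fun j => Adm N (cI S E cl (rc j)) (w j) v b.1))).mp (by
    intro s
    rcases s.eq_empty_or_nonempty with hs | ⟨b, hb⟩
    · rw [hs, Finset.card_empty]
      exact Nat.zero_le _
    · refine le_trans ?_ (Finset.card_le_card (Finset.subset_biUnion_of_mem
        (fun b : {b // b ∈ Neg N S E v} =>
          flt univ (fun j => Adm N (cI S E cl (rc j)) (w j) v b.1)) hb))
      refine le_trans ?_ (hT b.1 b.2)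
      refine (Finset.card_le_univ s).trans (le_of_eq ?_)
      rw [Fintype.card_coe])
  refine ⟨fun b => if hb : b ∈ Neg N S E v then f ⟨b, hb⟩ else ⟨0, hD⟩, ?_, ?_⟩
  · intro b hb b' hb' h
    simp only [dif_pos hb, dif_pos hb'] at h
    exact congrArg Subtype.val (hf h)
  · intro b hb
    have h1 := hft ⟨b, hb⟩
    simp only [dif_pos hb]
    exact (mem_flt.mp h1).2

end

end Pool.Agent.MP_61eeb2_co.EX
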