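import Pool.Agent.Lib.MP_61eeb2_co.EX.Def
import Pool.Agent.Lib.MP_61eeb2_co.EX.P2
import Pool.Agent.Lib.MP_61eeb2_co.EX.P3

/-!
MP_61eeb2_co, exact bound k * D, module VA: probability of a local event.

PROOF. LEv is a cylinder event (pr_cyl): for x ∈ X the label of inl x is ix x (probability 1/R^6
as ix x < k <= R^6), for y ∈ Touch I (ZZ X), y ∉ X the label is >= k (probability 1 - k/R^6), for
w ∈ ZZ X the flag of inr w is not 0 and the start colour is ψ w (probability (1 - 1/R)/k). If some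
x ∈ X had empty block nothing changes. So with Z = ZZ X, |Z| <= k |X| <= k^2, |Touch I Z| <= sum
over w ∈ Z of |At I w| <= k^2 * 2R: pr >= (1/R^6)^|X| (1 - k/R^6)^(2 k^2 R) ((1 - 1/R)/k)^(k^2) >=
R^(-6|X|) * (1 - 2 k^3 / R^5) * (1 - k^2/R) / k^(k^2) >= R^(-6|X|) / (4 k^(k^2)) >= R^(-6|X| - 1)
for R >= 4 k^(k^2) + 4 k^3 + 2 (Bernoulli: one_sub_mul_le_one_sub_pow or one_add_mul_le_pow). Note
X ⊆ Touch only for items with nonempty block: write the event as: for all i in (X.image inl ∪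
(Touch \ X).image inl ∪ Z.image inr), Q i (ω i).
-/

set_option autoImplicit false

namespace Pool.Agent.MP_61eeb2_co.EX

open Finset Classical

private theorem VA_prod {α β : Type*} [Fintype α] [Fintype β] (P : α → Prop) (Q : β → Prop) :
    pr (fun z : α × β => P z.1 ∧ Q z.2) = pr P * pr Q := by
  unfold pr cnt
  have h1 : {z : α × β | P z.1 ∧ Q z.2} = {a | P a} ×ˢ {b | Q b} := by
    ext z
    simp
  rw [h1, Set.ncard_prod, Fintype.card_prod]
  push_cast
  rw [div_mul_div_comm]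

private theorem VA_single {α : Type*} [Fintype α] (a : α) :
    pr (fun x : α => x = a) = 1 / (Fintype.card α : ℝ) := by
  unfold pr cnt
  rw [show {x : α | x = a} = {a} from rfl, Set.ncard_singleton, Nat.cast_one]

private theorem VA_fin_eq {n c : ℕ} (h : c < n) :
    pr (fun a : Fin n => (a : ℕ) = c) = 1 / (n : ℝ) := by
  have h1 : (fun a : Fin n => (a : ℕ) = c) = fun a : Fin n => a = ⟨c, h⟩ := by
    funext a
    exact propext ⟨fun h2 => Fin.ext h2, fun h2 => by rw [h2]⟩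
  rw [h1, VA_single, Fintype.card_fin]

private theorem VA_fin_le {n : ℕ} (hn : 0 < n) (c : ℕ) :
    1 - (c : ℝ) / n ≤ pr (fun a : Fin n => c ≤ (a : ℕ)) := by
  have : Nonempty (Fin n) := ⟨⟨0, hn⟩⟩
  have h1 : pr (fun a : Fin n => ¬ ∃ j ∈ Finset.range c, (a : ℕ) = j) =
      1 - pr (fun a : Fin n => ∃ j ∈ Finset.range c, (a : ℕ) = j) := pr_not _
  have h2 : pr (fun a : Fin n => ∃ j ∈ Finset.range c, (a : ℕ) = j) ≤
      (Finset.range c).card * (1 / (n : ℝ)) := by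
    apply pr_exists_le_card
    intro j _
    by_cases hj : j < n
    · rw [VA_fin_eq hj]
    · have h3 : pr (fun a : Fin n => (a : ℕ) = j) = 0 := by
        unfold pr cnt
        have h4 : {a : Fin n | (a : ℕ) = j} = ∅ := by
          ext a
          simp only [Set.mem_ofPred_eq, Set.mem_empty_iff_false, iff_false]
          have := a.2
          omega
        rw [h4, Set.ncard_empty, Nat.cast_zero, zero_div]
      rw [h3]
      positivity
  have h3 : pr (fun a : Fin n => ¬ ∃ j ∈ Finset.range c, (a : ℕ) = j) ≤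
      pr (fun a : Fin n => c ≤ (a : ℕ)) := by
    apply pr_mono
    intro a ha
    by_contra hcon
    exact ha ⟨a, Finset.mem_range.mpr (by omega), rfl⟩
  rw [Finset.card_range, mul_one_div] at h2
  linarith

section

variable {V A : Type} [Fintype V] [Fintype A]

/-- the conditions at the sites -/
private noncomputable def VA_Q {k R : ℕ} (X : Finset (Item V A)) (ix : Item V A → ℕ)
    (ψ : V → Fin k) (i : Site V A) (z : Val k R) : Prop :=
  match i with
  | Sum.inl x => if x ∈ X then (z.1 : ℕ) = ix x else k ≤ (z.1 : ℕ)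
  | Sum.inr w => ¬ (z.2.2 : ℕ) = 0 ∧ z.2.1 = ψ w

private theorem VA_Q1 {k R : ℕ} (hk : 0 < k) (hR : 0 < R) (hkR : k ≤ R ^ 6)
    (X : Finset (Item V A)) (ix : Item V A → ℕ) (ψ : V → Fin k) {x : Item V A} (hx : x ∈ X)
    (hix : ix x < k) :
    1 / (R : ℝ) ^ 6 ≤ pr (VA_Q (R := R) X ix ψ (Sum.inl x)) := by
  have : Nonempty (Fin k × Fin R) := ⟨(⟨0, hk⟩, ⟨0, hR⟩)⟩
  have h1 : VA_Q (R := R) X ix ψ (Sum.inl x) =
      fun z : Fin (R ^ 6) × (Fin k × Fin R) => (z.1 : ℕ) = ix x ∧ True := by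
    funext z
    simp only [VA_Q, hx, if_true, and_true]
  rw [h1, VA_prod (fun a : Fin (R ^ 6) => (a : ℕ) = ix x) (fun _ => True), pr_true, mul_one,
    VA_fin_eq (lt_of_lt_of_le hix hkR)]
  push_cast
  exact le_refl _

private theorem VA_Q2 {k R : ℕ} (hk : 0 < k) (hR : 0 < R)
    (X : Finset (Item V A)) (ix : Item V A → ℕ) (ψ : V → Fin k) {x : Item V A} (hx : x ∉ X) :
    1 - (k : ℝ) / (R : ℝ) ^ 6 ≤ pr (VA_Q (R := R) X ix ψ (Sum.inl x)) := by
  have : Nonempty (Fin k × Fin R) := ⟨(⟨0, hk⟩, ⟨0, hR⟩)⟩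
  have h1 : VA_Q (R := R) X ix ψ (Sum.inl x) =
      fun z : Fin (R ^ 6) × (Fin k × Fin R) => k ≤ (z.1 : ℕ) ∧ True := by
    funext z
    simp only [VA_Q, hx, if_false, and_true]
  rw [h1, VA_prod (fun a : Fin (R ^ 6) => k ≤ (a : ℕ)) (fun _ => True), pr_true, mul_one]
  have h2 := VA_fin_le (n := R ^ 6) (by positivity) k
  push_cast at h2
  exact h2

private theorem VA_Q3 {k R : ℕ} (hR : 0 < R)
    (X : Finset (Item V A)) (ix : Item V A → ℕ) (ψ : V → Fin k) (w : V) :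
    (1 / (k : ℝ)) * (1 - 1 / (R : ℝ)) ≤ pr (VA_Q (R := R) X ix ψ (Sum.inr w)) := by
  have : Nonempty (Fin (R ^ 6)) := ⟨⟨0, by positivity⟩⟩
  have h1 : VA_Q (R := R) X ix ψ (Sum.inr w) =
      fun z : Fin (R ^ 6) × (Fin k × Fin R) => True ∧ (z.2.1 = ψ w ∧ 1 ≤ (z.2.2 : ℕ)) := by
    funext z
    simp only [VA_Q, true_and]
    apply propext
    constructor
    · rintro ⟨a, b⟩
      exact ⟨b, by omega⟩
    · rintro ⟨a, b⟩
      exact ⟨by omega, a⟩
  rw [h1, VA_prod (fun _ => True)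
    (fun z : Fin k × Fin R => z.1 = ψ w ∧ 1 ≤ (z.2 : ℕ)), pr_true, one_mul,
    VA_prod (fun a : Fin k => a = ψ w) (fun b : Fin R => 1 ≤ (b : ℕ)), VA_single,
    Fintype.card_fin]
  have h2 := VA_fin_le hR 1
  rw [Nat.cast_one] at h2
  exact mul_le_mul_of_nonneg_left h2 (by positivity)

private theorem VA_mono {k R : ℕ} (I X : Finset (Item V A)) (ix : Item V A → ℕ)
    (ψ : V → Fin k) (ω : Sp V A k R)
    (h : ∀ i ∈ (X.image Sum.inl ∪ (Touch I (ZZ X) \ X).image Sum.inl ∪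
      (ZZ X).image Sum.inr : Finset (Site V A)), VA_Q X ix ψ i (ω i)) : LEv I X ix ψ ω := by
  refine ⟨⟨?_, ?_⟩, ?_⟩
  · intro x hx
    have h1 := h (Sum.inl x) (by
      rw [mem_union, mem_union]
      exact Or.inl (Or.inl (mem_image_of_mem _ hx)))
    simp only [VA_Q, hx, if_true] at h1
    exact h1
  · intro y hy hyX
    have h1 := h (Sum.inl y) (by
      rw [mem_union, mem_union]
      exact Or.inl (Or.inr (mem_image_of_mem _ (mem_sdiff.mpr ⟨hy, hyX⟩))))
    simp only [VA_Q, hyX, if_false] at h1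
    exact h1
  · intro w hw
    have h1 := h (Sum.inr w) (by
      rw [mem_union]
      exact Or.inr (mem_image_of_mem _ hw))
    exact h1

private theorem VA_prod3 (f : Site V A → ℝ) (X T : Finset (Item V A))
    (Z : Finset V) :
    ∏ i ∈ (X.image Sum.inl ∪ (T \ X).image Sum.inl ∪ Z.image Sum.inr : Finset (Site V A)), f i =
      (∏ x ∈ X, f (Sum.inl x)) * (∏ y ∈ T \ X, f (Sum.inl y)) * ∏ w ∈ Z, f (Sum.inr w) := by
  rw [Finset.prod_union, Finset.prod_union, Finset.prod_image, Finset.prod_image,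
    Finset.prod_image]
  · intro a _ b _ h
    exact Sum.inr_injective h
  · intro a _ b _ h
    exact Sum.inl_injective h
  · intro a _ b _ h
    exact Sum.inl_injective h
  · rw [Finset.disjoint_image Sum.inl_injective]
    exact Finset.disjoint_sdiff
  · rw [Finset.disjoint_left]
    intro a ha hb
    rw [mem_union] at ha
    obtain ⟨w, _, rfl⟩ := mem_image.mp hb
    rcases ha with ha | ha
    · obtain ⟨x, _, hx⟩ := mem_image.mp ha
      cases hx
    · obtain ⟨x, _, hx⟩ := mem_image.mp ha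
      cases hx

end

private theorem va_inst {Ω : Type*} (i1 i2 : Fintype Ω) (P : Ω → Prop) :
    @pr Ω i1 P = @pr Ω i2 P := by
  rw [Subsingleton.elim i1 i2]

theorem LEv_pr (k : ℕ) (hk1 : 1 ≤ k) : ∃ R₀ : ℕ, ∀ R ≥ R₀,
    ∀ (V A : Type) [Fintype V] [Fintype A] (I X : Finset (Item V A)) (ix : Item V A → ℕ)
      (ψ : V → Fin k), (∀ x ∈ X, x.1.card ≤ k) → X ⊆ I → X.card ≤ k → (∀ x ∈ X, ix x < k) →
    (∀ v, (At I v).card ≤ 2 * R) →
    1 / (R : ℝ) ^ (6 * X.card + 1) ≤ pr (LEv (R := R) I X ix ψ) := by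
  refine ⟨4 * k ^ (k ^ 2) + 4 * k ^ 3 + 2 * k ^ 2 + 2, ?_⟩
  intro R hR V A _ _ I X ix ψ hXk hXI hXc hix hAt
  have hk0 : (0 : ℝ) < k := by exact_mod_cast hk1
  have hk1' : (1 : ℝ) ≤ k := by exact_mod_cast hk1
  have hRn : (4 * (k : ℝ) ^ (k ^ 2) + 4 * (k : ℝ) ^ 3 + 2 * (k : ℝ) ^ 2 + 2) ≤ (R : ℝ) := by
    exact_mod_cast hR
  have p1 : (0 : ℝ) < (k : ℝ) ^ (k ^ 2) := by positivity
  have p2 : (0 : ℝ) < (k : ℝ) ^ 3 := by positivity
  have p3 : (0 : ℝ) < (k : ℝ) ^ 2 := by positivity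
  have hR1 : (1 : ℝ) ≤ R := by linarith
  have hR0 : (0 : ℝ) < R := by linarith
  have hRpos : 0 < R := by exact_mod_cast hR0
  have hkR : k ≤ R ^ 6 := by
    have h1 : k ≤ k ^ 3 := Nat.le_self_pow (by norm_num) k
    have h2 : R ≤ R ^ 6 := Nat.le_self_pow (by norm_num) R
    omega
  have : Nonempty (Val k R) := ⟨(⟨0, by positivity⟩, ⟨0, by omega⟩, ⟨0, hRpos⟩)⟩
  set Z := ZZ X with hZ
  have hZc : Z.card ≤ k ^ 2 := by
    have h1 : Z.card ≤ X.card * k := Finset.card_biUnion_le_card_mul X _ k hXk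
    calc Z.card ≤ X.card * k := h1
      _ ≤ k * k := Nat.mul_le_mul_right k hXc
      _ = k ^ 2 := by ring
  have hTc : (Touch I Z \ X).card ≤ k ^ 2 * (2 * R) := by
    have h1 : Touch I Z \ X ⊆ Z.biUnion (fun w => At I w) := by
      intro y hy
      obtain ⟨hy1, hy2⟩ := mem_Touch.mp (mem_sdiff.mp hy).1
      obtain ⟨w, hw1, hw2⟩ := Finset.not_disjoint_iff.mp hy2
      exact mem_biUnion.mpr ⟨w, hw2, mem_At.mpr ⟨hy1, hw1⟩⟩
    calc (Touch I Z \ X).card ≤ (Z.biUnion (fun w => At I w)).card := Finset.card_le_card h1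
      _ ≤ Z.card * (2 * R) := Finset.card_biUnion_le_card_mul _ _ _ fun w _ => hAt w
      _ ≤ k ^ 2 * (2 * R) := Nat.mul_le_mul_right _ hZc
  -- the product
  have hmain : ∏ i ∈ (X.image Sum.inl ∪ (Touch I Z \ X).image Sum.inl ∪
      Z.image Sum.inr : Finset (Site V A)), pr (VA_Q (R := R) X ix ψ i) ≤
      pr (LEv (R := R) I X ix ψ) := by
    have h0 := pr_cyl (ι := Site V A) (κ := Val k R) (X.image Sum.inl ∪
      (Touch I Z \ X).image Sum.inl ∪ Z.image Sum.inr) (VA_Q (R := R) X ix ψ)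
    have h1 : pr (fun ω : Sp V A k R => ∀ i ∈ (X.image Sum.inl ∪
        (Touch I Z \ X).image Sum.inl ∪ Z.image Sum.inr : Finset (Site V A)),
        VA_Q (R := R) X ix ψ i (ω i)) = ∏ i ∈ (X.image Sum.inl ∪ (Touch I Z \ X).image Sum.inl ∪
      Z.image Sum.inr : Finset (Site V A)), pr (VA_Q (R := R) X ix ψ i) := by
      exact (va_inst _ _ _).trans h0
    rw [← h1]
    exact pr_mono fun ω h => VA_mono I X ix ψ ω h
  refine le_trans ?_ hmain
  rw [VA_prod3]
  have e1 : (1 / (R : ℝ) ^ 6) ^ X.card ≤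
      ∏ x ∈ X, pr (VA_Q (R := R) X ix ψ (Sum.inl x)) := by
    rw [← Finset.prod_const]
    exact Finset.prod_le_prod (fun _ _ => by positivity) fun x hx =>
      VA_Q1 (by omega) hRpos hkR X ix ψ hx (hix x hx)
  have q0 : (k : ℝ) / (R : ℝ) ^ 6 ≤ 1 := by
    rw [div_le_one (by positivity)]
    exact_mod_cast hkR
  have e2 : (1 : ℝ) / 2 ≤ ∏ y ∈ Touch I Z \ X, pr (VA_Q (R := R) X ix ψ (Sum.inl y)) := by
    have h1 : (1 - (k : ℝ) / (R : ℝ) ^ 6) ^ (Touch I Z \ X).card ≤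
        ∏ y ∈ Touch I Z \ X, pr (VA_Q (R := R) X ix ψ (Sum.inl y)) := by
      rw [← Finset.prod_const]
      exact Finset.prod_le_prod (fun _ _ => by linarith) fun y hy =>
        VA_Q2 (by omega) hRpos X ix ψ (mem_sdiff.mp hy).2
    have h2 := one_add_mul_le_pow (a := -((k : ℝ) / (R : ℝ) ^ 6)) (by linarith)
      (Touch I Z \ X).card
    rw [← sub_eq_add_neg] at h2
    have h3 : ((Touch I Z \ X).card : ℝ) * ((k : ℝ) / (R : ℝ) ^ 6) ≤ 1 / 2 := by
      have h4 : ((Touch I Z \ X).card : ℝ) ≤ (k : ℝ) ^ 2 * (2 * R) := by exact_mod_cast hTc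
      have h5 : (R : ℝ) ≤ (R : ℝ) ^ 5 := le_self_pow₀ hR1 (by norm_num)
      calc ((Touch I Z \ X).card : ℝ) * ((k : ℝ) / (R : ℝ) ^ 6)
          ≤ ((k : ℝ) ^ 2 * (2 * R)) * ((k : ℝ) / (R : ℝ) ^ 6) :=
            mul_le_mul_of_nonneg_right h4 (by positivity)
        _ = (2 * (k : ℝ) ^ 3) / (R : ℝ) ^ 5 := by
            field_simp
        _ ≤ 1 / 2 := by
            rw [div_le_div_iff₀ (by positivity) (by norm_num)]
            linarith
    linarith
  have e3 : 1 / (2 * (k : ℝ) ^ (k ^ 2)) ≤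
      ∏ w ∈ Z, pr (VA_Q (R := R) X ix ψ (Sum.inr w)) := by
    have r1 : 1 / (R : ℝ) ≤ 1 := by
      rw [div_le_one hR0]
      exact hR1
    have h1 : ((1 / (k : ℝ)) * (1 - 1 / (R : ℝ))) ^ Z.card ≤
        ∏ w ∈ Z, pr (VA_Q (R := R) X ix ψ (Sum.inr w)) := by
      rw [← Finset.prod_const]
      exact Finset.prod_le_prod (fun _ _ => mul_nonneg (by positivity) (by linarith)) fun w _ =>
        VA_Q3 hRpos X ix ψ w
    have h2 := one_add_mul_le_pow (a := -(1 / (R : ℝ))) (by linarith) Z.card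
    rw [← sub_eq_add_neg] at h2
    have h3 : (Z.card : ℝ) * (1 / (R : ℝ)) ≤ 1 / 2 := by
      have h4 : (Z.card : ℝ) ≤ (k : ℝ) ^ 2 := by exact_mod_cast hZc
      rw [mul_one_div, div_le_div_iff₀ hR0 (by norm_num)]
      linarith
    have h5 : (1 : ℝ) / 2 ≤ (1 - 1 / (R : ℝ)) ^ Z.card := by linarith
    have h6 : 1 / (k : ℝ) ^ (k ^ 2) ≤ (1 / (k : ℝ)) ^ Z.card := by
      rw [div_pow, one_pow]
      exact one_div_le_one_div_of_le (by positivity) (pow_le_pow_right₀ hk1' hZc)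
    rw [mul_pow] at h1
    refine le_trans ?_ h1
    calc 1 / (2 * (k : ℝ) ^ (k ^ 2)) = 1 / (k : ℝ) ^ (k ^ 2) * (1 / 2) := by
          field_simp
      _ ≤ (1 / (k : ℝ)) ^ Z.card * (1 - 1 / (R : ℝ)) ^ Z.card :=
          mul_le_mul h6 h5 (by norm_num) (by positivity)
  have e4 : 1 / (R : ℝ) ^ (6 * X.card + 1) ≤
      (1 / (R : ℝ) ^ 6) ^ X.card * (1 / 2) * (1 / (2 * (k : ℝ) ^ (k ^ 2))) := by
    have h1 : 1 / (R : ℝ) ^ (6 * X.card + 1) = (1 / (R : ℝ) ^ 6) ^ X.card * (1 / (R : ℝ)) := by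
      rw [pow_succ, pow_mul, div_pow, one_pow, one_div_mul_one_div]
    rw [h1, mul_assoc]
    apply mul_le_mul_of_nonneg_left _ (by positivity)
    rw [one_div_mul_one_div]
    apply one_div_le_one_div_of_le (by positivity)
    linarith
  refine le_trans e4 ?_
  exact mul_le_mul (mul_le_mul e1 e2 (by norm_num) (le_trans (by positivity) e1)) e3
    (by positivity) (mul_nonneg (le_trans (by positivity) e1) (le_trans (by norm_num) e2))

end Pool.Agent.MP_61eeb2_co.EX
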