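import Pool.Agent.Lib.MP_61eeb2_co.EX.Def
import Pool.Agent.Lib.MP_61eeb2_co.EX.R1

/-!
MP_61eeb2_co, exact bound k * D, module VC: a valid pattern exists.

PROOF. For w ∈ ZZ X let x_w be the ix-least x ∈ X with w ∈ x.1; pw X ix w = x_w.1 (the filtered
set is {x_w}, by hinj). Put T w = pw X ix w, ρ w = ix x_w * card V + (equivFin w) for w ∈ ZZ X
(for other w: T w = pw X ix w = ∅, ρ w arbitrary, e.g. the same formula with 0), start arbitrary
(k > 0), ψ from exists_proc. |T w| <= k and w ∈ T w for w ∈ ZZ X, so (pick_not_mem) ψ u ≠ ψ w for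
u ∈ T w, ρ u < ρ w. Now let u ∈ pw w, u ≠ w. ρ u ≠ ρ w (index). If ρ u < ρ w done. Otherwise ρ w <
ρ u, so ix x_w <= ix x_u; but u ∈ x_w.1 gives ix x_u <= ix x_w; so x_u = x_w (hinj), T u = T w ∋
w, and ψ w ≠ ψ u since ρ w < ρ u.
-/

set_option autoImplicit false

namespace Pool.Agent.MP_61eeb2_co.EX

open Finset Classical

section

variable {V A : Type} [Fintype V] [Fintype A] {k R : ℕ}

omit [Fintype V] [Fintype A] in
/-- The set of the least item. -/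
private theorem VC_pw (X : Finset (Item V A)) (ix : Item V A → ℕ)
    (hinj : ∀ x ∈ X, ∀ y ∈ X, ix x = ix y → x = y) (w : V) (hw : w ∈ ZZ X) :
    ∃ x ∈ X, w ∈ x.1 ∧ (∀ y ∈ X, w ∈ y.1 → ix x ≤ ix y) ∧ pw X ix w = x.1 := by
  have hne : (flt X (fun x => w ∈ x.1)).Nonempty := by
    unfold ZZ at hw
    obtain ⟨x, hx, hwx⟩ := Finset.mem_biUnion.1 hw
    exact ⟨x, mem_flt.2 ⟨hx, hwx⟩⟩
  obtain ⟨x, hx, hmin⟩ := Finset.exists_min_image _ ix hne
  rw [mem_flt] at hx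
  have hmin' : ∀ y ∈ X, w ∈ y.1 → ix x ≤ ix y := fun y hy hwy => hmin y (mem_flt.2 ⟨hy, hwy⟩)
  refine ⟨x, hx.1, hx.2, hmin', ?_⟩
  have h1 : flt X (fun x => w ∈ x.1 ∧ ∀ y ∈ X, w ∈ y.1 → ix x ≤ ix y) = {x} := by
    ext y
    rw [mem_flt, Finset.mem_singleton]
    constructor
    · rintro ⟨hy, hwy, hy'⟩
      exact hinj y hy x hx.1 (le_antisymm (hy' x hx.1 hx.2) (hmin' y hy hwy))
    · intro h
      rw [h]
      exact ⟨hx.1, hx.2, hmin'⟩
  unfold pw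
  rw [h1, Finset.singleton_biUnion]

theorem exists_pat (hk : 0 < k) (X : Finset (Item V A)) (ix : Item V A → ℕ)
    (hinj : ∀ x ∈ X, ∀ y ∈ X, ix x = ix y → x = y) (hc : ∀ x ∈ X, x.1.card ≤ k) :
    ∃ ψ : V → Fin k, ∀ w ∈ ZZ X, ∀ u ∈ pw X ix w, u ≠ w → ψ u ≠ ψ w := by
  have h0 : ∀ w : V, ∃ n : ℕ, w ∈ ZZ X → ∃ x ∈ X, w ∈ x.1 ∧
      (∀ y ∈ X, w ∈ y.1 → ix x ≤ ix y) ∧ pw X ix w = x.1 ∧ n = ix x := by
    intro w
    by_cases hw : w ∈ ZZ X
    · obtain ⟨x, hx, h1, h2, h3⟩ := VC_pw X ix hinj w hw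
      exact ⟨ix x, fun _ => ⟨x, hx, h1, h2, h3, rfl⟩⟩
    · exact ⟨0, fun h => absurd h hw⟩
  choose m hm using h0
  obtain ⟨ρ, hρ⟩ : ∃ ρ : V → ℕ, ∀ w, ρ w = m w * Fintype.card V + (Fintype.equivFin V w : ℕ) :=
    ⟨_, fun _ => rfl⟩
  obtain ⟨ψ, hψ⟩ := exists_proc (pw X ix) ρ (fun _ => (⟨0, hk⟩ : Fin k))
  have hmem : ∀ w ∈ ZZ X, w ∈ pw X ix w ∧ (pw X ix w).card ≤ k := by
    intro w hw
    obtain ⟨x, hx, h1, -, h3, -⟩ := hm w hw
    rw [h3]
    exact ⟨h1, hc x hx⟩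
  have key : ∀ w ∈ ZZ X, ∀ u ∈ pw X ix w, ρ u < ρ w → ψ u ≠ ψ w := by
    intro w hw u hu hlt heq
    have h1 : ((flt (pw X ix w) (fun u => ρ u < ρ w)).image ψ).card < k := by
      refine lt_of_le_of_lt Finset.card_image_le ?_
      refine lt_of_lt_of_le (Finset.card_lt_card ?_) (hmem w hw).2
      refine ⟨flt_sub _ _, fun h => ?_⟩
      exact lt_irrefl _ (mem_flt.1 (h (hmem w hw).1)).2
    have h2 := pick_not_mem (⟨0, hk⟩ : Fin k) _ h1
    have h3 := hψ w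
    apply h2
    rw [← h3, ← heq]
    exact Finset.mem_image.2 ⟨u, mem_flt.2 ⟨hu, hlt⟩, rfl⟩
  refine ⟨ψ, fun w hw u hu hne => ?_⟩
  obtain ⟨x, hx, h1, h2, h3, h4⟩ := hm w hw
  have hux : u ∈ x.1 := by rwa [h3] at hu
  have huZ : u ∈ ZZ X := by
    unfold ZZ
    exact Finset.mem_biUnion.2 ⟨x, hx, hux⟩
  obtain ⟨x', hx', h1', h2', h3', h4'⟩ := hm u huZ
  have hle : m u ≤ m w := by
    rw [h4, h4']
    exact h2' x hx hux
  have hew := (Fintype.equivFin V w).2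
  have heu := (Fintype.equivFin V u).2
  rcases lt_trichotomy (ρ u) (ρ w) with h | h | h
  · exact key w hw u hu h
  · exfalso
    apply hne
    rw [hρ, hρ] at h
    rcases hle.lt_or_eq with h5 | h5
    · have h6 : (m u + 1) * Fintype.card V ≤ m w * Fintype.card V :=
        Nat.mul_le_mul_right _ h5
      rw [add_mul, one_mul] at h6
      omega
    · rw [h5] at h
      have h6 : (Fintype.equivFin V u : ℕ) = (Fintype.equivFin V w : ℕ) := by omega
      exact (Fintype.equivFin V).injective (Fin.ext h6)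
  · have h5 : m u = m w := by
      rcases hle.lt_or_eq with h5 | h5
      · exfalso
        rw [hρ, hρ] at h
        have h6 : (m u + 1) * Fintype.card V ≤ m w * Fintype.card V :=
          Nat.mul_le_mul_right _ h5
        rw [add_mul, one_mul] at h6
        omega
      · exact h5
    have h6 : x' = x := hinj x' hx' x hx (by rw [← h4', ← h4, h5])
    have h7 : w ∈ pw X ix u := by
      rw [h3', h6]
      exact h1
    exact (key u huZ w h7 h).symm

end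

end Pool.Agent.MP_61eeb2_co.EX
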