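import Pool.Agent.Lib.MP_61eeb2_co.EX.Def
import Pool.Agent.Lib.MP_61eeb2_co.EX.R2

/-!
MP_61eeb2_co, exact bound k * D, module VB: the tops under a local event.

PROOF. sg_eq_pw: w ∈ ZZ X: some x0 ∈ X with w ∈ x0.1, X ⊆ I, so x0 ∈ At I w. Let x be the member
of {x ∈ X : w ∈ x.1} with the least ix (unique by hinj). For y ∈ At I w, y ≠ x: if y ∈ X then lab
y = ix y > ix x = lab x; if y ∉ X then y ∈ Touch I (ZZ X) (w ∈ y.1), so lab y >= k > ix x = lab x.
So rk x < rk y (rk_lt_of_lab_lt), so the top item is x (top_exists, ta_le), sg = x.1; and pw X ix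
w = x.1, because the filtered set in its definition is {x}. pw_sub: unfold pw ZZ, mem_biUnion,
mem_flt.
-/

set_option autoImplicit false

namespace Pool.Agent.MP_61eeb2_co.EX

open Finset Classical

section

variable {V A : Type} [Fintype V] [Fintype A] {k R : ℕ}

theorem sg_eq_pw (I X : Finset (Item V A)) (hX : X ⊆ I) (ix : Item V A → ℕ)
    (hlt : ∀ x ∈ X, ix x < k) (hinj : ∀ x ∈ X, ∀ y ∈ X, ix x = ix y → x = y)
    (ω : Sp V A k R) (h : LabEv k I X ix ω) (w : V) (hw : w ∈ ZZ X) :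
    sg I ω w = pw X ix w := by
  unfold ZZ at hw
  rw [Finset.mem_biUnion] at hw
  obtain ⟨x0, hx0, hw0⟩ := hw
  have hne : (flt X (fun x => w ∈ x.1)).Nonempty := ⟨x0, mem_flt.mpr ⟨hx0, hw0⟩⟩
  obtain ⟨x, hx, hmin⟩ := Finset.exists_min_image _ ix hne
  rw [mem_flt] at hx
  obtain ⟨hxX, hwx⟩ := hx
  have hmin' : ∀ y ∈ X, w ∈ y.1 → ix x ≤ ix y := fun y hy hwy =>
    hmin y (mem_flt.mpr ⟨hy, hwy⟩)
  have hxA : x ∈ At I w := mem_At.mpr ⟨hX hxX, hwx⟩
  obtain ⟨z, hzA, hzt, hzs⟩ := top_exists I ω w ⟨x, hxA⟩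
  have hzx : z = x := by
    by_contra hne'
    have hzI := mem_At.mp hzA
    have hlab : lab ω x < lab ω z := by
      rw [h.1 x hxX]
      by_cases hzX : z ∈ X
      · rw [h.1 z hzX]
        refine lt_of_le_of_ne (hmin' z hzX hzI.2) fun he => hne' (hinj x hxX z hzX he).symm
      · refine lt_of_lt_of_le (hlt x hxX) (h.2 z (mem_Touch.mpr ⟨hzI.1, ?_⟩) hzX)
        rw [Finset.not_disjoint_iff]
        refine ⟨w, hzI.2, ?_⟩
        unfold ZZ
        exact Finset.mem_biUnion.mpr ⟨x, hxX, hwx⟩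
    have h1 := rk_lt_of_lab_lt ω x z hlab
    have h2 := ta_le I ω w x hxA
    omega
  rw [hzs, hzx]
  unfold pw
  ext u
  rw [Finset.mem_biUnion]
  constructor
  · intro hu
    exact ⟨x, mem_flt.mpr ⟨hxX, hwx, hmin'⟩, hu⟩
  · rintro ⟨y, hy, hu⟩
    rw [mem_flt] at hy
    have h3 : x = y := hinj x hxX y hy.1
      (le_antisymm (hmin' y hy.1 hy.2.1) (hy.2.2 x hxX hwx))
    rw [h3]
    exact hu

theorem pw_sub (X : Finset (Item V A)) (ix : Item V A → ℕ) (w : V) : pw X ix w ⊆ ZZ X := by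
  unfold pw ZZ
  intro u hu
  rw [Finset.mem_biUnion] at hu ⊢
  obtain ⟨y, hy, hu⟩ := hu
  exact ⟨y, (mem_flt.mp hy).1, hu⟩

end

end Pool.Agent.MP_61eeb2_co.EX
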