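import Pool.Agent.Lib.MP_61eeb2_co.EX.Def
import Pool.Agent.Lib.MP_61eeb2_co.EX.R1
import Pool.Agent.Lib.MP_61eeb2_co.EX.VB

/-!
MP_61eeb2_co, exact bound k * D, module VD: the colouring under a local event.

PROOF. proc_fix (R1) with Z = ZZ X, T = TT N I ω srv, ρ = rho I ω srv, start = st ω. For w ∈ Z:
not cand w, so srv w = none (Run: srv w = some b gives cand w), so TT w = sg I ω w = pw X ix w
(sg_eq_pw) ⊆ ZZ X (pw_sub); st ω w = ψ w (LEv). hv is hψ.
-/

set_option autoImplicit false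

namespace Pool.Agent.MP_61eeb2_co.EX

open Finset Classical

section

variable {V A : Type} [Fintype V] [Fintype A] {k R : ℕ}

theorem run_eq (N : A → Finset V) (I X : Finset (Item V A)) (hX : X ⊆ I)
    (ix : Item V A → ℕ) (hlt : ∀ x ∈ X, ix x < k)
    (hinj : ∀ x ∈ X, ∀ y ∈ X, ix x = ix y → x = y) (ψ : V → Fin k)
    (hψ : ∀ w ∈ ZZ X, ∀ u ∈ pw X ix w, u ≠ w → ψ u ≠ ψ w)
    (ω : Sp V A k R) (h : LEv I X ix ψ ω) (srv : V → Option A) (φ : V → Fin k)
    (hrun : Run N I ω srv φ) : ∀ w ∈ ZZ X, φ w = ψ w := by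
  have hT : ∀ w ∈ ZZ X, TT N I ω srv w = pw X ix w := by
    intro w hw
    have hn : srv w = none := by
      cases hs : srv w with
      | none => rfl
      | some b => exact absurd (hrun.1 w b hs).1 (h.2 w hw).1
    unfold TT
    rw [hn]
    exact sg_eq_pw I X hX ix hlt hinj ω h.1 w hw
  refine proc_fix (TT N I ω srv) (rho I ω srv) (st ω) φ hrun.2 (ZZ X) ψ
    (fun w hw => (h.2 w hw).2) (fun w hw => ?_) (fun w hw u hu hne => ?_)
  · rw [hT w hw]
    exact pw_sub X ix w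
  · rw [hT w hw] at hu
    exact hψ w hw u hu hne

end

end Pool.Agent.MP_61eeb2_co.EX
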