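import Pool.Agent.Lib.MP_61eeb2_co.EX.Def
import Pool.Agent.Lib.MP_61eeb2_co.EX.VA
import Pool.Agent.Lib.MP_61eeb2_co.EX.VC
import Pool.Agent.Lib.MP_61eeb2_co.EX.VD
import Pool.Agent.Lib.MP_61eeb2_co.EX.R4

/-!
MP_61eeb2_co, exact bound k * D, module V1: local events for the light structure.

PROOF. X = U.image ch ⊆ I, |X| <= |U| <= k - 1; every x ∈ X is ch u with u ∈ x.1 (mem_At), so
blocks are nonempty. Let ix be an injective numbering of X with values < |X| <= k (X.equivFin, 0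
outside). exists_pat gives ψ0. |U| < k, so some colour i0 is not in ψ0 '' U; ψ := Equiv.swap i i0
∘ ψ0. Then hψ holds for ψ too (swap is injective) and ψ u ≠ i for u ∈ U (ψ u = i means ψ0 u = i0).
Ev := LEv I X ix ψ. DepOn: LEv_dep (R4). Probability: LEv_pr (VA): 1/R^(6|X|+1) >= 1/R^(6k) as 6
(k-1) + 1 <= 6k. (If k = 1 then U = ∅; fine as well.) If Ev ω and Run: run_eq gives φ = ψ on ZZ X,
and u ∈ ZZ X for u ∈ U.
-/

set_option autoImplicit false

namespace Pool.Agent.MP_61eeb2_co.EX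

open Finset Classical

theorem light_ev (k : ℕ) (hk1 : 1 ≤ k) : ∃ R₀ : ℕ, ∀ R ≥ R₀,
    ∀ (V A : Type) [Fintype V] [Fintype A] (N : A → Finset V) (I : Finset (Item V A)),
    (∀ x ∈ I, x.1.card ≤ k) → (∀ v, (At I v).card ≤ 2 * R) →
    ∀ ch : V → Item V A, (∀ u, ch u ∈ At I u) → ∀ U : Finset V, U.card < k → ∀ i : Fin k,
    ∃ Ev : Sp V A k R → Prop, DepOn (sites I (ZZ (U.image ch))) Ev ∧
      1 / (R : ℝ) ^ (6 * k) ≤ pr Ev ∧
      ∀ ω, Ev ω → ∀ srv φ, Run N I ω srv φ → ∀ u ∈ U, φ u ≠ i := by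
  obtain ⟨R₀, hR₀⟩ := LEv_pr k hk1
  refine ⟨max R₀ 1, fun R hR V A _ _ N I hI hAt ch hch U hU i => ?_⟩
  have hXI : U.image ch ⊆ I := by
    intro x hx
    obtain ⟨u, -, rfl⟩ := Finset.mem_image.1 hx
    exact (mem_At.1 (hch u)).1
  have hXc : (U.image ch).card < k := Finset.card_image_le.trans_lt hU
  have hne : ∀ x ∈ U.image ch, x.1.Nonempty := by
    intro x hx
    obtain ⟨u, -, rfl⟩ := Finset.mem_image.1 hx
    exact ⟨u, (mem_At.1 (hch u)).2⟩
  have hZ : ∀ u ∈ U, u ∈ ZZ (U.image ch) := fun u hu =>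
    Finset.mem_biUnion.2 ⟨ch u, Finset.mem_image_of_mem ch hu, (mem_At.1 (hch u)).2⟩
  obtain ⟨ix, hlt, hinj⟩ : ∃ ix : Item V A → ℕ, (∀ x ∈ U.image ch, ix x < (U.image ch).card) ∧
      ∀ x ∈ U.image ch, ∀ y ∈ U.image ch, ix x = ix y → x = y := by
    refine ⟨fun x => if h : x ∈ U.image ch then ((U.image ch).equivFin ⟨x, h⟩ : ℕ) else 0,
      fun x hx => ?_, fun x hx y hy hxy => ?_⟩
    · simp only [dif_pos hx]
      exact Fin.isLt _
    · simp only [dif_pos hx, dif_pos hy] at hxy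
      have h1 := (U.image ch).equivFin.injective (Fin.ext hxy)
      exact congrArg Subtype.val h1
  have hk : 0 < k := hk1
  obtain ⟨ψ0, hψ0⟩ := exists_pat hk (U.image ch) ix hinj fun x hx => hI x (hXI hx)
  obtain ⟨i0, hi0⟩ : ∃ i0 : Fin k, ∀ u ∈ U, ψ0 u ≠ i0 := by
    by_contra hcon
    push Not at hcon
    have h1 : (Finset.univ : Finset (Fin k)).card ≤ (U.image ψ0).card := by
      refine Finset.card_le_card fun j _ => ?_
      obtain ⟨u, hu, h⟩ := hcon j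
      exact Finset.mem_image.2 ⟨u, hu, h⟩
    rw [Finset.card_univ, Fintype.card_fin] at h1
    have h2 : (U.image ψ0).card ≤ U.card := Finset.card_image_le
    omega
  have hψ : ∀ w ∈ ZZ (U.image ch), ∀ u ∈ pw (U.image ch) ix w, u ≠ w →
      Equiv.swap i i0 (ψ0 u) ≠ Equiv.swap i i0 (ψ0 w) := fun w hw u hu huw h =>
    hψ0 w hw u hu huw ((Equiv.swap i i0).injective h)
  refine ⟨LEv I (U.image ch) ix fun v => Equiv.swap i i0 (ψ0 v),
    LEv_dep I (U.image ch) hXI hne ix _, ?_, ?_⟩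
  · have h1 := hR₀ R (le_trans (le_max_left _ _) hR) V A I (U.image ch) ix
      (fun v => Equiv.swap i i0 (ψ0 v)) (fun x hx => hI x (hXI hx)) hXI hXc.le
      (fun x hx => (hlt x hx).trans hXc) hAt
    refine le_trans ?_ h1
    have hR1 : (1 : ℝ) ≤ R := by exact_mod_cast le_trans (le_max_right _ _) hR
    have hR0 : (0 : ℝ) < R := lt_of_lt_of_le one_pos hR1
    exact one_div_le_one_div_of_le (pow_pos hR0 _) (pow_le_pow_right₀ hR1 (by omega))
  · intro ω hω srv φ hrun u hu h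
    rw [run_eq N I (U.image ch) hXI ix (fun x hx => (hlt x hx).trans hXc) hinj _ hψ ω hω srv φ
      hrun u (hZ u hu)] at h
    have h1 : ψ0 u = Equiv.swap i i0 i :=
      (Equiv.swap_apply_self i i0 (ψ0 u)).symm.trans (congrArg (Equiv.swap i i0) h)
    rw [Equiv.swap_apply_left] at h1
    exact hi0 u hu h1

end Pool.Agent.MP_61eeb2_co.EX
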