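import Pool.Agent.Lib.MP_61eeb2_co.EX.Def
import Pool.Agent.Lib.MP_61eeb2_co.EX.VA
import Pool.Agent.Lib.MP_61eeb2_co.EX.VC
import Pool.Agent.Lib.MP_61eeb2_co.EX.VD
import Pool.Agent.Lib.MP_61eeb2_co.EX.R4

/-!
MP_61eeb2_co, exact bound k * D, module V2: local events for a single edge.

PROOF. s = x.1 ∋ v. X = insert x (U.image ch) ⊆ I, |X| <= |U| + 1 <= k. For u ∈ U the block of ch
u is disjoint from s and contains u, so x ∉ U.image ch (v ∈ x.1, if x = ch u then Disjoint x.1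
x.1). Numbering ix of X: ix x = 0, the others injectively 1, ..., |U.image ch| <= k - 1.
exists_pat gives ψ0 for (X, ix). Let Z' = ZZ (U.image ch), disjoint from s. For w ∈ s: pw X ix w =
s (only x contains w: the others are disjoint from s). For w ∈ Z': pw X ix w ⊆ Z' (the blocks at w
are those of members of U.image ch). |U| <= k - 1, so there is a colour i0 ∉ ψ0 '' U. Let ψ w = ψ0
w for w ∈ s and ψ w = swap (ψ0 v) i0 (ψ0 w) otherwise. hψ holds: the constraints are inside s or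
inside Z'. For u ∈ U (u ∈ Z', u ∉ s): ψ u = ψ0 v would give ψ0 u = i0; so ψ u ≠ ψ0 v = ψ v. Ev :=
LEv I X ix ψ: DepOn by LEv_dep, probability by LEv_pr (6|X|+1 <= 6k+1). If Ev ω: not cand v (v ∈
ZZ X), sg I ω v = pw X ix v = s (sg_eq_pw), and φ = ψ on ZZ X (run_eq).
-/

set_option autoImplicit false

namespace Pool.Agent.MP_61eeb2_co.EX

open Finset Classical

theorem tiny_ev (k : ℕ) (hk1 : 1 ≤ k) : ∃ R₀ : ℕ, ∀ R ≥ R₀,
    ∀ (V A : Type) [Fintype V] [Fintype A] (N : A → Finset V) (I : Finset (Item V A)),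
    (∀ x ∈ I, x.1.card ≤ k) → (∀ v, (At I v).card ≤ 2 * R) →
    ∀ x ∈ I, ∀ v ∈ x.1, ∀ U : Finset V, U.card + 1 ≤ k →
    ∀ ch : V → Item V A, (∀ u ∈ U, ch u ∈ At I u ∧ Disjoint (ch u).1 x.1) →
    ∃ Ev : Sp V A k R → Prop, DepOn (sites I (ZZ (insert x (U.image ch)))) Ev ∧
      1 / (R : ℝ) ^ (6 * k + 1) ≤ pr Ev ∧
      ∀ ω, Ev ω → ¬ cand ω v ∧ sg I ω v = x.1 ∧
        ∀ srv φ, Run N I ω srv φ → ∀ u ∈ U, φ u ≠ φ v := by
  obtain ⟨R₀, hR₀⟩ := LEv_pr k hk1
  refine ⟨max R₀ 1, ?_⟩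
  intro R hR V A _ _ N I hI hAt x hx v hv U hU ch hch
  have hR1 : 1 ≤ R := le_trans (le_max_right _ _) hR
  have hR2 : R₀ ≤ R := le_trans (le_max_left _ _) hR
  set Y : Finset (Item V A) := U.image ch with hY
  set X : Finset (Item V A) := insert x Y with hXdef
  have hYc : Y.card ≤ U.card := Finset.card_image_le
  -- members of `Y`
  have hYm : ∀ y ∈ Y, y ∈ I ∧ y.1.Nonempty ∧ Disjoint y.1 x.1 := by
    intro y hy
    rw [hY, Finset.mem_image] at hy
    obtain ⟨u, hu, rfl⟩ := hy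
    obtain ⟨h1, h2⟩ := hch u hu
    rw [mem_At] at h1
    exact ⟨h1.1, ⟨u, h1.2⟩, h2⟩
  have hxY : x ∉ Y := by
    intro h
    have h2 := (hYm x h).2.2
    exact (Finset.disjoint_left.mp h2 hv) hv
  have hXI : X ⊆ I := by
    intro y hy
    rw [hXdef, Finset.mem_insert] at hy
    rcases hy with rfl | hy
    · exact hx
    · exact (hYm y hy).1
  have hXc : X.card ≤ k := by
    have h1 : X.card ≤ Y.card + 1 := Finset.card_insert_le _ _
    omega
  have hne : ∀ y ∈ X, y.1.Nonempty := by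
    intro y hy
    rw [hXdef, Finset.mem_insert] at hy
    rcases hy with rfl | hy
    · exact ⟨v, hv⟩
    · exact (hYm y hy).2.1
  -- the numbering
  let ix : Item V A → ℕ := fun y => if h : y ∈ Y then (Y.equivFin ⟨y, h⟩ : ℕ) + 1 else 0
  have hix0 : ix x = 0 := dif_neg hxY
  have hix1 : ∀ y (h : y ∈ Y), ix y = (Y.equivFin ⟨y, h⟩ : ℕ) + 1 := fun y h => dif_pos h
  have hlt : ∀ y ∈ X, ix y < k := by
    intro y hy
    rw [hXdef, Finset.mem_insert] at hy
    rcases hy with rfl | hy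
    · rw [hix0]
      omega
    · rw [hix1 y hy]
      have h1 := (Y.equivFin ⟨y, hy⟩).isLt
      omega
  have hinj : ∀ y ∈ X, ∀ z ∈ X, ix y = ix z → y = z := by
    intro y hy z hz h
    rw [hXdef, Finset.mem_insert] at hy hz
    rcases hy with hy | hy <;> rcases hz with hz | hz
    · rw [hy, hz]
    · rw [hy, hix0, hix1 z hz] at h
      omega
    · rw [hz, hix0, hix1 y hy] at h
      omega
    · rw [hix1 y hy, hix1 z hz] at h
      have h1 : (Y.equivFin ⟨y, hy⟩ : ℕ) = (Y.equivFin ⟨z, hz⟩ : ℕ) := by omega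
      have h2 := Y.equivFin.injective (Fin.ext h1)
      exact congrArg Subtype.val h2
  obtain ⟨ψ₀, hψ₀⟩ := exists_pat (by omega) X ix hinj (fun y hy => hI y (hXI hy))
  -- the sets `pw`
  have hZ : ∀ w, w ∈ ZZ X ↔ w ∈ x.1 ∨ w ∈ ZZ Y := by
    intro w
    unfold ZZ
    rw [hXdef, Finset.biUnion_insert, Finset.mem_union]
  have hZY : ∀ w, w ∈ ZZ Y → w ∉ x.1 := by
    intro w hw
    unfold ZZ at hw
    rw [Finset.mem_biUnion] at hw
    obtain ⟨y, hy, hwy⟩ := hw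
    exact Finset.disjoint_left.mp (hYm y hy).2.2 hwy
  have hpw1 : ∀ w ∈ x.1, pw X ix w = x.1 := by
    intro w hw
    have h1 : flt X (fun y => w ∈ y.1 ∧ ∀ z ∈ X, w ∈ z.1 → ix y ≤ ix z) = {x} := by
      ext y
      rw [mem_flt, Finset.mem_singleton]
      constructor
      · rintro ⟨hy, hwy, -⟩
        rw [hXdef, Finset.mem_insert] at hy
        rcases hy with hy | hy
        · exact hy
        · exact absurd hw (Finset.disjoint_left.mp (hYm y hy).2.2 hwy)
      · rintro rfl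
        refine ⟨Finset.mem_insert_self _ _, hw, fun z _ _ => ?_⟩
        rw [hix0]
        exact Nat.zero_le _
    unfold pw
    rw [h1, Finset.singleton_biUnion]
  have hpw2 : ∀ w ∈ ZZ Y, pw X ix w ⊆ ZZ Y := by
    intro w hw u hu
    unfold pw at hu
    rw [Finset.mem_biUnion] at hu
    obtain ⟨y, hy, huy⟩ := hu
    rw [mem_flt] at hy
    obtain ⟨hyX, hwy, -⟩ := hy
    rw [hXdef, Finset.mem_insert] at hyX
    rcases hyX with rfl | hyY
    · exact absurd hwy (hZY w hw)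
    · unfold ZZ
      rw [Finset.mem_biUnion]
      exact ⟨y, hyY, huy⟩
  -- a free colour
  obtain ⟨i₀, hi₀⟩ : ∃ i₀ : Fin k, i₀ ∉ U.image ψ₀ := by
    by_contra hcon
    push Not at hcon
    have h1 : (Finset.univ : Finset (Fin k)).card ≤ (U.image ψ₀).card :=
      Finset.card_le_card fun i _ => hcon i
    have h2 : (U.image ψ₀).card ≤ U.card := Finset.card_image_le
    rw [Finset.card_univ, Fintype.card_fin] at h1
    omega
  let ψ : V → Fin k := fun w => if w ∈ x.1 then ψ₀ w else Equiv.swap (ψ₀ v) i₀ (ψ₀ w)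
  have hψ1 : ∀ w ∈ x.1, ψ w = ψ₀ w := fun w hw => if_pos hw
  have hψ2 : ∀ w, w ∉ x.1 → ψ w = Equiv.swap (ψ₀ v) i₀ (ψ₀ w) := fun w hw => if_neg hw
  have hψ : ∀ w ∈ ZZ X, ∀ u ∈ pw X ix w, u ≠ w → ψ u ≠ ψ w := by
    intro w hw u hu huw
    have h0 := hψ₀ w hw u hu huw
    rcases (hZ w).mp hw with h1 | h1
    · rw [hpw1 w h1] at hu
      rw [hψ1 w h1, hψ1 u hu]
      exact h0
    · have h2 := hpw2 w h1 hu
      rw [hψ2 w (hZY w h1), hψ2 u (hZY u h2)]
      exact fun h => h0 ((Equiv.swap (ψ₀ v) i₀).injective h)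
  have hvZ : v ∈ ZZ X := (hZ v).mpr (Or.inl hv)
  refine ⟨LEv I X ix ψ, LEv_dep I X hXI hne ix ψ, ?_, ?_⟩
  · have h1 := hR₀ R hR2 V A I X ix ψ (fun y hy => hI y (hXI hy)) hXI hXc hlt hAt
    refine le_trans ?_ h1
    have h2 : (1 : ℝ) ≤ (R : ℝ) := by exact_mod_cast hR1
    exact one_div_le_one_div_of_le (by positivity) (pow_le_pow_right₀ h2 (by omega))
  · intro ω hω
    refine ⟨(hω.2 v hvZ).1, ?_, ?_⟩
    · rw [sg_eq_pw I X hXI ix hlt hinj ω hω.1 v hvZ, hpw1 v hv]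
    · intro srv φ hrun u hu
      have hrun' := run_eq N I X hXI ix hlt hinj ψ hψ ω hω srv φ hrun
      obtain ⟨h1, h2⟩ := hch u hu
      rw [mem_At] at h1
      have huZ : u ∈ ZZ Y := by
        unfold ZZ
        rw [Finset.mem_biUnion]
        exact ⟨ch u, Finset.mem_image_of_mem ch hu, h1.2⟩
      rw [hrun' u ((hZ u).mpr (Or.inr huZ)), hrun' v hvZ, hψ1 v hv, hψ2 u (hZY u huZ)]
      intro h3
      have h4 : ψ₀ u = i₀ := by
        have h5 := congrArg (Equiv.swap (ψ₀ v) i₀) h3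
        rwa [Equiv.swap_apply_self, Equiv.swap_apply_left] at h5
      exact hi₀ (h4 ▸ Finset.mem_image_of_mem ψ₀ hu)

end Pool.Agent.MP_61eeb2_co.EX
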