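import Pool.Agent.Lib.MP_61eeb2_co.EX.Def
import Pool.Agent.Lib.MP_61eeb2_co.EX.Mat
import Pool.Agent.Lib.MP_61eeb2_co.EX.B5
import Pool.Agent.Lib.MP_61eeb2_co.EX.K4
import Pool.Agent.Lib.MP_61eeb2_co.EX.V1
import Pool.Agent.Lib.MP_61eeb2_co.EX.V2
import Pool.Agent.Lib.MP_61eeb2_co.EX.Lla
import Pool.Agent.Lib.MP_61eeb2_co.EX.Ser
import Pool.Agent.Lib.MP_61eeb2_co.EX.ExR

/-!
MP_61eeb2_co, exact bound k * D, module Hyp: the theorem for hypergraphs (assembly).
-/

set_option autoImplicit false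

namespace Pool.Agent.MP_61eeb2_co.EX

open Finset Classical

private theorem item_card {V A : Type} [Fintype V] [Fintype A] {k D R : ℕ} {N : A → Finset V}
    {S : Finset (Finset V)} {E : Finset V → Finset A} (hB : Blk k D R N S E) {n : ℕ}
    (cl : Item V A → Fin n) (c : Fin n) : ∀ x ∈ cI S E cl c, x.1.card ≤ k := by
  intro x hx
  have h1 := (mem_flt.mp (mem_flt.mp hx).1).2
  exact le_trans (card_le_card (hB.sub _ h1.1 _ h1.2)) (hB.cardN _)

private theorem even_le {V A : Type} [Fintype V] [Fintype A] {k R : ℕ} (hk1 : 1 ≤ k)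
    (I : Finset (Item V A)) (h : Even k R I) (v : V) : (At I v).card ≤ 2 * R := by
  have h1 := (h v).2
  have hk : (1:ℝ) ≤ (k:ℝ) ^ 2 := by
    have : (1:ℝ) ≤ k := by exact_mod_cast hk1
    nlinarith
  have h2 : 1 / (200 * (k:ℝ) ^ 2) ≤ 1 := by
    rw [div_le_one (by positivity)]; linarith
  have h3 : ((At I v).card : ℝ) ≤ 2 * R := by
    refine le_trans h1 ?_
    have : (0:ℝ) ≤ R := Nat.cast_nonneg _
    nlinarith
  exact_mod_cast h3

private theorem even_ne {V A : Type} [Fintype V] [Fintype A] {k R : ℕ} (hk1 : 1 ≤ k)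
    (hR : 1 ≤ R) (I : Finset (Item V A)) (h : Even k R I) (v : V) : (At I v).Nonempty := by
  have h1 := (h v).1
  have hk : (1:ℝ) ≤ (k:ℝ) ^ 2 := by
    have : (1:ℝ) ≤ k := by exact_mod_cast hk1
    nlinarith
  have h2 : 1 / (200 * (k:ℝ) ^ 2) < 1 := by
    rw [div_lt_one (by positivity)]; linarith
  have hR' : (1:ℝ) ≤ R := by exact_mod_cast hR
  have h3 : (0:ℝ) < (At I v).card := by
    refine lt_of_lt_of_le ?_ h1
    apply mul_pos <;> linarith
  rw [← card_pos]
  exact_mod_cast h3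

theorem hyper (k : ℕ) (hk1 : 1 ≤ k) : ∃ D₀ : ℕ, ∀ D ≥ D₀, ∀ (V A : Type) [Fintype V]
    [Fintype A] (N : A → Finset V), (∀ a, (N a).card ≤ k) → (∀ v, (Ed N v).card = D) →
    ∃ col : V → A → ℕ, (∀ v a, v ∈ N a → col v a < k * D) ∧
      (∀ v a v' a', v ∈ N a → v' ∈ N a' → (v, a) ≠ (v', a') → v' ∈ N a →
        col v a ≠ col v' a') := by
  obtain ⟨R1, h1⟩ := blk k hk1
  obtain ⟨R2, h2⟩ := K4 k hk1
  obtain ⟨R3, h3⟩ := light_ev k hk1
  obtain ⟨R4, h4⟩ := tiny_ev k hk1
  obtain ⟨R5, h5⟩ := main_lll k hk1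
  set R₀ := R1 + R2 + R3 + R4 + R5 + (120 * k ^ 2 + 1) with hR₀
  obtain ⟨D₀, hD₀⟩ := exists_R (QQ k) R₀ (by unfold QQ; omega)
  refine ⟨D₀ + 1, ?_⟩
  intro D hD V A _ _ N hN hdeg
  obtain ⟨R, hR, hRD, hRD2⟩ := hD₀ D (by omega)
  have hD1 : 1 ≤ D := by omega
  have hR1 : 1 ≤ R := by omega
  have hB := h1 R (by omega) D hD1 V A N hN hdeg
  set S := SB k D R N
  set E := EE k D R N
  obtain ⟨cl, rc, hC⟩ := h2 R (by omega) D hRD hRD2 V A N S E hB
  have hne : ∀ c u, (At (cI S E cl c) u).Nonempty := fun c u => even_ne hk1 hR1 _ (hC.even c) u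
  have hle : ∀ c u, (At (cI S E cl c) u).card ≤ 2 * R := fun c u => even_le hk1 _ (hC.even c) u
  have hck := item_card hB cl
  -- light events
  set ch : Fin (D / R) → V → Item V A := fun c u => (hne c u).choose with hch
  have hch1 : ∀ c u, ch c u ∈ At (cI S E cl c) u := fun c u => (hne c u).choose_spec
  have hEvex : ∀ (c : Fin (D / R)) (U : Finset V) (i : Fin k), ∃ Ev : Sp V A k R → Prop,
      U.card < k → (DepOn (sites (cI S E cl c) (ZZ (U.image (ch c)))) Ev ∧
      1 / (R : ℝ) ^ (6 * k) ≤ pr Ev ∧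
      ∀ ω, Ev ω → ∀ srv φ, Run N (cI S E cl c) ω srv φ → ∀ u ∈ U, φ u ≠ i) := by
    intro c U i
    by_cases hU : U.card < k
    · obtain ⟨Ev, hEv⟩ := h3 R (by omega) V A N (cI S E cl c) (hck c) (hle c) (ch c) (hch1 c) U hU i
      exact ⟨Ev, fun _ => hEv⟩
    · exact ⟨fun _ => True, fun h => absurd h hU⟩
  choose Ev hEv using hEvex
  -- tiny events
  have hTvex : ∀ (c : Fin (D / R)) (s : Finset V) (v : V) (a : A), ∃ Tv : Sp V A k R → Prop,
      s ∈ S → v ∈ s → a ∈ E s →
      (DepOn (sites (itm S E) (ball N 2 v)) Tv ∧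
      ((∃ x ∈ cI S E cl c, x.1 = s) → 1 / (R : ℝ) ^ (6 * k + 1) ≤ pr Tv) ∧
      ∀ ω, Tv ω → ¬ cand ω v ∧ sg (cI S E cl c) ω v = s ∧
        ∀ srv φ, Run N (cI S E cl c) ω srv φ → ∀ u ∈ N a \ s, φ u ≠ φ v) := by
    intro c s v a
    by_cases hall : s ∈ S ∧ v ∈ s ∧ a ∈ E s ∧ (∃ x ∈ cI S E cl c, x.1 = s)
    · obtain ⟨hs, hv, ha, x, hx, hxs⟩ := hall
      have hsub := hB.sub s hs a ha
      have hUcard : (N a \ s).card + 1 ≤ k := by
        have h1 := card_sdiff_add_card_eq_card hsub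
        have h2 := (hB.ne s hs).card_pos
        have h3 := hB.cardN a
        omega
      have hoff : ∀ u, ∃ y, u ∈ N a \ s → (y ∈ At (cI S E cl c) u ∧ Disjoint y.1 s) := by
        intro u
        by_cases hu : u ∈ N a \ s
        · rw [mem_sdiff] at hu
          obtain ⟨y, hy1, hy2⟩ := hC.off s hs a ha u hu.1 hu.2 c
          exact ⟨y, fun _ => ⟨hy1, hy2⟩⟩
        · exact ⟨x, fun h => absurd h hu⟩
      choose g hg using hoff
      obtain ⟨Tv, hT1, hT2, hT3⟩ := h4 R (by omega) V A N (cI S E cl c) (hck c) (hle c) x hx v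
        (by rw [hxs]; exact hv) (N a \ s) hUcard g
        (by rw [hxs]; exact hg)
      refine ⟨Tv, fun _ _ _ => ⟨?_, fun _ => hT2, ?_⟩⟩
      · intro ω ω' hω hT
        refine hT1 ω ω' ?_ hT
        intro i hi
        apply hω
        -- sites are near v
        have hnear : ZZ (insert x ((N a \ s).image g)) ⊆ ball N 2 v := by
          intro z hz
          unfold ZZ at hz
          rw [mem_biUnion] at hz
          obtain ⟨y, hy, hzy⟩ := hz
          rw [mem_insert] at hy
          have hva : v ∈ N a := hsub hv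
          have hdne : ∀ v, (Ed N v).Nonempty := by
            intro v; rw [← card_pos, hB.deg]; exact hD1
          rcases hy with rfl | hy
          · rw [hxs] at hzy
            exact ball_mono N hdne 1 2 (by norm_num) v (mem_ball_one N z v a (hsub hzy) hva)
          · rw [mem_image] at hy
            obtain ⟨u, hu, rfl⟩ := hy
            have hgu := (hg u hu).1
            have h1 := (mem_flt.mp hgu)
            have h2 := (mem_flt.mp (mem_flt.mp h1.1).1).2
            have h3 := hB.sub _ h2.1 _ h2.2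
            have hu1 : u ∈ ball N 1 v := mem_ball_one N u v a (mem_sdiff.mp hu).1 hva
            exact ball_trans N 1 1 u v z hu1 (mem_ball_one N z u _ (h3 hzy) (h3 h1.2))
        unfold sites at hi ⊢
        rw [mem_union, mem_image, mem_image] at hi ⊢
        rcases hi with ⟨y, hy, rfl⟩ | ⟨z, hz, rfl⟩
        · left
          refine ⟨y, ?_, rfl⟩
          unfold Touch at hy ⊢
          rw [mem_flt] at hy ⊢
          refine ⟨(mem_flt.mp hy.1).1, fun hdis => hy.2 ?_⟩
          exact disjoint_of_subset_right hnear hdis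
        · right
          exact ⟨z, hnear hz, rfl⟩
      · intro ω hω
        have := hT3 ω hω
        rw [hxs] at this
        exact this
    · refine ⟨fun _ => False, fun hs hv ha => ⟨fun _ _ _ h => h, fun hx => ?_, fun _ h => h.elim⟩⟩
      exact absurd ⟨hs, hv, ha, hx⟩ hall
  choose Tv hTv using hTvex
  obtain ⟨w, hw⟩ := h5 R (by omega) D hRD hRD2 V A N S E hB (D / R) cl rc hC ch hch1 Ev
    (fun c U i hU => ⟨(hEv c U i hU).1, (hEv c U i hU).2.1⟩) Tv
    (fun c s hs v hv a ha => ⟨(hTv c s v a hs hv ha).1, (hTv c s v a hs hv ha).2.1⟩)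
  -- serving
  have hserve := fun v => serve_v (k := k) hR1 N S E hB cl rc v w hD1 (hw v).2.2.2
  choose τ hτ1 hτ2 using hserve
  set sv : Fin D → V → Option A := fun j v =>
    if h : ∃ b ∈ Neg N S E v, τ v b = j then some h.choose else none with hsvdef
  have hsv : ∀ v j b, sv j v = some b ↔ b ∈ Neg N S E v ∧ τ v b = j := by
    intro v j b
    constructor
    · intro h
      simp only [hsvdef] at h
      split_ifs at h with hex
      · rw [Option.some_inj] at h
        rw [← h]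
        exact hex.choose_spec
    · intro h
      simp only [hsvdef]
      have hex : ∃ b ∈ Neg N S E v, τ v b = j := ⟨b, h.1, h.2⟩
      rw [dif_pos hex, Option.some_inj]
      apply hτ1 v _ hex.choose_spec.1 _ h.1
      rw [hex.choose_spec.2, h.2]
  have hφ : ∀ j, ∃ φ : V → Fin k, Run N (cI S E cl (rc j)) (w j) (sv j) φ := by
    intro j
    obtain ⟨φ, hφ⟩ := exists_proc (TT N (cI S E cl (rc j)) (w j) (sv j))
      (rho (cI S E cl (rc j)) (w j) (sv j)) (st (w j))
    refine ⟨φ, ?_, hφ⟩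
    intro v b hvb
    obtain ⟨hb1, hb2⟩ := (hsv v j b).mp hvb
    have hadm := hτ2 v b hb1
    rw [hb2] at hadm
    refine ⟨hadm.1, ?_⟩
    have := (mem_flt.mp hb1).1
    exact (mem_flt.mp this).2
  choose φ hφ using hφ
  have hm := fun v => match_v hk1 (by omega) N S E hB cl rc hC hD1 Ev
    (fun c U i hU ω hω => (hEv c U i hU).2.2 ω hω) Tv
    (fun c s hs v hv a ha ω hω => (hTv c s v a hs hv ha).2.2 ω hω) v w (hw v) sv φ hφ (τ v)
    (hτ1 v) (hτ2 v) (fun j b => hsv v j b)
  choose m hm1 hm2 using hm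
  refine ⟨fun v a => (φ (m v a) v : ℕ) * D + (m v a : ℕ), ?_, ?_⟩
  · intro v a hva
    have h1 : (φ (m v a) v : ℕ) < k := (φ (m v a) v).2
    have h2 : (m v a : ℕ) < D := (m v a).2
    calc (φ (m v a) v : ℕ) * D + (m v a : ℕ) < (φ (m v a) v : ℕ) * D + D := by omega
      _ = ((φ (m v a) v : ℕ) + 1) * D := by ring
      _ ≤ k * D := Nat.mul_le_mul_right _ h1
  · intro v a v' a' hva hva' hne' hv'a heq
    have hmod : ∀ (x y : ℕ) (i j : Fin D), x * D + i = y * D + j → i = j ∧ x = y := by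
      intro x y i j h
      have h1 : (x * D + i) % D = i := by
        rw [Nat.mul_add_mod_self_right, Nat.mod_eq_of_lt i.2]
      have h2 : (y * D + j) % D = j := by
        rw [Nat.mul_add_mod_self_right, Nat.mod_eq_of_lt j.2]
      have h3 : (i : ℕ) = j := by rw [← h1, ← h2, h]
      refine ⟨Fin.ext h3, ?_⟩
      rw [h3] at h
      exact Nat.eq_of_mul_eq_mul_right hD1 (Nat.add_right_cancel h)
    obtain ⟨hj, hx⟩ := hmod _ _ _ _ heq
    have hc : φ (m v a) v = φ (m v' a') v' := Fin.ext hx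
    by_cases hvv : v' = v
    · subst hvv
      have : a = a' := hm1 v' a (mem_Ed.mpr hva) a' (mem_Ed.mpr hva') hj
      exact hne' (by rw [this])
    · have := hm2 v a (mem_Ed.mpr hva) v' hv'a hvv
      apply this
      rw [hc, hj]

end Pool.Agent.MP_61eeb2_co.EX
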