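import Pool.Agent.Lib.MP_61eeb2_co.EX.Def
import Pool.Agent.Lib.MP_61eeb2_co.EX.Hyp

/-!
MP_61eeb2_co, exact bound k * D, module Hle: degrees at most D (padding by singletons).
-/

set_option autoImplicit false

namespace Pool.Agent.MP_61eeb2_co.EX

open Finset Classical

private noncomputable def hleN {V A : Type} [Fintype V] [Fintype A] (D : ℕ) (N : A → Finset V) :
    A ⊕ (V × Fin D) → Finset V := fun x => match x with
      | Sum.inl a => N a
      | Sum.inr p => if (p.2 : ℕ) < D - (Ed N p.1).card then {p.1} else ∅

private theorem hle_card {V A : Type} [Fintype V] [Fintype A] (D : ℕ) (N : A → Finset V)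
    (hN : ∀ v, (Ed N v).card ≤ D) (v : V) : (Ed (hleN D N) v).card = D := by
  have h1 : Ed (hleN D N) v = (Ed N v).image Sum.inl ∪
        ((univ : Finset (Fin D)).filter (fun i : Fin D => (i : ℕ) < D - (Ed N v).card)).image
          (fun i : Fin D => Sum.inr (v, i)) := by
    ext x
    rw [mem_Ed, mem_union, mem_image, mem_image]
    rcases x with a | ⟨u, i⟩
    · simp only [hleN, Sum.inl.injEq, exists_eq_right, reduceCtorEq, and_false, exists_false,
        or_false]
      rw [mem_Ed]
    · simp only [hleN, reduceCtorEq, and_false, exists_false, false_or, mem_filter, mem_univ, true_and,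
        Sum.inr.injEq, Prod.mk.injEq]
      constructor
      · intro h
        split_ifs at h with hi
        · rw [mem_singleton] at h
          subst h
          exact ⟨i, hi, rfl, rfl⟩
        · simp at h
      · rintro ⟨j, hj, rfl, rfl⟩
        rw [if_pos hj]
        exact mem_singleton_self _
  rw [h1, card_union_of_disjoint, card_image_of_injective _ Sum.inl_injective,
    card_image_of_injective]
  · have h2 : ((univ : Finset (Fin D)).filter
        (fun i : Fin D => (i : ℕ) < D - (Ed N v).card)).card
        = D - (Ed N v).card := by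
      rw [Fin.card_filter_val_lt]
      omega
    rw [h2]
    have := hN v
    omega
  · intro i j hij
    simpa using hij
  · rw [disjoint_left]
    intro x hx hx'
    rw [mem_image] at hx hx'
    obtain ⟨a, _, rfl⟩ := hx
    obtain ⟨i, _, h⟩ := hx'
    simp at h

/-- the same for degrees at most `D` -/
theorem hyper_le (k : ℕ) : ∃ D₀ : ℕ, ∀ D ≥ D₀, ∀ (V A : Type) [Fintype V]
    [Fintype A] (N : A → Finset V), (∀ a, (N a).card ≤ k) → (∀ v, (Ed N v).card ≤ D) →
    ∃ col : V → A → ℕ, (∀ v a, v ∈ N a → col v a < k * D) ∧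
      (∀ v a v' a', v ∈ N a → v' ∈ N a' → (v, a) ≠ (v', a') → v' ∈ N a →
        col v a ≠ col v' a') := by
  rcases Nat.eq_zero_or_pos k with rfl | hk
  · refine ⟨0, fun D _ V A _ _ N hN _ => ⟨fun _ _ => 0, ?_, ?_⟩⟩
    · intro v a hva
      have := card_pos.mpr ⟨v, hva⟩
      have := hN a
      omega
    · intro v a v' a' hva
      have := card_pos.mpr ⟨v, hva⟩
      have := hN a
      omega
  obtain ⟨D₀, hD₀⟩ := hyper k hk
  refine ⟨D₀, fun D hD V A _ _ N hN hdeg => ?_⟩
  obtain ⟨col, h1, h2⟩ := hD₀ D hD V (A ⊕ (V × Fin D)) (hleN D N) (by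
    intro x
    rcases x with a | p
    · exact hN a
    · simp only [hleN]
      split_ifs
      · rw [card_singleton]; exact hk
      · rw [card_empty]; exact Nat.zero_le _) (by
    intro v
    exact hle_card D N hdeg v)
  refine ⟨fun v a => col v (Sum.inl a), fun v a hva => h1 v (Sum.inl a) hva, ?_⟩
  intro v a v' a' hva hva' hne hv'a
  refine h2 v (Sum.inl a) v' (Sum.inl a') hva hva' ?_ hv'a
  intro h
  apply hne
  simpa using h

end Pool.Agent.MP_61eeb2_co.EX
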