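import Pool.Agent.Lib.MP_61eeb2_co.EX.Def
import Pool.Agent.Lib.MP_61eeb2_co.EX.Hle

/-!
MP_61eeb2_co, exact bound k * D, module Gra: from hypergraphs to graphs.
-/

set_option autoImplicit false

namespace Pool.Agent.MP_61eeb2_co.EX

open Finset Classical

private noncomputable def gcol {V : Type} (A : Set V) (col : V → V → ℕ) (x y : V) : ℕ :=
  if x ∈ A ∧ y ∉ A then col y x else if y ∈ A ∧ x ∉ A then col x y else 0

private theorem gcol_comm {V : Type} (A : Set V) (col : V → V → ℕ) (x y : V) :
    gcol A col x y = gcol A col y x := by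
  unfold gcol
  by_cases hx : x ∈ A <;> by_cases hy : y ∈ A <;> simp [hx, hy]

private theorem gcol_left {V : Type} (A : Set V) (col : V → V → ℕ) (x y : V) (hx : x ∈ A)
    (hy : y ∉ A) : gcol A col x y = col y x := by
  unfold gcol
  rw [if_pos ⟨hx, hy⟩]

private theorem gcol_right {V : Type} (A : Set V) (col : V → V → ℕ) (x y : V) (hx : x ∉ A)
    (hy : y ∈ A) : gcol A col x y = col x y := by
  rw [gcol_comm, gcol_left A col y x hy hx]

private theorem graph_core (k D : ℕ)
    (H : ∀ (V A : Type) [Fintype V] [Fintype A] (N : A → Finset V), (∀ a, (N a).card ≤ k) →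
      (∀ v, (Ed N v).card ≤ D) →
      ∃ col : V → A → ℕ, (∀ v a, v ∈ N a → col v a < k * D) ∧
      (∀ v a v' a', v ∈ N a → v' ∈ N a' → (v, a) ≠ (v', a') → v' ∈ N a →
        col v a ≠ col v' a'))
    (V : Type) [Fintype V] (G : SimpleGraph V) (A : Set V)
    (hbip : ∀ u v, G.Adj u v → (u ∈ A ↔ v ∉ A))
    (h1 : ∀ v ∈ A, (G.neighborSet v).ncard ≤ k)
    (h2 : ∀ v, v ∉ A → (G.neighborSet v).ncard ≤ D) :
    ∃ col : Sym2 V → ℕ,
      (∀ a b, G.Adj a b → col s(a, b) < k * D) ∧
      (∀ a b c d, G.Adj a b → G.Adj c d → s(a, b) ≠ s(c, d) →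
        (b = c ∨ G.Adj b c) → col s(a, b) ≠ col s(c, d)) := by
  set N : V → Finset V := fun a => univ.filter (fun v => a ∈ A ∧ G.Adj a v) with hN
  have hmem : ∀ a v, v ∈ N a ↔ a ∈ A ∧ G.Adj a v := by
    intro a v; simp [hN]
  have hnc : ∀ v : V, (G.neighborSet v).ncard = (univ.filter (fun w => G.Adj v w)).card := by
    intro v
    rw [← Set.ncard_coe_finset]
    congr 1
    ext w
    simp
  have hcardN : ∀ a, (N a).card ≤ k := by
    intro a
    by_cases ha : a ∈ A
    · have h3 := h1 a ha
      rw [hnc] at h3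
      refine le_trans (card_le_card ?_) h3
      intro v hv
      exact mem_filter.mpr ⟨mem_univ _, ((hmem a v).mp hv).2⟩
    · have : N a = ∅ := by
        ext v
        rw [hmem]
        simp [ha]
      rw [this, card_empty]
      exact Nat.zero_le _
  have hEd : ∀ v, (Ed N v).card ≤ D := by
    intro v
    by_cases hv : v ∈ A
    · have : Ed N v = ∅ := by
        ext a
        rw [mem_Ed, hmem]
        constructor
        · rintro ⟨ha, hadj⟩
          exact absurd hv ((hbip a v hadj).mp ha)
        · intro h; simp at h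
      rw [this, card_empty]
      exact Nat.zero_le _
    · have h3 := h2 v hv
      rw [hnc] at h3
      refine le_trans (card_le_card ?_) h3
      intro a ha
      rw [mem_Ed, hmem] at ha
      exact mem_filter.mpr ⟨mem_univ _, ha.2.symm⟩
  obtain ⟨col, hc1, hc2⟩ := H V V N hcardN hEd
  refine ⟨Sym2.lift ⟨gcol A col, gcol_comm A col⟩, ?_, ?_⟩
  · intro a b hab
    rw [Sym2.lift_mk]
    by_cases ha : a ∈ A
    · have hb := (hbip a b hab).mp ha
      simp only
      rw [gcol_left A col a b ha hb]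
      exact hc1 b a ((hmem a b).mpr ⟨ha, hab⟩)
    · have hb : b ∈ A := by
        by_contra hb
        exact ha ((hbip a b hab).mpr hb)
      simp only
      rw [gcol_right A col a b ha hb]
      exact hc1 a b ((hmem b a).mpr ⟨hb, hab.symm⟩)
  · intro a b c d hab hcd hne hbc
    rw [Sym2.lift_mk, Sym2.lift_mk]
    simp only
    have hA : ∀ x y, G.Adj x y → x ∉ A → y ∈ A := by
      intro x y hxy hx
      by_contra hy
      exact hx ((hbip x y hxy).mpr hy)
    by_cases ha : a ∈ A
    · have hb := (hbip a b hab).mp ha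
      rw [gcol_left A col a b ha hb]
      have hba : b ∈ N a := (hmem a b).mpr ⟨ha, hab⟩
      by_cases hc : c ∈ A
      · have hd := (hbip c d hcd).mp hc
        rw [gcol_left A col c d hc hd]
        have hdc : d ∈ N c := (hmem c d).mpr ⟨hc, hcd⟩
        -- v = b, alpha = a; v' = d, alpha' = c
        rcases hbc with rfl | hbc
        · exact absurd hc hb
        · have : b ∈ N c := (hmem c b).mpr ⟨hc, hbc.symm⟩
          refine (hc2 d c b a hdc hba ?_ this).symm
          intro h
          rw [Prod.mk.injEq] at h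
          apply hne
          rw [h.1, h.2]
      · have hd := hA c d hcd hc
        rw [gcol_right A col c d hc hd]
        have hcd' : c ∈ N d := (hmem d c).mpr ⟨hd, hcd.symm⟩
        rcases hbc with rfl | hbc
        · refine hc2 b a b d hba hcd' ?_ hba
          intro h
          rw [Prod.mk.injEq] at h
          apply hne
          rw [← h.2, Sym2.eq_swap]
        · exact absurd (hA b c hbc hb) hc
    · have hb := hA a b hab ha
      rw [gcol_right A col a b ha hb]
      have hab' : a ∈ N b := (hmem b a).mpr ⟨hb, hab.symm⟩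
      by_cases hc : c ∈ A
      · have hd := (hbip c d hcd).mp hc
        rw [gcol_left A col c d hc hd]
        have hdc : d ∈ N c := (hmem c d).mpr ⟨hc, hcd⟩
        rcases hbc with rfl | hbc
        · refine hc2 a b d b hab' hdc ?_ hdc
          intro h
          rw [Prod.mk.injEq] at h
          apply hne
          rw [h.1, Sym2.eq_swap]
        · exact absurd hc ((hbip b c hbc).mp hb)
      · have hd := hA c d hcd hc
        rw [gcol_right A col c d hc hd]
        have hcd' : c ∈ N d := (hmem d c).mpr ⟨hd, hcd.symm⟩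
        rcases hbc with rfl | hbc
        · exact absurd hb hc
        · have : c ∈ N b := (hmem b c).mpr ⟨hb, hbc⟩
          refine hc2 a b c d hab' hcd' ?_ this
          intro h
          rw [Prod.mk.injEq] at h
          apply hne
          rw [h.1, h.2]

/-- the theorem for graphs -/
theorem graph_form : ∀ k : ℕ, ∃ D₀ : ℕ,
    ∀ (V : Type) [Fintype V] (G : SimpleGraph V) (A : Set V) (Δ₁ Δ₂ : ℕ),
    (∀ u v, G.Adj u v → (u ∈ A ↔ v ∉ A)) →
    (∀ v ∈ A, (G.neighborSet v).ncard ≤ Δ₁) →
    (∀ v, v ∉ A → (G.neighborSet v).ncard ≤ Δ₂) →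
    min Δ₁ Δ₂ ≤ k → D₀ ≤ max Δ₁ Δ₂ →
    ∃ col : Sym2 V → ℕ,
      (∀ a b, G.Adj a b → col s(a, b) < Δ₁ * Δ₂) ∧
      (∀ a b c d, G.Adj a b → G.Adj c d → s(a, b) ≠ s(c, d) →
        (b = c ∨ G.Adj b c) → col s(a, b) ≠ col s(c, d)) := by
  intro k
  choose D0 hD0 using hyper_le
  refine ⟨∑ i ∈ range (k + 1), D0 i, ?_⟩
  have hle : ∀ i, i ≤ k → D0 i ≤ ∑ i ∈ range (k + 1), D0 i := by
    intro i hi
    exact single_le_sum (f := D0) (fun _ _ => Nat.zero_le _) (mem_range.mpr (by omega))
  intro V _ G A Δ₁ Δ₂ hbip h1 h2 hmin hmax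
  rcases le_total Δ₁ Δ₂ with h | h
  · rw [min_eq_left h] at hmin
    rw [max_eq_right h] at hmax
    exact graph_core Δ₁ Δ₂ (fun V A _ _ N hN hE => hD0 Δ₁ Δ₂ (le_trans (hle Δ₁ hmin) hmax)
      V A N hN hE) V G A hbip h1 h2
  · rw [min_eq_right h] at hmin
    rw [max_eq_left h] at hmax
    obtain ⟨col, c1, c2⟩ := graph_core Δ₂ Δ₁ (fun V A _ _ N hN hE => hD0 Δ₂ Δ₁
      (le_trans (hle Δ₂ hmin) hmax) V A N hN hE) V G Aᶜ (by
        intro u v huv
        rw [Set.mem_compl_iff, Set.mem_compl_iff]
        have := hbip u v huv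
        tauto) (fun v hv => h2 v hv) (by
        intro v hv
        rw [Set.mem_compl_iff, not_not] at hv
        exact h1 v hv)
    refine ⟨col, ?_, c2⟩
    intro a b hab
    rw [mul_comm]
    exact c1 a b hab

end Pool.Agent.MP_61eeb2_co.EX
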